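import Pool.Agent.Lib.MP_13404a_ag.UB.Nrm

/-!
Double covers.
-/

open Module Submodule Function Finsupp
open scoped IntermediateField Polynomial

namespace Pool.Agent.Lib.MP_13404a_ag.UB

open Pool.Agent.Lib.MP_15f242_ag

universe u

variable {k K : Type u} [Field k] [CharZero k] [Field K] [Algebra k K] [FF k K]
  {E : Type u} [Field E] [Algebra k E] [Algebra E K] [IsScalarTower k E K] [FF k E]
  {ι : Type} [Fintype ι] {δ : Derivation ℤ k k} {d : Derivation k K K} {v : Derivation ℤ K K}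
  {c : K} {A F : (ι → k) →ₗ[k] K} {κ D : Div k K}
  {d' : Derivation k E E} {v' : Derivation ℤ E E}

lemma two_mul_dbl {E K : Type*} [Field E] [Field K] [Algebra E K] [FiniteDimensional E K]
    (h2 : finrank E K = 2) {a b : K} (ha : Algebra.trace E K a = 0)
    (hb : Algebra.trace E K b = 0) : 2 * (a * b) = algebraMap E K (Algebra.trace E K (a * b)) := by
  let B := Module.finBasisOfFinrankEq E K h2
  rw [Algebra.trace_eq_matrix_trace B] at ha hb ⊢
  refine Algebra.leftMulMatrix_injective B ?_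
  rw [two_mul, AlgHom.commutes, map_add, map_mul]
  nth_rw 2 [← map_mul]
  rw [mul_comm a b, map_mul]
  generalize Algebra.leftMulMatrix B a = M at ha ⊢
  generalize Algebra.leftMulMatrix B b = N at hb ⊢
  rw [Matrix.trace_fin_two] at ha hb ⊢
  ext i j
  fin_cases i <;> fin_cases j <;>
    simp [Matrix.mul_apply, Fin.sum_univ_two, Matrix.algebraMap_matrix_apply]
  · linear_combination M 0 0 * hb - N 1 1 * ha
  · linear_combination M 0 1 * hb + N 0 1 * ha
  · linear_combination M 1 0 * hb + N 1 0 * ha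
  · linear_combination M 1 1 * hb - N 0 0 * ha

/-- On `W = tz E A` put `G a = F a - trace (F a) / 2`. The product of two elements of trace zero
lies in `E`, so `A a * G b - A b * G a` is the image of a regular form on `E` (`wedge_mem`,
`IsK.map_mem_iff`). If `finrank W > 2 γ`, for nonzero `a₀, a₁ ∈ W` the kernels of the wedge with
`a₀` and with `a₁` meet, so `G a / A a = ρ` does not depend on `a`; `Sys.cdf` for `shift (-ρ)`. -/
theorem Nrm.double_tz (H : Nrm δ d v A F d' v') (h2 : finrank E K = 2) :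
    finrank k (tz E A) ≤ 2 * gn k E ∨ 2 * finrank k (tz E A) ≤ gn k K + 1 := by
  have := fd_nrm k E K
  have : CharZero K := charZero_of_injective_algebraMap (algebraMap k K).injective
  obtain ⟨κ, h1⟩ := exists_isK H.sys.d0
  obtain ⟨κ', h1'⟩ := exists_isK H.d0
  choose! e he using fun a (ha : a ∈ tz E A) => H.tr_F ha
  let G : (ι → k) →ₗ[k] K := F - (2⁻¹ : k) • (IsScalarTower.toAlgHom k E K).toLinearMap ∘ₗ
    (Algebra.trace E K).restrictScalars k ∘ₗ F
  have hG : ∀ a ∈ tz E A, G a = F a - (2⁻¹ * e a) • (1 : K) := fun a ha => by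
    simp [G, he a ha, ← IsScalarTower.algebraMap_apply, Algebra.smul_def]
  have hG0 : ∀ a ∈ tz E A, Algebra.trace E K (G a) = 0 := fun a ha => by
    rw [hG a ha, map_sub, he a ha, ← Algebra.algebraMap_eq_smul_one,
      IsScalarTower.algebraMap_apply k E K, Algebra.trace_algebraMap, h2, ← map_nsmul, ← map_sub]
    simp
  let φ : (ι → k) → (ι → k) →ₗ[k] E := fun a =>
    (Algebra.trace E K).restrictScalars k ∘ₗ (A a • G - G a • A)
  have hφ : ∀ a b, φ a b = Algebra.trace E K (A a * G b - G a * A b) := fun _ _ => rfl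
  have h3 : ∀ a ∈ tz E A, ∀ b ∈ tz E A, φ a b ∈ H0 (OD κ') := fun a ha b hb => by
    refine h1.trace_mem h1' H.cd ?_
    have := add_mem (H.sys.wedge_mem h1 a b) (sub_mem (smul_mem _ (2⁻¹ * e a) (H.sys.mem_K h1 b))
      (smul_mem _ (2⁻¹ * e b) (H.sys.mem_K h1 a)))
    convert this using 1
    change A a * G b - G a * A b = _
    rw [hG a ha, hG b hb]
    simp only [Algebra.smul_def]
    ring
  have h4 : ∀ a ∈ tz E A, ∀ b ∈ tz E A, φ a b = 0 → A a * G b = G a * A b := fun a ha b hb h => by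
    rw [hφ, map_sub, sub_eq_zero] at h
    refine mul_left_cancel₀ two_ne_zero ?_
    rw [two_mul_dbl h2 (mem_tz.1 ha) (hG0 b hb), two_mul_dbl h2 (hG0 a ha) (mem_tz.1 hb), h]
  refine or_iff_not_imp_left.2 fun h => ?_
  have h5 : ∀ a ∈ tz E A, ∀ a' ∈ tz E A, A a * G a' = G a * A a' := fun a ha a' ha' => by
    have i1 := finrank_le_nrm (φ a) (tz E A) _ (h3 a ha)
    have i2 := finrank_le_nrm (φ a') (tz E A ⊓ LinearMap.ker (φ a)) _ fun b hb => h3 a' ha' b hb.1
    have i3 := h1'.ll_eq
    rw [ll] at i3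
    obtain ⟨⟨b, ⟨hb, b1⟩, b2⟩, b0⟩ := finrank_pos_iff_exists_ne_zero.1 (show 0 < finrank k
      ((tz E A ⊓ LinearMap.ker (φ a)) ⊓ LinearMap.ker (φ a') : Submodule k (ι → k)) by omega)
    have b3 : A b ≠ 0 := fun e => b0 (Subtype.ext (H.sys.inj (e.trans (map_zero A).symm)))
    refine mul_right_cancel₀ b3 ?_
    linear_combination A a' * h4 a ha b hb b1 - A a * h4 a' ha' b hb b2
  obtain ⟨⟨a, ha⟩, a0⟩ := finrank_pos_iff_exists_ne_zero.1
    (show 0 < finrank k (tz E A) by omega)
  have a1 : A a ≠ 0 := fun e => a0 (Subtype.ext (H.sys.inj (e.trans (map_zero A).symm)))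
  refine (H.sys.shift (-(G a / A a))).cdf H.stab fun b hb => ?_
  have h6 : (F + (-(G a / A a)) • A) b = (2⁻¹ * e b) • (1 : K) := by
    have := h5 a ha b hb
    rw [hG b hb] at this
    rw [LinearMap.add_apply, LinearMap.smul_apply, smul_eq_mul (-_)]
    generalize (2⁻¹ * e b) • (1 : K) = z at this ⊢
    field_simp
    linear_combination this
  rw [h6, Derivation.map_smul, Derivation.map_one_eq_zero, smul_zero]

theorem Sys.double (S : Sys δ d v c A F) (h2 : finrank E K = 2) :
    Fintype.card ι ≤ 3 * gn k E ∨ 2 * Fintype.card ι ≤ 2 * gn k E + gn k K + 1 := by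
  obtain ⟨s, β, d', v', -, H⟩ := S.exists_nrm E
  have h3 := H.finrank_le ⊤
  have h4 := H.double_tz h2
  rw [top_inf_eq, finrank_top, Module.finrank_fintype_fun_eq_card] at h3
  omega

/-- In adapted coordinates: if the trace of the generator of the line vanishes then `U ≤ tz`, else
`U ⊓ tz = ⊥`. -/
theorem Sys.double_line (S : Sys δ d v c A F) (h2 : finrank E K = 2) {U : Submodule k (ι → k)}
    (hU : Line E (U.map A)) : finrank k U ≤ 2 * gn k E ∨ 2 * finrank k U ≤ gn k K + 1 := by
  obtain ⟨s, β, d', v', -, H⟩ := S.exists_nrm E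
  obtain ⟨t, ht⟩ := hU
  have h3 : ∀ a ∈ U, ∃ y : E, (s • A) a = y • (s * t) := fun a ha => by
    obtain ⟨y, hy⟩ := ht _ (mem_map_of_mem ha)
    exact ⟨y, by rw [LinearMap.smul_apply, hy, Algebra.smul_def y, smul_eq_mul, mul_left_comm]⟩
  by_cases h : Algebra.trace E K (s * t) = 0
  · have h4 : U ≤ tz E (s • A) := fun a ha => by
      obtain ⟨y, hy⟩ := h3 a ha
      rw [mem_tz, hy, map_smul, h, smul_zero]
    have h5 := finrank_mono h4
    have h6 := H.double_tz h2
    omega
  · have h4 : U ⊓ tz E (s • A) = ⊥ := eq_bot_iff.2 fun a ha => by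
      obtain ⟨y, hy⟩ := h3 a ha.1
      have h5 := mem_tz.1 ha.2
      rw [hy, map_smul, smul_eq_mul, mul_eq_zero, or_iff_left h] at h5
      rw [h5, zero_smul] at hy
      exact H.sys.inj (hy.trans (map_zero _).symm)
    have h5 := H.finrank_le U
    rw [h4, finrank_bot] at h5
    omega

end Pool.Agent.Lib.MP_13404a_ag.UB
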