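import Pool.Agent.Lib.MP_13404a_ag.UB.Clf

/-!
The pencil trick.
-/

open Module Submodule Function Finsupp
open scoped IntermediateField Polynomial

namespace Pool.Agent.Lib.MP_13404a_ag.UB

open Pool.Agent.Lib.MP_15f242_ag

universe u

variable {k K : Type u} [Field k] [CharZero k] [Field K] [Algebra k K] [FF k K]

omit [CharZero k] in
lemma pol_apply_bet (y : K) (P : Pt k K) : pol k y P = max (po P y) 0 := rfl

omit [CharZero k] in
/-- At a pole of `y` divide `y * f` by `y`; elsewhere `pol k y` vanishes. -/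
lemma mem_sub_pol {y f : K} {H : Div k K} (h1 : y * f ∈ H0 (OD H))
    (h2 : ∀ P : Pt k K, y ∈ P.1 → f ∈ fil P (H P)) : f ∈ H0 (OD (H - pol k y)) := by
  refine mem_L.2 fun P => ?_
  rw [Finsupp.sub_apply, pol_apply_bet]
  by_cases hP : y ∈ P.1
  · rw [max_eq_right (mem_iff_po.1 hP), sub_zero]
    exact h2 P hP
  · have h0 : y ≠ 0 := fun e => hP (e ▸ zero_mem _)
    have h3 : 0 ≤ po P y := (not_le.1 (mt mem_iff_po.2 hP)).le
    rw [max_eq_left h3, ← mul_mem_fil_iff h0, sub_add_cancel]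
    exact mem_L.1 h1 P

omit [CharZero k] [FF k K] in
lemma finrank_map_bet {y : K} (hy : y ≠ 0) (A : Submodule k K) :
    finrank k (A.map (LinearMap.mulLeft k y)) = finrank k A :=
  (Submodule.equivMapOfInjective _ (mul_right_injective₀ hy) A).finrank_eq.symm

omit [CharZero k] in
/-- `L H ⊔ y L H ≤ L (H + pol y)` and `L H ⊓ y L H ≤ y L (H - pol y)`. -/
lemma pencil {y : K} (hy : y ≠ 0) (H : Div k K) :
    2 * ll H ≤ ll (H + pol k y) + ll (H - pol k y) := by
  have h1 := Submodule.finrank_sup_add_finrank_inf_eq (H0 (OD H))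
    ((H0 (OD H)).map (LinearMap.mulLeft k y))
  have h2 : H0 (OD H) ⊔ (H0 (OD H)).map (LinearMap.mulLeft k y) ≤ H0 (OD (H + pol k y)) := by
    refine sup_le (L_mono (le_add_of_nonneg_right le_sup_right)) ?_
    rintro _ ⟨f, hf, rfl⟩
    refine mem_L.2 fun P => ?_
    rw [Finsupp.add_apply, pol_apply_bet, add_comm]
    exact mul_mem_fil (mem_fil_of (le_max_left _ _)) (mem_L.1 hf P)
  have h3 : H0 (OD H) ⊓ (H0 (OD H)).map (LinearMap.mulLeft k y) ≤
      (H0 (OD (H - pol k y))).map (LinearMap.mulLeft k y) := by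
    rintro _ ⟨hg, f, hf, rfl⟩
    exact ⟨f, mem_sub_pol hg fun P _ => mem_L.1 hf P, rfl⟩
  have h4 := finrank_mono h2
  have h5 := finrank_mono h3
  rw [finrank_map_bet hy] at h1 h5
  unfold ll
  omega

omit [CharZero k] [FF k K] in
lemma indep_bet {y : K} (h0 : y ≠ 0) (S : Submodule k K) (hS : ∀ z ∈ S, y * z ∈ S)
    {ι : Type*} [Fintype ι] (z : ι → K) (hz : ∀ i, z i ∈ S)
    (h : ∀ c : ι → k, ∀ s ∈ S, ∑ i, c i • z i = y * s → ∀ i, c i = 0) (n : ℕ) :
    ∀ p : ι → k[X], ∑ i, Polynomial.aeval y (p i) * z i = 0 → ∀ i, (p i).coeff n = 0 := by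
  have h2 : ∀ p : ι → k[X], ∑ i, Polynomial.aeval y (p i) * z i =
      y * ∑ i, Polynomial.aeval y (p i).divX * z i + ∑ i, (p i).coeff 0 • z i := fun p => by
    rw [Finset.mul_sum, ← Finset.sum_add_distrib]
    refine Finset.sum_congr rfl fun i _ => ?_
    conv_lhs => rw [← Polynomial.X_mul_divX_add (p i)]
    simp only [map_add, map_mul, Polynomial.aeval_X, Polynomial.aeval_C, Algebra.smul_def]
    ring
  have h3 : ∀ p : ι → k[X], ∑ i, Polynomial.aeval y (p i) * z i = 0 → ∀ i, (p i).coeff 0 = 0 :=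
    fun p hp => h _ _ (S.neg_mem (S.sum_mem fun i _ => aeval_mul_mem hS (p i).divX (hz i)))
      (by rw [h2] at hp; linear_combination hp)
  induction n with
  | zero => exact h3
  | succ n ih =>
    intro p hp i
    rw [← Polynomial.coeff_divX]
    refine ih (fun i => (p i).divX) ?_ i
    have h4 := h2 p
    simpa [hp, h3 p hp, h0] using h4.symm

omit [CharZero k] in
lemma compl_bet {V : Type*} [AddCommGroup V] [Module k V] (A B : Submodule k V)
    [FiniteDimensional k A] [FiniteDimensional k B] : ∃ (β : ℕ) (b : Fin β → V),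
    finrank k A ≤ finrank k B + β ∧ (∀ s, b s ∈ A) ∧
      ∀ c : Fin β → k, ∑ s, c s • b s ∈ B → ∀ s, c s = 0 := by
  obtain ⟨U, hU⟩ := (B.comap A.subtype).exists_isCompl
  let b := finBasis k U
  refine ⟨finrank k U, fun s => ((b s : A) : V), ?_, fun s => (b s : A).2, fun c hc => ?_⟩
  · have h1 := Submodule.finrank_add_eq_of_isCompl hU
    have h2 : finrank k (B.comap A.subtype) ≤ finrank k B := by
      rw [← Submodule.finrank_map_subtype_eq]
      exact finrank_mono (Submodule.map_comap_le _ _)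
    omega
  · have h2 : ((∑ i, c i • b i : U) : A) ∈ B.comap A.subtype := by
      simpa using hc
    have h3 := Submodule.disjoint_def.1 hU.disjoint _ h2 (Subtype.prop _)
    exact Fintype.linearIndependent_iff.1 b.linearIndependent c (Subtype.ext h3)

omit [CharZero k] in
/-- Take a basis `b` of a complement in `L H` of `L H ⊓ y L (H - pol y)`. If
`∑ q s (y) * b s = 0` write `q s = C (a s) + X * q' s`: then `∑ a s • b s = y * f` with
`f = -∑ q' s (y) * b s`, `mem_sub_pol` gives `a = 0`, and `∑ q' s (y) * b s = 0`; induction on the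
degree. -/
lemma exists_beta {y : K} (hy : y ≠ 0) (H : Div k K) : ∃ (β : ℕ) (b : Fin β → K),
    ll H ≤ ll (H - pol k y) + β ∧ (∀ s, b s ∈ H0 (OD H)) ∧
      ∀ q : Fin β → k[X], ∑ s, Polynomial.aeval y (q s) * b s = 0 → q = 0 := by
  obtain ⟨β, b, h1, h2, h3⟩ := compl_bet (H0 (OD H))
    ((H0 (OD (H - pol k y))).map (LinearMap.mulLeft k y))
  rw [finrank_map_bet hy] at h1
  refine ⟨β, b, h1, h2, fun q hq => ?_⟩
  obtain ⟨S, hS⟩ : ∃ S : Submodule k K, ∀ z, z ∈ S ↔ ∀ P : Pt k K, y ∈ P.1 → z ∈ fil P (H P) :=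
    ⟨⨅ P : Pt k K, ⨅ _ : y ∈ P.1, filk P (H P), fun z => by
      simp only [Submodule.mem_iInf, Submodule.restrictScalars_mem]⟩
  refine funext fun s => Polynomial.ext fun n => indep_bet hy S
    (fun z hz => (hS _).2 fun P hP => (fil P (H P)).smul_mem ⟨y, hP⟩ ((hS _).1 hz P hP))
    b (fun s => (hS _).2 fun P _ => mem_L.1 (h2 s) P) (fun c f hf e => h3 c ?_) n q hq s
  refine ⟨f, mem_sub_pol ?_ ((hS f).1 hf), e.symm⟩
  rw [← e]
  exact sum_mem fun i _ => smul_mem _ _ (h2 i)

end Pool.Agent.Lib.MP_13404a_ag.UB
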