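import Pool.Agent.Lib.MP_13404a_ag.UB.CaB

/-!
Conditions imposed by the generic hyperplane section on a product of spaces.
-/

open Module Submodule Function Finsupp
open scoped IntermediateField Polynomial

namespace Pool.Agent.Lib.MP_13404a_ag.UB

open Pool.Agent.Lib.MP_15f242_ag

universe u

/-- As `cast_count`, in the module `I → MvPolynomial (Option (Fin r)) E` over
`MvPolynomial (Option (Fin r)) k`: choose `c s ∈ W` whose evaluation vectors are a basis of the span
and a basis `b` of `V`; the elements `C ∘ c s`, `h • C ∘ b i` are independent and lie in the span of a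
basis of `W`. -/
theorem cast_count' {k E Ω : Type u} [Field k] [Field E] [Algebra k E] [Field Ω] [Algebra k Ω]
    {I : Type} [Fintype I] {r N : ℕ} {φ : Fin r → E} {t : Option (Fin r) → Ω}
    (ht : AlgebraicIndependent k t) {σ : Fin N → E →ₐ[k] Ω}
    (hσ : ∀ l, ∑ i, t (some i) * σ l (φ i) = t none) (V W : Submodule k (I → E))
    [FiniteDimensional k V] [FiniteDimensional k W]
    (h : ∀ o : Option (Fin r), ∀ x ∈ V, (o.elim 1 φ : E) • x ∈ W) :
    finrank k V + finrank Ω (span Ω ((fun (x : I → E) (p : Fin N × I) => σ p.1 (x p.2)) '' W)) ≤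
      finrank k W := by
  classical
  obtain ⟨J, c, -, h1, h2⟩ := exists_linearIndependent' Ω
    fun (x : W) (p : Fin N × I) => σ p.1 (x.1 p.2)
  have := h2.finite
  have := Fintype.ofFinite J
  have h3 : finrank Ω (span Ω ((fun (x : I → E) (p : Fin N × I) => σ p.1 (x p.2)) '' W)) =
      Fintype.card J := by
    rw [← finrank_span_eq_card h2, h1, Set.image_eq_range]
    rfl
  let b := finBasis k V
  let b' := finBasis k W
  let := MvPolynomial.algebraMvPolynomial (σ := Option (Fin r)) (R := k) (S := E)
  let H : MvPolynomial (Option (Fin r)) E :=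
    MvPolynomial.X none - ∑ i, MvPolynomial.X (.some i) * MvPolynomial.C (φ i)
  have sm : ∀ (p : MvPolynomial (Option (Fin r)) k) (z : MvPolynomial (Option (Fin r)) E),
      p • z = MvPolynomial.map (algebraMap k E) p * z := fun _ _ => rfl
  have h4 : ∀ z ∈ W, (fun j => MvPolynomial.C (z j)) ∈ span (MvPolynomial (Option (Fin r)) k)
      (Set.range fun i j => (MvPolynomial.C ((b' i).1 j) : MvPolynomial (Option (Fin r)) E)) := by
    intro z hz
    have e : (fun j => (MvPolynomial.C (z j) : MvPolynomial (Option (Fin r)) E)) =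
        ∑ i, (MvPolynomial.C (b'.repr ⟨z, hz⟩ i) : MvPolynomial (Option (Fin r)) k) •
          fun j => (MvPolynomial.C ((b' i).1 j) : MvPolynomial (Option (Fin r)) E) := by
      funext j
      have e1 := congrArg (fun x => (MvPolynomial.C (x.1 j) : MvPolynomial (Option (Fin r)) E))
        (b'.sum_repr ⟨z, hz⟩)
      simp only [Submodule.coe_sum, Finset.sum_apply, map_sum, Submodule.coe_smul,
        Pi.smul_apply] at e1
      rw [← e1, Finset.sum_apply]
      refine Finset.sum_congr rfl fun i _ => ?_
      rw [Pi.smul_apply, sm, MvPolynomial.map_C, Algebra.smul_def, map_mul]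
    rw [e]
    exact sum_mem fun i _ => smul_mem _ _ (subset_span (Set.mem_range_self i))
  have h5 : LinearIndependent (MvPolynomial (Option (Fin r)) k)
      (Sum.elim (fun i j => H * MvPolynomial.C ((b i).1 j))
        fun s j => MvPolynomial.C ((c s).1 j)) := by
    rw [Fintype.linearIndependent_iff]
    intro g hg
    rw [Fintype.sum_sum_type] at hg
    have hg' : ∀ j, ∑ i, MvPolynomial.map (algebraMap k E) (g (.inl i)) *
        (H * MvPolynomial.C ((b i).1 j)) +
        ∑ s, MvPolynomial.map (algebraMap k E) (g (.inr s)) * MvPolynomial.C ((c s).1 j) = 0 := by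
      intro j
      have := congrFun hg j
      simpa only [Pi.add_apply, Finset.sum_apply, Pi.smul_apply, Sum.elim_inl, Sum.elim_inr, sm,
        Pi.zero_apply] using this
    have h5 : ∀ s, g (.inr s) = 0 := fun s => by
      refine ht.eq_zero_of_aeval_eq_zero _ (Fintype.linearIndependent_iff.1 h2
        (fun s => MvPolynomial.aeval t (g (.inr s))) (funext fun q => ?_) s)
      have := congrArg (MvPolynomial.eval₂Hom (σ q.1).toRingHom t) (hg' q.2)
      simpa [H, hσ, MvPolynomial.eval₂_map, MvPolynomial.aeval_def,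
        ← MvPolynomial.coe_eval₂Hom] using this
    have h6 : H ≠ 0 := fun e => by
      simpa [H] using congrArg (MvPolynomial.eval fun o => o.elim 1 fun _ => 0) e
    have h7 : ∀ j, ∑ i, MvPolynomial.map (algebraMap k E) (g (.inl i)) *
        MvPolynomial.C ((b i).1 j) = 0 := fun j =>
      mul_left_cancel₀ h6 (by simpa [h5, Finset.mul_sum, mul_left_comm] using hg' j)
    rintro (i | s)
    · ext m
      refine Fintype.linearIndependent_iff.1 b.linearIndependent
        (fun i => (g (.inl i)).coeff m) (Subtype.ext (funext fun j => ?_)) i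
      have := congrArg (MvPolynomial.coeff m) (h7 j)
      simp only [mul_comm (MvPolynomial.map _ _), MvPolynomial.coeff_sum, MvPolynomial.coeff_C_mul,
        MvPolynomial.coeff_map, MvPolynomial.coeff_zero] at this
      simpa [Algebra.smul_def, mul_comm] using this
    · exact h5 s
  have h6 := (linearIndependent_le_span_aux' _ h5
    (Set.range fun i j => (MvPolynomial.C ((b' i).1 j) : MvPolynomial (Option (Fin r)) E)) (by
    rintro _ ⟨i | s, rfl⟩
    · refine SetLike.mem_coe.2 ?_
      convert sub_mem (smul_mem _ (MvPolynomial.X none) (h4 _ (h none _ (b i).2)))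
        (sum_mem (t := Finset.univ) fun o _ =>
          smul_mem _ (MvPolynomial.X (.some o)) (h4 _ (h (.some o) _ (b i).2))) using 1
      funext j
      simp [sm, H, sub_mul, Finset.sum_mul, mul_assoc]
    · exact h4 _ (c s).2)).trans (Fintype.card_range_le _)
  simpa [h3] using h6

/-- The vectors that vanish on `T × I`. -/
def zer_cod (Ω : Type u) [Field Ω] (I : Type) {N : ℕ} (T : Finset (Fin N)) :
    Submodule Ω (Fin N × I → Ω) where
  carrier := {x | ∀ l ∈ T, ∀ i, x (l, i) = 0}
  add_mem' := fun {x y} hx hy l hl i => by rw [Pi.add_apply, hx l hl i, hy l hl i, add_zero]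
  zero_mem' := fun _ _ _ => rfl
  smul_mem' := fun a x hx l hl i => by rw [Pi.smul_apply, hx l hl i, smul_zero]

/-- The projection to `{l} × I`. -/
def prj_cod (Ω : Type u) [Field Ω] (I : Type) {N : ℕ} (l : Fin N) :
    (Fin N × I → Ω) →ₗ[Ω] I → Ω :=
  LinearMap.funLeft Ω Ω fun i => (l, i)

lemma step_cod {Ω : Type u} [Field Ω] {I : Type} [Fintype I] {N : ℕ}
    (G : Submodule Ω (Fin N × I → Ω)) (T : Finset (Fin N)) (l : Fin N) :
    finrank Ω ((G ⊓ zer_cod Ω I T).map (prj_cod Ω I l)) +
      finrank Ω (G ⊓ zer_cod Ω I (insert l T) : Submodule Ω _) =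
      finrank Ω (G ⊓ zer_cod Ω I T : Submodule Ω _) := by
  have h1 := LinearMap.finrank_range_add_finrank_ker
    ((prj_cod Ω I l).domRestrict (G ⊓ zer_cod Ω I T))
  rw [LinearMap.range_domRestrict, LinearMap.ker_domRestrict,
    ← finrank_map_subtype_eq (G ⊓ zer_cod Ω I T) (comap _ _), map_comap_subtype] at h1
  have e : G ⊓ zer_cod Ω I (insert l T) = G ⊓ zer_cod Ω I T ⊓ (prj_cod Ω I l).ker := by
    ext x
    constructor
    · rintro ⟨h2, h3⟩
      exact ⟨⟨h2, fun m hm => h3 m (Finset.mem_insert_of_mem hm)⟩,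
        funext fun i => h3 l (Finset.mem_insert_self _ _) i⟩
    · rintro ⟨⟨h2, h3⟩, h4⟩
      refine ⟨h2, fun m hm i => ?_⟩
      rcases Finset.mem_insert.1 hm with rfl | hm
      · exact congrFun h4 i
      · exact h3 m hm i
  rw [e, h1]

lemma empty_cod {Ω : Type u} [Field Ω] {I : Type} {N : ℕ} (G : Submodule Ω (Fin N × I → Ω)) :
    G ⊓ zer_cod Ω I ∅ = G :=
  inf_eq_left.2 fun _ _ _ hl => absurd hl (Finset.notMem_empty _)

lemma greedy_cod {Ω : Type u} [Field Ω] {I : Type} [Fintype I] {N β : ℕ}
    (D : Submodule Ω (Fin N × I → Ω)) (hβ : β ≤ finrank Ω D) (n : ℕ) :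
    ∃ T : Finset (Fin N), T.card ≤ n ∧
      finrank Ω (D ⊓ zer_cod Ω I T : Submodule Ω _) + min n β ≤ finrank Ω D := by
  induction n with
  | zero => exact ⟨∅, le_rfl, by rw [empty_cod]; omega⟩
  | succ n ih =>
    obtain ⟨T, h1, h2⟩ := ih
    by_cases h : D ⊓ zer_cod Ω I T = ⊥
    · refine ⟨T, by omega, ?_⟩
      rw [h, finrank_bot]
      omega
    · obtain ⟨x, hx, hx0⟩ := Submodule.exists_mem_ne_zero_of_ne_bot h
      obtain ⟨⟨l, i⟩, hq⟩ := Function.ne_iff.1 hx0
      refine ⟨insert l T, (Finset.card_insert_le _ _).trans (by omega), ?_⟩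
      have h3 : D ⊓ zer_cod Ω I (insert l T) < D ⊓ zer_cod Ω I T := by
        refine lt_of_le_of_ne (inf_le_inf_left _ fun y hy m hm =>
          hy m (Finset.mem_insert_of_mem hm)) fun e => hq ?_
        exact (e ▸ hx : x ∈ D ⊓ zer_cod Ω I (insert l T)).2 l (Finset.mem_insert_self _ _) i
      have h4 := finrank_lt_finrank_of_lt h3
      omega

/-- For a set `T` of indices let `Z T` be the space of vectors that vanish on `T × I`. Adding `l` to `T`
lowers the dimension of `G ⊓ Z T` by the rank of its projection to `{l} × I`. Greedily there is `T`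
with at most `N + 1 - r` elements and `finrank (D ⊓ Z T) + min (N + 1 - r) β ≤ finrank D`. Take `J`
disjoint from `T` with `r - 1` elements. For `J' ⊆ J`, `l ∉ J'` a functional `Λ` (`exists_dual_cab`)
vanishes at `p m`, `m ∈ J'`, and is `1` at `p l`, and `q ↦ Λ (p q.1) * x q` lies in `G` for `x ∈ D`.
Hence `finrank (G ⊓ Z J) + (r - 1) * u ≤ finrank G` by induction on subsets of `J`, and
`finrank D + finrank (G ⊓ Z (J ∪ T')) ≤ finrank (G ⊓ Z J) + finrank (D ⊓ Z T')` by induction on
`T' ⊆ T`. -/
theorem code_bound {Ω : Type u} [Field Ω] {O I : Type} [Fintype O] [Fintype I] {N r u β : ℕ}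
    (p : Fin N → O → Ω)
    (hgp : ∀ S : Finset (Fin N), S.card ≤ r → LinearIndependent Ω fun l : S => p l)
    (r1 : 1 ≤ r) (rN : r ≤ N) (D G : Submodule Ω (Fin N × I → Ω)) (hβ : β ≤ finrank Ω D)
    (hu : ∀ l, ∃ w : Fin u → Fin N × I → Ω, (∀ s, w s ∈ D) ∧
      LinearIndependent Ω fun s i => w s (l, i))
    (hG : ∀ o, ∀ x ∈ D, (fun q : Fin N × I => p q.1 o * x q) ∈ G) :
    min (N + 1 - r) β + (r - 1) * u ≤ finrank Ω G := by
  classical
  obtain ⟨T, hT, h1⟩ := greedy_cod D hβ (N + 1 - r)
  obtain ⟨J, hJ, h2⟩ := Finset.exists_subset_card_eq (s := Tᶜ) (n := r - 1) (by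
    rw [Finset.card_compl, Fintype.card_fin]
    omega)
  have key : ∀ (J' : Finset (Fin N)) (l : Fin N) (T' : Finset (Fin N)), J'.card ≤ r - 1 → l ∉ J' →
      finrank Ω ((D ⊓ zer_cod Ω I T').map (prj_cod Ω I l)) ≤
        finrank Ω ((G ⊓ zer_cod Ω I (J' ∪ T')).map (prj_cod Ω I l)) := by
    intro J' l T' hc hl
    refine finrank_mono ?_
    rintro _ ⟨x, ⟨hx, hx0⟩, rfl⟩
    obtain ⟨Λ, h3, h4⟩ := exists_dual_cab (v := p) (T := insert l J')
      (hgp _ ((Finset.card_insert_le _ _).trans (by omega))) (Finset.mem_insert_self _ _)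
    refine ⟨fun q => Λ (p q.1) * x q, ⟨?_, fun m hm i => ?_⟩, funext fun i => ?_⟩
    · have e : (fun q : Fin N × I => Λ (p q.1) * x q) =
          ∑ o, Λ (fun j => if o = j then 1 else 0) • fun q : Fin N × I => p q.1 o * x q := by
        funext q
        rw [LinearMap.pi_apply_eq_sum_univ, Finset.sum_apply, Finset.sum_mul]
        refine Finset.sum_congr rfl fun o _ => ?_
        simp only [smul_eq_mul, Pi.smul_apply]
        ring
      rw [SetLike.mem_coe, e]
      exact sum_mem fun o _ => smul_mem _ _ (hG o x hx)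
    · rcases Finset.mem_union.1 hm with hm | hm
      · exact mul_eq_zero_of_left (h4 m (Finset.mem_insert_of_mem hm) fun e => hl (e ▸ hm)) _
      · exact mul_eq_zero_of_right _ (hx0 m hm i)
    · change Λ (p l) * x (l, i) = x (l, i)
      rw [h3, one_mul]
  have ha : ∀ J' : Finset (Fin N), J'.card ≤ r - 1 →
      finrank Ω (G ⊓ zer_cod Ω I J' : Submodule Ω _) + J'.card * u ≤ finrank Ω G := by
    intro J'
    induction J' using Finset.induction_on with
    | empty =>
      intro _
      rw [empty_cod, Finset.card_empty, zero_mul, add_zero]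
    | insert l J' hl ih =>
      intro hc
      rw [Finset.card_insert_of_notMem hl] at hc ⊢
      have h3 := ih (by omega)
      have h4 := key J' l ∅ (by omega) hl
      rw [Finset.union_empty, empty_cod] at h4
      have h5 := step_cod G J' l
      obtain ⟨w, hw, hw'⟩ := hu l
      have h6 : u ≤ finrank Ω (D.map (prj_cod Ω I l)) := by
        have h7 := finrank_span_eq_card hw'
        rw [Fintype.card_fin] at h7
        rw [← h7]
        refine finrank_mono (span_le.2 ?_)
        rintro _ ⟨s, rfl⟩
        exact ⟨w s, hw s, rfl⟩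
      rw [add_mul, one_mul]
      omega
  have hb : ∀ T' : Finset (Fin N), T' ⊆ T →
      finrank Ω D + finrank Ω (G ⊓ zer_cod Ω I (J ∪ T') : Submodule Ω _) ≤
        finrank Ω (G ⊓ zer_cod Ω I J : Submodule Ω _) +
          finrank Ω (D ⊓ zer_cod Ω I T' : Submodule Ω _) := by
    intro T'
    induction T' using Finset.induction_on with
    | empty =>
      intro _
      rw [empty_cod, Finset.union_empty, add_comm]
    | insert l T' _ ih =>
      intro hs
      have h3 := ih ((Finset.subset_insert _ _).trans hs)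
      have h4 := key J l T' h2.le fun hl =>
        Finset.mem_compl.1 (hJ hl) (hs (Finset.mem_insert_self _ _))
      have h5 := step_cod G (J ∪ T') l
      have h6 := step_cod D T' l
      rw [Finset.union_insert]
      omega
  have h3 := ha J h2.le
  have h4 := hb T le_rfl
  rw [h2] at h3
  omega

end Pool.Agent.Lib.MP_13404a_ag.UB
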