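import Pool.Agent.Lib.MP_13404a_ag.UB.Cas

/-!
Arithmetic for the slope two thirds.
-/

open Module Submodule Function Finsupp
open scoped IntermediateField Polynomial

namespace Pool.Agent.Lib.MP_13404a_ag.UB

open Pool.Agent.Lib.MP_15f242_ag

universe u

/-- The constraints on `a = ll (H + M)`, `h = ll H`, `b = ll (H - M)`. -/
def Stp (n r a h b : ℕ) : Prop :=
  b ≤ h ∧ 2 * h ≤ a + b ∧ (0 < b → b + r ≤ h) ∧
    (0 < h → h + (min (n + 1 - r) (h - b) + (r - 1)) ≤ a)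

/-- The constraints on the levels of the filtration. -/
structure Lv (n r : ℕ) (h x : ℕ → ℕ) (p : ℕ → ℤ) : Prop where
  zero : p 0 ≤ x 0
  succ : ∀ j, p (j + 1) = p j - r - h j + x (j + 1)
  le : ∀ j, p j ≤ r + h j
  lvl : ∀ j, ∃ a b₁ b₂ b₃ b₄, a ≤ x j ∧ b₁ ≤ x (j + 1) ∧ x (j + 1) ≤ h j ∧ h (j + 1) ≤ b₁ ∧
    Stp n r a (h j) b₁ ∧ Stp n r (h j) b₁ b₂ ∧ Stp n r b₁ b₂ b₃ ∧ Stp n r b₂ b₃ b₄

variable {n r : ℕ} {h x : ℕ → ℕ} {p : ℕ → ℤ}

lemma Lv.le_x (L : Lv n r h x p) (j : ℕ) : p j ≤ x j := by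
  rcases j with _ | j
  · exact L.zero
  · have := L.succ j
    have := L.le j
    omega

lemma Lv.weak (L : Lv n r h x p) (r2 : 2 ≤ r) (hn : 3 * r ≤ n) (j : ℕ) :
    3 * p j ≤ 2 * x j + r + 2 := by
  induction hj : h j using Nat.strong_induction_on generalizing j with
  | _ m ih =>
  obtain ⟨a, b₁, b₂, b₃, b₄, h1, h2, h3, h4, h5, h6, h7, h8⟩ := L.lvl j
  have h9 := L.le_x j
  have h10 := L.le j
  have h11 := L.succ j
  unfold Stp at h5 h6 h7 h8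
  by_cases h12 : b₁ + 2 * r ≤ h j
  · have := ih _ (by omega) (j + 1) rfl
    omega
  · omega

lemma Lv.strong (L : Lv n r h x p) (r2 : 2 ≤ r) (hn : 3 * r ≤ n) {δ : ℕ} (h0 : h 0 + δ = x 0 + r)
    (h1 : h 0 ≤ x 1 + δ) (hδ : n ≤ δ) (h2 : 4 * r ≤ n ∨ 6 * r ≤ δ) : 3 * p 0 ≤ 2 * x 0 + 4 := by
  obtain ⟨a, b₁, b₂, b₃, b₄, h1, h2, h3, h4, h5, h6, h7, h8⟩ := L.lvl 0
  have h9 := L.weak r2 hn 1
  have h10 := L.le 0
  have h11 := L.succ 0
  unfold Stp at h5 h6 h7 h8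
  simp only [zero_add] at *
  omega

lemma Lv.half (L : Lv n r h x p) (i : ℕ) :
    ∀ j, h (j + i) = 0 → 2 * p j ≤ x j + (2 * i + 1) * r := by
  induction i with
  | zero =>
    intro j hj
    have := L.le_x j
    have := L.le j
    simp only [add_zero] at hj
    omega
  | succ i ih =>
    intro j hj
    obtain ⟨a, b₁, b₂, b₃, b₄, h1, h2, h3, h4, h5, -⟩ := L.lvl j
    have h6 := ih (j + 1) (by rwa [add_assoc, add_comm 1])
    have h7 := L.succ j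
    unfold Stp at h5
    push_cast
    have : (2 * ((i : ℤ) + 1) + 1) * r = (2 * i + 1) * r + 2 * r := by ring
    omega

/-- The shape of a series, with the degree and the dimension shifted by one. -/
lemma ser_nu2 {n r γ : ℕ} (h : Ser n (r + 1) γ) : ∃ n' m, n = n' + 1 ∧ r ≤ n' ∧ (r = 0 → n' = 0) ∧
    m * r ≤ n' ∧ m ≤ n' ∧ 2 * γ + m * (m + 1) * r ≤ 2 * m * n' := by
  obtain ⟨h0, -, h1, m, h2⟩ := h
  exact ⟨n - 1, m, by omega, by omega, by omega, h2⟩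

lemma m_le_nu2 {m r n M : ℕ} (h1 : r = 0 → n = 0) (h2 : m * r ≤ n) (h3 : m ≤ n)
    (h : r = 0 ∨ n < (M + 1) * r) : m ≤ M := by
  rcases h with h | h
  · omega
  · by_contra! h4
    exact absurd ((Nat.mul_le_mul_right r h4).trans h2) h.not_ge

/-- The birational case of small degree. -/
theorem num_bir {g q δ r n : ℕ} (r1 : 1 ≤ r) (hδ : δ + 2 ≤ g) (ha : q + δ ≤ g + 2 * r)
    (hn : n < 4 * r) (he : n ≤ δ) (S : Ser n r g) : 3 * q ≤ 2 * g + 21 := by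
  obtain ⟨r, rfl⟩ := Nat.exists_eq_add_of_le' r1
  obtain ⟨n, m, rfl, h0, h1, h2, h3, h4⟩ := ser_nu2 S
  have hm : m ≤ 6 := m_le_nu2 h1 h2 h3 (by omega)
  interval_cases m <;> omega

/-- The case of a covering of a curve with a series of small degree. -/
theorem num_cov {g q δ r e n γ f μ ρ J : ℕ} (hq : q ≤ g) (r1 : 1 ≤ r) (hδ : δ + 2 ≤ g)
    (ha : q + δ ≤ g + 2 * r) (e2 : 2 ≤ e) (hn : n < 3 * r) (he : e * n ≤ μ) (hμ : μ ≤ δ)
    (S : Ser n r γ) (hJ : J * (μ + ρ) + δ + 2 ≤ 2 * g) (N1 : 2 * q ≤ g + (2 * J + 3) * r)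
    (N2 : 2 * q + δ ≤ g + ρ + (2 * J + 4) * r)
    (h5 : (f = e ∧ q ≤ γ + (f - 1) * r + f ^ 2) ∨
      (2 * f ≤ e ∧ 4 * q + δ ≤ 4 * (γ + (f - 1) * r + f ^ 2) + 2 * g + 2)) :
    3 * q ≤ 2 * g + 21 := by
  obtain ⟨r, rfl⟩ := Nat.exists_eq_add_of_le' r1
  obtain ⟨n, m, rfl, h0, h1, h2, h3, h4⟩ := ser_nu2 S
  have hγ : γ + r ≤ n ∨ γ + 3 * r ≤ 2 * n + 1 := by
    have hm : m ≤ 4 := m_le_nu2 h1 h2 h3 (by omega)
    interval_cases m <;> omega
  have h6 : q ≤ γ + (e - 1) * (r + 1) + e ^ 2 ∨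
      4 * q + δ ≤ 4 * (γ + (e / 2 - 1) * (r + 1) + (e / 2) ^ 2) + 2 * g + 2 := by
    obtain ⟨rfl, h5⟩ | ⟨h5, h6⟩ := h5
    · exact Or.inl h5
    have : f ≤ e / 2 := by omega
    exact Or.inr (h6.trans (by gcongr))
  have H : ∀ t : ℕ, ρ < t * (r + 1) ∨ t * (J * (r + 1)) ≤ J * ρ := by
    intro t
    refine or_iff_not_imp_left.2 fun h => ?_
    rw [mul_left_comm]
    exact Nat.mul_le_mul_left J (not_lt.1 h)
  have hX : e * (J * (r + 1)) + J * ρ + δ + 2 ≤ 2 * g := by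
    have : e * (J * (r + 1)) ≤ J * μ := by
      rw [mul_left_comm]
      exact Nat.mul_le_mul_left J ((Nat.mul_le_mul_left e (by omega)).trans he)
    rw [mul_add] at hJ
    omega
  have hN1 : 2 * q ≤ g + 2 * (J * (r + 1)) + 3 * (r + 1) := N1.trans (le_of_eq (by ring))
  have hN2 : 2 * q + δ ≤ g + ρ + 2 * (J * (r + 1)) + 4 * (r + 1) := N2.trans (le_of_eq (by ring))
  have hE := he.trans hμ
  generalize J * (r + 1) = X at H hX hN1 hN2
  generalize J * ρ = Y at H hX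
  clear h5 S N1 N2 hJ he hμ h1 h2 h3 h4
  rcases le_or_gt 14 e with h7 | h7
  · have := Nat.mul_le_mul_right X h7
    have := Nat.mul_le_mul_right (n + 1) h7
    clear h6
    omega
  interval_cases e <;> norm_num only at h6
  · omega
  · omega
  · omega
  · have := H 1; omega
  · have := H 1; have := H 2; have := H 3; have := H 4; have := H 5; have := H 6; omega
  · have := H 1; have := H 2; have := H 3; have := H 4; have := H 5; have := H 6; have := H 7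
    omega
  · have := H 4; omega
  · have := H 3; omega
  · have := H 2; omega
  · have := H 1; omega
  · omega
  · omega

end Pool.Agent.Lib.MP_13404a_ag.UB
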