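import Pool.Agent.Lib.MP_13404a_ag.UB.PtB
import Pool.Agent.Lib.MP_13404a_ag.UB.Cod
import Pool.Agent.Lib.MP_13404a_ag.UB.Bet
import Pool.Agent.Lib.MP_13404a_ag.UB.Nu2

/-!
The dimension of the product of a linear series with a space of functions.
-/

open Module Submodule Function Finsupp
open scoped IntermediateField Polynomial

namespace Pool.Agent.Lib.MP_13404a_ag.UB

open Pool.Agent.Lib.MP_15f242_ag

universe u

variable {k K : Type u} [Field k] [CharZero k] [Field K] [Algebra k K] [FF k K]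
  {E : Type u} [Field E] [Algebra k E] [Algebra E K] [IsScalarTower k E K] [FF k E]

/-- As `cast_step`: `exists_phi_cas`, `exists_points'` with `e = finBasis E K` (`fd_tower`),
`exists_dual`, `gen_pos`; transport `V`, `W` along `e.equivFun`; `cast_count'`, and `code_bound` for
the spans `D`, `G` of the evaluation vectors of `V`, `W`
(`linearIndependent_algebraMap_comp_iff` along `σ l` for `hu`). The polynomials in `y` and in
`y - c none` are the same (`Polynomial.taylor`). -/
theorem prod_bound (Ψ : Submodule k E) [FiniteDimensional k Ψ] (h1 : (1 : E) ∈ Ψ)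
    (hg : IntermediateField.adjoin k (Ψ : Set E) = ⊤) {r : ℕ} (hr : finrank k Ψ = r + 1) {y : E}
    (hy : y ∈ Ψ) (ht : Transcendental k y) (rn : r ≤ finrank k⟮y⟯ E) (V W : Submodule k K)
    [FiniteDimensional k V] [FiniteDimensional k W]
    (h : ∀ ψ ∈ Ψ, ∀ x ∈ V, algebraMap E K ψ * x ∈ W) {β u : ℕ} (b : Fin β → K)
    (hb : ∀ s, b s ∈ V) (hb' : ∀ q : Fin β → k[X],
      ∑ s, Polynomial.aeval (algebraMap E K y) (q s) * b s = 0 → q = 0)
    (w : Fin u → K) (hw : ∀ s, w s ∈ V) (hw' : LinearIndependent E w) :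
    finrank k V + (min (finrank k⟮y⟯ E + 1 - r) β + (r - 1) * u) ≤ finrank k W := by
  obtain ⟨φ, hφ, rfl⟩ := exists_phi_cas Ψ h1 hr
  obtain ⟨c, hc⟩ := (mem_span_range_iff_exists_fun k).1 hy
  rw [Fintype.sum_option] at hc
  simp only [Option.elim] at hc
  have e : ∑ i, c (some i) • φ i = y - algebraMap k E (c none) := by
    rw [← hc, Algebra.algebraMap_eq_smul_one, add_sub_cancel_left]
  have ht' : Transcendental k (∑ i, c (some i) • φ i) := fun h => ht (by
    rw [e] at h
    simpa using h.add (isAlgebraic_algebraMap (c none)))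
  have e2 : k⟮∑ i, c (some i) • φ i⟯ = k⟮y⟯ := by
    rw [e]
    refine le_antisymm (IntermediateField.adjoin_simple_le_iff.2 (sub_mem
      (IntermediateField.mem_adjoin_simple_self k y) (IntermediateField.algebraMap_mem _ _)))
      (IntermediateField.adjoin_simple_le_iff.2 ?_)
    simpa using add_mem (IntermediateField.mem_adjoin_simple_self k (y - algebraMap k E (c none)))
      (IntermediateField.algebraMap_mem _ (c none))
  have hg' : IntermediateField.adjoin k (Set.range φ) = ⊤ := by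
    refine eq_top_iff.2 (hg.ge.trans (IntermediateField.adjoin_le_iff.2 ?_))
    refine (span_le (p := (IntermediateField.adjoin k (Set.range φ)).toSubalgebra.toSubmodule)).2 ?_
    rintro _ ⟨_ | i, rfl⟩
    · exact one_mem (IntermediateField.adjoin k (Set.range φ))
    · exact IntermediateField.subset_adjoin _ _ ⟨i, rfl⟩
  have r1 : 1 ≤ r := by
    rcases r with _ | r
    · exact absurd (by simpa using isAlgebraic_zero) ht'
    · omega
  have := fd_tower k K E
  let a := finBasis E K
  obtain ⟨Ω, _, _, t, N, σ, h2, h3, h4, h5, h6⟩ :=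
    exists_points' φ hg' (fun i => c (some i)) ht' a
  rw [e2] at h5
  obtain ⟨Dd, hD⟩ := exists_dual h2
  let ι : K ≃ₗ[k] (Fin (finrank E K) → E) := a.equivFun.restrictScalars k
  have hVW : ∀ o : Option (Fin r), ∀ x ∈ V.map ι.toLinearMap,
      (o.elim 1 φ : E) • x ∈ W.map ι.toLinearMap := by
    rintro o _ ⟨x, hx, rfl⟩
    refine ⟨_, h _ (mem_sp_caa φ o) x hx, ?_⟩
    rw [← Algebra.smul_def]
    exact a.equivFun.map_smul _ _
  have h7 := cast_count' h2.1 h4 (V.map ι.toLinearMap) (W.map ι.toLinearMap) hVW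
  rw [LinearEquiv.finrank_map_eq, LinearEquiv.finrank_map_eq] at h7
  have h8 := h6 β b fun q hq => funext fun s => by
    have := congrFun (hb' (fun s => Polynomial.taylor (-c none) (q s)) (by
      rw [← hq, e]
      refine Finset.sum_congr rfl fun s _ => ?_
      rw [Polynomial.taylor_apply, Polynomial.aeval_comp, map_add, Polynomial.aeval_X,
        Polynomial.aeval_C, map_neg, map_sub, ← IsScalarTower.algebraMap_apply,
        sub_eq_add_neg])) s
    exact (Polynomial.taylor_eq_zero _ _).1 this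
  have h9 := code_bound (β := β) (u := u) (fun l => pt φ (σ l)) (gen_pos hφ hg' Dd hD h3 h4) r1
    (rn.trans h5)
    (span Ω ((fun (x : Fin (finrank E K) → E) (p : Fin N × Fin (finrank E K)) => σ p.1 (x p.2)) ''
      (V.map ι.toLinearMap)))
    (span Ω ((fun (x : Fin (finrank E K) → E) (p : Fin N × Fin (finrank E K)) => σ p.1 (x p.2)) ''
      (W.map ι.toLinearMap))) (by
      have h9 := finrank_span_eq_card h8
      rw [Fintype.card_fin] at h9
      rw [← h9]
      refine finrank_mono (span_mono ?_)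
      rintro _ ⟨s, rfl⟩
      exact ⟨_, ⟨b s, hb s, rfl⟩, rfl⟩)
    (fun l => ⟨fun s p => σ p.1 (ι (w s) p.2), fun s => subset_span ⟨_, ⟨w s, hw s, rfl⟩, rfl⟩, by
      let : Algebra E Ω := (σ l).toRingHom.toAlgebra
      exact (linearIndependent_algebraMap_comp_iff (S := Ω)).2
        (hw'.map' a.equivFun.toLinearMap a.equivFun.ker)⟩)
    (fun o x hx => by
      induction hx using span_induction with
      | mem x hx =>
        obtain ⟨z, hz, rfl⟩ := hx
        refine subset_span ⟨_, hVW o z hz, funext fun q => ?_⟩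
        simp only [Pi.smul_apply, smul_eq_mul, map_mul, pt]
      | zero =>
        simp only [Pi.zero_apply, mul_zero]
        exact zero_mem _
      | add x z _ _ hx hz =>
        simp only [Pi.add_apply, mul_add]
        exact add_mem hx hz
      | smul a x _ hx =>
        simp only [Pi.smul_apply, smul_eq_mul, mul_left_comm _ a]
        exact smul_mem _ a hx)
  have h10 : min (finrank k⟮y⟯ E + 1 - r) β ≤ min (N + 1 - r) β := min_le_min_right _ (by omega)
  omega

/-- As the first part of `gen_data`, for a given `y`. -/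
theorem ser_of_min (Φ : Submodule k K) [FiniteDimensional k Φ] (h1 : (1 : K) ∈ Φ)
    (hg : IntermediateField.adjoin k (Φ : Set K) = ⊤) {r : ℕ} (hr : finrank k Φ = r + 1)
    (r1 : 1 ≤ r) {y : K} (hy : y ∈ Φ) (ht : Transcendental k y) (hΦ : Φ ≤ H0 (OD (pol k y))) :
    Ser (finrank k⟮y⟯ K) r (gn k K) := by
  have hd := degree_pol ht
  set n := finrank k⟮y⟯ K with hn
  have h2 : r + 1 ≤ ll (pol k y) := hr.ge.trans (finrank_mono hΦ)
  have h3 := ll_le_degree (D := pol k y) (by omega)
  have h4 := ll_bound (D := pol k y) (by omega)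
  have h5 : r = 1 → n = 1 := fun e => finrank_one_cas h1 hg (by omega) hy ht
  have hs := cast_step Φ h1 hg hr hy ht
  have key : ∀ m : ℕ, m * (r - 1) ≤ n - 1 → n ≤ (m + 1) * (r - 1) + 1 →
      2 * gn k K + m * (m + 1) * (r - 1) ≤ 2 * m * (n - 1) := fun m a1 a2 => by
    have b1 := sum_low_cas (f := fun j => finrank k (Φ ^ j : Submodule k K)) (s := r - 1) (m := m)
      (by rw [pow_zero, one_eq_span, finrank_span_singleton one_ne_zero])
      fun j hj => hs j _ (by
        have := Nat.mul_le_mul_right (r - 1) (show j + 1 ≤ m from hj)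
        omega) le_rfl
    obtain ⟨c, hc⟩ := exists_ii_bound (k := k) (K := K)
    have b2 := sum_high_cas (f := fun j => finrank k (Φ ^ j : Submodule k K)) (n := n) (m := m)
      (fun j hj => hs j _ le_rfl (a2.trans (by gcongr))) c.toNat
    have b3 : finrank k (Φ ^ (m + c.toNat) : Submodule k K) ≤ ll ((m + c.toNat) • pol k y) :=
      finrank_mono (pow_le_cas hΦ _)
    have b4 := rr_formula ((m + c.toNat) • pol k y)
    have b5 : degree ((m + c.toNat) • pol k y) = (m + c.toNat : ℕ) * (n : ℤ) := by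
      rw [map_nsmul, hd, nsmul_eq_mul]
    rw [hc _ (by
      rw [b5]
      have := Int.self_le_toNat c
      have : (1 : ℤ) ≤ n := by omega
      push_cast
      nlinarith [Int.natCast_nonneg m, Int.natCast_nonneg c.toNat]), b5, gen_eq] at b4
    obtain ⟨n', hn'⟩ : ∃ n', n = n' + 1 := ⟨n - 1, by omega⟩
    simp only [hn', Nat.add_sub_cancel] at b1 b2 b4 ⊢
    zify at b1 b2 b3 ⊢
    push_cast at b4
    nlinarith
  refine ⟨by omega, by omega, h5, ?_⟩
  rcases r1.eq_or_lt with e | e
  · have := h5 e.symm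
    exact ⟨0, by simp, by simp, key 0 (by simp) (by omega)⟩
  · have b1 := Nat.div_mul_le_self (n - 1) (r - 1)
    have b2 := Nat.lt_mul_div_succ (n - 1) (show 0 < r - 1 by omega)
    exact ⟨_, b1, Nat.div_le_self _ _, key _ b1 (by rw [mul_comm]; omega)⟩

variable (E) in
/-- `M` is the moving part of the complete series of `D`, which comes from a birational series of
degree `n` and dimension `r` on `E`. -/
structure Dat (D M : Div k K) (r n : ℕ) : Prop where
  le : M ≤ D
  nonneg : 0 ≤ M
  deg : degree M = finrank E K * n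
  ser : Ser n r (gn k E)
  mem : ∀ f ∈ H0 (OD D), ∃ z : E, f = algebraMap E K z
  sub : H0 (OD D) ≤ H0 (OD M)
  pen : ∀ H, 2 * ll H ≤ ll (H + M) + ll (H - M)
  prod : ∀ (H : Div k K) (u : ℕ) (w : Fin u → K), (∀ s, w s ∈ H0 (OD H)) → LinearIndependent E w →
    ll H + (min (n + 1 - r) (ll H - ll (H - M)) + (r - 1) * u) ≤
      finrank k (H0 (OD D) * H0 (OD H) : Submodule k K)

omit [CharZero k] in
lemma mul_le_prd (D H : Div k K) : H0 (OD D) * H0 (OD H) ≤ H0 (OD (D + H)) :=
  mul_le.2 fun _ ha _ hb => mem_L.2 fun P => mul_mem_fil (mem_L.1 ha P) (mem_L.1 hb P)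

/-- `exists_min` in `E`, `M = pol k (algebraMap E K y)`; `pol_le`, `degree_pol`,
`finrank_adjoin_tower`, `ser_of_min`, `exists_e` for `sub`, `pencil`, `exists_beta`, `prod_bound`. -/
lemma dat_of {D : Div k K} (Ψ : Submodule k E) (h1 : (1 : E) ∈ Ψ)
    (hg : IntermediateField.adjoin k (Ψ : Set E) = ⊤)
    (hΨ : Ψ.map (IsScalarTower.toAlgHom k E K).toLinearMap = H0 (OD D)) {r : ℕ}
    (hr : ll D = r + 1) (r1 : 1 ≤ r) : ∃ M n, Dat E D M r n := by
  have e := equivMapOfInjective (IsScalarTower.toAlgHom k E K).toLinearMap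
    (algebraMap E K).injective Ψ
  rw [hΨ] at e
  have : FiniteDimensional k Ψ := e.symm.finiteDimensional
  have h2 : finrank k Ψ = r + 1 := e.finrank_eq.trans hr
  obtain ⟨y, hy, ht, h3⟩ := exists_min Ψ h1 (by omega)
  have h4 : ∀ z ∈ Ψ, algebraMap E K z ∈ H0 (OD D) := fun z hz => hΨ.le ⟨z, hz, rfl⟩
  have h5 : ∀ f ∈ H0 (OD D), ∃ z ∈ Ψ, f = algebraMap E K z := fun f hf => by
    obtain ⟨z, hz, rfl⟩ := hΨ.ge hf
    exact ⟨z, hz, rfl⟩
  have ht' : Transcendental k (algebraMap E K y) := trans_up ht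
  have h6 : algebraMap E K y ≠ 0 := fun h => ht' (h ▸ isAlgebraic_zero)
  have h7 := ser_of_min Ψ h1 hg h2 r1 hy ht h3
  refine ⟨pol k (algebraMap E K y), finrank k⟮y⟯ E, pol_le le_rfl (by simpa using h4 1 h1) (h4 y hy),
    pol_nonneg _, ?_, h7, fun f hf => (h5 f hf).imp fun z hz => hz.2, fun f hf => ?_, pencil h6,
    fun H u w hw hw' => ?_⟩
  · rw [degree_pol ht', finrank_adjoin_tower ht, Nat.cast_mul]
  · obtain ⟨z, hz, rfl⟩ := h5 f hf
    rcases eq_or_ne z 0 with rfl | z0
    · rw [map_zero]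
      exact zero_mem _
    refine mem_L.2 fun P => mem_fil_of ?_
    obtain ⟨a, a0, ha⟩ := exists_e E P
    have h8 := (mem_fil z0).1 (mem_L.1 (h3 hz) (res E P))
    rw [pol_apply] at h8 ⊢
    rw [ha, ha]
    rcases le_max_iff.1 h8 with h | h
    · exact le_max_of_le_left (mul_le_mul_of_nonneg_left h a0.le)
    · exact le_max_of_le_right (mul_nonpos_of_nonneg_of_nonpos a0.le h)
  · obtain ⟨β, b, b1, b2, b3⟩ := exists_beta h6 H
    have : FiniteDimensional k (H0 (OD D) * H0 (OD H) : Submodule k K) :=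
      finiteDimensional_of_le (mul_le_prd D H)
    have h8 := prod_bound Ψ h1 hg h2 hy ht h7.1 (H0 (OD H)) (H0 (OD D) * H0 (OD H))
      (fun ψ hψ x hx => mul_mem_mul (h4 ψ hψ) hx) b b2 b3 w hw hw'
    have h9 : min (finrank k⟮y⟯ E + 1 - r) (ll H - ll (H - pol k (algebraMap E K y))) ≤
        min (finrank k⟮y⟯ E + 1 - r) β := min_le_min_left _ (by omega)
    change ll H + _ ≤ _ at h8
    omega

/-- As `series` with `s = 1`. -/
theorem exists_dat {D : Div k K} (h0 : 0 ≤ D) {r : ℕ} (hr : ll D = r + 1) (r1 : 1 ≤ r) :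
    (∃ M n, Dat K D M r n) ∨ ∃ (E : IntermediateField k K) (_ : FF k E), 2 ≤ finrank E K ∧
      ∃ M n, Dat E D M r n := by
  have h1 : (1 : K) ∈ H0 (OD D) := L_mono h0 (by
    rw [L_zero]
    exact mem_span_singleton_self _)
  by_cases hE : IntermediateField.adjoin k (H0 (OD D) : Set K) = ⊤
  · exact .inl (dat_of (E := K) (H0 (OD D)) h1 hE (Submodule.map_id _) hr r1)
  set Φ := H0 (OD D) with hΦ
  obtain ⟨E, hE'⟩ : ∃ E, IntermediateField.adjoin k (Φ : Set K) = E := ⟨_, rfl⟩
  have hΦE : ∀ x ∈ Φ, x ∈ E := fun x hx => hE' ▸ IntermediateField.subset_adjoin _ _ hx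
  rw [hE'] at hE
  obtain ⟨x, hx, hxt, -⟩ := exists_min Φ h1 (by
    change 2 ≤ ll D
    omega)
  have hF : FF k E := ff_sub E (hΦE x hx) hxt
  have := fd_tower k K E
  set Ψ := Φ.comap E.val.toLinearMap with hΨ
  have h5 : Ψ.map E.val.toLinearMap = Φ := map_comap_eq_self fun x hx => ⟨⟨x, hΦE x hx⟩, rfl⟩
  have h6 : IntermediateField.adjoin k (Ψ : Set E) = ⊤ := by
    refine IntermediateField.map_injective E.val ?_
    have h6 : E.val '' (Ψ : Set E) = (Φ : Set K) := congrArg SetLike.coe h5
    rw [IntermediateField.adjoin_map, ← AlgHom.fieldRange_eq_map, IntermediateField.fieldRange_val,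
      h6, hE']
  refine .inr ⟨E, hF, ?_, dat_of Ψ h1 h6 h5 hr r1⟩
  have h8 : finrank E K ≠ 1 := mt IntermediateField.finrank_eq_one_iff_eq_top.1 hE
  have h9 : 0 < finrank E K := finrank_pos
  omega

/-- `L D * L H ≤ L (H + M)`; `prod` with `u = 1`; `finrank_mul_ge` for `L D` and `L (H - M)`. -/
lemma Dat.stp {D M : Div k K} {r n : ℕ} (T : Dat E D M r n) (hr : ll D = r + 1)
    (H : Div k K) : Stp n r (ll (H + M)) (ll H) (ll (H - M)) := by
  refine ⟨ll_mono (sub_le_self _ T.nonneg), T.pen H, fun h => ?_, fun h => ?_⟩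
  · have h1 := finrank_mul_ge (H0 (OD D)) (H0 (OD (H - M)))
      (fun e => by
        rw [ll, e, finrank_bot] at hr
        omega)
      (fun e => by
        rw [ll, e, finrank_bot] at h
        omega)
    have h2 : finrank k (H0 (OD D) * H0 (OD (H - M)) : Submodule k K) ≤ ll H := by
      refine finrank_mono ((mul_le_mul_left T.sub _).trans ((mul_le_prd M (H - M)).trans ?_))
      rw [add_sub_cancel]
    change ll D + ll (H - M) ≤ _ at h1
    omega
  · obtain ⟨x, x0, hx⟩ := exists_mem_L h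
    have h1 := T.prod H 1 (fun _ => x) (fun _ => (mem_L' x0).2 hx)
      (linearIndependent_unique_iff.2 x0)
    have h2 : finrank k (H0 (OD D) * H0 (OD H) : Submodule k K) ≤ ll (H + M) := by
      refine finrank_mono ((mul_le_mul_left T.sub _).trans ((mul_le_prd M H).trans ?_))
      rw [add_comm]
    omega

end Pool.Agent.Lib.MP_13404a_ag.UB
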