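import Pool.Agent.Lib.MP_13404a_ag.UB.OrdL
import Pool.Agent.Lib.MP_13404a_ag.UB.Prd

/-!
The levels of the filtration by orders of vanishing.
-/

open Module Submodule Function Finsupp
open scoped IntermediateField Polynomial

namespace Pool.Agent.Lib.MP_13404a_ag.UB

open Pool.Agent.Lib.MP_15f242_ag

universe u

variable {k K : Type u} [Field k] [CharZero k] [Field K] [Algebra k K] [FF k K]
  {ι : Type} [Fintype ι] {δ : Derivation ℤ k k} {d : Derivation k K K} {v : Derivation ℤ K K}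
  {c : K} {A F : (ι → k) →ₗ[k] K} {κ D : Div k K}

/-- `po_lie` for `Q ^ 2`. -/
lemma Sys.po_lie_one (S : Sys δ d v c A F) (hκ : IsK d κ) (hD : IsD v D) {P : Pt k K}
    (hP : 0 < D P) {Q : K} (hQ : Q ≠ 0) (h : po P Q ≠ κ P - D P) :
    v Q + c * Q ≠ 0 ∧ po P (v Q + c * Q) = po P Q + D P + 1 := by
  obtain ⟨h1, h2⟩ := S.po_lie hκ hD hP (pow_ne_zero 2 hQ) (by rw [po_pow]; push_cast; omega)
  have e : v (Q ^ 2) + 2 * c * Q ^ 2 = algebraMap k K 2 * (Q * (v Q + c * Q)) := by
    rw [pow_two, v.leibniz, map_ofNat, smul_eq_mul]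
    ring
  rw [e] at h1 h2
  have h3 := right_ne_zero_of_mul h1
  have h4 := right_ne_zero_of_mul h3
  rw [po_mul P (left_ne_zero_of_mul h1) h3, po_const, po_mul P hQ h4, po_pow] at h2
  push_cast at h2
  exact ⟨h4, by omega⟩

/-- As `orders_ordl`. -/
lemma Sys.orders_one (S : Sys δ d v c A F) (hκ : IsK d κ) (hD : IsD v D)
    {U : ℕ → Submodule k (ι → k)}
    (hU : ∀ i, ∀ a ∈ U (i + 1), a ∈ U i ∧ d (F a) = 0 ∧ nab δ a ∈ U i) {P : Pt k K}
    (hP : 0 < D P) (j : ℕ) : ∀ a ∈ U (j + 1), A a ≠ 0 →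
      po P (A a) ≤ κ P - D P - j * (D P + 1) ∨ ∃ i < j, κ P - D P - i * (D P + 1) = po P (A a) := by
  induction j with
  | zero =>
    intro a ha a0
    have := (mem_fil a0).1 (mem_L.1 (S.mem_M hκ hD (hU 0 a ha).2.1) P)
    rw [Finsupp.sub_apply] at this
    left
    push_cast
    omega
  | succ j ih =>
    intro a ha a0
    by_cases h : po P (A a) = κ P - D P
    · exact .inr ⟨0, j.succ_pos, by simp [h]⟩
    obtain ⟨h1, h2⟩ := S.po_lie_one hκ hD hP a0 h
    rw [S.lie, (hU _ a ha).2.1, add_zero] at h1 h2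
    rcases ih _ (hU _ a ha).2.2 h1 with h3 | ⟨i, h3, h4⟩
    · left
      push_cast
      linarith
    · refine .inr ⟨i + 1, by omega, ?_⟩
      push_cast
      linarith

/-- `exists_chain` as in `step4`, `B = (U (j + 1)).map A`. For `i < j` one has
`B ⊓ L (H i - R) ≤ L (H (i + 1))` with `H i = κ - D - i • (N + R)`, hence
`finrank (B ⊓ L (H i)) + ll (H i - R) ≤ ll (H i) + finrank (B ⊓ L (H (i + 1)))`
(`finrank_sup_add_finrank_inf_eq`); `B ≤ L (H 0)` by `mem_M`. -/
theorem Sys.levels (S : Sys δ d v c A F) (hκ : IsK d κ) (hD : IsD v D) {r : ℕ}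
    (hr : ll D = r + 1) {N R : Div k K}
    (h : ∀ P, (N P = 0 ∧ R P = 0) ∨ (0 < D P ∧ N P = D P ∧ R P = 1)) (j : ℕ) :
    (Fintype.card ι : ℤ) ≤ (j + 1) * r + ∑ i ∈ Finset.range j,
      ((ll (κ - D - i • (N + R)) : ℤ) - ll (κ - D - i • (N + R) - R)) +
        ll (κ - D - j • (N + R)) := by
  have h1 := S.card_le_ker hD
  obtain ⟨U, hU, h2⟩ := exists_chain δ (LinearMap.ker (d.toLinearMap ∘ₗ F)) (r := r) (by omega)
  obtain ⟨H, hH⟩ : ∃ H : ℕ → Div k K, ∀ i, H i = κ - D - i • (N + R) := ⟨_, fun _ => rfl⟩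
  have hH' : ∀ i P, H i P = κ P - D P - i * (N P + R P) := fun i P => by
    simp [hH, mul_add]
  simp only [← hH]
  have hR : ∀ i, H i - R ≤ H i := fun i P => by
    rw [Finsupp.sub_apply]
    rcases h P with h3 | h3 <;> omega
  have step : ∀ i < j, (U (j + 1)).map A ⊓ H0 (OD (H i - R)) ≤ H0 (OD (H (i + 1))) := by
    rintro i hi _ ⟨⟨a, ha, rfl⟩, h3⟩
    rcases eq_or_ne (A a) 0 with a0 | a0
    · rw [a0]
      exact zero_mem _
    refine mem_L.2 fun P => mem_fil_of ?_
    have h4 := (mem_fil a0).1 (mem_L.1 h3 P)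
    rw [Finsupp.sub_apply, hH'] at h4
    rw [hH']
    push_cast
    rcases h P with ⟨h5, h6⟩ | ⟨h5, h6, h7⟩
    · rw [h5, h6] at h4 ⊢
      linarith
    rw [h6, h7] at h4 ⊢
    rcases S.orders_one hκ hD hU h5 j a ha a0 with h8 | ⟨i', -, h8⟩
    · have : ((i : ℤ) + 1) * (D P + 1) ≤ j * (D P + 1) :=
        mul_le_mul_of_nonneg_right (by exact_mod_cast hi) (by omega)
      linarith
    · have h9 : (i : ℤ) < i' := lt_of_mul_lt_mul_right (a := D P + 1) (by linarith) (by omega)
      have : ((i : ℤ) + 1) * (D P + 1) ≤ i' * (D P + 1) :=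
        mul_le_mul_of_nonneg_right (by omega) (by omega)
      linarith
  have key : ∀ i ≤ j, (finrank k ((U (j + 1)).map A) : ℤ) ≤
      ∑ i ∈ Finset.range i, ((ll (H i) : ℤ) - ll (H i - R)) +
        finrank k ((U (j + 1)).map A ⊓ H0 (OD (H i)) : Submodule k K) := by
    intro i
    induction i with
    | zero =>
      intro _
      have : (U (j + 1)).map A ≤ H0 (OD (H 0)) := by
        rw [hH, zero_smul, sub_zero]
        exact map_le_iff_le_comap.2 fun a ha => S.mem_M hκ hD (hU j a ha).2.1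
      rw [inf_eq_left.2 this]
      simp
    | succ i ih =>
      intro hi
      have h3 := ih (by omega)
      have h4 := finrank_sup_add_finrank_inf_eq ((U (j + 1)).map A ⊓ H0 (OD (H i)))
        (H0 (OD (H i - R)))
      have h5 : finrank k ((U (j + 1)).map A ⊓ H0 (OD (H i)) ⊔ H0 (OD (H i - R)) :
          Submodule k K) ≤ ll (H i) := finrank_mono (sup_le inf_le_right (L_mono (hR i)))
      have h6 : finrank k ((U (j + 1)).map A ⊓ H0 (OD (H i)) ⊓ H0 (OD (H i - R)) :
          Submodule k K) ≤ finrank k ((U (j + 1)).map A ⊓ H0 (OD (H (i + 1))) : Submodule k K) :=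
        finrank_mono (le_inf (inf_le_left.trans inf_le_left)
          ((inf_le_inf_right _ inf_le_left).trans (step i (by omega))))
      rw [Finset.sum_range_succ]
      unfold ll at *
      omega
  have h3 := key j le_rfl
  have h4 : finrank k ((U (j + 1)).map A ⊓ H0 (OD (H j)) : Submodule k K) ≤ ll (H j) :=
    finrank_mono inf_le_right
  have h5 : (Fintype.card ι : ℤ) ≤ finrank k (U (j + 1)) + (j + 1) * r := by
    exact_mod_cast h2 (j + 1)
  rw [S.finrank_map] at h3
  omega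

/-- `N = D.filter (0 < M ·)`, `R = ∑ P ∈ M.support, single P 1`, `h i = ll (H i)`, `x 0 = g`,
`x (i + 1) = ll (H i - R)`, `p j = q - j r - ∑ i < j, (h i - x (i + 1))`; `levels`, `Dat.stp` at
`H j`, `H j - M`, `H j - M - M`, `H j - M - M - M`, `ll_mono`, `ll_le`, `degree_nonneg`. -/
theorem Sys.exists_lv {E : Type u} [Field E] [Algebra k E] [Algebra E K] [IsScalarTower k E K]
    [FF k E] (S : Sys δ d v c A F) (hκ : IsK d κ) (hD : IsD v D) {r n : ℕ} (hr : ll D = r + 1)
    (r1 : 1 ≤ r) {M : Div k K} (T : Dat E D M r n) : ∃ (h x : ℕ → ℕ) (p : ℕ → ℤ) (μ ρ : ℕ),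
      Lv n r h x p ∧ p 0 = Fintype.card ι ∧ x 0 = gn k K ∧ h 0 = ll (κ - D) ∧ h 0 ≤ x 1 + ρ ∧
      finrank E K * n ≤ μ ∧ ρ ≤ μ ∧ (μ : ℤ) ≤ degree D ∧
      ∀ j : ℕ, 2 * (gn k K : ℤ) < j * (μ + ρ) + degree D + 2 → h j = 0 := by
  classical
  obtain ⟨N, hN⟩ : ∃ N : Div k K, ∀ P, N P = if 0 < M P then D P else 0 :=
    ⟨D.filter (0 < M ·), fun P => rfl⟩
  obtain ⟨R, hR⟩ : ∃ R : Div k K, ∀ P, R P = if P ∈ M.support then 1 else 0 :=
    ⟨∑ P ∈ M.support, single P 1, fun P => by
      simp only [Finsupp.finsetSum_apply, single_apply, Finset.sum_ite_eq']⟩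
  have hP : ∀ P, (M P = 0 ∧ N P = 0 ∧ R P = 0 ∧ 0 ≤ D P) ∨
      (0 < M P ∧ M P ≤ D P ∧ N P = D P ∧ R P = 1) := fun P => by
    have h1 : 0 ≤ M P := T.nonneg P
    rcases h1.eq_or_lt with h2 | h2
    · exact .inl ⟨h2.symm, by rw [hN, if_neg h2.not_lt],
        by rw [hR, if_neg (notMem_support_iff.2 h2.symm)], hD.nonneg P⟩
    · exact .inr ⟨h2, T.le P, by rw [hN, if_pos h2], by rw [hR, if_pos (mem_support_iff.2 h2.ne')]⟩
  have hL := S.levels hκ hD hr (N := N) (R := R) fun P => by rcases hP P with h | h <;> omega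
  obtain ⟨H, hH⟩ : ∃ H : ℕ → Div k K, ∀ i, H i = κ - D - i • (N + R) := ⟨_, fun _ => rfl⟩
  have H0' : ∀ P, H 0 P = κ P - D P := fun P => by simp [hH]
  have HS : ∀ i P, H (i + 1) P = H i P - (N P + R P) := fun i P => by
    simp only [hH, succ_nsmul, Finsupp.sub_apply, Finsupp.add_apply]
    ring
  simp only [← hH] at hL
  have d1 : (0 : ℤ) ≤ degree R := by
    simpa using degree_mono (D := 0) (D' := R) fun P => by
      rcases hP P with h | h <;> simp only [Finsupp.coe_zero, Pi.zero_apply] <;> omega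
  have d2 : degree R ≤ degree N := degree_mono fun P => by rcases hP P with h | h <;> omega
  have d3 : degree M ≤ degree N := degree_mono fun P => by rcases hP P with h | h <;> omega
  have d4 : degree N ≤ degree D := degree_mono fun P => by rcases hP P with h | h <;> omega
  obtain ⟨μ, hμ⟩ := Int.eq_ofNat_of_zero_le (d1.trans d2)
  obtain ⟨ρ, hρ⟩ := Int.eq_ofNat_of_zero_le d1
  have hq := S.finrank_le ⊤
  rw [finrank_top, finrank_fintype_fun_eq_card] at hq
  have hRH : ∀ i, H i - R ≤ H i := fun i P => by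
    rw [Finsupp.sub_apply]
    rcases hP P with h | h <;> omega
  refine ⟨fun i => ll (H i), fun i => Nat.casesOn i (gn k K) fun i => ll (H i - R),
    fun j => Fintype.card ι - j * r - ∑ i ∈ Finset.range j, ((ll (H i) : ℤ) - ll (H i - R)), μ, ρ,
    ⟨by simpa using hq, fun j => ?_, fun j => ?_, fun j => ⟨ll (H j + M), ll (H j - M),
      ll (H j - M - M), ll (H j - M - M - M), ll (H j - M - M - M - M), ?_, ?_, ll_mono (hRH j),
      ?_, T.stp hr _, ?_, ?_, ?_⟩⟩, by simp, rfl, by simp [hH], ?_, ?_, by omega, by omega,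
      fun j hj => ?_⟩
  · rw [Finset.sum_range_succ]
    push_cast
    ring
  · have := hL j
    linarith
  · rcases j with _ | j
    · refine le_of_le_of_eq (ll_mono fun P => ?_) hκ.ll_eq
      rw [Finsupp.add_apply, H0']
      rcases hP P with h | h <;> omega
    · refine ll_mono fun P => ?_
      rw [Finsupp.add_apply, Finsupp.sub_apply, HS]
      rcases hP P with h | h <;> omega
  · refine ll_mono fun P => ?_
    rw [Finsupp.sub_apply, Finsupp.sub_apply]
    rcases hP P with h | h <;> omega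
  · refine ll_mono fun P => ?_
    rw [Finsupp.sub_apply, HS]
    rcases hP P with h | h <;> omega
  · simpa using T.stp hr (H j - M)
  · simpa using T.stp hr (H j - M - M)
  · simpa using T.stp hr (H j - M - M - M)
  · have := ll_le (hRH 0)
    rw [map_sub] at this
    change ll (H 0) ≤ ll (H 0 - R) + ρ
    omega
  · have := T.deg
    zify
    omega
  · by_contra h
    have h1 := degree_nonneg (Nat.pos_of_ne_zero h)
    rw [hH, map_sub, map_sub, map_nsmul, map_add, hκ.degree_eq, hμ, hρ, nsmul_eq_mul] at h1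
    linarith

end Pool.Agent.Lib.MP_13404a_ag.UB
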