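import Pool.Agent.Lib.MP_13404a_ag.UB.St5

/-!
The bounds of Castelnuovo-de Franchis type, with the polar divisor.
-/

open Module Submodule Function Finsupp
open scoped IntermediateField Polynomial

namespace Pool.Agent.Lib.MP_13404a_ag.UB

open Pool.Agent.Lib.MP_15f242_ag

universe u

variable {k K : Type u} [Field k] [CharZero k] [Field K] [Algebra k K] [FF k K]
  {ι : Type} [Fintype ι] {δ : Derivation ℤ k k} {d : Derivation k K K} {v : Derivation ℤ K K}
  {c : K} {A F : (ι → k) →ₗ[k] K} {κ D : Div k K}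
  {E : Type u} [Field E] [Algebra k E] [Algebra E K] [IsScalarTower k E K] [FF k E]

lemma Sys.aux_s5b (S : Sys δ d v c A F) (hD : IsD v D) (hd : degree D + 2 ≤ gn k K)
    {W : Submodule k (ι → k)} (hW : Stab δ W)
    (h : ∀ a ∈ W, d (F a) = 0) {x : K} (hx : Transcendental k x) (h1 : d x = 1) (h2 : v x = 0) :
    4 * (finrank k W : ℤ) + degree D ≤ 2 * gn k K + 2 := by
  have hc : c = 0 := by simpa [h1, h2] using (S.comm x).symm
  obtain ⟨κ, hκ⟩ := exists_isK S.d0
  set E := IntermediateField.adjoin k {f | v f + 0 * d f = 0} with hE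
  have hxE : x ∈ E := IntermediateField.subset_adjoin _ _ (by simp [h2])
  have := ff_sub E hxE hx
  have e2 := two_le_finrank_cdf (S.ni 0)
  have hB : ∀ a ∈ W, A a ∈ E := fun a ha => by
    have : span k {a | a ∈ W ∧ nab δ a = 0} ≤ E.toSubmodule.comap A := span_le.2 fun b hb =>
      IntermediateField.subset_adjoin _ _ (by simpa [hc, hb.2, h b hb.1] using S.lie b)
    exact this (hW.le_span ha)
  have hx' : Transcendental k (⟨x, hxE⟩ : E) :=
    (transcendental_algebraMap_iff (algebraMap E K).injective).1 hx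
  obtain ⟨d', hd'⟩ := exists_der hx' 1
  obtain ⟨κ', hκ'⟩ := exists_isK (d := d') fun e => by simp [e] at hd'
  have cd : ∀ f, d (algebraMap E K f) = algebraMap E K (d' f) :=
    der_compat (D := d.restrictScalars ℤ) (D' := d'.restrictScalars ℤ) (fun a => by simp) hx'
      (by simpa [hd'] using h1)
  have h3 : W.map A ≤ (H0 (OD κ')).map E.val.toLinearMap := by
    rintro _ ⟨a, ha, rfl⟩
    exact ⟨⟨A a, hB a ha⟩, (hκ.map_mem_iff hκ' cd).1 (S.mem_K hκ a), rfl⟩
  have h4 := (finrank_mono h3).trans (finrank_map_le _ _)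
  rw [S.finrank_map, ← ll, hκ'.ll_eq] at h4
  by_cases h0 : W.map A = ⊥
  · rw [← S.finrank_map, h0, finrank_bot]
    omega
  obtain ⟨n, h5, -, h6⟩ := line_bound (E := E)
    (map_le_iff_le_comap.2 fun a ha => S.mem_M hκ hD (h a ha)) h0
    ⟨1, by rintro _ ⟨a, ha, rfl⟩; exact ⟨⟨A a, hB a ha⟩, (mul_one _).symm⟩⟩
  rw [map_sub, hκ.degree_eq] at h5
  rw [S.finrank_map] at h6
  have h7 : 2 * (n : ℤ) ≤ finrank E K * n := by gcongr; exact_mod_cast e2
  omega

/-- As `Sys.aux_cdf` and `Sys.cdf`, with `line_bound` for `κ - D` (`mem_M`); `scale` keeps `v`. -/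
theorem Sys.cdf' (S : Sys δ d v c A F) (hD : IsD v D) (hd : degree D + 2 ≤ gn k K)
    {W : Submodule k (ι → k)} (hW : Stab δ W) (h : ∀ a ∈ W, d (F a) = 0) :
    4 * (finrank k W : ℤ) + degree D ≤ 2 * gn k K + 2 := by
  by_cases h2 : finrank k W ≤ 1
  · omega
  have fl : ∀ a ∈ W, nab δ a = 0 → v (A a) = -(c * A a) := fun a ha h0 => by
    have := S.lie a
    rw [h0, h a ha, map_zero] at this
    linear_combination this
  obtain ⟨a₀, ⟨h3, h4⟩, h5⟩ : ∃ a₀ ∈ {a | a ∈ W ∧ nab δ a = 0}, a₀ ≠ 0 := by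
    by_contra! h3
    rw [eq_bot_iff.2 (hW.le_span.trans (span_eq_bot.2 h3).le), finrank_bot] at h2
    omega
  have a0 : A a₀ ≠ 0 := fun e => h5 (S.inj (e.trans (map_zero A).symm))
  obtain ⟨a₁, ⟨h6, h7⟩, h8⟩ : ∃ a₁ ∈ {a | a ∈ W ∧ nab δ a = 0}, Transcendental k (A a₁ / A a₀) := by
    by_contra! h6
    refine h2 ((finrank_mono (hW.le_span.trans (span_le.2 fun a ha => ?_))).trans
      (finrank_span_singleton h5).le)
    obtain ⟨e, he⟩ := mem_range_of_alg (not_not.1 (h6 a ha))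
    exact mem_span_singleton.2 ⟨e, S.inj (by rw [map_smul, Algebra.smul_def, he]; field_simp)⟩
  obtain ⟨P, hP⟩ := exists_pole h8
  have dx := S.d_ne (mem_iff_po.not.1 hP ∘ le_of_eq)
  refine (S.scale (inv_ne_zero dx)).aux_s5b hD hd hW (fun a ha => by simp [h a ha]) h8
    (inv_mul_cancel₀ dx) ?_
  rw [v.leibniz_div, fl a₀ h3 h4, fl a₁ h6 h7]
  simp only [smul_eq_mul]
  ring

lemma Nrm.mid_s5b {d' : Derivation k E E} {v' : Derivation ℤ E E} (H : Nrm δ d v A F d' v')
    (L : Type u) [Field L] [Algebra k L] [Algebra E L]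
    [Algebra L K] [IsScalarTower k L K] [IsScalarTower k E L] [IsScalarTower E L K] [FF k L]
    (γ : L) (hγ : E⟮γ⟯ = ⊤) (hD : IsD (sh v (algebraMap L K γ) d) D)
    (hd : degree D + 2 ≤ gn k K)
    (hF : ∀ a, ∃ y : E, F a + algebraMap L K γ * A a = algebraMap E K y) {r : ℕ}
    (hr : Fintype.card ι ≤
      finrank k (LinearMap.ker (d.toLinearMap ∘ₗ (F + algebraMap L K γ • A))) + r) :
    ∃ e : ℕ, (e = finrank E K ∧ Fintype.card ι ≤ gn k E + (e - 1) * r + e ^ 2) ∨
      (2 * e ≤ finrank E K ∧ 4 * (Fintype.card ι : ℤ) + degree D ≤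
        4 * (gn k E + (e - 1) * r + e ^ 2 : ℕ) + 2 * gn k K + 2) := by
  have f1 := fd_tower k L E
  have f2 := fd_tower k K L
  have c1 : CharZero E := charZero_of_injective_algebraMap (algebraMap k E).injective
  have c2 : CharZero L := charZero_of_injective_algebraMap (algebraMap k L).injective
  obtain ⟨d₁, v₁, H₁, cd, cv⟩ := H.mid L
  obtain ⟨U, hU, hU'⟩ := exists_chain δ _ hr
  let T : (ι → k) →ₗ[k] L := (Algebra.trace L K).restrictScalars k ∘ₗ A
  have hT : ∀ a, T a = Algebra.trace L K (A a) := fun _ => rfl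
  have hm : ∀ x : K, Algebra.trace L K (algebraMap L K γ * x) = γ * Algebra.trace L K x :=
    fun x => by rw [← Algebra.smul_def, map_smul, smul_eq_mul]
  have key : ∀ a, d (F a + algebraMap L K γ * A a) = 0 →
      v₁ (T a) + d₁ (γ * T a) = T (nab δ a) := by
    intro a ha
    have h1 := trace_der v v₁ H₁.cv (A a)
    have h2 : d₁ _ = Algebra.trace L K (d _) :=
      trace_der (d.restrictScalars ℤ) (d₁.restrictScalars ℤ) H₁.cd (algebraMap L K γ * A a)
    have h3 := H.sys.lie a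
    rw [map_add] at ha
    rw [hT, hT, h1, ← hm, h2, ← map_add]
    congr 1
    linear_combination h3 + ha
  have iter : ∀ l i, l ≤ i → ∀ a ∈ U i, a ∈ tz E A →
      Algebra.trace E L ((fun b => v₁ b + d₁ (γ * b))^[l] (T a)) = 0 := by
    intro l
    induction l with
    | zero => exact fun i _ a _ ha => (Algebra.trace_trace (A a)).trans ha
    | succ l ih =>
      intro i hi a h1 h2
      obtain ⟨i, rfl⟩ : ∃ j, i = j + 1 := ⟨i - 1, by omega⟩
      obtain ⟨-, h3, h4⟩ := hU i a h1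
      rw [iterate_succ_apply, key a h3]
      exact ih i (by omega) _ h4 (H.stab a h2)
  have comm : ∀ f, d₁ (v₁ f) = v₁ (d₁ f) := fun f => (algebraMap L K).injective (by
    rw [← H₁.cd, ← H₁.cv, ← H₁.cv, ← H₁.cd, H.sys.comm, zero_mul, add_zero])
  have e1 : 0 < finrank E L := finrank_pos
  have e2 : 0 < finrank L K := finrank_pos
  have e3 := finrank_mul_finrank E L K
  have b1 := ode_bound d₁ d' v₁ v' cd cv (const_st5 H.d0) comm γ hγ
    ((U (finrank E L - 1) ⊓ tz E A).map T) (by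
      rintro _ ⟨a, ha, rfl⟩ l hl
      exact iter l _ (by omega) a ha.1 ha.2)
  have b2 : _ ≤ _ + finrank k (tz L A) := rank_le_st5 T (U (finrank E L - 1) ⊓ tz E A)
  have b3 := H.finrank_le (U (finrank E L - 1))
  have b4 := hU' (finrank E L - 1)
  refine ⟨finrank E L, ?_⟩
  by_cases h1 : finrank L K = 1
  · have h2 : tz L A = ⊥ := by
      refine eq_bot_iff.2 fun a ha => H.sys.inj ?_
      obtain ⟨y, hy⟩ := (finrank_eq_one_iff_of_nonzero' (1 : K) one_ne_zero).1 h1 (A a)
      rw [← Algebra.algebraMap_eq_smul_one] at hy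
      rw [mem_tz, ← hy, Algebra.trace_algebraMap, h1, one_smul] at ha
      rw [← hy, ha, map_zero, map_zero]
    rw [h2, finrank_bot] at b2
    rw [h1, mul_one] at e3
    exact Or.inl ⟨e3, by omega⟩
  · have b5 := (H.sys.shift (algebraMap L K γ)).cdf' hD hd H₁.stab fun a ha => by
      obtain ⟨y, hy⟩ := hF a
      obtain ⟨t, ht⟩ := H₁.tr_F ha
      have h2 := congrArg (Algebra.trace L K) hy
      rw [map_add, hm, mem_tz.1 ha, mul_zero, add_zero, ht, IsScalarTower.algebraMap_apply E L K,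
        Algebra.trace_algebraMap] at h2
      have h3 := congrArg d₁ h2
      rw [d₁.map_algebraMap, map_nsmul, eq_comm, smul_eq_zero] at h3
      change d (F a + algebraMap L K γ * A a) = 0
      rw [hy, IsScalarTower.algebraMap_apply E L K, H₁.cd, h3.resolve_left e2.ne', map_zero]
    refine Or.inr ⟨?_, by omega⟩
    rw [← e3, mul_comm]
    exact Nat.mul_le_mul_left _ (by omega)

lemma Nrm.step_s5b {d' : Derivation k E E} {v' : Derivation ℤ E E} (H : Nrm δ d v A F d' v')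
    (β : K) (hD : IsD (sh v β d) D) (hd : degree D + 2 ≤ gn k K)
    (hF : ∀ a, ∃ y : E, F a + β * A a = algebraMap E K y) {r : ℕ}
    (hr : Fintype.card ι ≤ finrank k (LinearMap.ker (d.toLinearMap ∘ₗ (F + β • A))) + r) :
    ∃ e : ℕ, (e = finrank E K ∧ Fintype.card ι ≤ gn k E + (e - 1) * r + e ^ 2) ∨
      (2 * e ≤ finrank E K ∧ 4 * (Fintype.card ι : ℤ) + degree D ≤
        4 * (gn k E + (e - 1) * r + e ^ 2 : ℕ) + 2 * gn k K + 2) := by
  obtain ⟨y, hy⟩ := FF.ex (k := k) (K := E)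
  have : FF k E⟮β⟯ := ff_sub (E⟮β⟯.restrictScalars k) (E⟮β⟯.algebraMap_mem y) (trans_up hy)
  have : IsScalarTower k E⟮β⟯ K := ⟨fun a b c => smul_assoc a (b : K) c⟩
  refine H.mid_s5b E⟮β⟯ (IntermediateField.AdjoinSimple.gen E β) ?_ hD hd hF hr
  refine IntermediateField.lift_injective _ ?_
  rw [IntermediateField.lift_adjoin_simple, IntermediateField.lift_top]
  rfl

/-- As `Nrm.mid_st5`, `Nrm.step5`, `Sys.step5` with `cdf'` in place of `cdf`: carry the hypothesis
`IsD (sh v β d) D`; the two shifts cancel. -/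
theorem Sys.step5' (S : Sys δ d v c A F) (hD : IsD v D) (hd : degree D + 2 ≤ gn k K)
    (hF : ∀ a, ∃ y : E, F a = algebraMap E K y) {r : ℕ}
    (hr : Fintype.card ι ≤ finrank k (LinearMap.ker (d.toLinearMap ∘ₗ F)) + r) :
    ∃ e : ℕ, (e = finrank E K ∧ Fintype.card ι ≤ gn k E + (e - 1) * r + e ^ 2) ∨
      (2 * e ≤ finrank E K ∧ 4 * (Fintype.card ι : ℤ) + degree D ≤
        4 * (gn k E + (e - 1) * r + e ^ 2 : ℕ) + 2 * gn k K + 2) := by
  obtain ⟨s, β, d', v', hs, H⟩ := S.exists_nrm E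
  have e : F + β • s • A + (-β) • s • A = F := by
    ext1 a
    simp
  have e₂ : sh (sh v β (s • d)) (-β) (s • d) = v := by
    ext f
    rw [sh_apply, sh_apply, neg_mul, add_neg_cancel_right]
  refine H.step_s5b (-β) (e₂.symm ▸ hD) hd (fun a => ?_) ?_
  · obtain ⟨y, hy⟩ := hF a
    exact ⟨y, (LinearMap.congr_fun e a).trans hy⟩
  · have e' : LinearMap.ker ((s • d).toLinearMap ∘ₗ F) = LinearMap.ker (d.toLinearMap ∘ₗ F) := by
      ext a
      exact smul_eq_zero_iff_right hs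
    rwa [e, e']

end Pool.Agent.Lib.MP_13404a_ag.UB
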