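import Pool.Agent.Lib.MP_13404a_ag.UB.S1b
import Pool.Agent.Lib.MP_13404a_ag.UB.Lev
import Pool.Agent.Lib.MP_13404a_ag.UB.S5b
import Pool.Agent.Lib.MP_13404a_ag.UB.Dbl

/-!
The bound of slope two thirds for systems in coordinates.
-/

open Module Submodule Function Finsupp
open scoped IntermediateField Polynomial

namespace Pool.Agent.Lib.MP_13404a_ag.UB

open Pool.Agent.Lib.MP_15f242_ag

variable {k K : Type} [Field k] [CharZero k] [Field K] [Algebra k K] [FF k K]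
  {ι : Type} [Fintype ι] {δ : Derivation ℤ k k} {d : Derivation k K K} {v : Derivation ℤ K K}
  {c : K} {A F : (ι → k) →ₗ[k] K} {κ D : Div k K}

lemma Sys.two_aux {E : Type} [Field E] [Algebra k E] [Algebra E K] [IsScalarTower k E K] [FF k E]
    (S : Sys δ d v c A F) (hκ : IsK d κ) (hD : IsD v D) (h : degree D + 2 ≤ gn k K) {r n : ℕ}
    (hr : ll D = r + 1) (r1 : 1 ≤ r) {M : Div k K} (T : Dat E D M r n)
    (he : (finrank E K = 1 ∧ gn k E = gn k K) ∨ 2 ≤ finrank E K) :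
    3 * Fintype.card ι ≤ 2 * gn k K + 21 := by
  have hq := S.finrank_le ⊤
  rw [finrank_top, finrank_fintype_fun_eq_card] at hq
  obtain ⟨H, x, p, μ, ρ, L, p0, x0, h0, h1, e1, e2, e3, hz⟩ := S.exists_lv hκ hD hr r1 T
  have h4 := degree_mono hD.nonneg
  rw [map_zero] at h4
  obtain ⟨N, hN⟩ := Int.eq_ofNat_of_zero_le h4
  have h5 := S.card_le_ll hκ hD
  have h6 := hκ.rr D
  have h7 := T.ser
  have h8 : 1 * n ≤ finrank E K * n := Nat.mul_le_mul_right n (by omega)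
  by_cases h9 : 2 ≤ r ∧ 3 * r ≤ n ∧ (4 * r ≤ n ∨ 6 * r ≤ N)
  · have := L.strong h9.1 h9.2.1 (δ := N) (by omega) (by omega) (by omega) h9.2.2
    omega
  have h10 := h7.1
  have h11 := h7.2.2.1
  obtain ⟨-, he⟩ | he := he
  · exact num_bir (δ := N) r1 (by omega) (by omega) (by omega) (by omega) (he ▸ h7)
  have h12 := Nat.mul_le_mul_right n he
  obtain ⟨f, h13⟩ := S.step5' (E := E) (r := r) hD h (fun a => T.mem _ (S.F_mem hD a))
    (by have := S.card_le_ker hD; omega)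
  have h14 := Nat.div_mul_le_self (2 * gn k K - 2 - N) (μ + ρ)
  have h15 := Nat.lt_mul_div_succ (2 * gn k K - 2 - N) (show 0 < μ + ρ by omega)
  set J := (2 * gn k K - 2 - N) / (μ + ρ)
  have h16 := hz (J + 1) (by
    have : 2 * gn k K < (J + 1) * (μ + ρ) + N + 2 := by rw [mul_comm (J + 1)]; omega
    rw [hN]
    exact_mod_cast this)
  have h17 := L.half (J + 1) 0 (by rwa [zero_add])
  have h18 := L.half J 1 (by rwa [add_comm])
  have h19 := L.succ 0
  rw [zero_add] at h19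
  refine num_cov (δ := N) (J := J) (f := f) (ρ := ρ) hq r1 (by omega) (by omega) he (by omega) e1
    (by omega) h7 (by omega) ?_ ?_ (h13.imp_right fun h20 => ⟨h20.1, by omega⟩)
  · zify
    push_cast at h17
    linarith
  · zify at h0 h1 hr ⊢
    linarith

theorem Sys.case_two' (S : Sys δ d v c A F) (hD : IsD v D) (h : degree D + 2 ≤ gn k K) :
    3 * Fintype.card ι ≤ 2 * gn k K + 21 := by
  obtain ⟨κ, hκ⟩ := exists_isK S.d0
  have h1 : (1 : K) ∈ H0 (OD D) := mem_L.2 fun P => fil_of_mem (one_mem _) (hD.nonneg P)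
  have h2 := ll_mono hD.nonneg
  rw [ll_zero] at h2
  obtain ⟨r, hr⟩ := Nat.exists_eq_add_of_le' h2
  rcases Nat.eq_zero_or_pos r with rfl | r1
  · have h4 := S.cdf (W := ⊤) (fun _ _ => trivial) fun a _ => by
      obtain ⟨e, he⟩ := (finrank_eq_one_iff_of_nonzero' (⟨1, h1⟩ : H0 (OD D)) (by simp)).1 hr
        ⟨_, S.F_mem hD a⟩
      rw [show F a = e • (1 : K) from (congrArg Subtype.val he).symm]
      simp
    rw [finrank_top, finrank_fintype_fun_eq_card] at h4
    omega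
  obtain ⟨M, n, T⟩ | ⟨E, _, he, M, n, T⟩ := exists_dat hD.nonneg hr r1
  · exact S.two_aux hκ hD h hr r1 T (.inl ⟨finrank_self K, rfl⟩)
  · exact S.two_aux hκ hD h hr r1 T (.inr he)

lemma Sys.one_aux {E : Type} [Field E] [Algebra k E] [Algebra E K] [IsScalarTower k E K] [FF k E]
    (S : Sys δ d v c A F) (hκ : IsK d κ) {Δ M : Div k K} {a n : ℕ} (T : Dat E Δ M a n)
    (ha : ll Δ = a + 1) (a1 : 1 ≤ a) (h1 : degree Δ + 1 ≤ gn k K)
    (h2 : Fintype.card ι + 1 ≤ ll Δ + ll (κ - Δ))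
    (h3 : Fintype.card ι / 2 + finrank k (H0 (OD Δ) * H0 (OD (κ - Δ)) : Submodule k K) + 1 ≤
      ll Δ + gn k K) (he : (finrank E K = 1 ∧ gn k E = gn k K) ∨ 2 ≤ finrank E K) :
    3 * Fintype.card ι ≤ 2 * gn k K + 21 := by
  have h4 := hκ.rr Δ
  obtain ⟨s, s0, hs⟩ := exists_mem_L (D := κ - Δ) (by omega)
  have h5 := T.prod (κ - Δ) 1 (fun _ => s) (fun _ => (mem_L' s0).2 hs)
    (linearIndependent_unique_iff.2 s0)
  obtain ⟨h6, -, h7, -⟩ := T.stp ha (κ - Δ)
  obtain ⟨h8, h9, -⟩ := T.ser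
  have h10 := degree_mono T.le
  rw [T.deg] at h10
  by_cases h11 : 2 * a ≤ n + 1
  · omega
  obtain ⟨he, h12⟩ | he := he
  · rw [he] at h10
    omega
  rcases he.eq_or_lt with he | he
  · have := S.double he.symm
    rw [← he] at h10
    omega
  have h12 : 3 * (n : ℤ) ≤ finrank E K * n := by gcongr; exact_mod_cast he
  by_cases h13 : Line E (H0 (OD (κ - Δ)))
  · obtain ⟨m, h14, h15, -⟩ := line_bound le_rfl
      (fun e => s0 ((mem_bot k).1 (e.le ((mem_L' s0).2 hs)))) h13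
    have h16 : 3 * (m : ℤ) ≤ finrank E K * m := by gcongr; exact_mod_cast he
    rw [map_sub, hκ.degree_eq] at h14
    rw [← ll] at h15
    omega
  obtain ⟨t, ht, h14⟩ : ∃ t ∈ H0 (OD (κ - Δ)), ∀ y : E, y • s ≠ t := by
    by_contra! h14
    exact h13 ⟨s, fun b hb => (h14 b hb).imp fun y hy => by rw [← hy, Algebra.smul_def]⟩
  have h15 := T.prod (κ - Δ) 2 ![s, t] (by
    intro i
    fin_cases i
    exacts [(mem_L' s0).2 hs, ht]) ((LinearIndependent.pair_iff' s0).2 h14)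
  omega

theorem Sys.bound' [Uncountable k] (S : Sys δ d v c A F) :
    3 * Fintype.card ι ≤ 2 * gn k K + 21 := by
  by_cases h0 : Fintype.card ι < 2
  · omega
  obtain ⟨κ, hκ⟩ := exists_isK S.d0
  obtain ⟨β, D, Δ, hD, h1, h2, h3, h4, h5⟩ := S.step1b hκ (not_lt.1 h0)
  by_cases h6 : degree D + 2 ≤ gn k K
  · exact (S.shift β).case_two' hD h6
  have h7 := (S.shift β).card_le_ll hκ hD
  rw [← h2, ← h3] at h7
  rw [map_sub, hκ.degree_eq] at h4
  have h8 := ll_mono h1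
  rw [ll_zero] at h8
  obtain ⟨a, ha⟩ := Nat.exists_eq_add_of_le' h8
  rcases Nat.eq_zero_or_pos a with rfl | a1
  · have h9 := hκ.rr Δ
    have h10 : ll (κ - Δ) ≤ finrank k (H0 (OD Δ) * H0 (OD (κ - Δ)) : Submodule k K) := by
      have : FiniteDimensional k (H0 (OD Δ) * H0 (OD (κ - Δ)) : Submodule k K) :=
        Module.Finite.iff_fg.2 ((Module.Finite.iff_fg.1 inferInstance).mul
          (Module.Finite.iff_fg.1 inferInstance))
      exact finrank_mono fun x hx => one_mul x ▸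
        mul_mem_mul (mem_L.2 fun P => fil_of_mem (one_mem _) (h1 P)) hx
    omega
  obtain ⟨M, n, T⟩ | ⟨E, _, he, M, n, T⟩ := exists_dat h1 ha a1
  · exact S.one_aux hκ T ha a1 (by omega) h7 h5 (.inl ⟨finrank_self K, rfl⟩)
  · exact S.one_aux hκ T ha a1 (by omega) h7 h5 (.inr he)

end Pool.Agent.Lib.MP_13404a_ag.UB
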