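import Pool.Agent.Lib.MP_13404a_ag.UB.Defs

/-!
Differentials that are closed along a derivation of the base.
-/

namespace Pool.Agent.Lib.MP_13404a_ag.UB

/-- `dω (v, u) = v (ω u) - u (ω v) - ω [v, u]` vanishes whenever `v` extends the derivation `δ` of
`k` and `u` kills `k`. -/
def ClosedAlong {R k : Type} (K : Type) [Field R] [Field k] [Field K] [Algebra R k] [Algebra R K]
    [Algebra k K] (δ : Derivation R k k) (ω : Ω[K⁄R]) : Prop :=
  ∀ v u : Derivation R K K, (∀ c, v (algebraMap k K c) = algebraMap k K (δ c)) →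
    (∀ c, u (algebraMap k K c) = 0) →
    v (u.liftKaehlerDifferential ω) - u (v.liftKaehlerDifferential ω) =
      ⁅v, u⁆.liftKaehlerDifferential ω

end Pool.Agent.Lib.MP_13404a_ag.UB
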