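import Pool.Agent.Lib.MP_13404a_ag.UB.Stm
import Pool.Agent.Lib.MP_13404a_ag.UB.Co2
import Pool.Agent.Lib.MP_13404a_ag.UB.Defs2

/-!
The bound of slope two thirds for differentials.
-/

open Module Submodule Function Finsupp
open scoped IntermediateField Polynomial

namespace Pool.Agent.Lib.MP_13404a_ag.UB

open Pool.Agent.Lib.MP_15f242_ag

variable {k K : Type} [Field k] [IsAlgClosed k] [Algebra ℂ k] [Field K] [Algebra k K] [Algebra ℂ K]
  [IsScalarTower ℂ k K]

omit [IsAlgClosed k] in
/-- As `exists_sys`, for a given derivation of the base. -/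
lemma exists_sys' [FF k K] (δ : Derivation ℂ k k)
    (hδ : ∀ y, δ y = 0 → ∃ c : ℂ, y = algebraMap ℂ k c) (hn : ¬ Isotrivial k K) {q : ℕ}
    (ω : Fin q → Ω[K⁄ℂ]) (hc : ∀ i, ClosedAlong K δ (ω i)) (hr : ∀ i, ω i ∈ regAlong ℂ k K)
    (hi : LinearIndependent k fun i => KaehlerDifferential.map ℂ k K K (ω i)) :
    haveI : CharZero k := charZero_of_injective_algebraMap (algebraMap ℂ k).injective
    ∃ (d : Derivation k K K) (v : Derivation ℤ K K)
      (A F : (Fin q → k) →ₗ[k] K), Sys (δ.restrictScalars ℤ) d v 0 A F := by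
  classical
  have : CharZero k := charZero_of_injective_algebraMap (algebraMap ℂ k).injective
  obtain ⟨x, hx⟩ := FF.ex (k := k) (K := K)
  obtain ⟨d, hd⟩ := exists_der hx 1
  obtain ⟨v₀, hv, he⟩ := exists_der_ext hx (δ.restrictScalars ℤ)
  obtain ⟨v, hv'⟩ := exists_lin_stm (R := ℂ) v₀ fun c => by
    rw [IsScalarTower.algebraMap_apply ℂ k K, he]
    simp
  have he' : ∀ c, v (algebraMap k K c) = algebraMap k K (δ c) := fun c => (hv' _).trans (he c)
  have d0 : d ≠ 0 := fun e => by simp [e] at hd
  have cm : ⁅v, d.restrictScalars ℂ⁆ = 0 := Derivation.ext (der_eq_zero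
    (⁅v, d.restrictScalars ℂ⁆.restrictScalars ℤ) (fun c => by simp [Derivation.commutator_apply, he'])
    hx (by simp [Derivation.commutator_apply, hv', hv, hd]))
  refine ⟨d, v.restrictScalars ℤ, Fintype.linearCombination k
    fun i => (d.restrictScalars ℂ).liftKaehlerDifferential (ω i), Fintype.linearCombination k
    fun i => v.liftKaehlerDifferential (ω i), d0, he', fun f => ?_, ?_, fun a => ?_,
    fun P π hπ a => ?_, fun β h => ?_⟩
  · have := Derivation.congr_fun cm f
    rw [Derivation.commutator_apply] at this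
    simpa using (sub_eq_zero.1 this).symm
  · rw [← linearIndependent_iff_injective_fintypeLinearCombination]
    simp only [← lift_map_stm]
    refine hi.map' (d.liftKaehlerDifferential.restrictScalars k) (LinearMap.ker_eq_bot'.2 ?_)
    intro η h
    rw [eq_smul_stm hx hd η, show d.liftKaehlerDifferential η = 0 from h, zero_smul]
  · simp only [Fintype.linearCombination_apply, map_sum, zero_mul, add_zero,
      ← Finset.sum_add_distrib]
    refine Finset.sum_congr rfl fun i _ => ?_
    have := hc i v (d.restrictScalars ℂ) he' d.map_algebraMap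
    rw [cm, lift_zero_stm, sub_eq_zero] at this
    simp [Algebra.smul_def, he', nab, this]
    ring
  · have p0 : π ≠ 0 := ne_zero_sys (P := P) (by omega)
    have h1 : d π ≠ 0 := fun h => d0 (Derivation.ext
      (der_eq_zero (d.restrictScalars ℤ) d.map_algebraMap (trans_of_po (P := P) (by omega)) h))
    have key : ∀ (u : Derivation ℂ K K), (∀ c, u (algebraMap k K c) ∈ P.1) → u π ∈ P.1 → ∀ i,
        u.liftKaehlerDifferential (ω i) ∈ P.1 := fun u h2 h3 i =>
      mem_fil_zero.1 (lift_mem_stm (hr i) u fun f hf =>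
        mem_fil_zero.2 (der_mem p0 hπ (D := u.restrictScalars ℤ) h2 h3 hf))
    have h2 := key (0 + (d π)⁻¹ • d.restrictScalars ℂ) (by simp) (by simp [h1])
    have h3 := key (v + -(v π / d π) • d.restrictScalars ℂ) (by simp [he']) (by simp [h1])
    simp only [lift_comb_stm] at h2 h3
    simp only [lift_zero_stm, zero_add] at h2
    simp only [Fintype.linearCombination_apply, Finset.sum_div, Finset.sum_mul,
      ← Finset.sum_sub_distrib]
    refine ⟨sum_mem fun i _ => ?_, sum_mem fun i _ => ?_⟩
    · convert P.1.smul_mem (h2 i) (a i) using 1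
      simp only [Algebra.smul_def]
      ring
    · convert P.1.smul_mem (h3 i) (a i) using 1
      simp only [Algebra.smul_def, Derivation.restrictScalars_apply]
      ring
  · exact hn (isotrivial_of hδ (v + β • d.restrictScalars ℂ) (by simp [he']) h)

theorem main' (δ : Derivation ℂ k k) (hδ : ∀ y, δ y = 0 → ∃ c : ℂ, y = algebraMap ℂ k c)
    (hK : ∃ x : K, Transcendental k x ∧ FiniteDimensional k⟮x⟯ K) (hn : ¬ Isotrivial k K) {q : ℕ}
    (ω : Fin q → Ω[K⁄ℂ]) (hc : ∀ i, ClosedAlong K δ (ω i)) (hr : ∀ i, ω i ∈ regAlong ℂ k K)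
    (hi : LinearIndependent k fun i => KaehlerDifferential.map ℂ k K K (ω i)) :
    3 * q ≤ 2 * finrank k (regAlong k k K) + 21 := by
  obtain ⟨x, hx, hf⟩ := hK
  have : FF k K := ff_of_one hx
  have : CharZero k := charZero_of_injective_algebraMap (algebraMap ℂ k).injective
  have : Uncountable k :=
    ((algebraMap ℂ k).injective.comp Complex.ofReal_injective).uncountable
  obtain ⟨d, v, A, F, S⟩ := exists_sys' δ hδ hn ω hc hr hi
  have h := S.bound'
  rwa [Fintype.card_fin, ← finrank_regAlong] at h

end Pool.Agent.Lib.MP_13404a_ag.UB
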