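import Pool.Agent.Lib.MP_13404a_ag.UB.Sys

/-!
The case of Castelnuovo-de Franchis type.
-/

open Module Submodule Function Finsupp
open scoped IntermediateField Polynomial

namespace Pool.Agent.Lib.MP_13404a_ag.UB

open Pool.Agent.Lib.MP_15f242_ag

universe u

variable {k K : Type u} [Field k] [CharZero k] [Field K] [Algebra k K] [FF k K]
  {ι : Type} [Fintype ι] {δ : Derivation ℤ k k} {d : Derivation k K K} {v : Derivation ℤ K K}
  {c : K} {A F : (ι → k) →ₗ[k] K} {κ D : Div k K}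

lemma two_le_finrank_cdf {E : IntermediateField k K} [FF k E] (h : E ≠ ⊤) : 2 ≤ finrank E K := by
  have := fd_tower k K E
  have h1 : 0 < finrank E K := finrank_pos
  have h2 : finrank E K ≠ 1 := fun e => h (IntermediateField.finrank_eq_one_iff_eq_top.1 e)
  omega

lemma Sys.aux_cdf (S : Sys δ d v c A F) {W : Submodule k (ι → k)} (hW : Stab δ W)
    (h : ∀ a ∈ W, d (F a) = 0) {x : K} (hx : Transcendental k x) (h1 : d x = 1) (h2 : v x = 0) :
    2 * finrank k W ≤ gn k K + 1 := by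
  have hc : c = 0 := by simpa [h1, h2] using (S.comm x).symm
  obtain ⟨κ, hκ⟩ := exists_isK S.d0
  set E := IntermediateField.adjoin k {f | v f + 0 * d f = 0} with hE
  have hxE : x ∈ E := IntermediateField.subset_adjoin _ _ (by simp [h2])
  have := ff_sub E hxE hx
  have e2 := two_le_finrank_cdf (S.ni 0)
  have hB : ∀ a ∈ W, A a ∈ E := fun a ha => by
    have : span k {a | a ∈ W ∧ nab δ a = 0} ≤ E.toSubmodule.comap A := span_le.2 fun b hb =>
      IntermediateField.subset_adjoin _ _ (by simpa [hc, hb.2, h b hb.1] using S.lie b)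
    exact this (hW.le_span ha)
  have hx' : Transcendental k (⟨x, hxE⟩ : E) :=
    (transcendental_algebraMap_iff (algebraMap E K).injective).1 hx
  obtain ⟨d', hd'⟩ := exists_der hx' 1
  obtain ⟨κ', hκ'⟩ := exists_isK (d := d') fun e => by simp [e] at hd'
  have cd : ∀ f, d (algebraMap E K f) = algebraMap E K (d' f) :=
    der_compat (D := d.restrictScalars ℤ) (D' := d'.restrictScalars ℤ) (fun a => by simp) hx'
      (by simpa [hd'] using h1)
  have h3 : W.map A ≤ (H0 (OD κ')).map E.val.toLinearMap := by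
    rintro _ ⟨a, ha, rfl⟩
    exact ⟨⟨A a, hB a ha⟩, (hκ.map_mem_iff hκ' cd).1 (S.mem_K hκ a), rfl⟩
  have h4 := (finrank_mono h3).trans (finrank_map_le _ _)
  rw [S.finrank_map, ← ll, hκ'.ll_eq] at h4
  by_cases h0 : W.map A = ⊥
  · rw [← S.finrank_map, h0, finrank_bot]
    omega
  obtain ⟨n, h5, -, h6⟩ := line_bound (E := E) (map_le_iff_le_comap.2 fun a _ => S.mem_K hκ a) h0
    ⟨1, by rintro _ ⟨a, ha, rfl⟩; exact ⟨⟨A a, hB a ha⟩, (mul_one _).symm⟩⟩
  rw [hκ.degree_eq] at h5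
  rw [S.finrank_map] at h6
  have h7 : 2 * (n : ℤ) ≤ finrank E K * n := by gcongr; exact_mod_cast e2
  omega

/-- If the dimension is at most one use `finrank_le`. Else take independent flat `a₀, a₁ ∈ W`
(`Stab.le_span`); `x = A a₁ / A a₀` is not constant and `v x = 0`. After scaling by `(d x)⁻¹` one
has `d x = 1`, `c = 0`, so `v (A a) = 0` for flat `a` and `W.map A` lies in
`E = adjoin k {f | v f = 0} ≠ ⊤`. With `d'` on `E`, `d' x = 1` (`exists_der`, `der_eq_zero`),
`IsK.map_mem_iff` gives `finrank W ≤ gn k E`; conclude with `line_bound` and `2 ≤ finrank E K`. -/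
theorem Sys.cdf (S : Sys δ d v c A F) {W : Submodule k (ι → k)} (hW : Stab δ W)
    (h : ∀ a ∈ W, d (F a) = 0) : 2 * finrank k W ≤ gn k K + 1 := by
  have h1 := S.finrank_le W
  by_cases h2 : finrank k W ≤ 1
  · omega
  have fl : ∀ a ∈ W, nab δ a = 0 → v (A a) = -(c * A a) := fun a ha h0 => by
    have := S.lie a
    rw [h0, h a ha, map_zero] at this
    linear_combination this
  obtain ⟨a₀, ⟨h3, h4⟩, h5⟩ : ∃ a₀ ∈ {a | a ∈ W ∧ nab δ a = 0}, a₀ ≠ 0 := by
    by_contra! h3
    rw [eq_bot_iff.2 (hW.le_span.trans (span_eq_bot.2 h3).le), finrank_bot] at h2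
    omega
  have a0 : A a₀ ≠ 0 := fun e => h5 (S.inj (e.trans (map_zero A).symm))
  obtain ⟨a₁, ⟨h6, h7⟩, h8⟩ : ∃ a₁ ∈ {a | a ∈ W ∧ nab δ a = 0}, Transcendental k (A a₁ / A a₀) := by
    by_contra! h6
    refine h2 ((finrank_mono (hW.le_span.trans (span_le.2 fun a ha => ?_))).trans
      (finrank_span_singleton h5).le)
    obtain ⟨e, he⟩ := mem_range_of_alg (not_not.1 (h6 a ha))
    exact mem_span_singleton.2 ⟨e, S.inj (by rw [map_smul, Algebra.smul_def, he]; field_simp)⟩
  obtain ⟨P, hP⟩ := exists_pole h8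
  have dx := S.d_ne (mem_iff_po.not.1 hP ∘ le_of_eq)
  refine (S.scale (inv_ne_zero dx)).aux_cdf hW (fun a ha => by simp [h a ha]) h8
    (inv_mul_cancel₀ dx) ?_
  rw [v.leibniz_div, fl a₀ h3 h4, fl a₁ h6 h7]
  simp only [smul_eq_mul]
  ring

end Pool.Agent.Lib.MP_13404a_ag.UB
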