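import Pool.Agent.Lib.MP_13404a_ag.UB.Loc

/-!
Linear algebra with derivations.
-/

open Module Submodule Function Finsupp
open scoped IntermediateField Polynomial

namespace Pool.Agent.Lib.MP_13404a_ag.UB

open Pool.Agent.Lib.MP_15f242_ag

universe u

variable {k : Type u} [Field k]

/-- Horizontal vectors that are independent over the constants are independent. Take a relation
with the fewest terms, normalise one coefficient to `1` and apply `N`. -/
lemma hor_indep {L Y : Type*} [Field L] [Algebra k L] [AddCommGroup Y] [Module L Y] [Module k Y]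
    [IsScalarTower k L Y] (d : Derivation k L L)
    (hd : ∀ f, d f = 0 → ∃ a : k, f = algebraMap k L a) (N : Y →+ Y)
    (hN : ∀ (a : L) (y : Y), N (a • y) = d a • y + a • N y) {J : Type*} {y : J → Y}
    (h0 : ∀ i, N (y i) = 0) (hy : LinearIndependent k y) : LinearIndependent L y := by
  classical
  rw [linearIndependent_iff'] at hy ⊢
  intro s
  induction s using Finset.induction_on with
  | empty => simp
  | insert j s hj ih =>
    intro g hg
    rw [Finset.sum_insert hj] at hg
    have hgj : g j = 0 := by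
      by_contra hne
      have h1 : y j + ∑ i ∈ s, ((g j)⁻¹ * g i) • y i = 0 := by
        have := congrArg ((g j)⁻¹ • ·) hg
        simpa only [smul_add, Finset.smul_sum, smul_smul, inv_mul_cancel₀ hne, one_smul,
          smul_zero] using this
      have h2 := congrArg N h1
      simp only [map_add, map_sum, hN, h0, smul_zero, add_zero, zero_add, map_zero] at h2
      choose! a ha using fun i hi => hd _ (ih _ h2 i hi)
      have h3 := hy (insert j s) (Function.update a j 1) (by
        rw [Finset.sum_insert hj, Function.update_self, one_smul, ← h1]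
        congr 1
        refine Finset.sum_congr rfl fun i hi => ?_
        rw [Function.update_of_ne (ne_of_mem_of_not_mem hi hj), ha i hi, algebraMap_smul]) j
        (Finset.mem_insert_self _ _)
      simp at h3
    rw [hgj, zero_smul, zero_add] at hg
    intro i hi
    rcases Finset.mem_insert.1 hi with rfl | hi
    exacts [hgj, ih g hg i hi]

/-- The derivatives of a vector with independent coordinates span (`hor_indep` for `Y = ℕ → L`,
`N y j = d (y j) - y (j + 1)`; a proper subspace lies in the kernel of a nonzero functional). -/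
lemma wronski_span {L : Type*} [Field L] [Algebra k L] (d : Derivation k L L)
    (hd : ∀ f, d f = 0 → ∃ a : k, f = algebraMap k L a) {J : Type} [Fintype J] {φ : J → L}
    (hφ : LinearIndependent k φ) :
    span L (Set.range fun (j : ℕ) (i : J) => (d : L → L)^[j] (φ i)) = ⊤ := by
  classical
  by_contra h
  obtain ⟨f, hf0, hf⟩ := Submodule.exists_le_ker_of_lt_top _ (lt_top_iff_ne_top.2 h)
  let N : (ℕ → L) →+ (ℕ → L) :=
    { toFun := fun y j => d (y j) - y (j + 1)
      map_zero' := by ext; simp
      map_add' := fun y z => by ext; simp; ring }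
  have h1 := hor_indep d hd N (fun a y => by ext; simp [N]; ring)
    (y := fun i j => (d : L → L)^[j] (φ i))
    (fun i => by ext j; simp [N, Function.iterate_succ_apply'])
    (LinearIndependent.of_comp (LinearMap.proj 0) hφ)
  have h2 := Fintype.linearIndependent_iff.1 h1 (fun i => f (Pi.single i 1)) (by
    ext j
    have h3 := hf (subset_span ⟨j, rfl⟩)
    rw [LinearMap.mem_ker, LinearMap.pi_apply_eq_sum_univ] at h3
    rw [Finset.sum_apply, Pi.zero_apply, ← h3]
    refine Finset.sum_congr rfl fun i _ => ?_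
    rw [Pi.smul_apply, smul_eq_mul, smul_eq_mul, mul_comm]
    congr 2
    ext l
    simp [Pi.single_apply, eq_comm])
  exact hf0 (LinearMap.pi_ext' fun i => LinearMap.ext_ring (h2 i))

variable {ι : Type} [Fintype ι]

/-- The derivation applied to the coordinates. -/
def nab (δ : Derivation ℤ k k) (a : ι → k) : ι → k := fun i => δ (a i)

omit [Fintype ι] in
lemma nab_add (δ : Derivation ℤ k k) (a b : ι → k) : nab δ (a + b) = nab δ a + nab δ b :=
  funext fun i => map_add δ (a i) (b i)

omit [Fintype ι] in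
lemma nab_smul (δ : Derivation ℤ k k) (s : k) (a : ι → k) :
    nab δ (s • a) = δ s • a + s • nab δ a :=
  funext fun i => (δ.leibniz s (a i)).trans (by simp [nab, mul_comm, add_comm])

/-- Stable subspaces. -/
def Stab (δ : Derivation ℤ k k) (W : Submodule k (ι → k)) : Prop := ∀ a ∈ W, nab δ a ∈ W

/-- Induction on the support: a nonzero element of `W` with minimal support, normalised to have a
coordinate `1`, is flat; subtract a multiple of it. -/
lemma Stab.le_span {δ : Derivation ℤ k k} {W : Submodule k (ι → k)} (h : Stab δ W) :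
    W ≤ span k {a | a ∈ W ∧ nab δ a = 0} := by
  classical
  have flat : ∀ (n : ℕ) (a : ι → k), (Finset.univ.filter fun i => a i ≠ 0).card = n → a ∈ W →
      a ≠ 0 → ∃ b ∈ W, b ≠ 0 ∧ nab δ b = 0 ∧ ∀ i, a i = 0 → b i = 0 := by
    intro n
    induction n using Nat.strong_induction_on with
    | h n ih =>
      intro a hn ha h0
      obtain ⟨i, hi⟩ := Function.ne_iff.1 h0
      have hi' : a i ≠ 0 := hi
      have h1 : ∀ j, a j = 0 → ((a i)⁻¹ • a) j = 0 := fun j hj => by simp [hj]
      by_cases h2 : nab δ ((a i)⁻¹ • a) = 0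
      · exact ⟨_, W.smul_mem _ ha, smul_ne_zero (inv_ne_zero hi') h0, h2, h1⟩
      have h3 : ∀ j, a j = 0 → nab δ ((a i)⁻¹ • a) j = 0 := fun j hj => by
        rw [nab, h1 j hj, map_zero]
      obtain ⟨b, b1, b2, b3, b4⟩ := ih _ (hn ▸ Finset.card_lt_card ⟨fun j hj =>
        Finset.mem_filter.2 ⟨Finset.mem_univ _, fun h => (Finset.mem_filter.1 hj).2 (h3 j h)⟩,
        fun h => (Finset.mem_filter.1 (h (Finset.mem_filter.2 ⟨Finset.mem_univ i, hi'⟩))).2
          (by simp [nab, hi'])⟩) _ rfl (h _ (W.smul_mem _ ha)) h2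
      exact ⟨b, b1, b2, b3, fun j hj => b4 j (h3 j hj)⟩
  suffices key : ∀ (n : ℕ) (a : ι → k), (Finset.univ.filter fun i => a i ≠ 0).card = n → a ∈ W →
      a ∈ span k {a | a ∈ W ∧ nab δ a = 0} from fun a ha => key _ a rfl ha
  intro n
  induction n using Nat.strong_induction_on with
  | h n ih =>
    intro a hn ha
    by_cases h0 : a = 0
    · rw [h0]; exact zero_mem _
    obtain ⟨b, b1, b2, b3, b4⟩ := flat n a hn ha h0
    obtain ⟨i, hi⟩ := Function.ne_iff.1 b2
    have hi' : b i ≠ 0 := hi
    have h1 := ih _ (hn ▸ Finset.card_lt_card ⟨fun j hj =>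
        Finset.mem_filter.2 ⟨Finset.mem_univ _, fun h => (Finset.mem_filter.1 hj).2
          (by simp [h, b4 j h])⟩,
        fun h => (Finset.mem_filter.1 (h (Finset.mem_filter.2
          ⟨Finset.mem_univ i, fun h => hi' (b4 i h)⟩))).2 (by simp [hi'])⟩)
      (a - (a i / b i) • b) rfl (W.sub_mem ha (W.smul_mem _ b1))
    rw [← sub_add_cancel a ((a i / b i) • b)]
    exact add_mem h1 (smul_mem _ _ (subset_span ⟨b1, b3⟩))

/-- One step of the filtration. -/
def step_hor (δ : Derivation ℤ k k) (U₁ V : Submodule k (ι → k)) : Submodule k (ι → k) where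
  carrier := {a | a ∈ V ∧ a ∈ U₁ ∧ nab δ a ∈ V}
  add_mem' ha hb := ⟨add_mem ha.1 hb.1, add_mem ha.2.1 hb.2.1,
    nab_add δ _ _ ▸ add_mem ha.2.2 hb.2.2⟩
  zero_mem' := ⟨zero_mem _, zero_mem _, by
    rw [show nab δ (0 : ι → k) = 0 from funext fun _ => map_zero δ]; exact zero_mem _⟩
  smul_mem' s _ ha := ⟨smul_mem _ _ ha.1, smul_mem _ _ ha.2.1,
    nab_smul δ s _ ▸ add_mem (smul_mem _ _ ha.1) (smul_mem _ _ ha.2.2)⟩

/-- The filtration. `U (i + 1)` consists of the `a ∈ U i ⊓ U₁` with `nab δ a ∈ U i`; for `i ≥ 1`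
the map `a ↦ nab δ a` from `U i` to `U (i - 1) / U i` is linear with kernel `U (i + 1)`. -/
lemma exists_chain (δ : Derivation ℤ k k) (U₁ : Submodule k (ι → k)) {r : ℕ}
    (hr : Fintype.card ι ≤ finrank k U₁ + r) : ∃ U : ℕ → Submodule k (ι → k),
      (∀ i, ∀ a ∈ U (i + 1), a ∈ U i ∧ a ∈ U₁ ∧ nab δ a ∈ U i) ∧
      ∀ i, Fintype.card ι ≤ finrank k (U i) + i * r := by
  obtain ⟨U, hU0, hU⟩ : ∃ U : ℕ → Submodule k (ι → k), U 0 = ⊤ ∧
      ∀ i a, a ∈ U (i + 1) ↔ a ∈ U i ∧ a ∈ U₁ ∧ nab δ a ∈ U i :=
    ⟨fun i => Nat.rec ⊤ (fun _ V => step_hor δ U₁ V) i, rfl, fun _ _ => Iff.rfl⟩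
  have hstep : ∀ i : ℕ, finrank k ↥(U i) ≤ finrank k ↥(U (i + 1)) + r := by
    intro i
    induction i with
    | zero =>
      have h1 : U 1 = U₁ := Submodule.ext fun a => by
        rw [hU, hU0]; exact ⟨fun h => h.2.1, fun h => ⟨trivial, h, trivial⟩⟩
      rw [zero_add, h1, hU0, finrank_top, finrank_fintype_fun_eq_card]
      exact hr
    | succ i ih =>
      let f : U (i + 1) →ₗ[k] (ι → k) ⧸ U (i + 1) :=
        { toFun := fun a => (U (i + 1)).mkQ (nab δ a)
          map_add' := fun a b => by rw [Submodule.coe_add, nab_add, map_add]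
          map_smul' := fun s a => by
            rw [Submodule.coe_smul, nab_smul, map_add, map_smul, map_smul,
              (Submodule.Quotient.mk_eq_zero _).2 a.2 |> (show (U (i + 1)).mkQ a = 0 from ·),
              smul_zero, zero_add, RingHom.id_apply] }
      let g : U i →ₗ[k] (ι → k) ⧸ U (i + 1) := (U (i + 1)).mkQ ∘ₗ (U i).subtype
      have h1 : LinearMap.range f ≤ LinearMap.range g := by
        rintro _ ⟨a, rfl⟩
        exact ⟨⟨_, ((hU i a).1 a.2).2.2⟩, rfl⟩
      have h2 : LinearMap.ker f = (U (i + 1 + 1)).comap (U (i + 1)).subtype :=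
        Submodule.ext fun a => by
          rw [LinearMap.mem_ker, Submodule.mem_comap, hU]
          exact (Submodule.Quotient.mk_eq_zero _).trans
            ⟨fun h => ⟨a.2, ((hU i a).1 a.2).2.1, h⟩, fun h => h.2.2⟩
      have h3 : LinearMap.ker g = (U (i + 1)).comap (U i).subtype :=
        Submodule.ext fun a => Submodule.Quotient.mk_eq_zero _
      have h4 := f.finrank_range_add_finrank_ker
      have h5 := g.finrank_range_add_finrank_ker
      rw [h2, (comapSubtypeEquivOfLe fun a ha => ((hU _ a).1 ha).1).finrank_eq] at h4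
      rw [h3, (comapSubtypeEquivOfLe fun a ha => ((hU _ a).1 ha).1).finrank_eq] at h5
      have h6 := finrank_mono h1
      omega
  refine ⟨U, fun i a ha => (hU i a).1 ha, fun i => ?_⟩
  induction i with
  | zero => rw [hU0, finrank_top, finrank_fintype_fun_eq_card]; simp
  | succ i ih =>
    have := hstep i
    rw [Nat.succ_mul]
    omega

end Pool.Agent.Lib.MP_13404a_ag.UB
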