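import Pool.Agent.Lib.MP_13404a_ag.UB.Clf
import Pool.Agent.Lib.MP_13404a_ag.UB.Hor

/-!
Systems of closed regular forms on a family of curves, in coordinates.
-/

open Module Submodule Function Finsupp
open scoped IntermediateField Polynomial

namespace Pool.Agent.Lib.MP_13404a_ag.UB

open Pool.Agent.Lib.MP_15f242_ag

universe u

variable {k K : Type u} [Field k] [CharZero k] [Field K] [Algebra k K] [FF k K]
  {ι : Type} [Fintype ι] {δ : Derivation ℤ k k} {d : Derivation k K K} {v : Derivation ℤ K K}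
  {c : K} {A F : (ι → k) →ₗ[k] K} {κ D : Div k K}

/-- `d` is a vertical vector field, `v` a lift of the derivation `δ` of the base, `A a` and `F a`
are the values on `d` and `v` of the combination with coefficients `a` of closed regular forms. -/
structure Sys (δ : Derivation ℤ k k) (d : Derivation k K K) (v : Derivation ℤ K K) (c : K)
    (A F : (ι → k) →ₗ[k] K) : Prop where
  d0 : d ≠ 0
  ext : ∀ a : k, v (algebraMap k K a) = algebraMap k K (δ a)
  comm : ∀ f, d (v f) = v (d f) + c * d f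
  inj : Injective A
  lie : ∀ a, v (A a) + c * A a = A (nab δ a) + d (F a)
  reg : ∀ (P : Pt k K) (π : K), po P π = -1 → ∀ a,
    A a / d π ∈ P.1 ∧ F a - A a * (v π / d π) ∈ P.1
  ni : ∀ β : K, IntermediateField.adjoin k {f | v f + β * d f = 0} ≠ ⊤

/-- Another lift. -/
def sh (v : Derivation ℤ K K) (β : K) (d : Derivation k K K) : Derivation ℤ K K :=
  v + β • d.restrictScalars ℤ

omit [CharZero k] [FF k K] in
lemma sh_apply (β f : K) : sh v β d f = v f + β * d f := rfl

/-- `D` is the divisor of poles of `v`. -/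
def IsD (v : Derivation ℤ K K) (D : Div k K) : Prop :=
  ∀ (P : Pt k K) (π : K), po P π = -1 → D P = max (po P (v π)) 0

lemma IsD.nonneg (h : IsD v D) : 0 ≤ D := by
  intro P
  obtain ⟨π, -, hπ⟩ := exists_po P (-1)
  exact (le_max_right _ _).trans (h P π hπ).ge

lemma ne_zero_sys {P : Pt k K} {z : K} (hz : po P z ≠ 0) : z ≠ 0 := fun e => hz (by simp [e, po])

namespace Sys
variable (S : Sys δ d v c A F)
include S

lemma d_ne {P : Pt k K} {z : K} (hz : po P z ≠ 0) : d z ≠ 0 := fun h => S.d0 <|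
  Derivation.ext (der_eq_zero (d.restrictScalars ℤ) d.map_algebraMap (trans_of_po hz) h)

lemma shift (β : K) : Sys δ d (sh v β d) (c + d β) A (F + β • A) := by
  refine ⟨S.d0, fun a => ?_, fun f => ?_, S.inj, fun a => ?_, fun P π hπ a => ⟨(S.reg P π hπ a).1,
    ?_⟩, fun b => ?_⟩
  · rw [sh_apply, S.ext, d.map_algebraMap, mul_zero, add_zero]
  · simp only [sh_apply, map_add, S.comm, d.leibniz, smul_eq_mul]
    ring
  · have := S.lie a
    simp only [sh_apply, map_add, LinearMap.add_apply, LinearMap.smul_apply, d.leibniz, smul_eq_mul]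
    linear_combination this
  · have := S.d_ne (P := P) (z := π) (by omega)
    convert (S.reg P π hπ a).2 using 1
    simp only [sh_apply, LinearMap.add_apply, LinearMap.smul_apply, smul_eq_mul]
    field_simp
    ring
  · convert S.ni (β + b) using 4 with f
    rw [sh_apply]
    ring

lemma scale {s : K} (hs : s ≠ 0) : Sys δ (s • d) v (c - v s / s) (s • A) F := by
  refine ⟨smul_ne_zero hs S.d0, S.ext, fun f => ?_, fun a b h => S.inj (mul_left_cancel₀ hs h),
    fun a => ?_, fun P π hπ a => ⟨?_, ?_⟩, fun b => ?_⟩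
  · simp only [Derivation.smul_apply, S.comm, v.leibniz, smul_eq_mul]
    field_simp
    ring
  · have := S.lie a
    simp only [Derivation.smul_apply, LinearMap.smul_apply, v.leibniz, smul_eq_mul]
    field_simp
    linear_combination s * this
  · simpa [mul_div_mul_left _ _ hs] using (S.reg P π hπ a).1
  · convert (S.reg P π hπ a).2 using 2
    simp only [Derivation.smul_apply, LinearMap.smul_apply, smul_eq_mul]
    field_simp
  · convert S.ni (b * s) using 4 with f
    simp [mul_assoc]

lemma v_smul (a : k) (f : K) : v (a • f) = δ a • f + a • v f := by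
  rw [Algebra.smul_def, v.leibniz, S.ext, smul_eq_mul, smul_eq_mul, Algebra.smul_def,
    Algebra.smul_def]
  ring

/-- If `v π` has a pole then `ord_of` applies. -/
lemma ord {P : Pt k K} {π : K} (hπ : po P π = -1) (h : 0 < po P (v π)) :
    Ord P v (po P (v π)) := by
  refine ord_of (ne_zero_sys (P := P) (by omega)) hπ (ne_zero_sys h.ne') fun a => ?_
  exact fil_of_mem (S.ext a ▸ P.1.algebraMap_mem _) h.le

/-- If `v π` is regular then `v` preserves the ring (`der_mem`). -/
lemma v_mem {P : Pt k K} {π : K} (hπ : po P π = -1) (h : v π ∈ P.1) {f : K} (hf : f ∈ P.1) :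
    v f ∈ P.1 := by
  exact der_mem (ne_zero_sys (P := P) (by omega)) hπ (fun a => S.ext a ▸ P.1.algebraMap_mem _) h hf

lemma mem_K (hκ : IsK d κ) (a : ι → k) : A a ∈ H0 (OD κ) := by
  refine mem_L.2 fun P => ?_
  obtain ⟨π, -, hπ⟩ := exists_po P (-1)
  obtain ⟨h1, h2⟩ := hκ.unif hπ
  simpa [h1] using mul_fil (S.reg P π hπ a).1 (mem_fil_of h2.le)

lemma wedge_mem (hκ : IsK d κ) (a b : ι → k) : A a * F b - A b * F a ∈ H0 (OD κ) := by
  refine mem_L.2 fun P => ?_
  obtain ⟨π, -, hπ⟩ := exists_po P (-1)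
  convert sub_mem (fil_mul (mem_L.1 (S.mem_K hκ a) P) (S.reg P π hπ b).2)
    (fil_mul (mem_L.1 (S.mem_K hκ b) P) (S.reg P π hπ a).2) using 1
  ring

lemma finrank_map (U : Submodule k (ι → k)) : finrank k (U.map A) = finrank k U := by
  exact (LinearEquiv.finrank_eq (U.equivMapOfInjective A S.inj)).symm

lemma finrank_le (U : Submodule k (ι → k)) : finrank k U ≤ gn k K := by
  obtain ⟨κ, hκ⟩ := exists_isK S.d0
  rw [← S.finrank_map, ← hκ.ll_eq]
  exact finrank_mono (map_le_iff_le_comap.2 fun a _ => S.mem_K hκ a)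

/-- Finite support: for `a ≠ 0` and almost all `P`, `A a / d π` is a unit and `F a` is regular. -/
lemma exists_D [Nonempty ι] : ∃ D : Div k K, IsD v D := by
  obtain ⟨κ, hκ⟩ := exists_isK S.d0
  choose π h0 hπ using fun P : Pt k K => exists_po P (-1)
  have a0 : A 1 ≠ 0 := fun h => one_ne_zero (S.inj (h.trans (map_zero A).symm))
  have fin : (support fun P => max (po P (v (π P))) 0).Finite := by
    refine (((finite_poles (F 1)).union (finite_poles (A 1)⁻¹)).union
      κ.support.finite_toSet).subset fun P hP => by_contra fun h => hP ?_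
    simp only [Set.mem_union, Set.mem_setOf_eq, not_or, not_not, Finset.mem_coe,
      Finsupp.notMem_support_iff] at h
    obtain ⟨h1, h2⟩ := hκ.unif (hπ P)
    refine max_eq_right (mem_iff_po.1 ?_)
    convert mul_mem (mul_mem (sub_mem h.1.1 (S.reg P _ (hπ P) 1).2) h.1.2)
      (mem_iff_po.2 (h2.trans h.2).le) using 1
    field_simp
    ring
  refine ⟨ofSupportFinite _ fin, fun P π' h' => ?_⟩
  change max (po P (v (π P))) 0 = _
  rcases lt_or_ge 0 (po P (v (π P))) with h | h
  · rw [((S.ord (hπ P) h).po_eq π' (by omega)).2, h']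
    congr 1
    ring
  · rw [max_eq_right h, max_eq_right (mem_iff_po.1 (S.v_mem (hπ P) (mem_iff_po.2 h)
      (mem_iff_po.2 (by omega))))]

lemma F_mem (hD : IsD v D) (a : ι → k) : F a ∈ H0 (OD D) := by
  refine mem_L.2 fun P => ?_
  obtain ⟨π, -, hπ⟩ := exists_po P (-1)
  convert add_mem (fil_of_mem (S.reg P π hπ a).2 (hD.nonneg P)) (mul_fil (S.reg P π hπ a).1
    (mem_fil_of ((le_max_left _ _).trans (hD P π hπ).ge))) using 1
  ring

lemma mem_M (hκ : IsK d κ) (hD : IsD v D) {a : ι → k} (h : d (F a) = 0) :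
    A a ∈ H0 (OD (κ - D)) := by
  refine mem_L.2 fun P => ?_
  obtain ⟨π, -, hπ⟩ := exists_po P (-1)
  obtain ⟨e, he⟩ := der_const S.d0 h
  obtain ⟨h1, h2⟩ := hκ.unif hπ
  have h3 := hD P π hπ
  rw [Finsupp.sub_apply]
  rcases lt_or_ge 0 (po P (v π)) with h4 | h4
  · have v0 := ne_zero_sys h4.ne'
    rw [← mul_mem_fil_iff (div_ne_zero v0 h1), div_eq_mul_inv, po_mul P v0 (inv_ne_zero h1),
      po_inv, h2, h3, max_eq_left h4.le]
    refine fil_of_mem ?_ (by omega)
    convert sub_mem (he ▸ P.1.algebraMap_mem e) (S.reg P π hπ a).2 using 1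
    ring
  · rw [h3, max_eq_right h4, sub_zero]
    exact mem_L.1 (S.mem_K hκ a) P

/-- Rank-nullity; `d` kills `1 ∈ H0 (OD D)`. -/
lemma card_le_ker (hD : IsD v D) :
    Fintype.card ι + 1 ≤ finrank k (LinearMap.ker (d.toLinearMap ∘ₗ F)) + ll D := by
  have h1 := LinearMap.finrank_range_add_finrank_ker (d.toLinearMap ∘ₗ F)
  have h2 := LinearMap.finrank_range_add_finrank_ker (d.toLinearMap.domRestrict (H0 (OD D)))
  have h3 : LinearMap.range (d.toLinearMap ∘ₗ F) ≤
      LinearMap.range (d.toLinearMap.domRestrict (H0 (OD D))) := by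
    rintro _ ⟨a, rfl⟩
    exact ⟨⟨F a, S.F_mem hD a⟩, rfl⟩
  have h4 := finrank_mono h3
  have h5 : finrank k (LinearMap.ker (d.toLinearMap.domRestrict (H0 (OD D)))) ≠ 0 := fun e => by
    have h6 : (⟨1, mem_L.2 fun P => fil_of_mem (one_mem _) (hD.nonneg P)⟩ : H0 (OD D)) ∈
      LinearMap.ker (d.toLinearMap.domRestrict (H0 (OD D))) := d.map_one_eq_zero
    rw [finrank_eq_zero.1 e] at h6
    simp at h6
  rw [finrank_fintype_fun_eq_card] at h1
  unfold ll
  omega

lemma card_le_ll (hκ : IsK d κ) (hD : IsD v D) : Fintype.card ι + 1 ≤ ll (κ - D) + ll D := by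
  have h1 := S.card_le_ker hD
  have h2 : finrank k ((LinearMap.ker (d.toLinearMap ∘ₗ F)).map A) ≤ ll (κ - D) :=
    finrank_mono (map_le_iff_le_comap.2 fun a ha => S.mem_M hκ hD ha)
  rw [S.finrank_map] at h2
  omega

/-- If a lift kills `z` and `z` has a zero or pole at `P`, the lift preserves the ring at `P`
(`ord`), and the forms are regular on it. -/
lemma reg' {P : Pt k K} {z : K} (hz : po P z ≠ 0) (a : ι → k) :
    F a - A a * (v z / d z) ∈ P.1 := by
  obtain ⟨π, -, hπ⟩ := exists_po P (-1)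
  have S' := S.shift (-(v z / d z))
  have h1 : sh v (-(v z / d z)) d π ∈ P.1 := mem_iff_po.2 <| not_lt.1 fun h =>
    ((S'.ord hπ h).po_eq z hz).1 (by rw [sh_apply, neg_mul, div_mul_cancel₀ _ (S.d_ne hz),
      add_neg_cancel])
  convert add_mem (S'.reg P π hπ a).2 (mul_mem (S.reg P π hπ a).1 h1) using 1
  simp only [LinearMap.add_apply, LinearMap.smul_apply, smul_eq_mul]
  ring

end Sys

end Pool.Agent.Lib.MP_13404a_ag.UB
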