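import Pool.Agent.Lib.MP_13404a_ag.UB.Loc

/-!
Castelnuovo: counting conditions imposed by points in general position.
-/

open Module Submodule Function Finsupp
open scoped IntermediateField Polynomial

namespace Pool.Agent.Lib.MP_13404a_ag.UB

open Pool.Agent.Lib.MP_15f242_ag

universe u

variable {k K Ω : Type u} [Field k] [Field K] [Algebra k K] [Field Ω] [Algebra k Ω]

/-- The point of the affine chart given by an embedding. -/
def pt {r : ℕ} (φ : Fin r → K) (σ : K →ₐ[k] Ω) : Option (Fin r) → Ω :=
  fun i => σ (i.elim 1 φ)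

/-- The span of `1` and the `φ i`. -/
def sp (k : Type u) [Field k] [Algebra k K] {r : ℕ} (φ : Fin r → K) : Submodule k K :=
  span k (Set.range fun i : Option (Fin r) => i.elim 1 φ)

lemma mem_sp_caa {r : ℕ} (φ : Fin r → K) (i : Option (Fin r)) : i.elim 1 φ ∈ sp k φ :=
  subset_span ⟨i, rfl⟩

/-- Let `E j` be the `Ω`-span of the vectors `l ↦ σ l c`, `c ∈ Φ ^ j`. By induction on `j`: for a
set `S` of at most `j (r - 1)` indices and `p ∉ S` some element of `E j` vanishes on `S` and is `1`
at `p` (split off at most `r - 1` indices, separate them from `p` by a functional, multiply). -/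
lemma ev_span {r N j : ℕ} {φ : Fin r → K} {σ : Fin N → K →ₐ[k] Ω}
    (hgp : ∀ S : Finset (Fin N), S.card ≤ r → LinearIndependent Ω fun l : S => pt φ (σ l))
    (hN : N ≤ j * (r - 1) + 1) (hr : 1 ≤ r) :
    span Ω ((fun (c : K) (l : Fin N) => σ l c) '' (sp k φ ^ j : Submodule k K)) = ⊤ := by
  classical
  have key : ∀ j : ℕ, ∀ S : Finset (Fin N), S.card ≤ j * (r - 1) → ∀ p ∉ S,
      ∃ x ∈ span Ω ((fun (c : K) (l : Fin N) => σ l c) '' (sp k φ ^ j : Submodule k K)),
        x p = 1 ∧ ∀ l ∈ S, x l = 0 := by
    intro j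
    induction j with
    | zero =>
      intro S hS p _
      obtain rfl : S = ∅ := Finset.card_eq_zero.1 (by omega)
      exact ⟨_, subset_span ⟨1, by simpa using Submodule.one_le.1 le_rfl, rfl⟩, map_one _, by simp⟩
    | succ j ih =>
      intro S hS p hp
      obtain ⟨T, h1, h2⟩ := Finset.exists_subset_card_eq (min_le_left S.card (r - 1))
      obtain ⟨x, hx, h3, h4⟩ := ih (S \ T) (by
        rw [Finset.card_sdiff_of_subset h1, h2]
        rw [add_mul] at hS
        omega) p fun h => hp (Finset.mem_sdiff.1 h).1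
      have h5 := hgp (insert p T) ((Finset.card_insert_le _ _).trans (by omega))
      obtain ⟨Λ, hΛ⟩ := LinearMap.exists_extend
        (Finsupp.lapply (⟨p, Finset.mem_insert_self _ _⟩ : (insert p T : Finset _)) ∘ₗ h5.repr)
      have h6 : ∀ l : (insert p T : Finset _), Λ (pt φ (σ l)) = if l.1 = p then 1 else 0 := by
        intro l
        have := LinearMap.congr_fun hΛ ⟨pt φ (σ l), subset_span ⟨l, rfl⟩⟩
        rw [LinearMap.comp_apply, LinearMap.comp_apply, h5.repr_eq_single l _ rfl] at this
        simpa [single_apply, Subtype.ext_iff] using this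
      refine ⟨fun l => x l * Λ (pt φ (σ l)), ?_, ?_, fun l hl => ?_⟩
      · clear h3 h4
        induction hx using span_induction with
        | mem x hx =>
          obtain ⟨c, hc, rfl⟩ := hx
          have : (fun l => σ l c * Λ (pt φ (σ l))) = ∑ i, Λ (fun j => if i = j then 1 else 0) •
              fun l => σ l (c * i.elim 1 φ) := by
            ext l
            rw [LinearMap.pi_apply_eq_sum_univ]
            simp [pt, Finset.mul_sum, mul_comm, mul_left_comm, mul_add, mul_assoc]
          rw [this]
          exact sum_mem fun i _ => smul_mem _ _ (subset_span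
            ⟨_, pow_succ (sp k φ) j ▸ mul_mem_mul hc (mem_sp_caa φ i), rfl⟩)
        | zero => convert Submodule.zero_mem _ using 1; ext; simp
        | add x y _ _ hx hy => convert add_mem hx hy using 1; ext; simp [add_mul]
        | smul a x _ hx => convert smul_mem _ a hx using 1; ext; simp [mul_assoc]
      · simpa [h3] using h6 ⟨p, Finset.mem_insert_self _ _⟩
      · by_cases h : l ∈ T
        · simp [h6 ⟨l, Finset.mem_insert_of_mem h⟩, show l ≠ p from fun e => hp (e ▸ hl)]
        · simp [h4 l (Finset.mem_sdiff.2 ⟨hl, h⟩)]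
  refine eq_top_iff.2 ((Pi.basisFun Ω (Fin N)).span_eq.ge.trans (span_le.2 ?_))
  rintro _ ⟨p, rfl⟩
  obtain ⟨x, hx, h1, h2⟩ := key j (Finset.univ.erase p) (by simp; omega) p (by simp)
  convert SetLike.mem_coe.2 hx using 1
  ext l
  by_cases h : l = p
  · simp [h, h1]
  · simp [h, h2 l (by simpa using h)]

/-- Work in `B = MvPolynomial (Option (Fin r)) K` over `A = MvPolynomial (Option (Fin r)) k`, with
`h = X none - ∑ X (some i) * C (φ i)`. Choose `c s ∈ Φ ^ (j + 1)`, `s < N`, with independent
evaluation vectors (`ev_span`) and a basis `b` of `Φ ^ j`. The elements `C (c s)`, `h * C (b i)` lie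
in the `A`-span of a basis of `Φ ^ (j + 1)` and are independent over `A`: apply the ring maps
`B → Ω` given by `σ l` and `t`, which kill `h`; then cancel `h` and compare coefficients. -/
theorem cast_count {r N j : ℕ} {φ : Fin r → K} {t : Option (Fin r) → Ω}
    (ht : AlgebraicIndependent k t) {σ : Fin N → K →ₐ[k] Ω}
    (hσ : ∀ l, ∑ i, t (some i) * σ l (φ i) = t none)
    (hgp : ∀ S : Finset (Fin N), S.card ≤ r → LinearIndependent Ω fun l : S => pt φ (σ l))
    (hN : N ≤ (j + 1) * (r - 1) + 1) (hr : 1 ≤ r) :
    finrank k (sp k φ ^ j : Submodule k K) + N ≤ finrank k (sp k φ ^ (j + 1) : Submodule k K) := by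
  classical
  have f1 : FiniteDimensional k (sp k φ) := FiniteDimensional.span_of_finite _ (Set.finite_range _)
  have f2 : ∀ n : ℕ, FiniteDimensional k (sp k φ ^ n : Submodule k K) := fun n =>
    Module.Finite.iff_fg.2 ((Module.Finite.iff_fg.1 f1).pow n)
  have := f2 j
  have := f2 (j + 1)
  obtain ⟨J, c, -, h1, h2⟩ := exists_linearIndependent' Ω
    fun (c : (sp k φ ^ (j + 1) : Submodule k K)) (l : Fin N) => σ l c
  replace h1 := h1.trans ((congrArg _ (Set.image_eq_range _ _).symm).trans (ev_span hgp hN hr))
  have := h2.finite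
  have := Fintype.ofFinite J
  have h3 := finrank_eq_card_basis (Basis.mk h2 h1.ge)
  rw [finrank_fin_fun] at h3
  let b := finBasis k (sp k φ ^ j : Submodule k K)
  let b' := finBasis k (sp k φ ^ (j + 1) : Submodule k K)
  let := MvPolynomial.algebraMvPolynomial (σ := Option (Fin r)) (R := k) (S := K)
  let h : MvPolynomial (Option (Fin r)) K :=
    MvPolynomial.X none - ∑ i, MvPolynomial.X (.some i) * MvPolynomial.C (φ i)
  have sm : ∀ (p : MvPolynomial (Option (Fin r)) k) (z : MvPolynomial (Option (Fin r)) K),
      p • z = MvPolynomial.map (algebraMap k K) p * z := fun _ _ => rfl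
  have h4 : ∀ z ∈ sp k φ ^ (j + 1), MvPolynomial.C z ∈ span (MvPolynomial (Option (Fin r)) k)
      (Set.range fun i => (MvPolynomial.C (b' i : K) : MvPolynomial (Option (Fin r)) K)) := by
    intro z hz
    have := congrArg (fun x => (MvPolynomial.C x.1 : MvPolynomial (Option (Fin r)) K))
      (b'.sum_repr ⟨z, hz⟩)
    simp only [Submodule.coe_sum, map_sum, Submodule.coe_smul] at this
    rw [← this]
    refine sum_mem fun i _ => ?_
    convert smul_mem _ (MvPolynomial.C (b'.repr ⟨z, hz⟩ i)) (subset_span (Set.mem_range_self i)) using 1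
    simp [sm, Algebra.smul_def]
  have h5 : LinearIndependent (MvPolynomial (Option (Fin r)) k)
      (Sum.elim (fun i => h * MvPolynomial.C (b i : K)) fun s => MvPolynomial.C (c s : K)) := by
    rw [Fintype.linearIndependent_iff]
    intro g hg
    rw [Fintype.sum_sum_type] at hg
    have h5 : ∀ s, g (.inr s) = 0 := fun s => by
      refine ht.eq_zero_of_aeval_eq_zero _ (Fintype.linearIndependent_iff.1 h2
        (fun s => MvPolynomial.aeval t (g (.inr s))) (funext fun l => ?_) s)
      have := congrArg (MvPolynomial.eval₂Hom (σ l).toRingHom t) hg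
      simpa [sm, h, hσ, MvPolynomial.eval₂_map, MvPolynomial.aeval_def,
        ← MvPolynomial.coe_eval₂Hom] using this
    have h6 : h ≠ 0 := fun e => by
      simpa [h] using congrArg (MvPolynomial.eval fun o => o.elim 1 fun _ => 0) e
    have h7 : ∑ i, MvPolynomial.map (algebraMap k K) (g (.inl i)) * MvPolynomial.C (b i : K) = 0 :=
      mul_left_cancel₀ h6 (by simpa [h5, sm, Finset.mul_sum, mul_left_comm] using hg)
    rintro (i | s)
    · ext m
      refine Fintype.linearIndependent_iff.1 b.linearIndependent
        (fun i => (g (.inl i)).coeff m) (Subtype.ext ?_) i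
      have := congrArg (MvPolynomial.coeff m) h7
      simp only [mul_comm (MvPolynomial.map _ _), MvPolynomial.coeff_sum, MvPolynomial.coeff_C_mul,
        MvPolynomial.coeff_map, MvPolynomial.coeff_zero] at this
      simpa [Algebra.smul_def, mul_comm] using this
    · exact h5 s
  have h6 := (linearIndependent_le_span_aux' _ h5
    (Set.range fun i => (MvPolynomial.C (b' i : K) : MvPolynomial (Option (Fin r)) K)) (by
    rintro _ ⟨i | s, rfl⟩
    · have h6 : ∀ o : Option (Fin r), (b i : K) * o.elim 1 φ ∈ sp k φ ^ (j + 1) := fun o =>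
        pow_succ (sp k φ) j ▸ mul_mem_mul (b i).2 (mem_sp_caa φ o)
      convert sub_mem (smul_mem _ (MvPolynomial.X none) (h4 _ (h6 none))) (sum_mem (t := Finset.univ)
        fun o _ => smul_mem _ (MvPolynomial.X (.some o)) (h4 _ (h6 (.some o)))) using 1
      simp [sm, h, sub_mul, Finset.sum_mul, mul_assoc, mul_comm (MvPolynomial.C (b i : K))]
    · exact h4 _ (c s).2)).trans (Fintype.card_range_le _)
  simpa [← h3] using h6

end Pool.Agent.Lib.MP_13404a_ag.UB
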