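import Pool.Agent.Lib.MP_13404a_ag.UB.CanA

/-!
The canonical divisor of a derivation and the theorem of Riemann-Roch.
-/

open Module Submodule Function Finsupp
open scoped IntermediateField Polynomial

namespace Pool.Agent.Lib.MP_13404a_ag.UB

open Pool.Agent.Lib.MP_15f242_ag

universe u

variable {k K : Type u} [Field k] [CharZero k] [Field K] [Algebra k K] [FF k K]
  {E : Type u} [Field E] [Algebra k E] [Algebra E K] [IsScalarTower k E K] [FF k E]

/-- `κ` is the divisor of the differential dual to `d`. -/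
def IsK (d : Derivation k K K) (κ : Div k K) : Prop := ∀ P, Ord P d (κ P)

variable {d : Derivation k K K} {κ : Div k K}

lemma der_const (hd : d ≠ 0) {f : K} (h : d f = 0) : ∃ a : k, f = algebraMap k K a := by
  by_cases ht : Transcendental k f
  · exact absurd (Derivation.ext fun g =>
      der_eq_zero (d.restrictScalars ℤ) d.map_algebraMap ht h g) hd
  · obtain ⟨a, ha⟩ := mem_range_of_alg (k := k) (x := f) (not_not.1 ht)
    exact ⟨a, ha.symm⟩

lemma IsK.ne (h : IsK d κ) : d ≠ 0 := by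
  obtain ⟨P⟩ : Nonempty (Pt k K) := inferInstance
  obtain ⟨π, -, hπ⟩ := exists_po P (-1)
  intro e
  exact ((h P).po_eq π (by omega)).1 (by rw [e]; rfl)

lemma IsK.unif (h : IsK d κ) {P : Pt k K} {π : K} (hπ : po P π = -1) :
    d π ≠ 0 ∧ po P (d π) = κ P := by
  obtain ⟨h1, h2⟩ := (h P).po_eq π (by omega)
  exact ⟨h1, by omega⟩

lemma IsK.smul (h : IsK d κ) {s : K} (hs : s ≠ 0) : IsK (s • d) (κ + pdiv k s) := by
  refine fun P => ⟨fun f hf => ?_, fun f hf => ?_⟩
  · exact (mul_mem_fil_iff hs).2 ((h P).mem f hf)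
  · obtain ⟨h1, h2⟩ := (h P).po_eq f hf
    refine ⟨mul_ne_zero hs h1, ?_⟩
    change po P (s * d f) = po P f + 1 + (κ P + po P s)
    rw [po_mul P hs h1, h2]
    ring

omit [CharZero k] in
lemma sing_sub_canb (P : Pt k K) (t u : K) (c : k) :
    sing P (t - c • u) = sing P t - c • sing P u := by
  refine Subtype.ext (funext fun Q => ?_)
  by_cases e : Q = P
  · subst e
    simp [sing_self]
  · simp [sing_ne e]

lemma max_canb {w : Dual k (AA k K)} {D : Div k K} (h3 : w ≠ 0) (hw : w ∈ Om D) :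
    ∃ W : Div k K, w ∈ Om W ∧
      ∀ P n y, (∀ t ∈ fil P n, sm w y (sing P t) = 0) → y ∈ fil P (W P - n) := by
  obtain ⟨c, hc⟩ := exists_ii_bound (k := k) (K := K)
  obtain ⟨_, ⟨W, hW, rfl⟩, h4⟩ := Int.exists_greatest_of_bdd
    (P := fun n => ∃ D : Div k K, w ∈ Om D ∧ degree D = n) ⟨c, by
      rintro _ ⟨D, hD, rfl⟩
      by_contra h
      exact h3 (LinearMap.ext fun a => mem_Om.1 hD a
        (ii_eq_zero.1 (hc D (by omega)) (Ad_OD 0 D ▸ a.2)))⟩ ⟨_, D, hw, rfl⟩
  refine ⟨W, hW, fun P n y h => by_contra fun hy => ?_⟩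
  have h0 : y ≠ 0 := fun e => hy (e ▸ zero_mem _)
  rw [mem_fil h0] at hy
  have := h4 _ ⟨W + single P 1, mem_Om.2 fun a ha => ?_, rfl⟩
  · rw [map_add, degree_single] at this
    omega
  obtain ⟨b, hb, d, hd, e⟩ := mem_sup.1 ha
  have h5 : w (sing P (b P)) = 0 := by
    rw [← h (y⁻¹ * b P), sm_apply]
    · refine congrArg w (Subtype.ext (funext fun Q => ?_))
      by_cases e : Q = P
      · simp [mu_apply, e, sing_self, mul_right_comm, h0]
      · simp [mu_apply, sing_ne e]
    · rw [← mul_mem_fil_iff h0, mul_inv_cancel_left₀ h0]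
      exact fil_mono P (by simp; omega) (mem_hat.1 hb P)
  rw [← sub_add_cancel a (sing P (b P)), map_add, h5, add_zero]
  refine mem_Om.1 hW _ (mem_sup.2 ⟨b - sing P (b P), mem_hat.2 fun Q => ?_, d, hd, ?_⟩)
  · by_cases e : Q = P
    · simp [e, sing_self]
    · simpa [sing_ne e, OD, single_eq_of_ne e] using mem_hat.1 hb Q
  · rw [Submodule.coe_sub, ← e]; abel

omit [CharZero k] in
lemma om_sing_canb {v : Dual k (AA k K)} {D : Div k K} (hv : v ∈ Om D) {P : Pt k K} {t : K}
    (ht : t ∈ fil P (D P)) : v (sing P t) = 0 := by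
  rw [← sm_one v]
  exact mem_Om.1 hv _ (mu_sing_mem _ (by simpa [OD] using ht))

/-- Copy `exists_max` and the first half of `exists_can` (`MP_15f242_ag/Dual.lean`) for the
differential `w` of `exists_weil`. If `Ord P d m`, derivatives have all pole orders except `m + 1`,
so the maximal divisor of `w` has the coefficient `m` at `P`. -/
lemma exists_isK_one {x : K} (hx : Transcendental k x) (hd : d x = 1) :
    ∃ κ, IsK d κ ∧ ∀ D, ii D = ll (κ - D) := by
  obtain ⟨w, D, h0, hD, hk⟩ := exists_weil hx hd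
  obtain ⟨W, hW, h1⟩ := max_canb h0 hD
  refine ⟨W, fun P => ?_, fun D => ?_⟩
  · obtain ⟨m, hm⟩ := exists_ord P (D := d) (w := x) (by rw [hd]; exact one_ne_zero)
    suffices e : W P = m by rw [e]; exact hm
    by_contra hne
    obtain ⟨g, -, hg⟩ := exists_po P (W P - m)
    obtain ⟨g1, g2⟩ := hm.po_eq g (by omega)
    have h2 := h1 P (W P + 1) 1 fun t ht => by
      obtain ⟨c, hc⟩ := exists_res g1 (n := W P + 1) (by omega) ht
      rw [add_sub_cancel_right] at hc
      have h3 := om_sing_canb hW hc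
      rw [sing_sub_canb, map_sub, map_smul, hk, smul_zero, sub_zero] at h3
      rw [sm_one, h3]
    rw [mem_fil one_ne_zero, po_one] at h2
    omega
  · let f : H0 (OD (W - D)) →ₗ[k] Om D := (sm w).restrict fun _ hx => by
      simpa using sm_mem hW hx
    rw [← (finrank_Om D).2, ll, (LinearEquiv.ofBijective f ⟨fun x y e => Subtype.ext
      (sm_inj h0 (congrArg Subtype.val e)), fun v => ?_⟩).finrank_eq]
    obtain ⟨y, hy⟩ := exists_sm h0 hW v.2
    refine ⟨⟨y, mem_L.2 fun P => h1 P _ y fun t ht => ?_⟩, Subtype.ext hy.symm⟩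
    rw [← hy]
    exact om_sing_canb v.2 ht

lemma exists_dual_canb (hd : d ≠ 0) : ∃ κ, IsK d κ ∧ ∀ D, ii D = ll (κ - D) := by
  obtain ⟨x, hx⟩ : ∃ x, d x ≠ 0 := by
    by_contra! h
    exact hd (Derivation.ext h)
  have ht : Transcendental k x := fun ha => by
    obtain ⟨c, rfl⟩ := mem_range_of_alg ha
    exact hx (d.map_algebraMap c)
  obtain ⟨κ, h1, h2⟩ := exists_isK_one (d := (d x)⁻¹ • d) ht (by simp [hx])
  refine ⟨κ + pdiv k (d x), ?_, fun D => ?_⟩
  · have := h1.smul hx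
    rwa [smul_smul, mul_inv_cancel₀ hx, one_smul] at this
  · rw [h2, add_sub_right_comm, ll_add_pdiv _ hx]

lemma unique_canb {κ₁ : Div k K} (h : IsK d κ) (h₁ : IsK d κ₁) : κ = κ₁ := by
  ext P
  obtain ⟨π, -, hπ⟩ := exists_po P (-1)
  rw [← (h.unif hπ).2, (h₁.unif hπ).2]

lemma exists_isK (hd : d ≠ 0) : ∃ κ, IsK d κ := by
  obtain ⟨κ, h, -⟩ := exists_dual_canb hd
  exact ⟨κ, h⟩

lemma IsK.rr (h : IsK d κ) (D : Div k K) :
    (ll D : ℤ) - ll (κ - D) = degree D + 1 - gn k K := by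
  obtain ⟨κ₁, h1, h2⟩ := exists_dual_canb h.ne
  rw [unique_canb h h1, ← h2, rr_formula, gen_eq]

lemma IsK.ll_eq (h : IsK d κ) : ll κ = gn k K := by
  have := h.rr 0
  rw [ll_zero, sub_zero, map_zero] at this
  omega

lemma IsK.degree_eq (h : IsK d κ) : degree κ = 2 * gn k K - 2 := by
  have := h.rr κ
  rw [sub_self, ll_zero, h.ll_eq] at this
  push_cast at this
  linarith

variable (k K) in
lemma exists_isK' : ∃ (d : Derivation k K K) (κ : Div k K), IsK d κ := by
  obtain ⟨x, hx⟩ := FF.ex (k := k) (K := K)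
  obtain ⟨d, hd⟩ := exists_der hx 1
  obtain ⟨κ, h, -⟩ := exists_isK_one hx hd
  exact ⟨d, κ, h⟩

variable {d' : Derivation k E E} {κ' : Div k E}

/-- As `ord_res` in `../Reg.lean`. -/
lemma IsK.res (h : IsK d κ) (h' : IsK d' κ')
    (hc : ∀ a, d (algebraMap E K a) = algebraMap E K (d' a)) {P : Pt k K} {e : ℤ} (he : 0 < e)
    (h3 : ∀ f : E, po P (algebraMap E K f) = e * po (res E P) f) :
    κ P = e * κ' (res E P) + e - 1 := by
  obtain ⟨π, -, hπ⟩ := exists_po (UB.res E P) (-1)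
  have h1 := (h'.unif hπ).2
  have h2 := ((h P).po_eq (algebraMap E K π) (by rw [h3, hπ]; omega)).2
  rw [hc, h3, h3, h1, hπ] at h2
  linarith

/-- A form is regular if and only if its pull-back is (`res_surj`). -/
lemma IsK.map_mem_iff (h : IsK d κ) (h' : IsK d' κ')
    (hc : ∀ a, d (algebraMap E K a) = algebraMap E K (d' a)) {f : E} :
    algebraMap E K f ∈ H0 (OD κ) ↔ f ∈ H0 (OD κ') := by
  rcases eq_or_ne f 0 with rfl | hf
  · simp
  have hf' : algebraMap E K f ≠ 0 := (_root_.map_ne_zero _).2 hf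
  rw [mem_L, mem_L]
  refine ⟨fun H Q => ?_, fun H P => ?_⟩
  · obtain ⟨P, rfl⟩ := res_surj K Q
    obtain ⟨e, he, h3⟩ := exists_e E P
    have h4 := (mem_fil hf').1 (H P)
    rw [h3, h.res h' hc he h3] at h4
    refine mem_fil_of (by_contra fun h5 => ?_)
    nlinarith [mul_le_mul_of_nonneg_left (Int.add_one_le_of_lt (not_le.1 h5)) he.le]
  · obtain ⟨e, he, h3⟩ := exists_e E P
    have h4 := (mem_fil hf).1 (H (UB.res E P))
    refine mem_fil_of ?_
    rw [h3, h.res h' hc he h3]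
    nlinarith [mul_le_mul_of_nonneg_left h4 he.le]

/-- The trace of a regular form is regular (`trace_mem_fil'`). -/
lemma IsK.trace_mem (h : IsK d κ) (h' : IsK d' κ')
    (hc : ∀ a, d (algebraMap E K a) = algebraMap E K (d' a)) {f : K} (hf : f ∈ H0 (OD κ)) :
    Algebra.trace E K f ∈ H0 (OD κ') := by
  refine mem_L.2 fun Q => trace_mem_fil' fun P e hP he h3 => ?_
  subst hP
  rw [← h.res h' hc he h3]
  exact mem_L.1 hf P

end Pool.Agent.Lib.MP_13404a_ag.UB
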