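import Pool.Agent.Lib.MP_13404a_ag.UB.CaA
import Pool.Agent.Lib.MP_13404a_ag.UB.Hor
import Pool.Agent.Lib.MP_13404a_ag.UB.CanB

/-!
Castelnuovo: the general position theorem.
-/

open Module Submodule Function Finsupp
open scoped IntermediateField Polynomial

namespace Pool.Agent.Lib.MP_13404a_ag.UB

open Pool.Agent.Lib.MP_15f242_ag

universe u

variable {k K : Type u} [Field k] [CharZero k] [Field K] [Algebra k K] [FF k K]
  {Ω : Type u} [Field Ω] [Algebra k Ω]

/-- A derivation of the big field is, along an embedding, a multiple of a fixed derivation. -/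
lemma der_along_cab {w : K} (hw : Transcendental k w) {d : Derivation k K K} (hd : d w = 1)
    (σ : K →ₐ[k] Ω) (D : Derivation k Ω Ω) (f : K) : D (σ f) = D (σ w) * σ (d f) := by
  let : Algebra K Ω := σ.toRingHom.toAlgebra
  have hs : ∀ (a : K) (y : Ω), a • y = σ a * y := fun _ _ => rfl
  let L : K →+ Ω :=
    { toFun := fun f => D (σ f) - D (σ w) * σ (d f)
      map_zero' := by simp
      map_add' := fun a b => by
        simp only [map_add]
        ring }
  let E : Derivation ℤ K Ω := Derivation.mk' L.toIntLinearMap fun a b => by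
    change D (σ (a * b)) - D (σ w) * σ (d (a * b)) =
      a • (D (σ b) - D (σ w) * σ (d b)) + b • (D (σ a) - D (σ w) * σ (d a))
    rw [map_mul, D.leibniz, d.leibniz, hs, hs]
    simp only [smul_eq_mul, map_add, map_mul]
    ring
  have hE : ∀ f, E f = D (σ f) - D (σ w) * σ (d f) := fun _ => rfl
  have := der_eq_zero (k := k) E (fun c => by
    rw [hE, σ.commutes, D.map_algebraMap, d.map_algebraMap, map_zero, mul_zero, sub_zero]) hw
    (by rw [hE, hd, map_one, mul_one, sub_self]) f
  rw [hE] at this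
  exact sub_eq_zero.1 this

lemma exists_dual_cab {ι M : Type*} [DecidableEq ι] [AddCommGroup M] [Module Ω M] {v : ι → M}
    {T : Finset ι} (h : LinearIndepOn Ω v T) {a : ι} (ha : a ∈ T) :
    ∃ Λ : M →ₗ[Ω] Ω, Λ (v a) = 1 ∧ ∀ m ∈ T, m ≠ a → Λ (v m) = 0 := by
  have h' : LinearIndependent Ω fun x : (T : Set ι) => v x := h
  obtain ⟨g, hg⟩ := LinearMap.exists_extend
    ((Finsupp.lapply (⟨a, ha⟩ : (T : Set ι))).comp h'.repr)
  have key : ∀ m : (T : Set ι), g (v m) = Finsupp.single m (1 : Ω) ⟨a, ha⟩ := fun m => by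
    have h1 := LinearMap.congr_fun hg ⟨v m, subset_span ⟨m, rfl⟩⟩
    rw [LinearMap.comp_apply, LinearMap.comp_apply, h'.repr_eq_single m _ rfl] at h1
    exact h1
  refine ⟨g, ?_, fun m hm hma => ?_⟩
  · rw [key ⟨a, ha⟩, Finsupp.single_eq_same]
  · rw [key ⟨m, hm⟩, Finsupp.single_eq_of_ne]
    exact fun e => hma (congrArg Subtype.val e).symm

omit [CharZero k] [FF k K] in
lemma pt_inj_cab {r : ℕ} {φ : Fin r → K}
    (hg : IntermediateField.adjoin k (Set.range φ) = ⊤) {σ σ' : K →ₐ[k] Ω}
    (h : pt φ σ = pt φ σ') : σ = σ' := by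
  refine AlgHom.ext fun x => ?_
  have hx : x ∈ IntermediateField.adjoin k (Set.range φ) := hg ▸ IntermediateField.mem_top
  induction hx using IntermediateField.adjoin_induction with
  | mem x hx =>
    obtain ⟨i, rfl⟩ := hx
    exact congrFun h (some i)
  | algebraMap c => rw [σ.commutes, σ'.commutes]
  | add x y _ _ hx hy => rw [map_add, map_add, hx, hy]
  | inv x _ hx => rw [map_inv₀, map_inv₀, hx]
  | mul x y _ _ hx hy => rw [map_mul, map_mul, hx, hy]

/-- Every functional is realised by a derivation. -/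
lemma exists_D_cab {r : ℕ} {φ : Fin r → K} {t : Option (Fin r) → Ω}
    (Dd : Option (Fin r) → Derivation k Ω Ω) (hD : ∀ i j, Dd i (t j) = if i = j then 1 else 0)
    {w : K} (hw : Transcendental k w) {d : Derivation k K K} (hd : d w = 1)
    (Λ : (Option (Fin r) → Ω) →ₗ[Ω] Ω) : ∃ D : Derivation k Ω Ω, ∀ σ : K →ₐ[k] Ω,
      ∑ i, t (some i) * σ (φ i) = t none →
        D (σ w) * ∑ i, t (some i) * σ (d (φ i)) = Λ (pt φ σ) := by
  classical
  let m : Option (Fin r) → Ω := fun i => i.elim (Λ (Pi.single none 1))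
    fun i => -Λ (Pi.single (some i) 1)
  let D : Derivation k Ω Ω := ∑ i, m i • Dd i
  have hDt : ∀ j, D (t j) = m j := fun j => by
    have : D (t j) = ∑ i, m i * Dd i (t j) := by
      change (Derivation.coeFnAddMonoidHom (∑ i, m i • Dd i)) (t j) = _
      rw [map_sum, Finset.sum_apply]
      rfl
    rw [this]
    simp [hD]
  refine ⟨D, fun σ hσ => ?_⟩
  have h1 := congrArg D hσ
  rw [map_sum, hDt] at h1
  simp only [D.leibniz, smul_eq_mul, hDt, der_along_cab hw hd σ D (φ _)] at h1
  rw [Finset.sum_add_distrib] at h1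
  have h2 : Λ (pt φ σ) = m none - ∑ i, σ (φ i) * m (some i) := by
    rw [LinearMap.pi_apply_eq_sum_univ, Fintype.sum_option, sub_eq_add_neg,
      ← Finset.sum_neg_distrib]
    congr 1
    · simp only [pt, Option.elim_none, map_one, one_smul, m]
      congr 1
      funext j
      simp [Pi.single_apply, eq_comm]
    · refine Finset.sum_congr rfl fun i _ => ?_
      simp only [pt, Option.elim_some, smul_eq_mul, m, mul_neg, neg_neg]
      congr 2
      funext j
      simp [Pi.single_apply, eq_comm]
  rw [h2, ← h1, add_sub_cancel_right, Finset.mul_sum]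
  exact Finset.sum_congr rfl fun i _ => by ring

/-- The derivatives at one point span. -/
lemma span_top_cab {J : Type} [Fintype J] {ψ : J → K} (hψ : LinearIndependent k ψ)
    {d : Derivation k K K} (hd : d ≠ 0) (σ : K →ₐ[k] Ω) {V : Submodule Ω (J → Ω)}
    (h : ∀ j : ℕ, (fun i => σ ((d : K → K)^[j] (ψ i))) ∈ V) : V = ⊤ := by
  classical
  have h1 := wronski_span d (fun f => der_const hd) hψ
  have h2 : ∀ y ∈ span K (Set.range fun (j : ℕ) (i : J) => (d : K → K)^[j] (ψ i)),
      (fun i => σ (y i)) ∈ V := fun y hy => by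
    induction hy using span_induction with
    | mem x hx =>
      obtain ⟨j, rfl⟩ := hx
      exact h j
    | zero =>
      convert V.zero_mem using 1
      funext i
      simp
    | add x y _ _ hx hy =>
      convert V.add_mem hx hy using 1
      funext i
      simp
    | smul a x _ hx =>
      convert V.smul_mem (σ a) hx using 1
      funext i
      simp
  rw [eq_top_iff]
  intro y _
  rw [pi_eq_sum_univ y]
  refine V.sum_mem fun i _ => V.smul_mem _ ?_
  have h3 := h2 (fun j => if i = j then 1 else 0) (h1 ▸ mem_top)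
  convert h3 using 1
  funext j
  split_ifs <;> simp

/-- Let `d` be a nonzero derivation of `K` over `k`, `p l = pt φ (σ l)`, `p' l = σ l ∘ d` of the
coordinates. For a functional `Λ y = m none * y none - ∑ m (some i) * y (some i)` the derivation
`D = ∑ m i • Dd i` satisfies `D (σ l f) = Λ (p l) / τ l * σ l (d f)` with
`τ l = ∑ t (some i) * σ l (d (φ i)) ≠ 0` (`der_eq_zero`, differentiate `hσ`). Take a minimal
dependent family `p q = ∑ a m • p m`, `m ∈ S`, all `a m ≠ 0`; `S` has two elements `1 ≠ 2` since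
`σ` is injective. With dual functionals `Λ₁, Λ₂` one gets `p' 1 / τ 1 - p' 2 / τ 2 ∈ span p`, so the
span of `p m` (`m ∈ S`) and `p' 2` is stable under `D₁`, contains all derivatives at the point `1`
and is proper, against `wronski_span`. -/
theorem gen_pos {r N : ℕ} {φ : Fin r → K}
    (hφ : LinearIndependent k fun i : Option (Fin r) => i.elim 1 φ)
    (hg : IntermediateField.adjoin k (Set.range φ) = ⊤) {t : Option (Fin r) → Ω}
    (Dd : Option (Fin r) → Derivation k Ω Ω) (hD : ∀ i j, Dd i (t j) = if i = j then 1 else 0)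
    {σ : Fin N → K →ₐ[k] Ω} (hi : Injective σ)
    (hσ : ∀ l, ∑ i, t (some i) * σ l (φ i) = t none) (S : Finset (Fin N)) (hS : S.card ≤ r) :
    LinearIndependent Ω fun l : S => pt φ (σ l) := by
  classical
  obtain ⟨w, hw⟩ := FF.ex (k := k) (K := K)
  obtain ⟨d, hd⟩ := exists_der hw 1
  have hd0 : d ≠ 0 := fun e => by
    rw [e] at hd
    exact zero_ne_one hd
  let τ : Fin N → Ω := fun l => ∑ i, t (some i) * σ l (d (φ i))
  let P : Fin N → ℕ → Option (Fin r) → Ω := fun l j i => σ l ((d : K → K)^[j] (i.elim 1 φ))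
  have hτ : ∀ l, τ l ≠ 0 := fun l e => by
    obtain ⟨D, h⟩ := exists_D_cab (φ := φ) Dd hD hw hd (LinearMap.proj none)
    have h1 := h (σ l) (hσ l)
    change D (σ l w) * τ l = σ l 1 at h1
    rw [e, mul_zero, map_one] at h1
    exact zero_ne_one h1
  have hΛ : ∀ Λ : (Option (Fin r) → Ω) →ₗ[Ω] Ω, ∃ D : Derivation k Ω Ω, ∀ l j,
      (fun i => D (P l j i)) = (Λ (P l 0) * (τ l)⁻¹) • P l (j + 1) := fun Λ => by
    obtain ⟨D, h⟩ := exists_D_cab (φ := φ) Dd hD hw hd Λ
    refine ⟨D, fun l j => funext fun i => ?_⟩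
    have h1 : D (σ l w) * τ l = Λ (P l 0) := h (σ l) (hσ l)
    rw [← h1, mul_inv_cancel_right₀ (hτ l)]
    simp only [P, Pi.smul_apply, smul_eq_mul, Function.iterate_succ_apply']
    exact der_along_cab hw hd (σ l) D _
  change LinearIndepOn Ω (fun l => P l 0) S
  induction S using Finset.strongInduction with
  | H S ih =>
  have hle : ∀ c ∈ S, LinearIndepOn Ω (fun l => P l 0) (S.erase c) := fun c hc =>
    ih _ (Finset.erase_ssubset hc) (Finset.card_erase_le.trans hS)
  rw [linearIndepOn_finset_iff]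
  intro g hg0
  by_contra hne
  push Not at hne
  obtain ⟨q, hq, hgq⟩ := hne
  have hall : ∀ m ∈ S, g m ≠ 0 := fun m hm e => by
    have hqm : q ≠ m := fun e' => hgq (e' ▸ e)
    refine hgq (linearIndepOn_finset_iff.1 (hle m hm) g ?_ q (Finset.mem_erase.2 ⟨hqm, hq⟩))
    rw [← Finset.add_sum_erase S _ hm, e, zero_smul, zero_add] at hg0
    exact hg0
  have hnone : ∑ m ∈ S, g m = 0 := by
    have := congrFun hg0 none
    simpa [P, Finset.sum_apply] using this
  have h3 : 2 < S.card := by
    by_contra hlt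
    have hc : (S.erase q).card ≤ 1 := by
      rw [Finset.card_erase_of_mem hq]
      omega
    rw [← Finset.add_sum_erase S _ hq] at hnone hg0
    have : Nonempty (Fin N) := ⟨q⟩
    obtain ⟨m, hm⟩ := Finset.card_le_one_iff_subset_singleton.1 hc
    rcases Finset.subset_singleton_iff.1 hm with h | h
    · rw [h, Finset.sum_empty, add_zero] at hnone
      exact hgq hnone
    · rw [h, Finset.sum_singleton] at hnone hg0
      have hmq : m ∈ S.erase q := h ▸ Finset.mem_singleton_self m
      rw [eq_neg_of_add_eq_zero_right hnone, neg_smul, ← sub_eq_add_neg, ← smul_sub,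
        smul_eq_zero, sub_eq_zero] at hg0
      exact (Finset.mem_erase.1 hmq).1
        (hi (pt_inj_cab hg (hg0.resolve_left hgq))).symm
  obtain ⟨a, ha, b, hb, c, hc, hab, hac, hbc⟩ := Finset.two_lt_card.1 h3
  let V : Submodule Ω (Option (Fin r) → Ω) :=
    span Ω (insert (P b 1) ((S.erase a).image fun l => P l 0) : Finset _)
  have hVb : P b 1 ∈ V := subset_span (by simp)
  have hV0' : ∀ m ∈ S.erase a, P m 0 ∈ V := fun m hm =>
    subset_span (Finset.mem_coe.2 (Finset.mem_insert_of_mem (Finset.mem_image_of_mem _ hm)))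
  have hV0 : ∀ m ∈ S, P m 0 ∈ V := fun m hm => by
    by_cases e : m = a
    · rw [← Finset.add_sum_erase S _ ha] at hg0
      rw [e, ← V.smul_mem_iff (hall a ha), eq_neg_of_add_eq_zero_left hg0]
      exact V.neg_mem (V.sum_mem fun l hl => V.smul_mem _ (hV0' l hl))
    · exact hV0' m (Finset.mem_erase.2 ⟨e, hm⟩)
  have hV1 : ∀ m ∈ S, P m 1 ∈ V := fun m hm => by
    by_cases e : m = b
    · exact e ▸ hVb
    have hm' : m ∈ S.erase b := Finset.mem_erase.2 ⟨e, hm⟩
    obtain ⟨Λ, h1, h2⟩ := exists_dual_cab (hle b hb) hm'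
    obtain ⟨D, hD'⟩ := hΛ Λ
    have h4 : ∑ l ∈ S, (D (g l) • P l 0 + (g l * (Λ (P l 0) * (τ l)⁻¹)) • P l 1) = 0 := by
      funext i
      have h5 := congrArg D (congrFun hg0 i)
      rw [Finset.sum_apply, map_sum, Pi.zero_apply, map_zero] at h5
      rw [Finset.sum_apply, Pi.zero_apply, ← h5]
      refine Finset.sum_congr rfl fun l _ => ?_
      have h6 := congrFun (hD' l 0) i
      simp only [Pi.smul_apply, smul_eq_mul, zero_add] at h6
      simp only [Pi.add_apply, Pi.smul_apply, smul_eq_mul, D.leibniz, h6]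
      ring
    rw [Finset.sum_add_distrib, ← Finset.add_sum_erase S
      (fun l => (g l * (Λ (P l 0) * (τ l)⁻¹)) • P l 1) hb, Finset.sum_eq_single_of_mem m hm'
      fun l hl hlm => by rw [h2 l hl hlm, zero_mul, mul_zero, zero_smul], h1, one_mul,
      ← add_assoc] at h4
    rw [← V.smul_mem_iff (mul_ne_zero (hall m hm) (inv_ne_zero (hτ m))),
      eq_neg_of_add_eq_zero_right h4]
    exact V.neg_mem (V.add_mem (V.sum_mem fun l hl => V.smul_mem _ (hV0 l hl))
      (V.smul_mem _ hVb))
  obtain ⟨Λ, h1, h2⟩ := exists_dual_cab (hle c hc) (Finset.mem_erase.2 ⟨hac, ha⟩)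
  obtain ⟨D, hD'⟩ := hΛ Λ
  have hst : ∀ y ∈ V, (fun i => D (y i)) ∈ V := fun y hy => by
    induction hy using span_induction with
    | mem x hx =>
      rcases Finset.mem_insert.1 (Finset.mem_coe.1 hx) with rfl | hx
      · rw [hD', h2 b (Finset.mem_erase.2 ⟨hbc, hb⟩) hab.symm, zero_mul, zero_smul]
        exact V.zero_mem
      · obtain ⟨l, hl, rfl⟩ := Finset.mem_image.1 hx
        rw [hD']
        exact V.smul_mem _ (hV1 l (Finset.mem_of_mem_erase hl))
    | zero =>
      convert V.zero_mem using 1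
      funext i
      simp
    | add x y _ _ hx hy =>
      convert V.add_mem hx hy using 1
      funext i
      simp
    | smul s x hx0 hx =>
      convert V.add_mem (V.smul_mem s hx) (V.smul_mem (D s) hx0) using 1
      funext i
      simp only [Pi.smul_apply, smul_eq_mul, D.leibniz, Pi.add_apply]
      ring
  have hP : ∀ j, P a j ∈ V := fun j => by
    induction j with
    | zero => exact hV0 a ha
    | succ j ihj =>
      have h4 := hst _ ihj
      rwa [hD', h1, one_mul, V.smul_mem_iff (inv_ne_zero (hτ a))] at h4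
  have htop : V = ⊤ := span_top_cab hφ hd0 (σ a) hP
  have h5 : finrank Ω V ≤ S.card := by
    refine (finrank_span_finset_le_card _).trans ((Finset.card_insert_le _ _).trans ?_)
    have := Finset.card_image_le (s := S.erase a) (f := fun l => P l 0)
    rw [Finset.card_erase_of_mem ha] at this
    omega
  rw [htop, finrank_top, finrank_fintype_fun_eq_card, Fintype.card_option,
    Fintype.card_fin] at h5
  omega

end Pool.Agent.Lib.MP_13404a_ag.UB
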