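import Pool.Agent.Lib.MP_13404a_ag.UB.Sub

/-!
Castelnuovo: the points of the generic hyperplane section.
-/

open Module Submodule Function Finsupp
open scoped IntermediateField Polynomial

namespace Pool.Agent.Lib.MP_13404a_ag.UB

open Pool.Agent.Lib.MP_15f242_ag

universe u

variable {k K : Type u} [Field k] [CharZero k] [Field K] [Algebra k K] [FF k K]

omit [FF k K] in
/-- Specialisation. If `p ≠ 0` choose `w : Fin r → k` such that the polynomials
`p s (c + ε w, T)` in `ε` over `k[T]` are not all zero (the field is infinite: some `p s (a, T)` is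
nonzero, `w = a - c`). Substituting `X i ↦ c i + ε w i` gives a relation in `K[ε]` with
`T = y + ε z`, `z = ∑ w i • φ i`. Cancel the largest common power of `ε` and put `ε = 0`. -/
lemma indep_generic {r : ℕ} (φ : Fin r → K) (c : Fin r → k) {J : Type} [Fintype J] {b : J → K}
    (hb : ∀ q : J → k[X], ∑ s, Polynomial.aeval (∑ i, c i • φ i) (q s) * b s = 0 → q = 0)
    (p : J → MvPolynomial (Option (Fin r)) k)
    (hp : ∑ s, MvPolynomial.aeval (fun o : Option (Fin r) => o.elim
      (∑ i, MvPolynomial.X i * MvPolynomial.C (φ i)) MvPolynomial.X) (p s) *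
        MvPolynomial.C (b s) = (0 : MvPolynomial (Fin r) K)) : p = 0 := by
  classical
  let T : MvPolynomial (Fin r) K :=
    ∑ i, (MvPolynomial.X i + MvPolynomial.C (algebraMap k K (c i))) * MvPolynomial.C (φ i)
  let θ : MvPolynomial (Fin r) K →ₐ[K] MvPolynomial (Fin r) K :=
    MvPolynomial.aeval fun i => MvPolynomial.X i + MvPolynomial.C (algebraMap k K (c i))
  let θ' : MvPolynomial (Option (Fin r)) k →ₐ[k] MvPolynomial (Fin r) k[X] :=
    MvPolynomial.aeval fun o => o.elim (MvPolynomial.C Polynomial.X)
      fun i => MvPolynomial.X i + MvPolynomial.C (Polynomial.C (c i))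
  let Ψ : MvPolynomial (Fin r) k[X] →+* MvPolynomial (Fin r) K :=
    MvPolynomial.eval₂Hom (Polynomial.aeval T : k[X] →ₐ[k] _) MvPolynomial.X
  let ρ : MvPolynomial (Fin r) k[X] →+* MvPolynomial (Option (Fin r)) k :=
    MvPolynomial.eval₂Hom (Polynomial.aeval (MvPolynomial.X none) :
      k[X] →ₐ[k] MvPolynomial (Option (Fin r)) k)
      fun i => MvPolynomial.X (some i) - MvPolynomial.C (c i)
  have h1 : ∀ q, ρ (θ' q) = q := fun q => by
    have e : ρ.comp θ'.toRingHom = RingHom.id _ := by
      refine MvPolynomial.ringHom_ext (fun a => ?_) fun o => ?_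
      · simp [ρ, θ']
      · cases o <;> simp [ρ, θ']
    exact RingHom.congr_fun e q
  have h2 : ∀ q, θ (MvPolynomial.aeval (fun o : Option (Fin r) => o.elim
      (∑ i, MvPolynomial.X i * MvPolynomial.C (φ i)) MvPolynomial.X) q) = Ψ (θ' q) := fun q => by
    have e : θ.toRingHom.comp (MvPolynomial.aeval (R := k) fun o : Option (Fin r) => o.elim
        (∑ i, MvPolynomial.X i * MvPolynomial.C (φ i)) MvPolynomial.X).toRingHom =
        Ψ.comp θ'.toRingHom := by
      refine MvPolynomial.ringHom_ext (fun a => ?_) fun o => ?_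
      · simp [Ψ, θ, θ']
      · cases o <;> simp [Ψ, θ, θ', T]
    exact RingHom.congr_fun e q
  have h3 : ∑ s, Ψ (θ' (p s)) * MvPolynomial.C (b s) = 0 := by
    have := congrArg θ hp
    rw [map_sum, map_zero] at this
    rw [← this]
    exact Finset.sum_congr rfl fun s _ => by rw [map_mul, h2, MvPolynomial.algHom_C]; rfl
  have h4 : ∀ q : k[X], MvPolynomial.coeff 0 (Polynomial.aeval T q) =
      Polynomial.aeval (∑ i, c i • φ i) q := fun q => by
    have := Polynomial.aeval_algHom_apply
      ((MvPolynomial.aeval fun _ : Fin r => (0 : K)).restrictScalars k) T q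
    rw [AlgHom.restrictScalars_apply, AlgHom.restrictScalars_apply, MvPolynomial.aeval_zero',
      MvPolynomial.aeval_zero'] at this
    refine this.symm.trans (congrArg (fun z => Polynomial.aeval z q) ?_)
    simp [T, Algebra.smul_def]
  have h5 : ∀ m : Fin r →₀ ℕ, ∀ s, (θ' (p s)).coeff m = 0 := fun m => by
    induction m using WellFoundedLT.induction with
    | ind m ih =>
    refine congrFun (hb (fun s => (θ' (p s)).coeff m) ?_)
    have := congrArg (MvPolynomial.coeff m) h3
    rw [MvPolynomial.coeff_sum, MvPolynomial.coeff_zero] at this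
    rw [← this]
    refine Finset.sum_congr rfl fun s _ => ?_
    rw [mul_comm (Ψ _), MvPolynomial.coeff_C_mul, mul_comm]
    congr 1
    conv_rhs => rw [(θ' (p s)).as_sum, map_sum, MvPolynomial.coeff_sum]
    have e : ∀ m' a, MvPolynomial.coeff m (Ψ (MvPolynomial.monomial m' a)) =
        if m' ≤ m then MvPolynomial.coeff (m - m') (Polynomial.aeval T a) else 0 := fun m' a => by
      have := MvPolynomial.coeff_mul_monomial' m m' (1 : K) (Polynomial.aeval T a)
      rw [mul_one] at this
      rw [← this, MvPolynomial.eval₂Hom_monomial, MvPolynomial.monomial_eq, map_one, one_mul]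
      rfl
    simp only [e]
    rw [Finset.sum_eq_single m, if_pos le_rfl, tsub_self, h4]
    · intro m' _ hm
      split_ifs with h
      · rw [ih m' (lt_of_le_of_ne h hm), map_zero, MvPolynomial.coeff_zero]
      · rfl
    · intro h
      rw [MvPolynomial.notMem_support_iff.1 h, map_zero, MvPolynomial.coeff_zero, ite_self]
  funext s
  rw [← h1 (p s), MvPolynomial.ext _ 0 fun m => h5 m s, map_zero]
  rfl

omit [FF k K] in
/-- As `der_dual` in `MP_d80bfc_ag/Der.lean`, or `exists_extend`. -/
lemma exists_dual {Ω : Type u} [Field Ω] [Algebra k Ω] {J : Type} [DecidableEq J] {t : J → Ω}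
    (ht : IsTranscendenceBasis k t) :
    ∃ Dd : J → Derivation k Ω Ω, ∀ i j, Dd i (t j) = if i = j then 1 else 0 := by
  let : Algebra (MvPolynomial J k) Ω := (MvPolynomial.aeval t).toAlgebra
  have : IsScalarTower k (MvPolynomial J k) Ω := IsScalarTower.of_algHom _
  have : FaithfulSMul (MvPolynomial J k) Ω :=
    (faithfulSMul_iff_algebraMap_injective _ _).2 ht.1
  have : Algebra.IsAlgebraic (MvPolynomial J k) Ω :=
    ⟨fun x => IsAlgebraic.of_ringHom_of_comp_eq ht.1.aevalEquiv.toRingEquiv.toRingHom (RingHom.id Ω)
      (ht.isAlgebraic.1 x) ht.1.aevalEquiv.surjective injective_id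
      (RingHom.ext fun q => ht.1.algebraMap_aevalEquiv q)⟩
  choose D hD using fun i =>
    exists_extend ((Algebra.linearMap (MvPolynomial J k) Ω).compDer (MvPolynomial.pderiv i))
  refine ⟨D, fun i j => ?_⟩
  have := hD i (MvPolynomial.X j)
  simpa [RingHom.algebraMap_toAlgebra, Pi.single_apply, eq_comm, apply_ite] using this

/-- `L = FractionRing (MvPolynomial (Fin r) K)`, `Ω = AlgebraicClosure L`, `t (some i) = X i`,
`t none = ∑ X i * φ i`, `F₀ = adjoin k (range t)` in `L`. By `indep_generic` the family `t` is
algebraically independent and a basis of `K` over `k⟮y⟯` stays independent over `F₀`; `L` is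
finite over `F₀` (transcendence degree, finitely generated), so there are `finrank F₀ L` embeddings
(`AlgHom.card`), distinct on `K`. -/
theorem exists_points {r : ℕ} (φ : Fin r → K)
    (hg : IntermediateField.adjoin k (Set.range φ) = ⊤) (c : Fin r → k)
    (hy : Transcendental k (∑ i, c i • φ i)) {N : ℕ} (hN : N ≤ finrank k⟮∑ i, c i • φ i⟯ K) :
    ∃ (Ω : Type u) (_ : Field Ω) (_ : Algebra k Ω) (t : Option (Fin r) → Ω)
      (σ : Fin N → K →ₐ[k] Ω), IsTranscendenceBasis k t ∧ Injective σ ∧
      ∀ l, ∑ i, t (some i) * σ l (φ i) = t none := by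
  classical
  set y := ∑ i, c i • φ i with hy0
  let A := MvPolynomial (Fin r) K
  let L := FractionRing A
  let Ω := AlgebraicClosure L
  let t₁ : Option (Fin r) → A := fun o => o.elim
    (∑ i, MvPolynomial.X i * MvPolynomial.C (φ i)) MvPolynomial.X
  let t₀ : Option (Fin r) → L := fun o => algebraMap A L (t₁ o)
  have hev : ∀ q : MvPolynomial (Option (Fin r)) k,
      MvPolynomial.aeval t₀ q = algebraMap A L (MvPolynomial.aeval t₁ q) := fun q =>
    MvPolynomial.aeval_algebraMap_apply L t₁ q
  have hinj := IsFractionRing.injective A L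
  have hind : AlgebraicIndependent k t₀ := algebraicIndependent_iff.2 fun q hq =>
    congrFun (indep_generic φ c (J := Unit) (b := fun _ => 1)
      (fun q h => funext fun s => transcendental_iff.1 hy _ (by simpa using h)) (fun _ => q)
      (by simpa using hinj ((hev q).symm.trans (hq.trans (map_zero _).symm)))) ()
  have hK : IsTranscendenceBasis k fun _ : Unit => y :=
    (algebraicIndependent_unique_type_iff.2 hy).isTranscendenceBasis_iff_isAlgebraic.2
      (by rw [Set.range_const]; exact ⟨alg_adjoin hy⟩)
  have : Algebra.IsAlgebraic A L := IsLocalization.isAlgebraic L (nonZeroDivisors A)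
  have hL := hK.sumElim_comp
    ((IsTranscendenceBasis.mvPolynomial (Fin r) K).algebraMap_comp (A := L))
  have hB : IsTranscendenceBasis k t₀ := hind.isTranscendenceBasis_of_lift_trdeg_le_of_finite (by
    rw [← hL.lift_cardinalMk_eq_trdeg]
    simp)
  let F := IntermediateField.adjoin k (Set.range t₀)
  have hF : ∀ o, t₀ o ∈ F := fun o => IntermediateField.subset_adjoin _ _ ⟨o, rfl⟩
  have halg : Algebra.IsAlgebraic F L := hB.isAlgebraic_field
  have hC : ∀ a : K, algebraMap A L (MvPolynomial.C a) = algebraMap K L a := fun a =>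
    (IsScalarTower.algebraMap_apply K A L a).symm
  have htop : IntermediateField.adjoin F (Set.range fun i => algebraMap K L (φ i)) = ⊤ := by
    set E := IntermediateField.adjoin F (Set.range fun i => algebraMap K L (φ i))
    have e1 : ∀ a : K, algebraMap K L a ∈ E := fun a => by
      have : IntermediateField.adjoin k (Set.range φ) ≤
          (E.restrictScalars k).comap (IsScalarTower.toAlgHom k K L) := by
        rw [IntermediateField.adjoin_le_iff]
        rintro _ ⟨i, rfl⟩
        exact IntermediateField.subset_adjoin F (Set.range fun i => algebraMap K L (φ i)) ⟨i, rfl⟩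
      exact this (hg.ge IntermediateField.mem_top)
    have e2 : ∀ q : A, algebraMap A L q ∈ E := fun q => by
      induction q using MvPolynomial.induction_on with
      | C a => rw [hC]; exact e1 a
      | add p q hp hq => rw [map_add]; exact add_mem hp hq
      | mul_X p i hp =>
        rw [map_mul]
        exact mul_mem hp (E.algebraMap_mem ⟨_, hF (some i)⟩)
    refine eq_top_iff.2 fun z _ => ?_
    obtain ⟨a, b, -, rfl⟩ := IsFractionRing.div_surjective A z
    exact div_mem (e2 a) (e2 b)
  have hfd : FiniteDimensional F L := by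
    have := IntermediateField.finiteDimensional_adjoin (K := F)
      (S := Set.range fun i => algebraMap K L (φ i)) fun x _ => (halg.1 x).isIntegral
    rw [htop] at this
    exact IntermediateField.topEquiv.toLinearEquiv.finiteDimensional
  have := FF.fin y hy
  let b := finBasis k⟮y⟯ K
  have hli : LinearIndependent F fun s => algebraMap K L (b s) := by
    open scoped IntermediateField.algebraAdjoinAdjoin in
    rw [← LinearIndependent.iff_fractionRing (Algebra.adjoin k (Set.range t₀)),
      Fintype.linearIndependent_iff]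
    intro g hg' s
    have h5 : ∀ s, ∃ q : MvPolynomial (Option (Fin r)) k, MvPolynomial.aeval t₀ q = g s :=
      fun s => (Algebra.adjoin_range_eq_range_aeval k t₀).le (g s).2
    choose q hq using h5
    have h6 : q = 0 := indep_generic φ c (b := b) (fun q h => funext fun s =>
      transcendental_iff.1 hy _ (congrArg Subtype.val (Fintype.linearIndependent_iff.1
        b.linearIndependent (fun s => ⟨Polynomial.aeval y (q s),
          IntermediateField.algebra_adjoin_le_adjoin k _ (Polynomial.aeval_mem_adjoin_singleton k y)⟩) h s))) q (hinj (by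
      rw [map_sum, map_zero, ← hg']
      exact Finset.sum_congr rfl fun s _ => by rw [map_mul, ← hev, hq, hC]; rfl))
    exact Subtype.ext (by rw [← hq, h6]; exact map_zero _)
  have hcard : Fintype.card (Fin N) ≤ Fintype.card (L →ₐ[F] Ω) := by
    have := hli.fintype_card_le_finrank
    rw [Fintype.card_fin] at this
    rw [AlgHom.card, Fintype.card_fin]
    exact hN.trans this
  obtain ⟨τ⟩ := Embedding.nonempty_of_card_le hcard
  have hτ : ∀ l o, τ l (t₀ o) = algebraMap L Ω (t₀ o) := fun l o => (τ l).commutes ⟨_, hF o⟩
  refine ⟨Ω, inferInstance, inferInstance, algebraMap L Ω ∘ t₀,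
    fun l => ((τ l).restrictScalars k).comp (IsScalarTower.toAlgHom k K L), hB.algebraMap_comp,
    fun l l' h => τ.injective ?_, fun l => ?_⟩
  · refine AlgHom.coe_ringHom_injective (IsFractionRing.ringHom_ext (A := A) fun q => ?_)
    refine RingHom.congr_fun (f := (τ l : L →+* Ω).comp (algebraMap A L))
      (g := (τ l' : L →+* Ω).comp (algebraMap A L))
      (MvPolynomial.ringHom_ext (fun a => ?_) fun i => ?_) q
    · change τ l (algebraMap A L _) = τ l' (algebraMap A L _)
      rw [hC]
      exact AlgHom.congr_fun h a
    · exact (hτ l (some i)).trans (hτ l' (some i)).symm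
  · simp only [comp_apply, ← hτ l]
    change _ = τ l (algebraMap A L (∑ i, MvPolynomial.X i * MvPolynomial.C (φ i)))
    rw [map_sum, map_sum]
    exact Finset.sum_congr rfl fun i _ => by rw [map_mul, map_mul, hC]; rfl

end Pool.Agent.Lib.MP_13404a_ag.UB
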