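import Pool.Agent.Lib.MP_13404a_ag.UB.Sub

/-!
A Weil differential that kills all derivatives.
-/

open Module Submodule Function Finsupp
open scoped IntermediateField Polynomial

namespace Pool.Agent.Lib.MP_13404a_ag.UB

open Pool.Agent.Lib.MP_15f242_ag

universe u

variable {k K : Type u} [Field k] [CharZero k] [Field K] [Algebra k K] [FF k K]

lemma pole_cana {y : K} (hy : Transcendental k y) (h1 : finrank k⟮y⟯ K = 1) :
    ∃ Q : Pt k K, po Q y = 1 ∧ ∀ R : Pt k K, R ≠ Q → y ∈ R.1 := by
  obtain ⟨Q, hQ⟩ := exists_pole hy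
  have h2 := degree_pol hy
  rw [h1] at h2
  rw [mem_iff_po, not_le] at hQ
  refine ⟨Q, ?_, fun R hR => by_contra fun h => ?_⟩
  · have h3 : single Q (po Q y) ≤ pol k y := fun R => by
      by_cases e : R = Q
      · rw [e, single_eq_same, pol_apply]; omega
      · rw [single_eq_of_ne e, pol_apply]; omega
    have h4 := degree_mono h3
    rw [degree_single] at h4
    omega
  · rw [mem_iff_po, not_le] at h
    have h3 : single Q 1 + single R 1 ≤ pol k y := fun S => by
      rw [Finsupp.add_apply, pol_apply]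
      by_cases e : S = Q
      · rw [e, single_eq_same, single_eq_of_ne hR.symm]; omega
      · by_cases e' : S = R
        · rw [single_eq_of_ne e, e', single_eq_same]; omega
        · rw [single_eq_of_ne e, single_eq_of_ne e']; omega
    have h4 := degree_mono h3
    rw [map_add, degree_single, degree_single] at h4
    omega

omit [CharZero k] in
lemma split_cana {y : K} {Q : Pt k K} (h : po Q y = 1) (g : K) :
    ∃ p : k[X], g - Polynomial.aeval y p ∈ fil Q (-1) := by
  have y0 : y ≠ 0 := fun e => by simp [e, po] at h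
  have key : ∀ (n : ℕ) (g : K), g ∈ fil Q (n - 1) →
      ∃ p : k[X], g - Polynomial.aeval y p ∈ fil Q (-1) := fun n => by
    induction n with
    | zero => exact fun g hg => ⟨0, by simpa using hg⟩
    | succ n ih =>
      intro g hg
      obtain ⟨c, hc⟩ := exists_res (P := Q) (n := n) (pow_ne_zero n y0) (by rw [po_pow, h, mul_one])
        (x := g) (by simpa using hg)
      obtain ⟨p, hp⟩ := ih _ hc
      refine ⟨c • Polynomial.X ^ n + p, ?_⟩
      rw [map_add, map_smul, map_pow, Polynomial.aeval_X, ← sub_sub]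
      exact hp
  exact key ((po Q g).toNat + 1) g (mem_fil_of (by omega))

lemma zero_cana {Q : Pt k K} {g : K} (h : ∀ R : Pt k K, R ≠ Q → g ∈ R.1)
    (hg : g ∈ fil Q (-1)) : g = 0 := by
  obtain ⟨c, rfl⟩ := const_of_regular (k := k) (x := g) fun R => by
    by_cases e : R = Q
    · exact e ▸ mem_of_fil hg (by omega)
    · exact h R e
  rw [const_eq_zero hg, map_zero]

omit [CharZero k] [FF k K] in
lemma aeval_mem_cana {y : K} {R : Pt k K} (h : y ∈ R.1) (p : k[X]) :
    Polynomial.aeval y p ∈ R.1 :=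
  (Algebra.adjoin_le (by simpa using h) : Algebra.adjoin k {y} ≤ R.1)
    (Polynomial.aeval_mem_adjoin_singleton k y)

lemma rho_cana {y : K} {Q : Pt k K} (h : po Q y = 1) (h' : ∀ R : Pt k K, R ≠ Q → y ∈ R.1)
    {d : Derivation k K K} (hd : d y = 1) :
    ∃ ρ : K →ₗ[k] k, ρ y⁻¹ ≠ 0 ∧ (∀ f, ρ (d f) = 0) ∧
      (∀ f, (∀ R : Pt k K, R ≠ Q → f ∈ R.1) → ρ f = 0) ∧ ∀ f ∈ fil Q (-2), ρ f = 0 := by
  have y0 : y ≠ 0 := fun e => by simp [e, po] at h
  have h1 : y⁻¹ ∉ LinearMap.range (Polynomial.aeval y : k[X] →ₐ[k] K).toLinearMap ⊔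
      filk Q (-2) := fun e => by
    obtain ⟨_, ⟨p, rfl⟩, s, hs, e⟩ := mem_sup.1 e
    have h2 : Polynomial.aeval y p = 0 := zero_cana (Q := Q)
      (fun R hR => aeval_mem_cana (h' R hR) p) (by
        rw [show Polynomial.aeval y p = y⁻¹ - s from eq_sub_of_add_eq e]
        exact sub_mem (mem_fil_of (by rw [po_inv, h])) (fil_mono Q (by omega) hs))
    rw [AlgHom.toLinearMap_apply, h2, zero_add] at e
    have h3 := (mem_fil (inv_ne_zero y0)).1 (show y⁻¹ ∈ fil Q (-2) from e ▸ hs)
    rw [po_inv, h] at h3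
    omega
  obtain ⟨ρ, h2, h3⟩ := Submodule.exists_le_ker_of_notMem h1
  have h4 : ∀ p : k[X], ρ (Polynomial.aeval y p) = 0 := fun p => h3 (mem_sup_left ⟨p, rfl⟩)
  have h5 : ∀ f ∈ fil Q (-2), ρ f = 0 := fun f hf => h3 (mem_sup_right hf)
  refine ⟨ρ, h2, fun f => ?_, fun f hf => ?_, h5⟩
  · obtain ⟨m, hm⟩ := exists_ord Q (D := d) (w := y) (by rw [hd]; exact one_ne_zero)
    have h6 := (hm.po_eq y (by omega)).2
    rw [hd, po_one, h] at h6
    obtain ⟨p, hp⟩ := split_cana h f
    have h7 := h5 _ (fil_mono Q (by omega) (hm.mem _ (mem_of_fil hp (by omega))))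
    rwa [map_sub, map_sub, Derivation.comp_aeval_eq, hd, smul_eq_mul, mul_one, h4, sub_zero] at h7
  · obtain ⟨p, hp⟩ := split_cana h f
    rw [sub_eq_zero.1 (zero_cana (fun R hR => sub_mem (hf R hR) (aeval_mem_cana (h' R hR) p)) hp),
      h4]

omit [CharZero k] in
lemma ord_fil_cana {P : Pt k K} {d : Derivation k K K} {m : ℤ} (h : Ord P d m) (n : ℤ) {t : K}
    (ht : t ∈ fil P (min (-1) (n - 1 - m))) : d t ∈ fil P n := by
  rcases eq_or_ne t 0 with rfl | t0
  · simp
  · rw [mem_fil t0] at ht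
    exact mem_fil_of (by rw [(h.po_eq t (by omega)).2]; omega)

/-- The residue at infinity of the trace. On `E = k⟮x⟯` (`ff_sub`) the function `x` has a single
pole `Q`, simple (`degree_pol`, `finrank = 1`). Every element of `E` is `p x + s` with
`s ∈ fil Q (-1)` (`exists_res`, induction); `x⁻¹` is not in `range (aeval x) ⊔ filk Q (-2)`, take a
functional `ρ` vanishing there with `ρ x⁻¹ ≠ 0` and `μ = ρ ∘ trace`. Use `trace_mem_fil'`,
`trace_der`, `exists_der` on `E`, `Ord` at `Q` (order `-2`), `const_of_regular`. -/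
lemma exists_mu {x : K} (hx : Transcendental k x) {d : Derivation k K K} (hd : d x = 1) :
    ∃ μ : K →ₗ[k] k, μ ≠ 0 ∧ (∀ f, μ (d f) = 0) ∧
      (∀ f, (∀ P : Pt k K, x ∈ P.1 → f ∈ P.1) → μ f = 0) ∧
      ∀ f, (∀ P : Pt k K, x ∉ P.1 → f ∈ fil P (-2 * po P x)) → μ f = 0 := by
  have : FF k k⟮x⟯ := ff_sub _ (IntermediateField.mem_adjoin_simple_self k x) hx
  have := FF.fin x hx
  let y : k⟮x⟯ := IntermediateField.AdjoinSimple.gen k x
  have hy : Transcendental k y :=
    (transcendental_algebraMap_iff (algebraMap k⟮x⟯ K).injective).1 hx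
  have h0 : 0 < finrank k⟮x⟯ K := finrank_pos
  have h1 : finrank k⟮y⟯ k⟮x⟯ = 1 := by
    have h := finrank_adjoin_tower (K := K) hy
    exact (Nat.eq_of_mul_eq_mul_left h0 ((mul_one _).trans h)).symm
  obtain ⟨Q, h2, h3⟩ := pole_cana hy h1
  obtain ⟨d', hd'⟩ := exists_der hy 1
  obtain ⟨ρ, r1, r2, r3, r4⟩ := rho_cana h2 h3 hd'
  have : CharZero k⟮x⟯ := charZero_of_injective_algebraMap (algebraMap k _).injective
  refine ⟨ρ ∘ₗ (Algebra.trace k⟮x⟯ K).restrictScalars k, fun h => ?_, fun f => ?_, fun f hf => ?_,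
    fun f hf => ?_⟩
  · have h4 : ρ (Algebra.trace k⟮x⟯ K (algebraMap k⟮x⟯ K y⁻¹)) = 0 := LinearMap.congr_fun h _
    rw [Algebra.trace_algebraMap, map_nsmul, nsmul_eq_mul, mul_eq_zero, Nat.cast_eq_zero] at h4
    exact h4.elim h0.ne' r1
  · have h4 := trace_der (d.restrictScalars ℤ) (d'.restrictScalars ℤ) (der_compat (k := k)
      (fun a => by simp) hy (by
        change d x = algebraMap k⟮x⟯ K (d' y)
        rw [hd, hd', map_one])) f
    exact (congrArg ρ h4).symm.trans (r2 _)
  · refine r3 _ fun R hR => mem_fil_zero.1 (trace_mem_fil' fun P e h4 h5 _ => ?_)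
    exact fil_of_mem (hf P (mem_res.1 (h4 ▸ h3 R hR))) (by omega)
  · refine r4 _ (trace_mem_fil' fun P e h4 h5 h6 => ?_)
    have h7 : po P x = e := (h6 y).trans (by rw [h2, mul_one])
    exact fil_mono P (by omega) (hf P (by rw [mem_iff_po]; omega))

/-- Strong approximation away from the poles of `x`: `D + m • pol x` is non special
(`exists_ii_bound`, `ii_eq_zero`). -/
lemma strong_approx {x : K} (hx : Transcendental k x) (a : AA k K) (D : Div k K) :
    ∃ f : K, ∀ P : Pt k K, x ∈ P.1 → a.1 P - f ∈ fil P (D P) := by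
  obtain ⟨c, hc⟩ := exists_ii_bound (k := k) (K := K)
  have := FF.fin x hx
  have h0 : 0 < finrank k⟮x⟯ K := finrank_pos
  have h1 : c ≤ degree (D + (c - degree D).toNat • pol k x) := by
    rw [map_add, map_nsmul, degree_pol hx, nsmul_eq_mul]
    have h2 := Int.self_le_toNat (c - degree D)
    have h3 := Int.natCast_nonneg (c - degree D).toNat
    have h4 : (1 : ℤ) ≤ finrank k⟮x⟯ K := by exact_mod_cast h0
    nlinarith
  obtain ⟨b, hb, _, ⟨f, rfl⟩, e⟩ := mem_sup.1 (ii_eq_zero.1 (hc _ h1) ((Ad_OD 0 _).le a.2))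
  refine ⟨f, fun P hP => ?_⟩
  have h2 : b P ∈ fil P ((D + (c - degree D).toNat • pol k x) P) := mem_hat.1 hb P
  rw [Finsupp.add_apply, Finsupp.smul_apply, pol_apply, max_eq_right (mem_iff_po.1 hP), smul_zero,
    add_zero] at h2
  have h3 : b P + f = a.1 P := congrFun e P
  rwa [← h3, add_sub_cancel_right]

/-- `K = adjoin k S` with `S ∋ x` finite; with a common denominator `h` of the `d s`, the ring
generated by `S ∪ {h⁻¹}` is stable, so `der_mem_of_stable` applies at almost every point; there the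
order `m` (`exists_ord`) is `≤ 0` (uniformiser) and `≥ 0` (`d x = 1`). -/
lemma finite_ord {x : K} (hx : Transcendental k x) {d : Derivation k K K} (hd : d x = 1) :
    {P : Pt k K | ¬ Ord P d 0}.Finite := by
  have := FF.fin x hx
  let b := finBasis k⟮x⟯ K
  let S₀ : Set K := insert x (Set.range b)
  have f0 : S₀.Finite := (Set.finite_range b).insert x
  have h0 : IntermediateField.adjoin k S₀ = ⊤ := eq_top_iff.2 fun z _ => by
    rw [← b.sum_repr z]
    refine sum_mem fun i _ => mul_mem (IntermediateField.adjoin.mono k _ _ (by simp [S₀])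
      (b.repr z i).2) (IntermediateField.subset_adjoin k _ (by simp [S₀]))
  choose u hu v hv e using fun s : K => IntermediateField.mem_adjoin_iff_div.1
    (h0.ge (IntermediateField.mem_top (x := d s)))
  let S : Set K := S₀ ∪ (fun s => (v s)⁻¹) '' S₀
  have f1 : S.Finite := f0.union (f0.image _)
  have l1 : Algebra.adjoin k S₀ ≤ Algebra.adjoin k S := Algebra.adjoin_mono Set.subset_union_left
  have h1 : ∀ a ∈ Algebra.adjoin k S₀, d a ∈ Algebra.adjoin k S := fun a ha => by
    induction ha using Algebra.adjoin_induction with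
    | mem s hs =>
      rw [e s, div_eq_mul_inv]
      exact mul_mem (l1 (hu s)) (Algebra.subset_adjoin (.inr ⟨s, hs, rfl⟩))
    | algebraMap c => rw [d.map_algebraMap]; exact zero_mem _
    | add a b _ _ ha hb => rw [map_add]; exact add_mem ha hb
    | mul a b h1 h2 ha hb => rw [d.leibniz]; exact add_mem (mul_mem (l1 h1) hb) (mul_mem (l1 h2) ha)
  have h2 : ∀ s ∈ S, d s ∈ Algebra.adjoin k S := by
    rintro _ (hs | ⟨s, hs, rfl⟩)
    · exact h1 _ (Algebra.subset_adjoin hs)
    · rw [d.leibniz_inv, smul_eq_mul]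
      exact mul_mem (neg_mem (pow_mem (Algebra.subset_adjoin (.inr ⟨s, hs, rfl⟩)) 2))
        (h1 _ (hv s))
  refine (f1.biUnion fun s _ => finite_poles (k := k) s).subset fun P hP => by_contra fun h => ?_
  have h3 : S ⊆ P.1 := fun s hs => by_contra fun h' => h (Set.mem_biUnion hs h')
  obtain ⟨m, hm⟩ := exists_ord P (D := d) (w := x) (by rw [hd]; exact one_ne_zero)
  obtain ⟨π, p0, hπ⟩ := exists_po P (-1)
  have h4 : d π ∈ P.1 := der_mem_of_stable (D := d.restrictScalars ℤ) (fun c => ⟨0, by simp⟩)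
    (eq_top_iff.2 (h0.ge.trans (IntermediateField.adjoin.mono k _ _ Set.subset_union_left))) h3 h2
    (mem_iff_po.2 (by omega))
  have h5 := (hm.po_eq π (by omega)).2
  have h6 := hm.mem x (h3 (.inl (Set.mem_insert _ _)))
  rw [hd, mem_fil one_ne_zero, po_one] at h6
  rw [mem_iff_po] at h4
  obtain rfl : m = 0 := by omega
  exact hP hm

/-- For an adele `a` choose `f` with `a P - f ∈ P` at the points where `x` is regular
(`strong_approx`) and `h` with `a P - h ∈ fil P (-2 * po P x)` at the poles (`weak_approx`), and put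
`w a = μ h - μ f`; this does not depend on the choices; `D = -2 • pol x`. For `a = sing P (d g)`
approximate `sing P g` so well that the derivatives of the approximations can be used
(`exists_ord`, `finite_ord`). -/
theorem exists_weil {x : K} (hx : Transcendental k x) {d : Derivation k K K} (hd : d x = 1) :
    ∃ (w : Dual k (AA k K)) (D : Div k K), w ≠ 0 ∧ w ∈ Om D ∧
      ∀ (P : Pt k K) (f : K), w (sing P (d f)) = 0 := by
  classical
  obtain ⟨μ, m0, m1, m2, m3⟩ := exists_mu hx hd
  have wa : ∀ (a : Pt k K → K) (n : Pt k K → ℤ), ∃ h : K, ∀ P : Pt k K, x ∉ P.1 →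
      a P - h ∈ fil P (n P) := fun a n => by
    obtain ⟨h, hh⟩ := weak_approx (finite_poles (k := k) x).toFinset a n
    exact ⟨h, fun P hP => by simpa using neg_mem (hh P (by simpa using hP))⟩
  choose F hF using fun a : AA k K => strong_approx hx a 0
  choose H hH using fun a : AA k K => wa a.1 fun P => -2 * po P x
  have hF' : ∀ (a : AA k K) (P : Pt k K), x ∈ P.1 → a.1 P - F a ∈ P.1 :=
    fun a P hP => mem_fil_zero.1 (hF a P hP)
  have key : ∀ (a : AA k K) (f h : K), (∀ P : Pt k K, x ∈ P.1 → a.1 P - f ∈ P.1) →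
      (∀ P : Pt k K, x ∉ P.1 → a.1 P - h ∈ fil P (-2 * po P x)) →
      μ (H a) - μ (F a) = μ h - μ f := fun a f h hf hh => by
    have h1 := m2 (f - F a) fun P hP => by simpa using sub_mem (hF' a P hP) (hf P hP)
    have h2 := m3 (h - H a) fun P hP => by simpa using sub_mem (hH a P hP) (hh P hP)
    rw [map_sub, sub_eq_zero] at h1 h2
    rw [h1, h2]
  let w : Dual k (AA k K) :=
    { toFun := fun a => μ (H a) - μ (F a)
      map_add' := fun a b => by
        rw [key (a + b) (F a + F b) (H a + H b), map_add, map_add]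
        · ring
        · intro P hP
          convert add_mem (hF' a P hP) (hF' b P hP) using 1
          simp only [Submodule.coe_add, Pi.add_apply]
          ring
        · intro P hP
          convert add_mem (hH a P hP) (hH b P hP) using 1
          simp only [Submodule.coe_add, Pi.add_apply]
          ring
      map_smul' := fun c a => by
        rw [key (c • a) (c • F a) (c • H a), map_smul, map_smul, RingHom.id_apply, smul_sub]
        · intro P hP
          simpa [smul_sub] using P.1.smul_mem (hF' a P hP) c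
        · intro P hP
          simpa [smul_sub] using smul_of_tower_mem _ c (hH a P hP) }
  have hw : ∀ a, w a = μ (H a) - μ (F a) := fun _ => rfl
  refine ⟨w, (-2 : ℤ) • pol k x, fun e => m0 (LinearMap.ext fun g => ?_),
    mem_Om.2 fun a ha => ?_, fun P g => ?_⟩
  · have h1 := key ⟨fun P => if x ∈ P.1 then 0 else g, mem_Ad.2 ((eventually_mem x).mono
      fun P hP => by simp [hP])⟩ 0 g (fun P hP => by simp [hP]) fun P hP => by simp [hP]
    rw [← hw, e, map_zero, sub_zero] at h1
    exact h1.symm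
  · obtain ⟨b, hb, _, ⟨f, rfl⟩, e⟩ := mem_sup.1 ha
    have h1 : ∀ P, a.1 P - f ∈ fil P (-2 * max (po P x) 0) := fun P => by
      have h2 : b P + f = a.1 P := congrFun e P
      rw [← h2, add_sub_cancel_right]
      exact mem_hat.1 hb P
    rw [hw, key a f f (fun P hP => ?_) fun P hP => ?_, sub_self]
    · simpa [max_eq_right (mem_iff_po.1 hP), mem_fil_zero] using h1 P
    · rw [mem_iff_po, not_le] at hP
      simpa [max_eq_left hP.le] using h1 P
  · choose m hm using fun Q : Pt k K =>
      exists_ord Q (D := d) (w := x) (by rw [hd]; exact one_ne_zero)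
    obtain ⟨f, hf⟩ := strong_approx hx (sing P g) (ofSupportFinite
      (fun Q => if Ord Q d 0 then 0 else min (-1) (0 - 1 - m Q))
      ((finite_ord hx hd).subset fun Q hQ e => hQ (if_pos e)))
    obtain ⟨h, hh⟩ := wa (sing P g).1 fun Q => min (-1) (-2 * po Q x - 1 - m Q)
    have h1 : ∀ Q, (sing P (d g)).1 Q = d ((sing P g).1 Q) := fun Q => by
      by_cases e : Q = P
      · rw [e, sing_self, sing_self]
      · rw [sing_ne e, sing_ne e, map_zero]
    rw [hw, key _ (d f) (d h) (fun Q hQ => ?_) fun Q hQ => ?_, m1, m1, sub_self]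
    · have h2 : (sing P g).1 Q - f ∈
          fil Q (if Ord Q d 0 then 0 else min (-1) (0 - 1 - m Q)) := hf Q hQ
      rw [h1, ← map_sub, ← mem_fil_zero]
      split_ifs at h2 with e
      · exact e.mem _ (mem_fil_zero.1 h2)
      · exact ord_fil_cana (hm Q) 0 h2
    · rw [h1, ← map_sub]
      exact ord_fil_cana (hm Q) _ (hh Q hQ)

end Pool.Agent.Lib.MP_13404a_ag.UB
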