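import Pool.Agent.Lib.MP_13404a_ag.UB.CanB

/-!
Counting orders, the theorem of Clifford, linear series contained in a subfield.
-/

open Module Submodule Function Finsupp
open scoped IntermediateField Polynomial

namespace Pool.Agent.Lib.MP_13404a_ag.UB

open Pool.Agent.Lib.MP_15f242_ag

universe u

variable {k K : Type u} [Field k] [CharZero k] [Field K] [Algebra k K] [FF k K]
  {E : Type u} [Field E] [Algebra k E] [Algebra E K] [IsScalarTower k E K] [FF k E]

/-- `exists_res` gives a functional whose kernel is the smaller space. -/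
lemma finrank_drop' {V : Type*} [AddCommGroup V] [Module k V] (U : Submodule k V)
    [FiniteDimensional k U] (φ : V →ₗ[k] K) (P : Pt k K) (n : ℤ) (h : ∀ x ∈ U, φ x ∈ fil P n) :
    finrank k U ≤ finrank k (U ⊓ (filk P (n - 1)).comap φ : Submodule k V) + 1 := by
  classical
  set W : Submodule k V := U ⊓ (filk P (n - 1)).comap φ with hW
  have : FiniteDimensional k W := finiteDimensional_of_le inf_le_left
  by_cases h1 : U ≤ (filk P (n - 1)).comap φ
  · rw [hW, inf_eq_left.2 h1]
    omega
  obtain ⟨t, h2, h3⟩ := SetLike.not_le_iff_exists.1 h1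
  have t0 : φ t ≠ 0 := fun e => h3 (by rw [mem_comap, e]; exact zero_mem _)
  have h4 : po P (φ t) = n := by
    have h5 := (mem_fil t0).1 (h t h2)
    have h6 := mt (mem_fil (P := P) (n := n - 1) t0).2 h3
    omega
  have h5 : U ≤ W ⊔ span k {t} := fun x hx => by
    obtain ⟨c, hc⟩ := exists_res t0 h4 (h x hx)
    refine mem_sup.2 ⟨x - c • t, ⟨sub_mem hx (smul_mem _ _ h2), ?_⟩, c • t,
      smul_mem _ _ (mem_span_singleton_self t), sub_add_cancel _ _⟩
    change φ (x - c • t) ∈ fil P (n - 1)
    rwa [map_sub, map_smul]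
  refine (finrank_mono h5).trans ((finrank_add_le_finrank_add_finrank _ _).trans ?_)
  rw [finrank_span_singleton fun e => t0 (by rw [e, map_zero])]

/-- One point: descending induction on the pole order with `finrank_drop'`. -/
lemma finrank_le_orders_one (S : Submodule k K) [FiniteDimensional k S] (P : Pt k K) (b : ℤ)
    (T : Finset ℤ) (h : ∀ x ∈ S, x ≠ 0 → po P x ≤ b ∨ po P x ∈ T) :
    finrank k S ≤ finrank k (S ⊓ filk P b : Submodule k K) + T.card := by
  induction T using Finset.induction_on_max generalizing S with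
  | empty =>
    have h0 : S ≤ filk P b := fun x hx => by
      rcases eq_or_ne x 0 with rfl | x0
      · exact zero_mem _
      · exact mem_fil_of (by simpa using h x hx x0)
    rw [inf_eq_left.2 h0]
    omega
  | insert a T ha ih =>
    have h0 : ∀ x ∈ S, x ∈ fil P (max a b) := fun x hx => by
      rcases eq_or_ne x 0 with rfl | x0
      · exact zero_mem _
      refine mem_fil_of ?_
      rcases h x hx x0 with h1 | h1
      · omega
      rcases Finset.mem_insert.1 h1 with h1 | h1
      · omega
      · have := ha _ h1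
        omega
    rcases le_or_gt a b with hab | hab
    · rw [max_eq_right hab] at h0
      rw [inf_eq_left.2 h0]
      omega
    rw [max_eq_left hab.le] at h0
    have h1 := finrank_drop' S LinearMap.id P a h0
    rw [comap_id] at h1
    have : FiniteDimensional k (S ⊓ filk P (a - 1) : Submodule k K) :=
      finiteDimensional_of_le inf_le_left
    have : FiniteDimensional k (S ⊓ filk P b : Submodule k K) :=
      finiteDimensional_of_le inf_le_left
    have h2 := ih (S ⊓ filk P (a - 1)) fun x hx x0 => (h x hx.1 x0).imp id fun h3 =>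
      (Finset.mem_insert.1 h3).resolve_left fun e => by
        have := (mem_fil x0).1 hx.2
        omega
    have h3 : finrank k (S ⊓ filk P (a - 1) ⊓ filk P b : Submodule k K) ≤
        finrank k (S ⊓ filk P b : Submodule k K) := finrank_mono (inf_le_inf_right _ inf_le_left)
    rw [Finset.card_insert_of_notMem fun e => (ha a e).false]
    omega

lemma finrank_le_orders (S : Submodule k K) [FiniteDimensional k S] (B : Div k K)
    (Z : Finset (Pt k K)) (T : Pt k K → Finset ℤ)
    (h : ∀ x ∈ S, x ≠ 0 → ∀ P, po P x ≤ B P ∨ (P ∈ Z ∧ po P x ∈ T P)) :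
    finrank k S ≤ ll B + ∑ P ∈ Z, (T P).card := by
  classical
  induction Z using Finset.induction_on generalizing S with
  | empty =>
    rw [Finset.sum_empty, add_zero]
    refine finrank_mono fun x hx => mem_L.2 fun P => ?_
    rcases eq_or_ne x 0 with rfl | x0
    · exact zero_mem _
    · exact mem_fil_of (by simpa using h x hx x0 P)
  | insert Q Z hQ ih =>
    have h1 := finrank_le_orders_one S Q (B Q) (T Q) fun x hx x0 => (h x hx x0 Q).imp id And.right
    have : FiniteDimensional k (S ⊓ filk Q (B Q) : Submodule k K) :=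
      finiteDimensional_of_le inf_le_left
    have h2 := ih (S ⊓ filk Q (B Q)) fun x hx x0 P => by
      rcases h x hx.1 x0 P with h3 | ⟨h3, h4⟩
      · exact .inl h3
      rcases Finset.mem_insert.1 h3 with rfl | h3
      · exact .inl ((mem_fil x0).1 hx.2)
      · exact .inr ⟨h3, h4⟩
    rw [Finset.sum_insert hQ]
    omega

omit [CharZero k] in
/-- A nonzero finite dimensional space has an element of largest pole order. -/
lemma exists_max_clf (S : Submodule k K) [FiniteDimensional k S] (h : S ≠ ⊥) (P : Pt k K) :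
    ∃ x ∈ S, x ≠ 0 ∧ S ≤ filk P (po P x) := by
  obtain ⟨s, hs⟩ : S.FG := Module.Finite.iff_fg.1 inferInstance
  obtain ⟨n, hn⟩ := (s.image fun a => po P a).exists_le
  have h1 : S ≤ filk P n := by
    rw [← hs]
    exact span_le.2 fun a ha => mem_fil_of (hn _ (Finset.mem_image_of_mem _ ha))
  obtain ⟨t, ht, t0⟩ := (Submodule.ne_bot_iff _).1 h
  obtain ⟨_, ⟨x, hx, x0, rfl⟩, h2⟩ := Int.exists_greatest_of_bdd
    (P := fun m => ∃ x ∈ S, x ≠ 0 ∧ po P x = m) ⟨n, by
      rintro _ ⟨x, hx, x0, rfl⟩
      exact (mem_fil x0).1 (h1 hx)⟩ ⟨_, t, ht, t0, rfl⟩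
  refine ⟨x, hx, x0, fun z hz => ?_⟩
  rcases eq_or_ne z 0 with rfl | z0
  · exact zero_mem _
  · exact mem_fil_of (h2 _ ⟨z, hz, z0, rfl⟩)

/-- At a point `P` the set of pole orders of the nonzero elements of a space has as many elements
as the dimension; `cauchy_davenport_add_of_linearOrder_isCancelAdd`. -/
lemma finrank_mul_ge (B B' : Submodule k K) [FiniteDimensional k B] [FiniteDimensional k B']
    (h : B ≠ ⊥) (h' : B' ≠ ⊥) :
    finrank k B + finrank k B' ≤ finrank k (B * B' : Submodule k K) + 1 := by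
  obtain ⟨P⟩ : Nonempty (Pt k K) := inferInstance
  obtain ⟨y, hy, y0, hy'⟩ := exists_max_clf B' h' P
  have fd : ∀ (C : Submodule k K) [FiniteDimensional k C],
      FiniteDimensional k (C * B' : Submodule k K) := fun C _ =>
    Module.Finite.iff_fg.2 ((Module.Finite.iff_fg.1 inferInstance).mul
      (Module.Finite.iff_fg.1 inferInstance))
  induction hn : finrank k B using Nat.strong_induction_on generalizing B with
  | _ n ih =>
  subst hn
  obtain ⟨x, hx, x0, hx'⟩ := exists_max_clf B h P
  have h1 := finrank_drop' B LinearMap.id P (po P x) hx'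
  rw [comap_id] at h1
  have := fd B
  set C : Submodule k K := B ⊓ filk P (po P x - 1) with hC
  have : FiniteDimensional k C := finiteDimensional_of_le inf_le_left
  by_cases h2 : C = ⊥
  · rw [h2, finrank_bot] at h1
    have h3 : finrank k B' ≤ finrank k (B * B' : Submodule k K) := by
      rw [(equivMapOfInjective (LinearMap.mulLeft k x) (mul_right_injective₀ x0) B').finrank_eq]
      refine finrank_mono ?_
      rintro _ ⟨z, hz, rfl⟩
      exact mul_mem_mul hx hz
    omega
  have h3 : C < B := lt_of_le_of_ne inf_le_left fun e => by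
    have := (mem_fil x0).1 (e.ge hx).2
    omega
  have h4 := ih _ (finrank_lt_finrank_of_lt h3) C h2 rfl
  have h5 : C * B' < B * B' := lt_of_le_of_ne (mul_le_mul_left inf_le_left _) fun e => by
    have h6 : C * B' ≤ filk P (po P x - 1 + po P y) :=
      Submodule.mul_le.2 fun a ha b hb => mul_mem_fil ha.2 (hy' hb)
    have h7 := (mem_fil (mul_ne_zero x0 y0)).1 (h6 (e.ge (mul_mem_mul hx hy)))
    rw [po_mul P x0 y0] at h7
    omega
  have h6 := finrank_lt_finrank_of_lt h5
  omega

/-- Riemann-Roch and Clifford. -/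
lemma ll_bound {D : Div k K} (h : 0 ≤ degree D) :
    (ll D : ℤ) + gn k K ≤ degree D + 1 ∨ 2 * (ll D : ℤ) ≤ degree D + 2 := by
  obtain ⟨d, κ, hκ⟩ := exists_isK' k K
  have h1 := hκ.rr D
  by_cases h2 : ll (κ - D) = 0
  · left
    omega
  by_cases h3 : ll D = 0
  · right
    omega
  have h4 := finrank_mul_ge (H0 (OD D)) (H0 (OD (κ - D)))
    (fun e => h3 (by rw [ll, e, finrank_bot])) (fun e => h2 (by rw [ll, e, finrank_bot]))
  have h5 : finrank k (H0 (OD D) * H0 (OD (κ - D)) : Submodule k K) ≤ ll κ :=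
    finrank_mono (Submodule.mul_le.2 fun a ha b hb => mem_L.2 fun P => by
      simpa using mul_mem_fil (mem_L.1 ha P) (mem_L.1 hb P))
  rw [hκ.ll_eq] at h5
  rw [← ll, ← ll] at h4
  right
  omega

/-- A general element has the largest pole order at every point
(`Submodule.exists_forall_notMem_of_forall_ne_top` or `Subspace.biUnion_ne_univ_of_top_notMem`,
the field is infinite). -/
lemma exists_min (Φ : Submodule k K) [FiniteDimensional k Φ] (h1 : (1 : K) ∈ Φ)
    (h2 : 2 ≤ finrank k Φ) : ∃ y ∈ Φ, Transcendental k y ∧ Φ ≤ H0 (OD (pol k y)) := by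
  have h0 : Φ ≠ ⊥ := fun e => one_ne_zero (α := K) (by rwa [e] at h1)
  obtain ⟨s, hs⟩ : Φ.FG := Module.Finite.iff_fg.1 inferInstance
  have hZ : (⋃ a ∈ s, {P : Pt k K | a ∉ P.1}).Finite :=
    s.finite_toSet.biUnion fun a _ => finite_poles a
  have := hZ.to_subtype
  choose x hx x0 hx' using exists_max_clf Φ h0
  obtain ⟨y, hy⟩ := Submodule.exists_forall_notMem_of_forall_ne_top
    (fun i : Option (⋃ a ∈ s, {P : Pt k K | a ∉ P.1}) => comap Φ.subtype
      (i.elim (span k {1}) fun P => filk P.1 (po P.1 (x P.1) - 1))) (by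
      rintro (_ | P) e
      · have h3 : Φ ≤ span k {1} := comap_subtype_eq_top.1 e
        have := finrank_mono h3
        rw [finrank_span_singleton one_ne_zero] at this
        omega
      · have := (mem_fil (x0 P.1)).1 (comap_subtype_eq_top.1 e (hx P.1))
        omega)
  refine ⟨y, y.2, fun ha => ?_, fun z hz => mem_L.2 fun P => ?_⟩
  · obtain ⟨c, hc⟩ := mem_range_of_alg ha
    exact hy none (mem_span_singleton.2 ⟨c, by simpa [Algebra.smul_def] using hc⟩)
  rw [pol_apply]
  by_cases hP : P ∈ ⋃ a ∈ s, {P : Pt k K | a ∉ P.1}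
  · have h3 := mt (mem_fil_of (P := P) (n := po P (x P) - 1) (x := y.1)) (hy (some ⟨P, hP⟩))
    exact fil_mono P (by omega) (hx' P hz)
  · refine fil_of_mem ?_ (le_max_right _ _)
    have h3 : Φ ≤ Subalgebra.toSubmodule P.1 := by
      rw [← hs]
      exact span_le.2 fun a ha => by_contra fun e => hP (Set.mem_biUnion ha e)
    exact h3 hz

lemma pol_le {Φ : Submodule k K} {M : Div k K} (h : Φ ≤ H0 (OD M)) (h1 : (1 : K) ∈ Φ) {y : K}
    (hy : y ∈ Φ) : pol k y ≤ M := by
  intro P
  have h2 := (mem_fil one_ne_zero).1 (mem_L.1 (h h1) P)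
  rw [po_one] at h2
  rw [pol_apply]
  refine max_le ?_ h2
  rcases eq_or_ne y 0 with rfl | y0
  · simpa [po] using h2
  · exact (mem_fil y0).1 (mem_L.1 (h hy) P)

variable (E) in
/-- All elements of `B` are multiples of one element by elements of `E`. -/
def Line (B : Submodule k K) : Prop := ∃ s : K, ∀ b ∈ B, ∃ y : E, b = algebraMap E K y * s

/-- Divide by a nonzero `s ∈ B`; the quotient is the image of a space `Φ ∋ 1` in `E` of the same
dimension. If the dimension is one take `n = 0`, else `exists_min` in `E`, `n = finrank k⟮y⟯ E`,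
`finrank_adjoin_tower`, `degree_pol`, `pol_le` for `M - pdiv s`, `ll_bound`, `ll_le_degree`. -/
lemma line_bound {B : Submodule k K} {M : Div k K} (hB : B ≤ H0 (OD M)) (h0 : B ≠ ⊥)
    (hs : Line E B) : ∃ n : ℕ, (finrank E K : ℤ) * n ≤ degree M ∧ finrank k B ≤ n + 1 ∧
      (2 * finrank k B ≤ n + 2 ∨ finrank k B + gn k E ≤ n + 1) := by
  have : FiniteDimensional k B := finiteDimensional_of_le hB
  obtain ⟨s, hs1, s0⟩ := (Submodule.ne_bot_iff _).1 h0
  obtain ⟨t, ht⟩ := hs
  let ι : E →ₗ[k] K := (IsScalarTower.toAlgHom k E K).toLinearMap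
  let ψ : E →ₗ[k] K := LinearMap.mulLeft k s ∘ₗ ι
  have hψ : Injective ψ := (mul_right_injective₀ s0).comp (algebraMap E K).injective
  have h1 : (B.comap ψ).map ψ = B := map_comap_eq_self fun b hb => by
    obtain ⟨y, hy⟩ := ht b hb
    obtain ⟨z, hz⟩ := ht s hs1
    have z0 : algebraMap E K z ≠ 0 := fun e => s0 (by rw [hz, e, zero_mul])
    refine ⟨z⁻¹ * y, ?_⟩
    change s * algebraMap E K (z⁻¹ * y) = b
    rw [hy, hz, map_mul, map_inv₀]
    field_simp
  set Φ := B.comap ψ with hΦ
  have e := equivMapOfInjective ψ hψ Φ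
  rw [h1] at e
  have : FiniteDimensional k Φ := e.symm.finiteDimensional
  have h2 : (1 : E) ∈ Φ := by
    change s * algebraMap E K 1 ∈ B
    rwa [map_one, mul_one]
  by_cases h3 : finrank k B ≤ 1
  · refine ⟨0, ?_, h3, .inl (by omega)⟩
    rw [Nat.cast_zero, mul_zero, ← degree_pdiv (k := k) s0]
    exact degree_mono ((mem_L' s0).1 (hB hs1))
  obtain ⟨y, hy, h4, h5⟩ := exists_min Φ h2 (by rw [e.finrank_eq]; omega)
  have h6 := degree_pol h4
  have h7 : finrank k B ≤ ll (pol k y) := e.finrank_eq.ge.trans (finrank_mono h5)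
  have h8 := ll_le_degree (D := pol k y) (by omega)
  have h9 := ll_bound (D := pol k y) (by omega)
  refine ⟨finrank k⟮y⟯ E, ?_, by omega, by omega⟩
  have h10 : pol k (algebraMap E K y) ≤ M - pdiv k s :=
    pol_le (Φ := Φ.map ι) (by
      rintro _ ⟨z, hz, rfl⟩
      refine mem_L.2 fun P => (mul_mem_fil_iff s0).1 ?_
      rw [Finsupp.sub_apply, pdiv_apply, sub_add_cancel]
      exact mem_L.1 (hB hz) P) ⟨1, h2, map_one (algebraMap E K)⟩ ⟨y, hy, rfl⟩
  have h11 := degree_mono h10
  rw [degree_pol (trans_up h4), finrank_adjoin_tower h4, map_sub, degree_pdiv s0, sub_zero] at h11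
  exact_mod_cast h11

end Pool.Agent.Lib.MP_13404a_ag.UB
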