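import Pool.Agent.Lib.MP_13404a_ag.UB.CaB
import Pool.Agent.Lib.MP_13404a_ag.UB.CaC
import Pool.Agent.Lib.MP_13404a_ag.UB.Clf

/-!
The lemma and the bound of Castelnuovo; linear series.
-/

open Module Submodule Function Finsupp
open scoped IntermediateField Polynomial

namespace Pool.Agent.Lib.MP_13404a_ag.UB

open Pool.Agent.Lib.MP_15f242_ag

universe u

variable {k K : Type u} [Field k] [CharZero k] [Field K] [Algebra k K] [FF k K]

omit [CharZero k] [FF k K] in
lemma exists_phi_cas (Φ : Submodule k K) [FiniteDimensional k Φ] (h1 : (1 : K) ∈ Φ) {r : ℕ}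
    (hr : finrank k Φ = r + 1) : ∃ φ : Fin r → K,
      (LinearIndependent k fun i : Option (Fin r) => i.elim 1 φ) ∧ sp k φ = Φ := by
  obtain ⟨C, hC⟩ := Submodule.exists_isCompl (span k {(1 : K)})
  have h2 : span k {(1 : K)} ≤ Φ := (span_singleton_le_iff_mem _ _).2 h1
  have h3 : span k {(1 : K)} ⊔ C ⊓ Φ = Φ := by
    rw [← sup_inf_assoc_of_le _ h2, hC.sup_eq_top, top_inf_eq]
  have h4 : span k {(1 : K)} ⊓ (C ⊓ Φ) = ⊥ := by
    rw [← inf_assoc, hC.inf_eq_bot, bot_inf_eq]
  have : FiniteDimensional k (C ⊓ Φ : Submodule k K) := finiteDimensional_of_le inf_le_right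
  have h5 := finrank_sup_add_finrank_inf_eq (span k {(1 : K)}) (C ⊓ Φ)
  rw [h3, h4, finrank_bot, finrank_span_singleton one_ne_zero, hr] at h5
  let b := finBasisOfFinrankEq k (C ⊓ Φ : Submodule k K) (show _ = r by omega)
  have h6 : span k (Set.range fun i => (b i : K)) = C ⊓ Φ := by
    have := congrArg (Submodule.map (C ⊓ Φ).subtype) b.span_eq
    rwa [Submodule.map_span, ← Set.range_comp, Submodule.map_top, range_subtype] at this
  refine ⟨fun i => b i, linearIndependent_option.2 ⟨b.linearIndependent.map' (C ⊓ Φ).subtype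
    (ker_subtype _), fun h => ?_⟩, ?_⟩
  · have h7 : (1 : K) ∈ C ⊓ Φ := h6 ▸ h
    have h8 : (1 : K) ∈ span k {(1 : K)} ⊓ (C ⊓ Φ) := ⟨mem_span_singleton_self _, h7⟩
    rw [h4] at h8
    exact one_ne_zero ((mem_bot k).1 h8)
  · rw [sp, Option.range_eq, span_insert]
    exact (congrArg _ h6).trans h3

/-- Extend `1` to a basis of `Φ`; `exists_points`, `exists_dual`, `gen_pos`, `cast_count`. -/
theorem cast_step (Φ : Submodule k K) [FiniteDimensional k Φ] (h1 : (1 : K) ∈ Φ)
    (hg : IntermediateField.adjoin k (Φ : Set K) = ⊤) {r : ℕ} (hr : finrank k Φ = r + 1) {y : K}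
    (hy : y ∈ Φ) (ht : Transcendental k y) (j N : ℕ) (hN : N ≤ finrank k⟮y⟯ K)
    (hN' : N ≤ (j + 1) * (r - 1) + 1) :
    finrank k (Φ ^ j : Submodule k K) + N ≤ finrank k (Φ ^ (j + 1) : Submodule k K) := by
  obtain ⟨φ, hφ, rfl⟩ := exists_phi_cas Φ h1 hr
  obtain ⟨c, hc⟩ := (mem_span_range_iff_exists_fun k).1 hy
  rw [Fintype.sum_option] at hc
  simp only [Option.elim] at hc
  have e : ∑ i, c (some i) • φ i = y - algebraMap k K (c none) := by
    rw [← hc, Algebra.algebraMap_eq_smul_one, add_sub_cancel_left]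
  have ht' : Transcendental k (∑ i, c (some i) • φ i) := fun h => ht (by
    rw [e] at h
    simpa using h.add (isAlgebraic_algebraMap (c none)))
  have e2 : k⟮∑ i, c (some i) • φ i⟯ = k⟮y⟯ := by
    rw [e]
    refine le_antisymm (IntermediateField.adjoin_simple_le_iff.2 (sub_mem
      (IntermediateField.mem_adjoin_simple_self k y) (IntermediateField.algebraMap_mem _ _)))
      (IntermediateField.adjoin_simple_le_iff.2 ?_)
    simpa using add_mem (IntermediateField.mem_adjoin_simple_self k (y - algebraMap k K (c none)))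
      (IntermediateField.algebraMap_mem _ (c none))
  have hg' : IntermediateField.adjoin k (Set.range φ) = ⊤ := by
    refine eq_top_iff.2 (hg.ge.trans (IntermediateField.adjoin_le_iff.2 ?_))
    refine (span_le (p := (IntermediateField.adjoin k (Set.range φ)).toSubalgebra.toSubmodule)).2 ?_
    rintro _ ⟨_ | i, rfl⟩
    · exact one_mem (IntermediateField.adjoin k (Set.range φ))
    · exact IntermediateField.subset_adjoin _ _ ⟨i, rfl⟩
  have r1 : 1 ≤ r := by
    rcases r with _ | r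
    · exact absurd (by simpa using isAlgebraic_zero) ht'
    · omega
  obtain ⟨Ω, _, _, t, σ, h2, h3, h4⟩ := exists_points φ hg' (fun i => c (some i)) ht'
    (N := N) (by rwa [e2])
  obtain ⟨Dd, hD⟩ := exists_dual h2
  exact cast_count h2.1 h4 (gen_pos hφ hg' Dd hD h3 h4) hN' r1

/-- The numerical constraints on a birational series of degree `n` and dimension `r` on a curve of
genus `γ`. -/
def Ser (n r γ : ℕ) : Prop :=
  r ≤ n ∧ (2 * r ≤ n ∨ r + γ ≤ n) ∧ (r = 1 → n = 1) ∧ ∃ m : ℕ, m * (r - 1) ≤ n - 1 ∧ m ≤ n - 1 ∧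
    2 * γ + m * (m + 1) * (r - 1) ≤ 2 * m * (n - 1)

omit [CharZero k] in
lemma pow_le_cas {Φ : Submodule k K} {D : Div k K} (h : Φ ≤ H0 (OD D)) (J : ℕ) :
    Φ ^ J ≤ H0 (OD (J • D)) := by
  induction J with
  | zero => rw [pow_zero, zero_smul, L_zero, one_eq_span]
  | succ J ih =>
    rw [pow_succ, succ_nsmul]
    exact mul_le.2 fun a ha b hb => mem_L.2 fun P =>
      mul_mem_fil (mem_L.1 (ih ha) P) (mem_L.1 (h hb) P)

lemma sum_low_cas {f : ℕ → ℕ} {s m : ℕ} (h0 : f 0 = 1)
    (h : ∀ j < m, f j + ((j + 1) * s + 1) ≤ f (j + 1)) :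
    2 + m * (m + 1) * s + 2 * m ≤ 2 * f m := by
  induction m with
  | zero => omega
  | succ m ih =>
    have h1 := ih fun j hj => h j (by omega)
    have h2 := h m (by omega)
    nlinarith

lemma sum_high_cas {f : ℕ → ℕ} {n m : ℕ} (h : ∀ j, m ≤ j → f j + n ≤ f (j + 1)) (i : ℕ) :
    f m + i * n ≤ f (m + i) := by
  induction i with
  | zero => simp
  | succ i ih =>
    have := h (m + i) (by omega)
    rw [← add_assoc]
    nlinarith

omit [CharZero k] [FF k K] in
lemma finrank_one_cas {Φ : Submodule k K} [FiniteDimensional k Φ] (h1 : (1 : K) ∈ Φ)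
    (hg : IntermediateField.adjoin k (Φ : Set K) = ⊤) (hr : finrank k Φ = 2) {y : K}
    (hy : y ∈ Φ) (ht : Transcendental k y) : finrank k⟮y⟯ K = 1 := by
  have h2 : LinearIndependent k ![y, (1 : K)] := by
    refine LinearIndependent.pair_iff.2 fun a b h => ?_
    have a0 : a = 0 := by
      by_contra ha
      refine ht ?_
      have : y = algebraMap k K (-(a⁻¹ * b)) := by
        rw [Algebra.algebraMap_eq_smul_one, neg_smul, mul_smul, ← smul_neg,
          ← eq_neg_of_add_eq_zero_left h, inv_smul_smul₀ ha]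
      exact this ▸ isAlgebraic_algebraMap _
    exact ⟨a0, by simpa [a0] using h⟩
  have h3 : span k (Set.range ![y, (1 : K)]) = Φ :=
    eq_of_le_of_finrank_le (span_le.2 (by
      rintro _ ⟨i, rfl⟩
      fin_cases i
      exacts [hy, h1])) (by rw [finrank_span_eq_card h2, hr]; simp)
  refine IntermediateField.finrank_eq_one_iff_eq_top.2 (eq_top_iff.2 (hg.ge.trans
    (IntermediateField.adjoin_le_iff.2 ?_)))
  rw [← h3]
  refine (span_le (p := k⟮y⟯.toSubalgebra.toSubmodule)).2 ?_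
  rintro _ ⟨i, rfl⟩
  fin_cases i
  exacts [IntermediateField.mem_adjoin_simple_self k y, one_mem k⟮y⟯]

/-- `exists_min`, `n = finrank k⟮y⟯ K = degree (pol y)`. For `r = 1` the field is `k⟮y⟯`, so
`n = 1`. For `r ≥ 2` take `m = (n - 1) / (r - 1)`. Sum `cast_step` for `j < J`:
`Φ ^ J ≤ H0 (OD (J • pol y))`, whose dimension is `J n + 1 - g` for large `J`. -/
theorem gen_data (Φ : Submodule k K) [FiniteDimensional k Φ] (h1 : (1 : K) ∈ Φ)
    (hg : IntermediateField.adjoin k (Φ : Set K) = ⊤) {r : ℕ} (hr : finrank k Φ = r + 1)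
    (r1 : 1 ≤ r) : ∃ y ∈ Φ, Transcendental k y ∧ Ser (finrank k⟮y⟯ K) r (gn k K) ∧
      (2 * r ≤ finrank k⟮y⟯ K + 1 → 3 * r ≤ finrank k (Φ * Φ : Submodule k K)) := by
  obtain ⟨y, hy, ht, hΦ⟩ := exists_min Φ h1 (by omega)
  have hd := degree_pol ht
  set n := finrank k⟮y⟯ K with hn
  have h2 : r + 1 ≤ ll (pol k y) := hr.ge.trans (finrank_mono hΦ)
  have h3 := ll_le_degree (D := pol k y) (by omega)
  have h4 := ll_bound (D := pol k y) (by omega)
  have h5 : r = 1 → n = 1 := fun e => finrank_one_cas h1 hg (by omega) hy ht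
  have hs := cast_step Φ h1 hg hr hy ht
  have key : ∀ m : ℕ, m * (r - 1) ≤ n - 1 → n ≤ (m + 1) * (r - 1) + 1 →
      2 * gn k K + m * (m + 1) * (r - 1) ≤ 2 * m * (n - 1) := fun m a1 a2 => by
    have b1 := sum_low_cas (f := fun j => finrank k (Φ ^ j : Submodule k K)) (s := r - 1) (m := m)
      (by rw [pow_zero, one_eq_span, finrank_span_singleton one_ne_zero])
      fun j hj => hs j _ (by
        have := Nat.mul_le_mul_right (r - 1) (show j + 1 ≤ m from hj)
        omega) le_rfl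
    obtain ⟨c, hc⟩ := exists_ii_bound (k := k) (K := K)
    have b2 := sum_high_cas (f := fun j => finrank k (Φ ^ j : Submodule k K)) (n := n) (m := m)
      (fun j hj => hs j _ le_rfl (a2.trans (by gcongr))) c.toNat
    have b3 : finrank k (Φ ^ (m + c.toNat) : Submodule k K) ≤ ll ((m + c.toNat) • pol k y) :=
      finrank_mono (pow_le_cas hΦ _)
    have b4 := rr_formula ((m + c.toNat) • pol k y)
    have b5 : degree ((m + c.toNat) • pol k y) = (m + c.toNat : ℕ) * (n : ℤ) := by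
      rw [map_nsmul, hd, nsmul_eq_mul]
    rw [hc _ (by
      rw [b5]
      have := Int.self_le_toNat c
      have : (1 : ℤ) ≤ n := by omega
      push_cast
      nlinarith [Int.natCast_nonneg m, Int.natCast_nonneg c.toNat]), b5, gen_eq] at b4
    obtain ⟨n', hn'⟩ : ∃ n', n = n' + 1 := ⟨n - 1, by omega⟩
    simp only [hn', Nat.add_sub_cancel] at b1 b2 b4 ⊢
    zify at b1 b2 b3 ⊢
    push_cast at b4
    nlinarith
  refine ⟨y, hy, ht, ⟨by omega, by omega, h5, ?_⟩, fun h => ?_⟩
  · rcases r1.eq_or_lt with e | e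
    · have := h5 e.symm
      exact ⟨0, by simp, by simp, key 0 (by simp) (by omega)⟩
    · have b1 := Nat.div_mul_le_self (n - 1) (r - 1)
      have b2 := Nat.lt_mul_div_succ (n - 1) (show 0 < r - 1 by omega)
      exact ⟨_, b1, Nat.div_le_self _ _, key _ b1 (by rw [mul_comm]; omega)⟩
  · have := hs 1 (2 * r - 1) (by omega) (by omega)
    rw [pow_one, hr, pow_succ, pow_one] at this
    omega

/-- Divide by `s`, let `E` be the field generated by the quotients; `gen_data` in `K` if `E = ⊤`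
and in `E` otherwise (`ff_sub`, `finrank_adjoin_tower`, `pol_le`). -/
theorem series {B : Submodule k K} {M : Div k K} (hB : B ≤ H0 (OD M)) {s : K} (hs : s ∈ B)
    (s0 : s ≠ 0) {r : ℕ} (hr : finrank k B = r + 1) (r1 : 1 ≤ r) :
    (∃ n : ℕ, (n : ℤ) ≤ degree M ∧ Ser n r (gn k K) ∧
      (2 * r ≤ n + 1 → 3 * r ≤ finrank k (B * B : Submodule k K))) ∨
    ∃ (E : IntermediateField k K) (_ : FF k E), 2 ≤ finrank E K ∧
      (∀ b ∈ B, ∃ y : E, b = algebraMap E K y * s) ∧
      ∃ n : ℕ, (finrank E K : ℤ) * n ≤ degree M ∧ Ser n r (gn k E) := by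
  have : FiniteDimensional k B := finiteDimensional_of_le hB
  let ψ : K ≃ₗ[k] K := (LinearEquiv.smulOfNeZero K K s⁻¹ (inv_ne_zero s0)).restrictScalars k
  have hψ : ∀ x, ψ x = s⁻¹ * x := fun _ => rfl
  set Φ := B.map ψ.toLinearMap with hΦ
  have h1 : (1 : K) ∈ Φ := ⟨s, hs, inv_mul_cancel₀ s0⟩
  have h2 : finrank k Φ = r + 1 := (LinearEquiv.finrank_map_eq ψ B).trans hr
  have h3 : Φ ≤ H0 (OD (M - pdiv k s)) := by
    rintro _ ⟨z, hz, rfl⟩
    refine mem_L.2 fun P => (mul_mem_fil_iff s0).1 ?_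
    rw [Finsupp.sub_apply, pdiv_apply, sub_add_cancel]
    change s * (s⁻¹ * z) ∈ _
    rw [mul_inv_cancel_left₀ s0]
    exact mem_L.1 (hB hz) P
  have h4 : ∀ y ∈ Φ, Transcendental k y → (finrank k⟮y⟯ K : ℤ) ≤ degree M := fun y hy ht => by
    have := degree_mono (pol_le h3 h1 hy)
    rwa [degree_pol ht, map_sub, degree_pdiv s0, sub_zero] at this
  by_cases hE : IntermediateField.adjoin k (Φ : Set K) = ⊤
  · obtain ⟨y, hy, ht, h5, h6⟩ := gen_data Φ h1 hE h2 r1
    refine .inl ⟨_, h4 y hy ht, h5, fun h => (h6 h).trans ?_⟩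
    have : FiniteDimensional k (B * B : Submodule k K) := by
      rw [← pow_two]
      exact finiteDimensional_of_le (pow_le_cas hB 2)
    refine le_trans (finrank_mono (s := Φ * Φ) (t := (B * B).map (ψ.trans ψ).toLinearMap) ?_)
      (finrank_map_le _ _)
    refine mul_le.2 ?_
    rintro _ ⟨a, ha, rfl⟩ _ ⟨b, hb, rfl⟩
    refine ⟨a * b, mul_mem_mul ha hb, ?_⟩
    change s⁻¹ * (s⁻¹ * (a * b)) = s⁻¹ * a * (s⁻¹ * b)
    ring
  obtain ⟨E, hE'⟩ : ∃ E, IntermediateField.adjoin k (Φ : Set K) = E := ⟨_, rfl⟩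
  have hΦE : ∀ x ∈ Φ, x ∈ E := fun x hx => hE' ▸ IntermediateField.subset_adjoin _ _ hx
  rw [hE'] at hE
  obtain ⟨x, hx, hxt, -⟩ := exists_min Φ h1 (by omega)
  have hF : FF k E := ff_sub E (hΦE x hx) hxt
  have := fd_tower k K E
  set Ψ := Φ.comap E.val.toLinearMap with hΨ
  have h5 : Ψ.map E.val.toLinearMap = Φ := map_comap_eq_self fun x hx => ⟨⟨x, hΦE x hx⟩, rfl⟩
  have e := equivMapOfInjective E.val.toLinearMap E.val.injective Ψ
  rw [h5] at e
  have : FiniteDimensional k Ψ := e.symm.finiteDimensional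
  have h6 : IntermediateField.adjoin k (Ψ : Set E) = ⊤ := by
    refine IntermediateField.map_injective E.val ?_
    have h6 : E.val '' (Ψ : Set E) = (Φ : Set K) := congrArg SetLike.coe h5
    rw [IntermediateField.adjoin_map, ← AlgHom.fieldRange_eq_map, IntermediateField.fieldRange_val,
      h6, hE']
  obtain ⟨y, hy, ht, h7, -⟩ := gen_data Ψ h1 h6 (e.finrank_eq.trans h2) r1
  refine .inr ⟨E, hF, ?_, fun b hb => ⟨⟨s⁻¹ * b, hΦE _ ⟨b, hb, rfl⟩⟩, ?_⟩, _, ?_, h7⟩
  · have h8 : finrank E K ≠ 1 := mt IntermediateField.finrank_eq_one_iff_eq_top.1 hE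
    have h9 : 0 < finrank E K := finrank_pos
    omega
  · change b = s⁻¹ * b * s
    rw [mul_right_comm, inv_mul_cancel₀ s0, one_mul]
  · have := h4 (algebraMap E K y) hy (trans_up ht)
    rw [finrank_adjoin_tower ht] at this
    exact_mod_cast this

end Pool.Agent.Lib.MP_13404a_ag.UB
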