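import Pool.Agent.Lib.MP_13404a_ag.UB.Sys

/-!
A form vanishing at many general points.
-/

open Module Submodule Function Finsupp
open scoped IntermediateField Polynomial

namespace Pool.Agent.Lib.MP_13404a_ag.UB

open Pool.Agent.Lib.MP_15f242_ag

universe u

variable {k K : Type u} [Field k] [CharZero k] [Field K] [Algebra k K] [FF k K]
  {ι : Type} [Fintype ι] {δ : Derivation ℤ k k} {d : Derivation k K K} {v : Derivation ℤ K K}
  {c : K} {A F : (ι → k) →ₗ[k] K} {κ D : Div k K}

lemma degree_sum_st1 (T : Finset (Pt k K)) :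
    degree (∑ P ∈ T, single P 1 : Div k K) = T.card := by
  simp [map_sum]

open Classical in
lemma sum_apply_st1 (T : Finset (Pt k K)) (Q : Pt k K) :
    (∑ P ∈ T, single P 1 : Div k K) Q = if Q ∈ T then 1 else 0 := by
  simp [Finsupp.finset_sum_apply, single_apply]

/-- Induction on `z`: if `ll (κ - Z) > 0`, a nonzero element `s` of that space has
`po P s = (κ - Z) P` at almost every point. -/
lemma exists_general {z : ℕ} (hz : z ≤ gn k K) : ∃ T : Finset (Pt k K), T.card = z ∧
    ll (∑ P ∈ T, single P 1 : Div k K) = 1 := by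
  classical
  obtain ⟨d, κ, hκ⟩ := exists_isK' k K
  induction z with
  | zero => exact ⟨∅, rfl, by simpa using ll_zero⟩
  | succ z ih =>
    obtain ⟨T, h1, h2⟩ := ih (by omega)
    have h3 := hκ.rr (∑ P ∈ T, single P 1)
    rw [degree_sum_st1, h1, h2] at h3
    obtain ⟨s, s0, hs⟩ := exists_mem_L (D := κ - ∑ P ∈ T, single P 1) (by omega)
    obtain ⟨P, hP⟩ := Infinite.exists_notMem_finset
      (T ∪ (κ - ∑ P ∈ T, single P 1 - pdiv k s).support)
    rw [Finset.mem_union, not_or, Finsupp.notMem_support_iff] at hP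
    refine ⟨insert P T, by rw [Finset.card_insert_of_notMem hP.1, h1], ?_⟩
    have h4 := hκ.rr (∑ P ∈ insert P T, single P 1)
    rw [degree_sum_st1, Finset.card_insert_of_notMem hP.1, h1] at h4
    have h5 : ll (κ - ∑ P ∈ insert P T, single P 1) < ll (κ - ∑ P ∈ T, single P 1) := by
      rw [Finset.sum_insert hP.1]
      refine finrank_lt_finrank_of_lt (lt_of_le_of_ne (L_mono (sub_le_sub_left
        (le_add_of_nonneg_left (single_nonneg.2 zero_le_one)) _)) fun e => ?_)
      have h6 := (mem_L' s0).1 (e.ge ((mem_L' s0).2 hs)) P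
      have h7 := hP.2
      simp only [Finsupp.sub_apply, Finsupp.add_apply, single_eq_same] at h6 h7
      omega
    have h6 : ll (0 : Div k K) ≤ ll (∑ P ∈ insert P T, single P 1 : Div k K) :=
      ll_mono (Finset.sum_nonneg fun _ _ => single_nonneg.2 zero_le_one)
    rw [ll_zero] at h6
    omega

lemma drop_st1 {V : Type*} [AddCommGroup V] [Module k V] [FiniteDimensional k V]
    (φ : Pt k K → V →ₗ[k] K) (h : ∀ P x, φ P x ∈ P.1) (U₀ : Submodule k V) (T : Finset (Pt k K)) :
    ∃ U ≤ U₀, finrank k U₀ ≤ finrank k U + T.card ∧ ∀ x ∈ U, ∀ P ∈ T, φ P x ∈ fil P (-1) := by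
  classical
  induction T using Finset.induction_on with
  | empty => exact ⟨U₀, le_rfl, le_rfl, by simp⟩
  | insert P T hP ih =>
    obtain ⟨U, h1, h2, h3⟩ := ih
    have h4 := finrank_drop' U (φ P) P 0 fun x _ => mem_fil_zero.2 (h P x)
    refine ⟨U ⊓ (filk P (0 - 1)).comap (φ P), inf_le_left.trans h1, ?_, fun x hx Q hQ => ?_⟩
    · rw [Finset.card_insert_of_notMem hP]
      omega
    · rcases Finset.mem_insert.1 hQ with rfl | hQ
      · exact hx.2
      · exact h3 x hx.1 Q hQ

/-- Take `T` with `q / 2` points and uniformisers `π P`. On `(ι → k) × k` impose at each point of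
`T` that `A a / d π` and `F a - e - A a * (v π / d π)` vanish (`finrank_drop'`, two conditions per
point). A nonzero solution has `a ≠ 0`; put `β = -(F a - e) / A a`. Then
`A a ∈ H0 (OD (κ - D - ∑ P ∈ T, single P 1))`, and `ll_le` compares `κ - D` with
`∑ P ∈ T, single P 1 + pdiv (A a)`. -/
theorem Sys.step1 (S : Sys δ d v c A F) (hκ : IsK d κ) (hq : 2 ≤ Fintype.card ι) :
    ∃ (β : K) (D : Div k K), IsD (sh v β d) D ∧ 0 < ll (κ - D) ∧
      (ll (κ - D) : ℤ) + (Fintype.card ι / 2 : ℕ) ≤ degree (κ - D) + 1 := by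
  classical
  have h1 := S.finrank_le ⊤
  rw [finrank_top, finrank_fintype_fun_eq_card] at h1
  obtain ⟨T, hT, hl⟩ := exists_general (k := k) (K := K) (z := Fintype.card ι / 2) (by omega)
  choose π h0 hπ using fun P : Pt k K => exists_po P (-1)
  obtain ⟨U₁, -, h2, h3⟩ := drop_st1 (V := (ι → k) × k)
    (fun P => LinearMap.mulRight k (d (π P))⁻¹ ∘ₗ A ∘ₗ LinearMap.fst k _ _)
    (fun P x => by simpa [div_eq_mul_inv] using (S.reg P _ (hπ P) x.1).1) ⊤ T
  obtain ⟨U, h4, h5, h6⟩ := drop_st1 (V := (ι → k) × k)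
    (fun P => (F - LinearMap.mulRight k (v (π P) / d (π P)) ∘ₗ A) ∘ₗ LinearMap.fst k _ _ -
      Algebra.linearMap k K ∘ₗ LinearMap.snd k _ _)
    (fun P x => sub_mem (S.reg P _ (hπ P) x.1).2 (P.1.algebraMap_mem _)) U₁ T
  rw [finrank_top, finrank_prod, finrank_fintype_fun_eq_card, finrank_self] at h2
  obtain ⟨⟨a, e⟩, hx, x0⟩ := U.exists_mem_ne_zero_of_ne_bot fun e => by
    rw [e, finrank_bot] at h5
    omega
  have h7 : ∀ P ∈ T, A a * (d (π P))⁻¹ ∈ fil P (-1) := h3 _ (h4 hx)
  have h8 : ∀ P ∈ T, F a - A a * (v (π P) / d (π P)) - algebraMap k K e ∈ fil P (-1) := h6 _ hx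
  have a0 : A a ≠ 0 := fun h => by
    obtain rfl : a = 0 := S.inj (h.trans (map_zero A).symm)
    obtain ⟨P, hP⟩ := Finset.card_pos.1 (show 0 < T.card by omega)
    exact x0 (by rw [const_eq_zero (c := e) (by simpa using h8 P hP)]; rfl)
  have : Nonempty ι := Fintype.card_pos_iff.1 (by omega)
  set β := -(F a - algebraMap k K e) / A a with hβ
  have S' := S.shift β
  obtain ⟨D, hD⟩ := S'.exists_D
  have h9 := S'.mem_M hκ hD (a := a) (by
    rw [LinearMap.add_apply, LinearMap.smul_apply, smul_eq_mul, hβ, div_mul_cancel₀ _ a0]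
    simp)
  have h10 : (∑ P ∈ T, single P 1 : Div k K) + pdiv k (A a) ≤ κ - D := fun P => by
    have h10 := (mem_L' a0).1 h9 P
    rw [Finsupp.add_apply, sum_apply_st1]
    split_ifs with hP
    swap
    · rwa [zero_add]
    obtain ⟨h11, h12⟩ := hκ.unif (hπ P)
    have h13 := hD P _ (hπ P)
    rw [Finsupp.sub_apply, pdiv_apply]
    rcases lt_or_ge 0 (po P (sh v β d (π P))) with h14 | h14
    · have v0 := ne_zero_sys h14.ne'
      have h15 : A a * (sh v β d (π P) * (d (π P))⁻¹) ∈ fil P (-1) := by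
        convert neg_mem (h8 P hP) using 1
        rw [sh_apply, hβ]
        field_simp
        ring
      rw [mem_fil (mul_ne_zero a0 (mul_ne_zero v0 (inv_ne_zero h11))),
        po_mul P a0 (mul_ne_zero v0 (inv_ne_zero h11)), po_mul P v0 (inv_ne_zero h11),
        po_inv] at h15
      omega
    · have h15 := h7 P hP
      rw [mem_fil (mul_ne_zero a0 (inv_ne_zero h11)), po_mul P a0 (inv_ne_zero h11),
        po_inv] at h15
      omega
  have h11 := ll_le h10
  have h12 := ll_mono h10
  rw [ll_add_pdiv _ a0, hl] at h11 h12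
  rw [map_add, degree_pdiv a0, degree_sum_st1, hT] at h11
  exact ⟨β, D, hD, h12, by omega⟩

end Pool.Agent.Lib.MP_13404a_ag.UB
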