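import Pool.Agent.Lib.MP_13404a_ag.UB.OrdL
import Pool.Agent.Lib.MP_13404a_ag.UB.Dbl
import Pool.Agent.Lib.MP_13404a_ag.UB.Cas

/-!
The bound from the filtration.
-/

open Module Submodule Function Finsupp
open scoped IntermediateField Polynomial

namespace Pool.Agent.Lib.MP_13404a_ag.UB

open Pool.Agent.Lib.MP_15f242_ag

universe u

variable {k K : Type u} [Field k] [CharZero k] [Field K] [Algebra k K] [FF k K]
  {ι : Type} [Fintype ι] {δ : Derivation ℤ k k} {d : Derivation k K K} {v : Derivation ℤ K K}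
  {c : K} {A F : (ι → k) →ₗ[k] K} {κ D : Div k K}

/-- `exists_chain`, `m = finrank (U (j + 1))`, `series` for `B = (U (j + 1)).map A ≤ L (κ - D)`,
`quad_bound` in the birational case, `double_line` in degree two. -/
theorem Sys.step4 (S : Sys δ d v c A F) (hD : IsD v D) {r : ℕ} (hr : ll D = r + 1) (j : ℕ)
    (hj : (j + 1 : ℤ) * degree D ≤ 2 * gn k K - 2) : ∃ m : ℕ,
      Fintype.card ι ≤ m + (j + 1) * r ∧
      (3 * (m : ℤ) + (j + 2) * degree D ≤ 3 * gn k K ∨
        3 * (m : ℤ) + degree D ≤ 2 * gn k K + 2 ∨ 2 * m ≤ gn k K + 1) := by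
  obtain ⟨κ, hκ⟩ := exists_isK S.d0
  have h1 := S.card_le_ker hD
  obtain ⟨U, hU, h2⟩ := exists_chain δ (LinearMap.ker (d.toLinearMap ∘ₗ F)) (r := r) (by omega)
  refine ⟨finrank k (U (j + 1)), h2 _, ?_⟩
  have h3 := S.finrank_le (U (j + 1))
  by_cases h4 : finrank k (U (j + 1)) ≤ 1
  · omega
  have hB : (U (j + 1)).map A ≤ H0 (OD (κ - D)) :=
    map_le_iff_le_comap.2 fun a ha => S.mem_M hκ hD (hU j a ha).2.1
  have h5 := S.finrank_map (U (j + 1))
  obtain ⟨s, hs, s0⟩ := ((U (j + 1)).map A).exists_mem_ne_zero_of_ne_bot fun e => by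
    rw [e, finrank_bot] at h5
    omega
  have h6 := S.quad_bound hD hU j hj
  have h7 := degree_mono hD.nonneg
  rw [map_zero] at h7
  obtain ⟨n, h8, h9, h10⟩ | ⟨E, _, h8, h9, n, h10, h11⟩ := series hB hs s0
    (r := finrank k (U (j + 1)) - 1) (by omega) (by omega)
  · rw [map_sub, hκ.degree_eq] at h8
    have := h9.2.1
    omega
  · rw [map_sub, hκ.degree_eq] at h10
    have h12 := h11.1
    have h13 := h11.2.1
    rcases h8.eq_or_lt with h8 | h8
    · have := S.double_line h8.symm ⟨s, h9⟩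
      rw [← h8] at h10
      omega
    · have : 3 * (n : ℤ) ≤ finrank E K * n := by gcongr; exact_mod_cast h8
      omega

end Pool.Agent.Lib.MP_13404a_ag.UB
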