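import Pool.Agent.Lib.MP_13404a_ag.UB.CdF

/-!
Coordinates adapted to a subfield.
-/

open Module Submodule Function Finsupp
open scoped IntermediateField Polynomial

namespace Pool.Agent.Lib.MP_13404a_ag.UB

open Pool.Agent.Lib.MP_15f242_ag

universe u

variable {k K : Type u} [Field k] [CharZero k] [Field K] [Algebra k K] [FF k K]
  {E : Type u} [Field E] [Algebra k E] [Algebra E K] [IsScalarTower k E K] [FF k E]
  {ι : Type} [Fintype ι] {δ : Derivation ℤ k k} {d : Derivation k K K} {v : Derivation ℤ K K}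
  {c : K} {A F : (ι → k) →ₗ[k] K} {κ D : Div k K}
  {d' : Derivation k E E} {v' : Derivation ℤ E E}

/-- The vector fields commute and preserve the subfield `E`. -/
structure Nrm (δ : Derivation ℤ k k) (d : Derivation k K K) (v : Derivation ℤ K K)
    (A F : (ι → k) →ₗ[k] K) (d' : Derivation k E E) (v' : Derivation ℤ E E) : Prop where
  sys : Sys δ d v 0 A F
  cd : ∀ f, d (algebraMap E K f) = algebraMap E K (d' f)
  cv : ∀ f, v (algebraMap E K f) = algebraMap E K (v' f)

variable (E) in
/-- Take `x ∈ E` transcendental, `s = (d x)⁻¹`, `β = - v x`; `exists_der`, `exists_der_ext` on `E`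
and `der_eq_zero`. The commutator vanishes on `x`. -/
lemma Sys.exists_nrm (S : Sys δ d v c A F) : ∃ (s β : K) (d' : Derivation k E E)
    (v' : Derivation ℤ E E), s ≠ 0 ∧
      Nrm δ (s • d) (sh v β (s • d)) (s • A) (F + β • s • A) d' v' := by
  obtain ⟨x, hx⟩ := FF.ex (k := k) (K := E)
  have hX := trans_up (K := K) hx
  have h0 : d (algebraMap E K x) ≠ 0 := fun h => S.d0 (Derivation.ext
    (der_eq_zero (d.restrictScalars ℤ) d.map_algebraMap hX h))
  obtain ⟨d', hd⟩ := exists_der hx 1
  obtain ⟨v', hv, hv'⟩ := exists_der_ext hx δ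
  have S' := (S.scale (inv_ne_zero h0)).shift (-v (algebraMap E K x))
  have h1 : ((d (algebraMap E K x))⁻¹ • d) (algebraMap E K x) = 1 := inv_mul_cancel₀ h0
  have h2 : sh v (-v (algebraMap E K x)) ((d (algebraMap E K x))⁻¹ • d) (algebraMap E K x) = 0 := by
    rw [sh_apply, h1, mul_one, add_neg_cancel]
  have h3 := S'.comm (algebraMap E K x)
  rw [h1, h2, map_zero, Derivation.map_one_eq_zero, zero_add, mul_one] at h3
  rw [← h3] at S'
  refine ⟨_, _, d', v', inv_ne_zero h0, S', der_compat
    (D := ((d (algebraMap E K x))⁻¹ • d).restrictScalars ℤ) (D' := d'.restrictScalars ℤ) (fun a => ?_) hx ?_, der_compat (fun a => ?_) hx ?_⟩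
  · simp
  · exact h1.trans (by simp [hd])
  · rw [S'.ext, hv', ← IsScalarTower.algebraMap_apply]
  · rw [h2, hv, map_zero]

variable (E) in
/-- Forms of trace zero. -/
noncomputable def tz (A : (ι → k) →ₗ[k] K) : Submodule k (ι → k) :=
  LinearMap.ker ((Algebra.trace E K).restrictScalars k ∘ₗ A)

omit [CharZero k] [FF k K] [FF k E] [Fintype ι] in
lemma mem_tz {a : ι → k} : a ∈ tz E A ↔ Algebra.trace E K (A a) = 0 := Iff.rfl

lemma fd_nrm (k E K : Type u) [Field k] [Field K] [Algebra k K] [FF k K] [Field E] [Algebra k E]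
    [Algebra E K] [IsScalarTower k E K] [FF k E] : FiniteDimensional E K := by
  obtain ⟨x, hx⟩ := FF.ex (k := k) (K := E)
  obtain ⟨T, hT⟩ := (FF.fin (k := k) (algebraMap E K x)
    ((transcendental_algebraMap_iff (algebraMap E K).injective).2 hx)).fg_top
  refine ⟨T, eq_top_iff.2 fun z _ => ?_⟩
  have h : k⟮algebraMap E K x⟯ ≤ (IsScalarTower.toAlgHom k E K).fieldRange :=
    IntermediateField.adjoin_simple_le_iff.2 ⟨x, rfl⟩
  induction hT.ge (mem_top (x := z)) using span_induction with
  | mem y hy => exact subset_span hy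
  | zero => exact zero_mem _
  | add y y' _ _ h1 h2 => exact add_mem (h1 trivial) (h2 trivial)
  | smul a y _ h1 =>
    obtain ⟨e, he⟩ := h a.2
    have := smul_mem _ e (h1 trivial)
    rwa [Algebra.smul_def, show algebraMap E K e = a from he] at this

lemma finrank_le_nrm {k V W : Type*} [Field k] [AddCommGroup V] [Module k V] [AddCommGroup W]
    [Module k W] [FiniteDimensional k V] (φ : V →ₗ[k] W) (U : Submodule k V) (T : Submodule k W)
    [FiniteDimensional k T] (h : ∀ a ∈ U, φ a ∈ T) :
    finrank k U ≤ finrank k T + finrank k (U ⊓ LinearMap.ker φ : Submodule k V) := by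
  rw [← (φ.domRestrict U).finrank_range_add_finrank_ker, LinearMap.range_domRestrict,
    LinearMap.ker_domRestrict, ← finrank_map_subtype_eq, map_comap_subtype]
  exact Nat.add_le_add_right (finrank_mono (map_le_iff_le_comap.2 h)) _

namespace Nrm
variable (H : Nrm δ d v A F d' v')
include H

lemma d0 : d' ≠ 0 := by
  obtain ⟨x, hx⟩ := FF.ex (k := k) (K := E)
  exact fun h => H.sys.d0 (Derivation.ext (der_eq_zero (d.restrictScalars ℤ) d.map_algebraMap
    (trans_up (K := K) hx) ((H.cd x).trans (by simp [h]))))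

/-- Passage to an intermediate field (`exists_mid`). -/
lemma mid (L : Type u) [Field L] [Algebra k L] [Algebra E L] [Algebra L K] [IsScalarTower k L K]
    [IsScalarTower k E L] [IsScalarTower E L K] [FF k L] :
    ∃ (d₁ : Derivation k L L) (v₁ : Derivation ℤ L L), Nrm δ d v A F d₁ v₁ ∧
      (∀ f, d₁ (algebraMap E L f) = algebraMap E L (d' f)) ∧
      ∀ f, v₁ (algebraMap E L f) = algebraMap E L (v' f) := by
  have := fd_nrm k E K
  have : CharZero E := charZero_of_injective_algebraMap (algebraMap k E).injective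
  obtain ⟨D, h1, h2⟩ := exists_mid (L := L) (d.restrictScalars ℤ) (d'.restrictScalars ℤ) H.cd
  obtain ⟨v₁, h3, h4⟩ := exists_mid (L := L) v v' H.cv
  have h5 : ∀ a : k, D (algebraMap k L a) = 0 := fun a => by
    rw [IsScalarTower.algebraMap_apply k E L, h2]
    simp
  exact ⟨Derivation.mk'
    { toFun := D
      map_add' := map_add D
      map_smul' := fun a f => by
        simp [Algebra.smul_def, h5] } D.leibniz, v₁, ⟨H.sys, h1, h3⟩, h2, h4⟩

/-- At a point `Q` of `E` with uniformiser `z` use `Sys.reg'` at the points above `Q` and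
`trace_mem_fil'` with `n = 0`; then `const_of_regular`. -/
lemma tr_F {a : ι → k} (ha : a ∈ tz E A) :
    ∃ e : k, Algebra.trace E K (F a) = algebraMap k E e := by
  have := fd_nrm k E K
  obtain ⟨e, he⟩ := const_of_regular (k := k) (x := Algebra.trace E K (F a)) fun Q => by
    obtain ⟨z, -, hz⟩ := exists_po Q (-1)
    have h1 := trace_mem_fil' (Q := Q) (n := 0)
      (f := F a - A a * (v (algebraMap E K z) / d (algebraMap E K z))) fun P e hP he h =>
        fil_of_mem (H.sys.reg' (by rw [h, hz]; omega) a) (by omega)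
    rwa [H.cd, H.cv, ← map_div₀, mul_comm, ← Algebra.smul_def, map_sub, map_smul, mem_tz.1 ha,
      smul_zero, sub_zero, mem_fil_zero] at h1
  exact ⟨e, he.symm⟩

/-- `trace_der`, `tr_F`. -/
lemma stab : Stab δ (tz E A) := by
  have := fd_nrm k E K
  have : CharZero E := charZero_of_injective_algebraMap (algebraMap k E).injective
  intro a ha
  obtain ⟨e, he⟩ := H.tr_F ha
  have h1 := congrArg (Algebra.trace E K) (H.sys.lie a)
  have h2 := trace_der (d.restrictScalars ℤ) (d'.restrictScalars ℤ) H.cd (F a)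
  simp only [Derivation.restrictScalars_apply, he, Derivation.map_algebraMap] at h2
  rw [zero_mul, add_zero, map_add, ← trace_der v v' H.cv, mem_tz.1 ha, map_zero, ← h2,
    add_zero] at h1
  exact h1.symm

/-- `IsK.trace_mem`, rank-nullity. -/
lemma finrank_le (U : Submodule k (ι → k)) :
    finrank k U ≤ gn k E + finrank k (U ⊓ tz E A : Submodule k (ι → k)) := by
  obtain ⟨κ, h1⟩ := exists_isK H.sys.d0
  obtain ⟨κ', h2⟩ := exists_isK H.d0
  rw [← h2.ll_eq]
  exact finrank_le_nrm _ U _ fun a _ => h1.trace_mem h2 H.cd (H.sys.mem_K h1 a)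

end Nrm

end Pool.Agent.Lib.MP_13404a_ag.UB
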