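import Pool.Agent.Lib.MP_13404a_ag.UB.Ode
import Pool.Agent.Lib.MP_13404a_ag.UB.Nrm

/-!
The bound when the values of the forms on the lift lie in a subfield.
-/

open Module Submodule Function Finsupp
open scoped IntermediateField Polynomial

namespace Pool.Agent.Lib.MP_13404a_ag.UB

open Pool.Agent.Lib.MP_15f242_ag

universe u

variable {k K : Type u} [Field k] [CharZero k] [Field K] [Algebra k K] [FF k K]
  {E : Type u} [Field E] [Algebra k E] [Algebra E K] [IsScalarTower k E K] [FF k E]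
  {ι : Type} [Fintype ι] {δ : Derivation ℤ k k} {d : Derivation k K K} {v : Derivation ℤ K K}
  {c : K} {A F : (ι → k) →ₗ[k] K} {κ D : Div k K}
  {d' : Derivation k E E} {v' : Derivation ℤ E E}

omit [CharZero k] [FF k K] in
lemma rank_le_st5 {V V' : Type*} [AddCommGroup V] [Module k V] [AddCommGroup V'] [Module k V']
    [FiniteDimensional k V] (T : V →ₗ[k] V') (W : Submodule k V) :
    finrank k W ≤ finrank k (W.map T) + finrank k (LinearMap.ker T) := by
  rw [← LinearMap.finrank_range_add_finrank_ker (T.domRestrict W), LinearMap.range_domRestrict]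
  refine Nat.add_le_add_left (LinearMap.finrank_le_finrank_of_injective
    (f := (W.subtype ∘ₗ (LinearMap.ker (T.domRestrict W)).subtype).codRestrict (LinearMap.ker T)
      fun x => x.2) fun x y h => ?_) _
  have h' := congrArg Subtype.val h
  exact Subtype.ext (Subtype.ext h')

lemma const_st5 (h : d' ≠ 0) (f : E) (hf : d' f = 0) : ∃ a : k, f = algebraMap k E a := by
  by_cases ht : IsAlgebraic k f
  · obtain ⟨a, ha⟩ := mem_range_of_alg ht
    exact ⟨a, ha.symm⟩
  · exact absurd (Derivation.ext fun g => der_eq_zero (k := k) (d'.restrictScalars ℤ)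
      (fun a => d'.map_algebraMap a) ht hf g) h

lemma Nrm.mid_st5 (H : Nrm δ d v A F d' v') (L : Type u) [Field L] [Algebra k L] [Algebra E L]
    [Algebra L K] [IsScalarTower k L K] [IsScalarTower k E L] [IsScalarTower E L K] [FF k L]
    (γ : L) (hγ : E⟮γ⟯ = ⊤)
    (hF : ∀ a, ∃ y : E, F a + algebraMap L K γ * A a = algebraMap E K y) {r : ℕ}
    (hr : Fintype.card ι ≤
      finrank k (LinearMap.ker (d.toLinearMap ∘ₗ (F + algebraMap L K γ • A))) + r) :
    ∃ e : ℕ, 1 ≤ e ∧ ((e = finrank E K ∧ Fintype.card ι ≤ gn k E + (e - 1) * r + e ^ 2) ∨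
      (2 * e ≤ finrank E K ∧
        2 * Fintype.card ι ≤ 2 * (gn k E + (e - 1) * r + e ^ 2) + gn k K + 1)) := by
  have f1 := fd_tower k L E
  have f2 := fd_tower k K L
  have c1 : CharZero E := charZero_of_injective_algebraMap (algebraMap k E).injective
  have c2 : CharZero L := charZero_of_injective_algebraMap (algebraMap k L).injective
  obtain ⟨d₁, v₁, H₁, cd, cv⟩ := H.mid L
  obtain ⟨U, hU, hU'⟩ := exists_chain δ _ hr
  let T : (ι → k) →ₗ[k] L := (Algebra.trace L K).restrictScalars k ∘ₗ A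
  have hT : ∀ a, T a = Algebra.trace L K (A a) := fun _ => rfl
  have hm : ∀ x : K, Algebra.trace L K (algebraMap L K γ * x) = γ * Algebra.trace L K x :=
    fun x => by rw [← Algebra.smul_def, map_smul, smul_eq_mul]
  have key : ∀ a, d (F a + algebraMap L K γ * A a) = 0 →
      v₁ (T a) + d₁ (γ * T a) = T (nab δ a) := by
    intro a ha
    have h1 := trace_der v v₁ H₁.cv (A a)
    have h2 : d₁ _ = Algebra.trace L K (d _) :=
      trace_der (d.restrictScalars ℤ) (d₁.restrictScalars ℤ) H₁.cd (algebraMap L K γ * A a)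
    have h3 := H.sys.lie a
    rw [map_add] at ha
    rw [hT, hT, h1, ← hm, h2, ← map_add]
    congr 1
    linear_combination h3 + ha
  have iter : ∀ l i, l ≤ i → ∀ a ∈ U i, a ∈ tz E A →
      Algebra.trace E L ((fun b => v₁ b + d₁ (γ * b))^[l] (T a)) = 0 := by
    intro l
    induction l with
    | zero => exact fun i _ a _ ha => (Algebra.trace_trace (A a)).trans ha
    | succ l ih =>
      intro i hi a h1 h2
      obtain ⟨i, rfl⟩ : ∃ j, i = j + 1 := ⟨i - 1, by omega⟩
      obtain ⟨-, h3, h4⟩ := hU i a h1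
      rw [iterate_succ_apply, key a h3]
      exact ih i (by omega) _ h4 (H.stab a h2)
  have comm : ∀ f, d₁ (v₁ f) = v₁ (d₁ f) := fun f => (algebraMap L K).injective (by
    rw [← H₁.cd, ← H₁.cv, ← H₁.cv, ← H₁.cd, H.sys.comm, zero_mul, add_zero])
  have e1 : 0 < finrank E L := finrank_pos
  have e2 : 0 < finrank L K := finrank_pos
  have e3 := finrank_mul_finrank E L K
  have b1 := ode_bound d₁ d' v₁ v' cd cv (const_st5 H.d0) comm γ hγ
    ((U (finrank E L - 1) ⊓ tz E A).map T) (by
      rintro _ ⟨a, ha, rfl⟩ l hl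
      exact iter l _ (by omega) a ha.1 ha.2)
  have b2 : _ ≤ _ + finrank k (tz L A) := rank_le_st5 T (U (finrank E L - 1) ⊓ tz E A)
  have b3 := H.finrank_le (U (finrank E L - 1))
  have b4 := hU' (finrank E L - 1)
  refine ⟨finrank E L, e1, ?_⟩
  by_cases h1 : finrank L K = 1
  · have h2 : tz L A = ⊥ := by
      refine eq_bot_iff.2 fun a ha => H.sys.inj ?_
      obtain ⟨y, hy⟩ := (finrank_eq_one_iff_of_nonzero' (1 : K) one_ne_zero).1 h1 (A a)
      rw [← Algebra.algebraMap_eq_smul_one] at hy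
      rw [mem_tz, ← hy, Algebra.trace_algebraMap, h1, one_smul] at ha
      rw [← hy, ha, map_zero, map_zero]
    rw [h2, finrank_bot] at b2
    rw [h1, mul_one] at e3
    exact Or.inl ⟨e3, by omega⟩
  · have b5 := (H.sys.shift (algebraMap L K γ)).cdf H₁.stab fun a ha => by
      obtain ⟨y, hy⟩ := hF a
      obtain ⟨t, ht⟩ := H₁.tr_F ha
      have h2 := congrArg (Algebra.trace L K) hy
      rw [map_add, hm, mem_tz.1 ha, mul_zero, add_zero, ht, IsScalarTower.algebraMap_apply E L K,
        Algebra.trace_algebraMap] at h2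
      have h3 := congrArg d₁ h2
      rw [d₁.map_algebraMap, map_nsmul, eq_comm, smul_eq_zero] at h3
      change d (F a + algebraMap L K γ * A a) = 0
      rw [hy, IsScalarTower.algebraMap_apply E L K, H₁.cd, h3.resolve_left e2.ne', map_zero]
    refine Or.inr ⟨?_, by omega⟩
    rw [← e3, mul_comm]
    exact Nat.mul_le_mul_left _ (by omega)

/-- `L = E⟮β⟯`, `e = finrank E L`, `Nrm.mid`. Let `U` be the chain for
`U₁ = ker (d ∘ (F + β • A))` and `W = U (e - 1) ⊓ tz E A`. The map `a ↦ trace L K (A a)` has its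
image in a space to which `ode_bound` applies (`lie` for `shift β`, `trace_der`, `Nrm.stab`,
`Algebra.trace_trace`), and its kernel lies in `tz L A`, which is zero if `finrank L K = 1`; on
`tz L A` the values `F a + β A a` are constant (take the trace to `L`, `Nrm.tr_F`), so `Sys.cdf`
applies. -/
theorem Nrm.step5 (H : Nrm δ d v A F d' v') (β : K)
    (hF : ∀ a, ∃ y : E, F a + β * A a = algebraMap E K y) {r : ℕ}
    (hr : Fintype.card ι ≤ finrank k (LinearMap.ker (d.toLinearMap ∘ₗ (F + β • A))) + r) :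
    ∃ e : ℕ, 1 ≤ e ∧ ((e = finrank E K ∧ Fintype.card ι ≤ gn k E + (e - 1) * r + e ^ 2) ∨
      (2 * e ≤ finrank E K ∧
        2 * Fintype.card ι ≤ 2 * (gn k E + (e - 1) * r + e ^ 2) + gn k K + 1)) := by
  obtain ⟨y, hy⟩ := FF.ex (k := k) (K := E)
  have : FF k E⟮β⟯ := ff_sub (E⟮β⟯.restrictScalars k) (E⟮β⟯.algebraMap_mem y) (trans_up hy)
  have : IsScalarTower k E⟮β⟯ K := ⟨fun a b c => smul_assoc a (b : K) c⟩
  refine H.mid_st5 E⟮β⟯ (IntermediateField.AdjoinSimple.gen E β) ?_ hF hr
  refine IntermediateField.lift_injective _ ?_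
  rw [IntermediateField.lift_adjoin_simple, IntermediateField.lift_top]
  rfl

theorem Sys.step5 (S : Sys δ d v c A F) (hF : ∀ a, ∃ y : E, F a = algebraMap E K y) {r : ℕ}
    (hr : Fintype.card ι ≤ finrank k (LinearMap.ker (d.toLinearMap ∘ₗ F)) + r) :
    ∃ e : ℕ, 1 ≤ e ∧ ((e = finrank E K ∧ Fintype.card ι ≤ gn k E + (e - 1) * r + e ^ 2) ∨
      (2 * e ≤ finrank E K ∧
        2 * Fintype.card ι ≤ 2 * (gn k E + (e - 1) * r + e ^ 2) + gn k K + 1)) := by
  obtain ⟨s, β, d', v', hs, H⟩ := S.exists_nrm E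
  have e : F + β • s • A + (-β) • s • A = F := by
    ext1 a
    simp
  refine H.step5 (-β) (fun a => ?_) ?_
  · obtain ⟨y, hy⟩ := hF a
    exact ⟨y, (LinearMap.congr_fun e a).trans hy⟩
  · have e' : LinearMap.ker ((s • d).toLinearMap ∘ₗ F) = LinearMap.ker (d.toLinearMap ∘ₗ F) := by
      ext a
      exact smul_eq_zero_iff_right hs
    rwa [e, e']

end Pool.Agent.Lib.MP_13404a_ag.UB
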