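import Pool.Agent.Lib.MP_13404a_ag.UB.Nrm

/-!
Triple covers.
-/

open Module Submodule Function Finsupp
open scoped IntermediateField Polynomial

namespace Pool.Agent.Lib.MP_13404a_ag.UB

open Pool.Agent.Lib.MP_15f242_ag

universe u

variable {k K : Type u} [Field k] [CharZero k] [Field K] [Algebra k K] [FF k K]
  {E : Type u} [Field E] [Algebra k E] [Algebra E K] [IsScalarTower k E K] [FF k E]
  {ι : Type} [Fintype ι] {δ : Derivation ℤ k k} {d : Derivation k K K} {v : Derivation ℤ K K}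
  {c : K} {A F : (ι → k) →ₗ[k] K} {κ D : Div k K}
  {d' : Derivation k E E} {v' : Derivation ℤ E E}

lemma tr_mul_tri {E K : Type u} [Field E] [Field K] [Algebra E K] (y : E) (z : K) :
    Algebra.trace E K (algebraMap E K y * z) = y * Algebra.trace E K z := by
  rw [← Algebra.smul_def, map_smul, smul_eq_mul]

lemma tr_map_tri {E K : Type u} [Field E] [Field K] [Algebra E K] (h3 : finrank E K = 3)
    (y : E) : Algebra.trace E K (algebraMap E K y) = 3 * y := by
  rw [Algebra.trace_algebraMap, h3]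
  simp

lemma span_tri {E K : Type u} [Field E] [CharZero E] [Field K] [Algebra E K]
    [FiniteDimensional E K] (h3 : finrank E K = 3) {a b : K}
    (ha : Algebra.trace E K a = 0) (hb : Algebra.trace E K b = 0)
    (hab : LinearIndependent E ![a, b]) (u : K) :
    ∃ x y w : E, u = algebraMap E K x + algebraMap E K y * a + algebraMap E K w * b := by
  have hi : LinearIndependent E ![1, a, b] := by
    rw [Fintype.linearIndependent_iff]
    intro g hg
    rw [Fin.sum_univ_three] at hg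
    simp only [Matrix.cons_val_zero, Matrix.cons_val_one, Matrix.cons_val] at hg
    have h0 : g 0 = 0 := by
      have := congrArg (Algebra.trace E K) hg
      rw [map_add, map_add, map_smul, map_smul, map_smul, ha, hb, map_zero,
        ← map_one (algebraMap E K), tr_map_tri h3] at this
      simpa using this
    rw [h0, zero_smul, zero_add] at hg
    obtain ⟨h1, h2⟩ := LinearIndependent.pair_iff.1 hab _ _ hg
    intro i
    fin_cases i
    · exact h0
    · exact h1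
    · exact h2
  have ht := hi.span_eq_top_of_card_eq_finrank (by simp [h3])
  obtain ⟨g, hg⟩ := (mem_span_range_iff_exists_fun E).1 (ht.ge (mem_top (x := u)))
  refine ⟨g 0, g 1, g 2, ?_⟩
  rw [← hg, Fin.sum_univ_three]
  simp [Algebra.smul_def]

lemma span0_tri {E K : Type u} [Field E] [CharZero E] [Field K] [Algebra E K]
    [FiniteDimensional E K] (h3 : finrank E K = 3) {a b : K}
    (ha : Algebra.trace E K a = 0) (hb : Algebra.trace E K b = 0)
    (hab : LinearIndependent E ![a, b]) {u : K} (hu : Algebra.trace E K u = 0) :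
    ∃ y w : E, u = algebraMap E K y * a + algebraMap E K w * b := by
  obtain ⟨x, y, w, h⟩ := span_tri h3 ha hb hab u
  have h0 : x = 0 := by
    rw [h, map_add, map_add, tr_mul_tri, tr_mul_tri, ha, hb, tr_map_tri h3] at hu
    simpa using hu
  exact ⟨y, w, by rw [h, h0, map_zero, zero_add]⟩

lemma zero_tri {E K : Type u} [Field E] [CharZero E] [Field K] [Algebra E K]
    [FiniteDimensional E K] (h3 : finrank E K = 3) {a b z : K}
    (ha : Algebra.trace E K a = 0) (hb : Algebra.trace E K b = 0)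
    (hab : LinearIndependent E ![a, b]) (h0 : Algebra.trace E K z = 0)
    (h1 : Algebra.trace E K (a * z) = 0) (h2 : Algebra.trace E K (b * z) = 0) : z = 0 := by
  by_contra hz
  obtain ⟨x, y, w, h⟩ := span_tri h3 ha hb hab z⁻¹
  have h4 : Algebra.trace E K (z⁻¹ * z) = 0 := by
    rw [h, add_mul, add_mul, mul_assoc, mul_assoc, map_add, map_add, tr_mul_tri, tr_mul_tri,
      tr_mul_tri, h0, h1, h2]
    simp
  rw [inv_mul_cancel₀ hz, ← map_one (algebraMap E K), tr_map_tri h3] at h4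
  simp at h4

omit [FF k K] [FF k E] in
/-- `1, a, b` is a basis and the trace form is nondegenerate. -/
lemma eq_zero_of_tr [CharZero E] [FiniteDimensional E K] (h3 : finrank E K = 3) {a b z : K}
    (ha : Algebra.trace E K a = 0) (hb : Algebra.trace E K b = 0)
    (hab : LinearIndependent E ![a, b]) (h0 : Algebra.trace E K z = 0)
    (h1 : Algebra.trace E K (a * z) = 0) (h2 : Algebra.trace E K (b * z) = 0) : z = 0 :=
  zero_tri h3 ha hb hab h0 h1 h2

lemma rk_tri {k V X : Type*} [Field k] [AddCommGroup V] [Module k V] [AddCommGroup X]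
    [Module k X] [FiniteDimensional k V] (U : Submodule k V) (φ : V →ₗ[k] X) :
    finrank k U = finrank k (U.map φ) + finrank k (U ⊓ LinearMap.ker φ : Submodule k V) := by
  rw [← LinearMap.finrank_range_add_finrank_ker (φ.domRestrict U), LinearMap.range_domRestrict,
    LinearMap.ker_domRestrict, ← Submodule.map_comap_subtype, finrank_map_subtype_eq]

omit [CharZero k] [FF k K] [FF k E] [Fintype ι] [Algebra k E] [IsScalarTower k E K] in
lemma nl_tri {U : Submodule k (ι → k)} (h : ¬ Line E (U.map A)) :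
    ∃ a ∈ U, ∃ b ∈ U, LinearIndependent E ![A a, A b] := by
  unfold Line at h
  push Not at h
  obtain ⟨_, ⟨a, ha, rfl⟩, h0⟩ := h 0
  obtain ⟨_, ⟨b, hb, rfl⟩, h1⟩ := h (A a)
  refine ⟨a, ha, b, hb, (LinearIndependent.pair_iff' ?_).2 fun y hy => h1 y ?_⟩
  · simpa using h0 0
  · rw [← hy, Algebra.smul_def]

lemma exG_tri (H : Nrm δ d v A F d' v') (h3 : finrank E K = 3) :
    ∃ G : (ι → k) →ₗ[k] K, (∀ a, Algebra.trace E K (G a) = 0) ∧
      ∀ a ∈ tz E A, ∃ e : k, F a = G a + algebraMap k K e := by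
  have : CharZero E := charZero_of_injective_algebraMap (algebraMap k E).injective
  refine ⟨F - (Algebra.linearMap E K).restrictScalars k ∘ₗ
    ((3⁻¹ : E) • ((Algebra.trace E K).restrictScalars k ∘ₗ F)), fun a => ?_, fun a ha => ?_⟩
  · simp only [LinearMap.sub_apply, LinearMap.comp_apply, LinearMap.restrictScalars_apply,
      LinearMap.smul_apply, Algebra.linearMap_apply, map_sub, tr_map_tri h3, smul_eq_mul]
    field_simp
    ring
  · obtain ⟨e, he⟩ := H.tr_F ha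
    refine ⟨3⁻¹ * e, ?_⟩
    simp only [LinearMap.sub_apply, LinearMap.comp_apply, LinearMap.restrictScalars_apply,
      LinearMap.smul_apply, Algebra.linearMap_apply, he, smul_eq_mul]
    rw [IsScalarTower.algebraMap_apply k E K, map_mul (algebraMap k E), map_inv₀, map_ofNat]
    ring

/-- The wedge product with a fixed element. -/
def wd_tri (A G : (ι → k) →ₗ[k] K) (a : ι → k) : (ι → k) →ₗ[k] K := A a • G - G a • A

omit [CharZero k] [FF k K] [Fintype ι] in
lemma wd_apply_tri (A G : (ι → k) →ₗ[k] K) (a b : ι → k) :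
    wd_tri A G a b = A a * G b - A b * G a := by
  simp only [wd_tri, LinearMap.sub_apply, LinearMap.smul_apply, smul_eq_mul]
  ring

lemma wd_mem_tri (S : Sys δ d v c A F) (hκ : IsK d κ) {G : (ι → k) →ₗ[k] K} {a b : ι → k}
    (ha : ∃ e : k, F a = G a + algebraMap k K e) (hb : ∃ e : k, F b = G b + algebraMap k K e) :
    wd_tri A G a b ∈ H0 (OD κ) := by
  obtain ⟨e, he⟩ := ha
  obtain ⟨e', he'⟩ := hb
  have h : wd_tri A G a b = (A a * F b - A b * F a) - e' • A a + e • A b := by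
    rw [wd_apply_tri, he, he', Algebra.smul_def, Algebra.smul_def]
    ring
  rw [h]
  exact add_mem (sub_mem (S.wedge_mem hκ a b) (smul_mem _ _ (S.mem_K hκ a)))
    (smul_mem _ _ (S.mem_K hκ b))

omit [CharZero k] [FF k K] [Fintype ι] in
lemma dF_tri {G : (ι → k) →ₗ[k] K} {ρ : K} {b : ι → k}
    (hb : ∃ e : k, F b = G b + algebraMap k K e) (h : G b = ρ * A b) :
    d ((F + (-ρ) • A) b) = 0 := by
  obtain ⟨e, he⟩ := hb
  have h1 : (F + (-ρ) • A) b = algebraMap k K e := by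
    simp only [LinearMap.add_apply, LinearMap.smul_apply, smul_eq_mul, he, h]
    ring
  rw [h1, Derivation.map_algebraMap]

variable (E) in
/-- The forms of trace zero that pair trivially with `a`. -/
noncomputable def hh_tri (A G : (ι → k) →ₗ[k] K) (a : ι → k) : Submodule k (ι → k) :=
  LinearMap.ker ((Algebra.trace E K).restrictScalars k ∘ₗ wd_tri A G a)

omit [CharZero k] [FF k K] [FF k E] [Fintype ι] in
lemma mem_hh_tri {G : (ι → k) →ₗ[k] K} {a b : ι → k} :
    b ∈ hh_tri E A G a ↔ Algebra.trace E K (A a * G b) = Algebra.trace E K (A b * G a) := by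
  rw [hh_tri, LinearMap.mem_ker, LinearMap.comp_apply, wd_apply_tri,
    LinearMap.restrictScalars_apply, map_sub, sub_eq_zero]

lemma hh_le_tri (H : Nrm δ d v A F d' v') {G : (ι → k) →ₗ[k] K}
    (hG : ∀ a ∈ tz E A, ∃ e : k, F a = G a + algebraMap k K e) {a : ι → k} (ha : a ∈ tz E A)
    {U : Submodule k (ι → k)} (hU : U ≤ tz E A) :
    finrank k U ≤ gn k E + finrank k (U ⊓ hh_tri E A G a : Submodule k (ι → k)) := by
  obtain ⟨κ, hκ⟩ := exists_isK H.sys.d0
  obtain ⟨κ', hκ'⟩ := exists_isK H.d0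
  rw [rk_tri U ((Algebra.trace E K).restrictScalars k ∘ₗ wd_tri A G a), ← hκ'.ll_eq]
  refine Nat.add_le_add_right (finrank_mono ?_) _
  rintro _ ⟨b, hb, rfl⟩
  exact hκ.trace_mem hκ' H.cd (wd_mem_tri H.sys hκ (hG a ha) (hG b (hU hb)))

lemma line_tri (hκ : IsK d κ) (h3 : finrank E K = 3) {B : Submodule k K} {D : Div k K}
    (hB : B ≤ H0 (OD (κ - D))) (h0 : B ≠ ⊥) (hs : Line E B) :
    degree D + 3 * finrank k B ≤ 2 * gn k K + 1 := by
  obtain ⟨n, h1, h2, -⟩ := line_bound hB h0 hs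
  rw [map_sub, hκ.degree_eq, h3] at h1
  omega

/-- Case (B1). -/
lemma caseB1_tri (H : Nrm δ d v A F d' v') (h3 : finrank E K = 3) {G : (ι → k) →ₗ[k] K}
    (hG0 : ∀ a, Algebra.trace E K (G a) = 0)
    (hG : ∀ a ∈ tz E A, ∃ e : k, F a = G a + algebraMap k K e) {a₀ a₁ : ι → k}
    (h₀ : a₀ ∈ tz E A) (h₁ : a₁ ∈ tz E A) (hi : LinearIndependent E ![A a₀, A a₁])
    {U : Submodule k (ι → k)} (hU : U ≤ tz E A) (hU₀ : U ≤ hh_tri E A G a₀)
    (hU₁ : U ≤ hh_tri E A G a₁) (hl : Line E (U.map A)) (hne : U ≠ ⊥) :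
    ∃ (β : K) (D : Div k K), IsD (sh v β d) D ∧
      degree D + 3 * finrank k U ≤ 2 * gn k K + 1 := by
  have : CharZero E := charZero_of_injective_algebraMap (algebraMap k E).injective
  have : FiniteDimensional E K := Module.finite_of_finrank_pos (by omega)
  obtain ⟨κ, hκ⟩ := exists_isK H.sys.d0
  obtain ⟨b₀, hb₀, hb0⟩ := exists_mem_ne_zero_of_ne_bot hne
  have hA0 : A b₀ ≠ 0 := fun h => hb0 (H.sys.inj (h.trans (map_zero A).symm))
  have : Nonempty ι := by
    by_contra h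
    rw [not_nonempty_iff] at h
    exact hb0 (Subsingleton.elim _ _)
  have key : ∀ b ∈ U, G b = G b₀ / A b₀ * A b := by
    intro b hb
    obtain ⟨s, hs⟩ := hl
    obtain ⟨y₀, hy₀⟩ := hs _ (mem_map_of_mem hb₀)
    obtain ⟨y₁, hy₁⟩ := hs _ (mem_map_of_mem hb)
    have hy : algebraMap E K y₀ ≠ 0 := fun h => hA0 (by rw [hy₀, h, zero_mul])
    have hA : A b = algebraMap E K (y₁ / y₀) * A b₀ := by
      rw [hy₁, hy₀, map_div₀]
      field_simp
    have aux : ∀ a, U ≤ hh_tri E A G a →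
        Algebra.trace E K (A a * (G b - algebraMap E K (y₁ / y₀) * G b₀)) = 0 := by
      intro a ha
      rw [mul_sub, map_sub, mul_left_comm, tr_mul_tri, mem_hh_tri.1 (ha hb),
        mem_hh_tri.1 (ha hb₀), hA, mul_assoc, tr_mul_tri, sub_self]
    have hz := zero_tri h3 (mem_tz.1 h₀) (mem_tz.1 h₁) hi
      (z := G b - algebraMap E K (y₁ / y₀) * G b₀)
      (by rw [map_sub, tr_mul_tri, hG0, hG0, mul_zero, sub_zero]) (aux _ hU₀) (aux _ hU₁)
    rw [sub_eq_zero.1 hz, hA]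
    field_simp
  have S := H.sys.shift (-(G b₀ / A b₀))
  obtain ⟨D, hD⟩ := S.exists_D
  refine ⟨_, D, hD, ?_⟩
  rw [← H.sys.finrank_map U]
  refine line_tri hκ h3 ?_ ?_ hl
  · rintro _ ⟨b, hb, rfl⟩
    exact S.mem_M hκ hD (dF_tri (hG b (hU hb)) (key b hb))
  · exact fun h => hA0 ((Submodule.eq_bot_iff _).1 h _ (mem_map_of_mem hb₀))

omit [Fintype ι] in
/-- Case (B2), first step. -/
lemma lin_tri (h3 : finrank E K = 3) {G : (ι → k) →ₗ[k] K}
    (hG0 : ∀ a, Algebra.trace E K (G a) = 0) {a₀ a₁ a b₀ b₁ : ι → k}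
    (h₀ : a₀ ∈ tz E A) (h₁ : a₁ ∈ tz E A) (ha : a ∈ tz E A)
    (hi : LinearIndependent E ![A a₀, A a₁])
    (hb₀ : b₀ ∈ tz E A ⊓ hh_tri E A G a₀ ⊓ hh_tri E A G a₁ ⊓ hh_tri E A G a)
    (hb₁ : b₁ ∈ tz E A ⊓ hh_tri E A G a₀ ⊓ hh_tri E A G a₁ ⊓ hh_tri E A G a)
    (hj : LinearIndependent E ![A b₀, A b₁]) :
    ∃ x y : E, A a = algebraMap E K x * A a₀ + algebraMap E K y * A a₁ ∧
      G a = algebraMap E K x * G a₀ + algebraMap E K y * G a₁ := by
  have : CharZero E := charZero_of_injective_algebraMap (algebraMap k E).injective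
  have : FiniteDimensional E K := Module.finite_of_finrank_pos (by omega)
  obtain ⟨x, y, hA⟩ := span0_tri h3 (mem_tz.1 h₀) (mem_tz.1 h₁) hi (mem_tz.1 ha)
  refine ⟨x, y, hA, sub_eq_zero.1 ?_⟩
  have aux : ∀ b ∈ tz E A ⊓ hh_tri E A G a₀ ⊓ hh_tri E A G a₁ ⊓ hh_tri E A G a,
      Algebra.trace E K (A b * (G a - (algebraMap E K x * G a₀ + algebraMap E K y * G a₁))) = 0 := by
    rintro b ⟨⟨⟨-, e0⟩, e1⟩, e2⟩
    rw [mul_sub, mul_add, mul_left_comm, mul_left_comm (A b), map_sub, map_add, tr_mul_tri,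
      tr_mul_tri, ← mem_hh_tri.1 e0, ← mem_hh_tri.1 e1, ← mem_hh_tri.1 e2, hA, add_mul, mul_assoc,
      mul_assoc, map_add, tr_mul_tri, tr_mul_tri, sub_self]
  refine zero_tri h3 (mem_tz.1 hb₀.1.1.1) (mem_tz.1 hb₁.1.1.1) hj ?_ (aux _ hb₀) (aux _ hb₁)
  rw [map_sub, map_add, tr_mul_tri, tr_mul_tri, hG0, hG0, hG0]
  simp

/-- Case (B2), second step. -/
lemma caseB2_tri (H : Nrm δ d v A F d' v') (h3 : finrank E K = 3) {G : (ι → k) →ₗ[k] K}
    (hG : ∀ a ∈ tz E A, ∃ e : k, F a = G a + algebraMap k K e) {a₀ a₁ : ι → k}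
    (h₀ : a₀ ∈ tz E A) (h₁ : a₁ ∈ tz E A) (hA0 : A a₀ ≠ 0)
    (hx : ∀ a ∈ tz E A, ∃ x y : E, A a = algebraMap E K x * A a₀ + algebraMap E K y * A a₁ ∧
      G a = algebraMap E K x * G a₀ + algebraMap E K y * G a₁) :
    3 * finrank k (tz E A) ≤ 2 * gn k K + 4 ∨ 2 * finrank k (tz E A) ≤ gn k K + 1 := by
  obtain ⟨κ, hκ⟩ := exists_isK H.sys.d0
  have hw : ∀ {b : ι → k} {x y : E}, A b = algebraMap E K x * A a₀ + algebraMap E K y * A a₁ →
      G b = algebraMap E K x * G a₀ + algebraMap E K y * G a₁ →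
      wd_tri A G a₀ b = algebraMap E K y * wd_tri A G a₀ a₁ := by
    intro b x y e1 e2
    rw [wd_apply_tri, wd_apply_tri, e1, e2]
    ring
  by_cases hs : wd_tri A G a₀ a₁ = 0
  · refine Or.inr ((H.sys.shift (-(G a₀ / A a₀))).cdf H.stab fun b hb => dF_tri (hG b hb) ?_)
    obtain ⟨x, y, e1, e2⟩ := hx b hb
    have h := hw e1 e2
    rw [hs, mul_zero, wd_apply_tri, sub_eq_zero] at h
    field_simp
    rw [mul_comm (G b), h, mul_comm]
  left
  set W₀ := tz E A ⊓ LinearMap.ker (wd_tri A G a₀) with hW₀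
  have hinj : Injective ((A a₀)⁻¹ • A) := fun a b h =>
    H.sys.inj (mul_left_cancel₀ (inv_ne_zero hA0) h)
  have e0 : ∀ b ∈ W₀, ∃ x : E, A b = algebraMap E K x * A a₀ ∧ G b = algebraMap E K x * G a₀ := by
    rintro b ⟨hb, hb'⟩
    obtain ⟨x, y, e1, e2⟩ := hx b hb
    have hy : algebraMap E K y = 0 :=
      (mul_eq_zero.1 ((hw e1 e2).symm.trans hb')).resolve_right hs
    exact ⟨x, by rw [e1, hy, zero_mul, add_zero], by rw [e2, hy, zero_mul, add_zero]⟩
  have n0 : W₀.map ((A a₀)⁻¹ • A) ≠ ⊥ := by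
    have : a₀ ∈ W₀ := ⟨h₀, by rw [SetLike.mem_coe, LinearMap.mem_ker, wd_apply_tri, sub_self]⟩
    intro h
    have h2 := (Submodule.eq_bot_iff _).1 h _ (mem_map_of_mem this)
    rw [LinearMap.smul_apply, smul_eq_mul, inv_mul_cancel₀ hA0] at h2
    exact one_ne_zero h2
  have n1 : (tz E A).map (wd_tri A G a₀) ≠ ⊥ := fun h =>
    hs ((Submodule.eq_bot_iff _).1 h _ (mem_map_of_mem h₁))
  have hm := finrank_mul_ge _ _ n0 n1
  have hl := line_tri (D := 0) (B := W₀.map ((A a₀)⁻¹ • A) * (tz E A).map (wd_tri A G a₀)) hκ h3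
    ?_ (fun h => (Submodule.mul_eq_bot.1 h).elim n0 n1) ?_
  · rw [map_zero] at hl
    rw [← (Submodule.equivMapOfInjective _ hinj W₀).finrank_eq] at hm
    have hr := rk_tri (tz E A) (wd_tri A G a₀)
    rw [← hW₀] at hr
    omega
  · rw [sub_zero, Submodule.mul_le]
    rintro _ ⟨b, hb, rfl⟩ _ ⟨b', hb', rfl⟩
    obtain ⟨x, e1, e2⟩ := e0 b hb
    have h : ((A a₀)⁻¹ • A) b * wd_tri A G a₀ b' = wd_tri A G b b' := by
      rw [LinearMap.smul_apply, smul_eq_mul, wd_apply_tri, wd_apply_tri, e1, e2]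
      field_simp
    rw [h]
    exact wd_mem_tri H.sys hκ (hG b hb.1) (hG b' hb')
  · refine ⟨wd_tri A G a₀ a₁, fun z hz => ?_⟩
    have : z ∈ (span E {wd_tri A G a₀ a₁}).restrictScalars k := by
      refine Submodule.mul_le.2 ?_ hz
      rintro _ ⟨b, hb, rfl⟩ _ ⟨b', hb', rfl⟩
      obtain ⟨x, e1, -⟩ := e0 b hb
      obtain ⟨x', y', e3, e4⟩ := hx b' hb'
      refine mem_span_singleton.2 ⟨x * y', ?_⟩
      rw [hw e3 e4, LinearMap.smul_apply, smul_eq_mul, e1, Algebra.smul_def, map_mul]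
      field_simp
    obtain ⟨y, hy⟩ := mem_span_singleton.1 this
    exact ⟨y, by rw [← hy, Algebra.smul_def]⟩

/-- `W = tz E A`, `G a = F a - trace (F a) / 3`, `ω a b = trace (A a * F b - A b * F a)` is a
regular form on `E`; `H a = {b ∈ W | ω a b = 0}` has codimension at most `γ`.
(A) `W.map A` is a line: `line_bound`. Else fix `a₀, a₁ ∈ W` with `A a₀, A a₁` independent over `E`.
(B1) For some `a₂`, `H = H a₀ ⊓ H a₁ ⊓ H a₂` maps to a line: `G b / A b = ρ` is constant on `H`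
(`eq_zero_of_tr`), so `H.map A ≤ H0 (OD (κ - D))` for the lift `sh v (-ρ) d`; `line_bound`.
(B2) Otherwise `A a = h₀ A a₀ + h₁ A a₁` implies `G a = h₀ G a₀ + h₁ G a₁`, so
`Λ a b = A a * G b - A b * G a` is a multiple over `E` of `s = Λ a₀ a₁`. If `s = 0` use `Sys.cdf`.
Else let `B₁` be the image and `W₀` the kernel of `Λ a₀` on `W`, `B₀ = W₀.map A / A a₀ ⊆ E`; then
`B₀ * B₁ ≤ H0 (OD κ)` is a line; `finrank_mul_ge`, `line_bound`. -/
theorem Nrm.triple (H : Nrm δ d v A F d' v') (h3 : finrank E K = 3) :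
    3 * finrank k (tz E A) ≤ 2 * gn k K + 4 ∨ 2 * finrank k (tz E A) ≤ gn k K + 1 ∨
      finrank k (tz E A) ≤ 3 * gn k E ∨ ∃ (β : K) (D : Div k K), IsD (sh v β d) D ∧
        degree D + 3 * finrank k (tz E A) ≤ 2 * gn k K + 1 + 9 * gn k E := by
  obtain ⟨κ, hκ⟩ := exists_isK H.sys.d0
  obtain ⟨G, hG0, hG⟩ := exG_tri H h3
  by_cases hl : Line E ((tz E A).map A)
  · by_cases h0 : (tz E A).map A = ⊥
    · rw [← H.sys.finrank_map, h0, finrank_bot]
      exact Or.inl (Nat.zero_le _)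
    · have h := line_tri (D := 0) hκ h3 (by
        rintro _ ⟨b, -, rfl⟩
        rw [sub_zero]
        exact H.sys.mem_K hκ b) h0 hl
      rw [map_zero, H.sys.finrank_map] at h
      omega
  obtain ⟨a₀, h₀, a₁, h₁, hi⟩ := nl_tri hl
  by_cases hB : ∃ a ∈ tz E A,
      Line E ((tz E A ⊓ hh_tri E A G a₀ ⊓ hh_tri E A G a₁ ⊓ hh_tri E A G a).map A)
  · obtain ⟨a, ha, hL⟩ := hB
    have r0 := hh_le_tri H hG h₀ le_rfl
    have r1 := hh_le_tri H hG h₁ (U := tz E A ⊓ hh_tri E A G a₀) inf_le_left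
    have r2 := hh_le_tri H hG ha (U := tz E A ⊓ hh_tri E A G a₀ ⊓ hh_tri E A G a₁)
      (inf_le_left.trans inf_le_left)
    by_cases hne : tz E A ⊓ hh_tri E A G a₀ ⊓ hh_tri E A G a₁ ⊓ hh_tri E A G a = ⊥
    · rw [hne, finrank_bot] at r2
      omega
    · obtain ⟨β, D, hD, h⟩ := caseB1_tri H h3 hG0 hG h₀ h₁ hi
        (inf_le_left.trans (inf_le_left.trans inf_le_left))
        (inf_le_left.trans (inf_le_left.trans inf_le_right)) (inf_le_left.trans inf_le_right) hL hne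
      exact Or.inr (Or.inr (Or.inr ⟨β, D, hD, by omega⟩))
  · have hx := caseB2_tri H h3 hG h₀ h₁ (by simpa using hi.ne_zero 0) fun a ha => by
      obtain ⟨b₀, hb₀, b₁, hb₁, hj⟩ := nl_tri fun h => hB ⟨a, ha, h⟩
      exact lin_tri h3 hG0 h₀ h₁ ha hi hb₀ hb₁ hj
    omega

theorem Sys.triple (S : Sys δ d v c A F) (h3 : finrank E K = 3) :
    3 * Fintype.card ι ≤ 3 * gn k E + 2 * gn k K + 4 ∨
      2 * Fintype.card ι ≤ 2 * gn k E + gn k K + 1 ∨ Fintype.card ι ≤ 4 * gn k E ∨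
      ∃ (β : K) (D : Div k K), IsD (sh v β d) D ∧
        degree D + 3 * Fintype.card ι ≤ 2 * gn k K + 1 + 12 * gn k E := by
  obtain ⟨s, β, d', v', -, H⟩ := S.exists_nrm E
  have h := H.finrank_le ⊤
  rw [top_inf_eq, finrank_top, finrank_fintype_fun_eq_card] at h
  rcases H.triple h3 with h1 | h1 | h1 | ⟨β', D, hD, h1⟩
  · omega
  · omega
  · omega
  · have e : sh (sh v β (s • d)) β' (s • d) = sh v ((β + β') * s) d := by
      ext f
      simp only [sh_apply, Derivation.smul_apply, smul_eq_mul]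
      ring
    exact Or.inr (Or.inr (Or.inr ⟨_, D, e ▸ hD, by omega⟩))

end Pool.Agent.Lib.MP_13404a_ag.UB
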