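import Pool.Agent.Lib.MP_13404a_ag.UB.Num
import Pool.Agent.Lib.MP_13404a_ag.UB.St1
import Pool.Agent.Lib.MP_13404a_ag.UB.St4
import Pool.Agent.Lib.MP_13404a_ag.UB.St5
import Pool.Agent.Lib.MP_13404a_ag.UB.Tri

/-!
The bound for systems in coordinates.
-/

open Module Submodule Function Finsupp
open scoped IntermediateField Polynomial

namespace Pool.Agent.Lib.MP_13404a_ag.UB

open Pool.Agent.Lib.MP_15f242_ag

universe u

variable {k K : Type u} [Field k] [CharZero k] [Field K] [Algebra k K] [FF k K]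
  {ι : Type} [Fintype ι] {δ : Derivation ℤ k k} {d : Derivation k K K} {v : Derivation ℤ K K}
  {c : K} {A F : (ι → k) →ₗ[k] K} {κ D : Div k K}

theorem Sys.case_two (S : Sys δ d v c A F) (hD : IsD v D) (h : degree D + 2 ≤ gn k K) :
    4 * Fintype.card ι ≤ 3 * gn k K + 12 := by
  obtain ⟨κ, hκ⟩ := exists_isK S.d0
  have hq := S.finrank_le ⊤
  rw [finrank_top, finrank_fintype_fun_eq_card] at hq
  have h1 : (1 : K) ∈ H0 (OD D) := mem_L.2 fun P => fil_of_mem (one_mem _) (hD.nonneg P)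
  have h2 := ll_mono hD.nonneg
  rw [ll_zero] at h2
  obtain ⟨r, hr⟩ := Nat.exists_eq_add_of_le' h2
  have h3 := S.card_le_ker hD
  rcases Nat.eq_zero_or_pos r with rfl | r1
  · have h4 := S.cdf (W := ⊤) (fun _ _ => trivial) fun a _ => by
      obtain ⟨e, he⟩ := (finrank_eq_one_iff_of_nonzero' (⟨1, h1⟩ : H0 (OD D)) (by simp)).1 hr
        ⟨_, S.F_mem hD a⟩
      rw [show F a = e • (1 : K) from (congrArg Subtype.val he).symm]
      simp
    rw [finrank_top, finrank_fintype_fun_eq_card] at h4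
    omega
  have h4 := degree_mono hD.nonneg
  rw [map_zero] at h4
  obtain ⟨N, hN⟩ := Int.eq_ofNat_of_zero_le h4
  have h5 := S.card_le_ll hκ hD
  have h6 := hκ.rr D
  refine num_two (δ := N) hq r1 (by omega) (by omega) (fun j hj => ?_) ?_
  · obtain ⟨m, h7, h8⟩ := S.step4 hD hr j (by rw [hN]; zify at hj; omega)
    rw [hN] at h8
    refine ⟨m, h7, ?_⟩
    zify at h8 ⊢
    omega
  · obtain ⟨n, h7, h8, -⟩ | ⟨E, _, h7, h8, n, h9, h10⟩ := series le_rfl h1 one_ne_zero hr r1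
    · exact Or.inl ⟨n, by omega, h8⟩
    · obtain ⟨e, h11, h12⟩ := S.step5 (E := E) (r := r)
        (fun a => by simpa using h8 _ (S.F_mem hD a)) (by omega)
      exact Or.inr ⟨_, n, _, e, h7, by rw [hN] at h9; exact_mod_cast h9, h10, h11, h12⟩

theorem Sys.bound (S : Sys δ d v c A F) : 4 * Fintype.card ι ≤ 3 * gn k K + 12 := by
  by_cases h0 : Fintype.card ι < 2
  · omega
  obtain ⟨κ, hκ⟩ := exists_isK S.d0
  have hq := S.finrank_le ⊤
  rw [finrank_top, finrank_fintype_fun_eq_card] at hq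
  obtain ⟨β, D, hD, h1, h2⟩ := S.step1 hκ (not_lt.1 h0)
  by_cases h3 : degree D + 2 ≤ gn k K
  · exact (S.shift β).case_two hD h3
  obtain ⟨a, ha⟩ := Nat.exists_eq_add_of_le' h1
  obtain ⟨N, hN⟩ := Int.eq_ofNat_of_zero_le (degree_nonneg h1)
  have h4 := (S.shift β).card_le_ll hκ hD
  have h5 := hκ.rr D
  have h6 := hN
  rw [map_sub, hκ.degree_eq] at h6
  refine num_one (N := N) (a := a) hq (by omega) (by omega) (by omega)
    ((Nat.eq_zero_or_pos a).imp_right fun a1 => ?_)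
  obtain ⟨s, s0, hs⟩ := exists_mem_L h1
  obtain ⟨n, h7, h8, -⟩ | ⟨E, _, h7, -, n, h9, h10⟩ := series le_rfl ((mem_L' s0).2 hs) s0 ha a1
  · exact Or.inl ⟨a1, n, by omega, h8⟩
  refine Or.inr ⟨_, n, _, h7, by rw [hN] at h9; exact_mod_cast h9, h10, S.double, fun h => ?_⟩
  refine (S.triple h).imp_right (Or.imp_right (Or.imp_right ?_))
  rintro ⟨β', D', hD', h11⟩
  by_cases h12 : degree D' + 2 ≤ gn k K
  · exact Or.inr ((S.shift β').case_two hD' h12)
  · omega

end Pool.Agent.Lib.MP_13404a_ag.UB
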