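import Pool.Agent.Lib.MP_13404a_ag.Defs

/-!
Closed regular differentials on the total space of a family of curves, through function fields.
-/

namespace Pool.Agent.Lib.MP_13404a_ag.UB

variable (R k K : Type) [Field R] [Field k] [Field K] [Algebra R K] [Algebra k K]

/-- Differentials of `K / R` that are regular at every valuation ring of `K` containing `k`. -/
noncomputable def regAlong : Submodule R Ω[K⁄R] :=
  ⨅ (O : Subalgebra k K) (_ : ∀ x : K, x ∈ O ∨ x⁻¹ ∈ O),
    Submodule.span R {ω | ∃ f ∈ O, ∃ g ∈ O, ω = f • KaehlerDifferential.D R K g}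

variable {R K} in
/-- `dω (u, v) = u (ω v) - v (ω u) - ω [u, v]` vanishes for all vector fields `u`, `v`. -/
def Closed (ω : Ω[K⁄R]) : Prop :=
  ∀ u v : Derivation R K K, u (v.liftKaehlerDifferential ω) - v (u.liftKaehlerDifferential ω) =
    ⁅u, v⁆.liftKaehlerDifferential ω

/-- `K` is generated over `k` by the function field of a complex curve. -/
def Isotrivial [Algebra ℂ K] : Prop :=
  ∃ (C : Curve) (ι : C.K →ₐ[ℂ] K), IntermediateField.adjoin k (Set.range ι) = ⊤

end Pool.Agent.Lib.MP_13404a_ag.UB
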