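import Pool.Agent.Lib.MP_13404a_ag.UB.CaC
import Pool.Agent.Lib.MP_13404a_ag.UB.CanB

/-!
Points that move independently over the field of definition of the curve.
-/

open Module Submodule Function Finsupp
open scoped IntermediateField Polynomial

namespace Pool.Agent.Lib.MP_13404a_ag.UB

open Pool.Agent.Lib.MP_15f242_ag

universe u

/-- The points `P j` with uniformisers `π j` are moved independently by the derivations `w i`, which
are regular everywhere. -/
structure Gp {k K : Type u} [Field k] [Field K] [Algebra k K] [FF k K] {z : ℕ}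
    (P : Fin z → Pt k K) (w : Fin z → Derivation ℤ K K) (π : Fin z → K) : Prop where
  inj : Injective P
  reg : ∀ i (Q : Pt k K), ∀ f ∈ Q.1, w i f ∈ Q.1
  unif : ∀ j, po (P j) (π j) = -1
  dual : ∀ i j, w i (π j) = if i = j then 1 else 0

variable {k K : Type} [Field k] [CharZero k] [Field K] [Algebra k K] [FF k K]

/-- `k₀ = IntermediateField.adjoin ℚ S` is countable, so a transcendence basis of `k` over `k₀` is
infinite (an algebraic extension of a countable field is countable); `exists_dual` over `k₀`,
`restrictScalars ℤ`. -/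
lemma exists_dual_const [Uncountable k] (S : Finset k) (z : ℕ) :
    ∃ (c : Fin z → k) (D : Fin z → Derivation ℤ k k), (∀ i, ∀ s ∈ S, D i s = 0) ∧
      ∀ i j, D i (c j) = if i = j then 1 else 0 := by
  classical
  let k₀ := IntermediateField.adjoin ℚ (S : Set k)
  obtain ⟨s, hs⟩ := exists_isTranscendenceBasis k₀ k
  have hinf : Infinite s := by
    by_contra h
    rw [not_infinite_iff_finite] at h
    have h0 : Cardinal.mk k₀ ≤ Cardinal.aleph0 := by
      refine (IntermediateField.cardinalMk_adjoin_le ℚ (S : Set k)).trans ?_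
      simp
    have h1 : Cardinal.mk (Algebra.adjoin k₀ (Set.range ((↑) : s → k))) ≤ Cardinal.aleph0 := by
      refine (Algebra.cardinalMk_adjoin_le k₀ _).trans ?_
      exact max_le (max_le h0 (Cardinal.lt_aleph0_of_finite _).le) le_rfl
    have := hs.isAlgebraic
    have h2 := (Algebra.IsAlgebraic.cardinalMk_le_max
      (Algebra.adjoin k₀ (Set.range ((↑) : s → k))) k).trans (max_le h1 le_rfl)
    exact absurd h2 (not_le.2 Cardinal.aleph0_lt_mk)
  obtain ⟨Dd, hD⟩ := exists_dual hs
  let e : Fin z ↪ s := (Fin.valEmbedding).trans (Infinite.natEmbedding s)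
  refine ⟨fun j => e j, fun i => (Dd (e i)).restrictScalars ℤ, fun i t ht => ?_, fun i j => ?_⟩
  · exact (Dd (e i)).map_algebraMap ⟨t, IntermediateField.subset_adjoin ℚ _ ht⟩
  · simpa using hD (e i) (e j)

omit [CharZero k] in
lemma der_eval_gen (D : Derivation ℤ K K) (q : K[X]) (h : ∀ n, D (q.coeff n) = 0) (f : K) :
    D (q.eval f) = q.derivative.eval f * D f := by
  rw [Polynomial.derivative_eval, Polynomial.eval_eq_sum, Polynomial.sum, Polynomial.sum, map_sum,
    Finset.sum_mul]
  refine Finset.sum_congr rfl fun n _ => ?_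
  simp [h, D.leibniz_pow]
  ring

/-- A finite set of constants over which the curve is defined. For each member `f` of a basis of `K`
over `k⟮x⟯` take `Ψ` from `exists_sep`; its coefficients are polynomials in `x`, and `S` collects
their coefficients. -/
lemma exists_def {x : K} (hx : Transcendental k x) : ∃ S : Finset k, ∀ w : Derivation ℤ K K,
    w x = 0 → (∀ s ∈ S, w (algebraMap k K s) = 0) →
      IntermediateField.adjoin k {f | w f = 0} = ⊤ := by
  classical
  have := FF.fin x hx
  let b := Module.finBasis k⟮x⟯ K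
  choose Ψ h1 h2 using fun i => UB.exists_sep hx (b i)
  have h3 : ∀ a : Algebra.adjoin k {x}, ∃ p : k[X], Polynomial.aeval x p = a := fun a =>
    (Algebra.adjoin_singleton_eq_range_aeval k x).le a.2
  choose p hp using h3
  refine ⟨Finset.univ.biUnion fun i => (Ψ i).support.biUnion fun n => (p ((Ψ i).coeff n)).coeffs,
    fun w hw hS => ?_⟩
  have h4 : ∀ i, w (b i) = 0 := fun i => by
    have h5 : ∀ n, w (((Ψ i).map (algebraMap _ K)).coeff n) = 0 := fun n => by
      rw [Polynomial.coeff_map]
      by_cases hn : n ∈ (Ψ i).support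
      swap
      · rw [Polynomial.notMem_support_iff.1 hn, map_zero, map_zero]
      have h6 := der_eval_gen w ((p ((Ψ i).coeff n)).map (algebraMap k K)) (fun m => by
        rw [Polynomial.coeff_map]
        by_cases hm : (p ((Ψ i).coeff n)).coeff m = 0
        · rw [hm, map_zero, map_zero]
        · exact hS _ (Finset.mem_biUnion.2 ⟨i, Finset.mem_univ _,
            Finset.mem_biUnion.2 ⟨n, hn, Polynomial.coeff_mem_coeffs hm⟩⟩)) x
      rw [hw, mul_zero, Polynomial.eval_map_algebraMap, hp] at h6
      exact h6
    have h7 := der_eval_gen w _ h5 (b i)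
    rw [Polynomial.derivative_map, Polynomial.eval_map_algebraMap, Polynomial.eval_map_algebraMap,
      h1, map_zero] at h7
    exact (mul_eq_zero.1 h7.symm).resolve_left (h2 i)
  refine eq_top_iff.2 fun y _ => ?_
  have h8 : k⟮x⟯ ≤ IntermediateField.adjoin k {f | w f = 0} :=
    IntermediateField.adjoin.mono k _ _ (Set.singleton_subset_iff.2 hw)
  rw [← b.sum_repr y]
  exact sum_mem fun i _ => mul_mem (h8 (b.repr y i).2) (IntermediateField.subset_adjoin k _ (h4 i))

/-- `w i` from `exists_der_ext`, `π j = c j - x`, `P j` a pole of `(π j)⁻¹` (`exists_pole`). For `reg`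
use `der_mem_of_stable` with the set of `f ∈ Q.1` killed by `w i` (for a constant `f` of `w i`
either `f` or `f⁻¹` is in `Q.1`). If `po (P j) (π j) ≤ -2` then `π j` is a product of two elements
of `fil (P j) (-1)` and `1 = w j (π j) ∈ fil (P j) (-1)`. If `P i = P j` the constant `c i - c j`
vanishes at this point (`const_eq_zero`). -/
theorem exists_gp [Uncountable k] (z : ℕ) : ∃ (P : Fin z → Pt k K)
    (w : Fin z → Derivation ℤ K K) (π : Fin z → K), Gp P w π := by
  obtain ⟨x, hx⟩ := FF.ex (k := k) (K := K)
  obtain ⟨S, hS⟩ := exists_def hx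
  obtain ⟨c, D, hD0, hD⟩ := exists_dual_const S z
  choose w hw hw' using fun i => exists_der_ext hx (D i)
  have ht : ∀ j, Transcendental k (algebraMap k K (c j) - x)⁻¹ := fun j h => hx <| by
    have h1 := (isAlgebraic_algebraMap (A := K) (c j)).sub (IsAlgebraic.inv_iff.1 h)
    rwa [sub_sub_cancel] at h1
  choose P hP using fun j => exists_pole (ht j)
  have hreg : ∀ i (Q : Pt k K), ∀ f ∈ Q.1, w i f ∈ Q.1 := fun i Q f hf => by
    refine der_mem_of_stable (S := {g | g ∈ Q.1 ∧ w i g = 0}) (fun a => ⟨_, hw' i a⟩) ?_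
      (fun g hg => hg.1) (fun g hg => by rw [hg.2]; exact zero_mem _) hf
    have h1 := hS (w i) (hw i) fun s hs => by rw [hw', hD0 i s hs, map_zero]
    refine eq_top_iff.2 (h1.ge.trans (IntermediateField.adjoin_le_iff.2 fun g hg => ?_))
    rcases Q.2.2 g with h | h
    · exact IntermediateField.subset_adjoin k _ ⟨h, hg⟩
    · refine (inv_mem_iff (x := g)).1 (IntermediateField.subset_adjoin k _ ⟨h, ?_⟩)
      rw [(w i).leibniz_inv, show w i g = 0 from hg, smul_zero]
  have hdual : ∀ i j, w i (algebraMap k K (c j) - x) = if i = j then 1 else 0 := fun i j => by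
    rw [map_sub, hw, sub_zero, hw', hD]
    split_ifs <;> simp
  have hneg : ∀ j, po (P j) (algebraMap k K (c j) - x) ≤ -1 := fun j => by
    have := hP j
    rw [mem_iff_po, po_inv] at this
    omega
  refine ⟨P, w, fun j => algebraMap k K (c j) - x, fun i j e => ?_, hreg, fun j => ?_, hdual⟩
  · by_contra hij
    have h1 : algebraMap k K (c i - c j) ∈ fil (P i) (-1) := by
      have h2 := sub_mem (mem_fil_of (hneg i)) (mem_fil_of (e ▸ hneg j : po (P i) _ ≤ -1))
      rwa [sub_sub_sub_cancel_right, ← map_sub] at h2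
    have h3 := hD i j
    rw [← sub_eq_zero.1 (const_eq_zero h1), hD, if_pos rfl, if_neg hij] at h3
    exact one_ne_zero h3
  · by_contra hne
    have h0 : algebraMap k K (c j) - x ≠ 0 := fun h => by
      have := hneg j
      rw [h] at this
      simp [po] at this
    obtain ⟨t, t0, ht⟩ := exists_po (P j) (-1)
    have h1 : t ∈ fil (P j) (-1) := mem_fil_of ht.le
    have h2 : t⁻¹ * (algebraMap k K (c j) - x) ∈ fil (P j) (-1) := mem_fil_of (by
      rw [po_mul _ (inv_ne_zero t0) h0, po_inv]
      have := hneg j
      omega)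
    have h3 := hdual j j
    rw [← mul_inv_cancel_left₀ t0 (algebraMap k K (c j) - x), (w j).leibniz, if_pos rfl] at h3
    have h4 : (1 : K) ∈ fil (P j) (-1) := h3 ▸
      add_mem (fil_mul h1 (hreg j _ _ (mem_of_fil h2 (by omega))))
        (fil_mul h2 (hreg j _ _ (mem_of_fil h1 (by omega))))
    rw [mem_fil one_ne_zero, po_one] at h4
    omega

end Pool.Agent.Lib.MP_13404a_ag.UB
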