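import Pool.Agent.Lib.MP_15f242_ag.Cliff

/-!
Derivations of a function field and their behaviour at a point.
-/

open Polynomial
open scoped IntermediateField

namespace Pool.Agent.Lib.MP_13404a_ag.UB

open Pool.Agent.Lib.MP_15f242_ag

universe u

variable {k K : Type u} [Field k] [CharZero k] [Field K] [Algebra k K]

lemma exists_sep_aux {A : Type*} [CommRing A] [IsDomain A] [CharZero A] [Algebra A K]
    [FaithfulSMul A K] (f : K) (n : ℕ) : ∀ Φ : A[X], Φ.natDegree ≤ n → Φ ≠ 0 → aeval f Φ = 0 →
      ∃ Ψ : A[X], aeval f Ψ = 0 ∧ aeval f (derivative Ψ) ≠ 0 := by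
  induction n with
  | zero =>
    intro Φ h1 h2 h3
    rw [eq_C_of_natDegree_le_zero h1] at h2 h3
    simp at h2 h3
    exact absurd h3 h2
  | succ n ih =>
    intro Φ h1 h2 h3
    by_cases h4 : aeval f (derivative Φ) = 0
    swap
    · exact ⟨Φ, h3, h4⟩
    by_cases h5 : derivative Φ = 0
    · exact ih Φ (by rw [derivative_eq_zero.1 h5]; omega) h2 h3
    · exact ih _ ((natDegree_derivative_le Φ).trans (by omega)) h5 h4

lemma der_aeval {M : Type*} [AddCommGroup M] [Module K M] (D : Derivation ℤ K M)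
    {A : Subalgebra k K} (h : ∀ a ∈ A, D a = 0) (Φ : A[X]) (f : K) :
    D (aeval f Φ) = aeval f (derivative Φ) • D f := by
  induction Φ using Polynomial.induction_on' with
  | add p q hp hq => simp only [map_add, hp, hq, add_smul]
  | monomial n a =>
    simp [derivative_monomial, h a a.2, mul_smul, ← Nat.cast_smul_eq_nsmul K]

variable [FF k K]

lemma alg_adjoin {w : K} (hw : Transcendental k w) (f : K) :
    IsAlgebraic (Algebra.adjoin k {w}) f := by
  have := FF.fin w hw
  open scoped IntermediateField.algebraAdjoinAdjoin in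
  exact (Algebra.IsAlgebraic.trans (Algebra.adjoin k {w}) k⟮w⟯ K).isAlgebraic f

lemma exists_sep {w : K} (hw : Transcendental k w) (f : K) :
    ∃ Ψ : (Algebra.adjoin k {w})[X], aeval f Ψ = 0 ∧ aeval f (derivative Ψ) ≠ 0 := by
  have : CharZero (Algebra.adjoin k {w}) :=
    charZero_of_injective_algebraMap (algebraMap k _).injective
  obtain ⟨Φ, h1, h2⟩ := alg_adjoin hw f
  exact exists_sep_aux f _ Φ le_rfl h1 h2

/-- A derivation that kills the constants and one nonconstant function vanishes. -/
lemma der_eq_zero {M : Type*} [AddCommGroup M] [Module K M] (D : Derivation ℤ K M)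
    (h0 : ∀ c, D (algebraMap k K c) = 0) {w : K} (hw : Transcendental k w) (h : D w = 0)
    (f : K) : D f = 0 := by
  obtain ⟨Ψ, h1, h2⟩ := exists_sep hw f
  have h3 : ∀ a ∈ Algebra.adjoin k {w}, D a = 0 := fun a ha => by
    induction ha using Algebra.adjoin_induction with
    | mem x hx => rwa [hx]
    | algebraMap c => exact h0 c
    | add x y _ _ hx hy => rw [map_add, hx, hy, add_zero]
    | mul x y _ _ hx hy => rw [D.leibniz, hx, hy, smul_zero, smul_zero, add_zero]
  have := der_aeval D h3 Ψ f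
  rw [h1, map_zero] at this
  exact (smul_eq_zero.1 this.symm).resolve_left h2

variable {P : Pt k K}

lemma mul_fil {a b : K} {n : ℤ} (ha : a ∈ P.1) (hb : b ∈ fil P n) : a * b ∈ fil P n :=
  (fil P n).smul_mem (⟨a, ha⟩ : P.1) hb

lemma fil_mul {a b : K} {n : ℤ} (hb : b ∈ fil P n) (ha : a ∈ P.1) : b * a ∈ fil P n :=
  mul_comm a b ▸ mul_fil ha hb

lemma mem_of_fil {a : K} {n : ℤ} (h : a ∈ fil P n) (hn : n ≤ 0) : a ∈ P.1 :=
  mem_fil_zero.1 (fil_mono P hn h)

lemma fil_of_mem {a : K} {n : ℤ} (h : a ∈ P.1) (hn : 0 ≤ n) : a ∈ fil P n :=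
  fil_mono P hn (mem_fil_zero.2 h)

lemma const_eq_zero {c : k} (h : algebraMap k K c ∈ fil P (-1)) : c = 0 := by
  by_contra hc
  rw [mem_fil (by simpa using hc), po_const] at h
  omega

lemma pow_sub_fil {a b : K} {n : ℤ} (ha : a ∈ P.1) (hb : b ∈ P.1) (h : a - b ∈ fil P n) (i : ℕ) :
    a ^ i - b ^ i ∈ fil P n := by
  rw [← Commute.geom_sum₂_mul (Commute.all a b)]
  exact mul_fil (sum_mem fun j _ => mul_mem (pow_mem ha _) (pow_mem hb _)) h

lemma trans_of_po {f : K} (h : po P f ≠ 0) : Transcendental k f := fun ha => by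
  obtain ⟨c, rfl⟩ := mem_range_of_alg ha
  exact h (po_const P c)

section

variable {π : K} (h0 : π ≠ 0) (hπ : po P π = -1) {D : Derivation ℤ K K}
  (hc : ∀ c, D (algebraMap k K c) ∈ P.1) (hD : D π ∈ P.1)

include hπ in
lemma adjoin_le_pt : Algebra.adjoin k {π} ≤ P.1 :=
  Algebra.adjoin_le (by simpa using mem_iff_po.2 (by omega))

include h0 hπ in
lemma exists_approx {f : K} (hf : f ∈ P.1) (n : ℕ) :
    ∃ p ∈ Algebra.adjoin k {π}, f - p ∈ fil P (-n) := by
  induction n with
  | zero => exact ⟨0, zero_mem _, by simpa [mem_fil_zero] using hf⟩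
  | succ n ih =>
    obtain ⟨p, h1, h2⟩ := ih
    obtain ⟨c, h3⟩ := exists_res (pow_ne_zero n h0) (by rw [po_pow, hπ]; ring) h2
    refine ⟨p + c • π ^ n, add_mem h1 (Subalgebra.smul_mem _
      (pow_mem (Algebra.self_mem_adjoin_singleton k π) n) c), ?_⟩
    rw [← sub_sub]
    convert h3 using 2
    push_cast
    ring

include hπ hc hD in
lemma der_adjoin {a : K} (ha : a ∈ Algebra.adjoin k {π}) : D a ∈ P.1 := by
  induction ha using Algebra.adjoin_induction with
  | mem x hx => rwa [hx]
  | algebraMap c => exact hc c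
  | add x y _ _ hx hy => rw [map_add]; exact add_mem hx hy
  | mul x y h1 h2 hx hy =>
    rw [D.leibniz]
    exact add_mem (mul_mem (adjoin_le_pt hπ h1) hy) (mul_mem (adjoin_le_pt hπ h2) hx)

include h0 hπ hc hD in
lemma der_adjoin_fil (n : ℕ) : ∀ q : k[X], aeval π q ∈ fil P (-n) →
    D (aeval π q) ∈ fil P (1 - n) := by
  induction n with
  | zero =>
    exact fun q _ => fil_of_mem (der_adjoin hπ hc hD (aeval_mem_adjoin_singleton k π)) (by simp)
  | succ n ih =>
    intro q hq
    have e : aeval π q = π * aeval π q.divX + algebraMap k K (q.coeff 0) := by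
      conv_lhs => rw [← X_mul_divX_add q]
      simp only [map_add, map_mul, aeval_X, aeval_C]
    have h1 : π ∈ fil P (-1) := mem_fil_of hπ.le
    have h2 : q.coeff 0 = 0 := by
      refine const_eq_zero (P := P) ?_
      rw [← add_sub_cancel_left (π * aeval π q.divX) (algebraMap k K _), ← e]
      exact sub_mem (fil_mono P (by push_cast; omega) hq)
        (fil_mul h1 (adjoin_le_pt hπ (aeval_mem_adjoin_singleton k π)))
    rw [h2, map_zero, add_zero] at e
    have h3 : aeval π q.divX ∈ fil P (-n) := by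
      rw [← mul_mem_fil_iff h0, ← e, hπ]
      convert hq using 2
      push_cast
      ring
    rw [e, D.leibniz, smul_eq_mul, smul_eq_mul]
    refine add_mem ?_ ?_
    · convert mul_mem_fil h1 (ih _ h3) using 2
      push_cast
      ring
    · convert fil_mul h3 hD using 2
      push_cast
      ring

include hπ hc hD in
lemma der_diff (Φ : (Algebra.adjoin k {π})[X]) {f p : K} (hf : f ∈ P.1) (hp : p ∈ P.1) {n : ℤ}
    (h : f - p ∈ fil P n) : aeval f Φ - aeval p Φ ∈ fil P n ∧
      (D (aeval f Φ) - aeval f (derivative Φ) * D f) -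
        (D (aeval p Φ) - aeval p (derivative Φ) * D p) ∈ fil P n := by
  induction Φ using Polynomial.induction_on' with
  | add a b ha hb =>
    refine ⟨?_, ?_⟩
    · convert add_mem ha.1 hb.1 using 1
      simp only [map_add]
      ring
    · convert add_mem ha.2 hb.2 using 1
      simp only [map_add]
      ring
  | monomial i a =>
    refine ⟨?_, ?_⟩
    · convert mul_fil (adjoin_le_pt hπ a.2) (pow_sub_fil hf hp h i) using 1
      simp [mul_sub]
    · convert mul_fil (der_adjoin hπ hc hD a.2) (pow_sub_fil hf hp h i) using 1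
      simp [derivative_monomial]
      ring

include h0 hπ hc hD in
/-- A derivation that is regular on the constants and on a uniformiser is regular. -/
lemma der_mem {f : K} (hf : f ∈ P.1) : D f ∈ P.1 := by
  obtain ⟨Φ, h1, h2⟩ := exists_sep (trans_of_po (P := P) (f := π) (by omega)) f
  set n := (-po P (aeval f (derivative Φ))).toNat + 1 with hn
  obtain ⟨p, h3, h4⟩ := exists_approx h0 hπ hf n
  have hp := adjoin_le_pt hπ h3
  obtain ⟨h5, h6⟩ := der_diff hπ hc hD Φ hf hp h4
  have h7 := (der_diff hπ hc hD (derivative Φ) hf hp h4).1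
  have h8 : aeval p Φ ∈ Algebra.adjoin k {π} := by
    have : aeval p Φ = algebraMap (Algebra.adjoin k {π}) K (aeval ⟨p, h3⟩ Φ) := by
      rw [← aeval_algebraMap_apply]; rfl
    rw [this]
    exact Subtype.property _
  obtain ⟨q, hq⟩ := (Algebra.adjoin_singleton_eq_range_aeval k π).le h8
  have hq' : aeval π q = aeval p Φ := hq
  rw [h1, zero_sub, neg_mem_iff, ← hq'] at h5
  have h9 := der_adjoin_fil h0 hπ hc hD n q h5
  rw [hq'] at h9
  have hDp := der_adjoin hπ hc hD h3
  have h10 : aeval f (derivative Φ) * (D f - D p) ∈ fil P (1 - n) := by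
    have := sub_mem (sub_mem (neg_mem (fil_mono P (show -(n : ℤ) ≤ 1 - n by omega) h6)) h9)
      (fil_mul (fil_mono P (show -(n : ℤ) ≤ 1 - n by omega) h7) hDp)
    convert this using 1
    rw [h1, map_zero]
    ring
  have h11 : D f - D p ∈ fil P 0 := by
    rw [← mul_mem_fil_iff h2]
    refine fil_mono P ?_ h10
    rw [hn]
    push_cast
    omega
  simpa using add_mem (mem_fil_zero.1 h11) hDp

end

/-- `m` is the order of the derivation `D` at `P`. -/
structure Ord (P : Pt k K) (D : K → K) (m : ℤ) : Prop where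
  mem : ∀ f ∈ P.1, D f ∈ fil P m
  po_eq : ∀ f, po P f ≠ 0 → D f ≠ 0 ∧ po P (D f) = po P f + 1 + m

lemma ord_of {π : K} (h0 : π ≠ 0) (hπ : po P π = -1) {D : Derivation ℤ K K} (hD : D π ≠ 0)
    (hc : ∀ c, D (algebraMap k K c) ∈ fil P (po P (D π))) : Ord P D (po P (D π)) := by
  have key : ∀ f, f ∈ P.1 → D f ∈ fil P (po P (D π)) := fun f hf => by
    have := der_mem h0 hπ (D := (D π)⁻¹ • D) (fun c => by
      rw [← mem_fil_zero, ← mul_mem_fil_iff hD]
      simpa [hD] using hc c) (by simp [hD]) hf
    rw [← mem_fil_zero, ← mul_mem_fil_iff hD] at this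
    simpa [hD] using this
  refine ⟨key, fun f hf => ?_⟩
  have f0 : f ≠ 0 := fun e => hf (by simp [e, po])
  have p0 : π ^ (-po P f) ≠ 0 := zpow_ne_zero _ h0
  have hz : ∀ n : ℤ, po P (π ^ n) = -n := fun n => by
    rw [po, map_zpow₀, WithZero.log_zpow, ← po, hπ]; simp
  set n := -po P f with hn
  set u := f * (π ^ n)⁻¹ with hu
  have u0 : u ≠ 0 := mul_ne_zero f0 (inv_ne_zero p0)
  have hu0 : po P u = 0 := by rw [hu, po_mul P f0 (inv_ne_zero p0), po_inv, hz]; omega
  have e : f = u * π ^ n := by rw [hu, inv_mul_cancel_right₀ p0]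
  have n0 : (n : K) ≠ 0 := by
    have : CharZero K := charZero_of_injective_algebraMap (algebraMap k K).injective
    exact Int.cast_ne_zero.2 (by omega)
  have e2 : D f = π ^ n * D u + u * (n * (π ^ (n - 1) * D π)) := by
    conv_lhs => rw [e]
    rw [D.leibniz, D.leibniz_zpow]
    simp only [smul_eq_mul, zsmul_eq_mul]
    ring
  have a0 : π ^ (n - 1) * D π ≠ 0 := mul_ne_zero (zpow_ne_zero _ h0) hD
  have b0 : u * (n * (π ^ (n - 1) * D π)) ≠ 0 := mul_ne_zero u0 (mul_ne_zero n0 a0)
  have hb : po P (u * (n * (π ^ (n - 1) * D π))) = po P f + 1 + po P (D π) := by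
    have : po P (n : K) = 0 := by simpa using po_const P (n : k)
    rw [po_mul P u0 (mul_ne_zero n0 a0), po_mul P n0 a0, po_mul P (zpow_ne_zero _ h0) hD, hz, hu0,
      this]
    omega
  by_cases hDu : D u = 0
  · rw [e2, hDu, mul_zero, zero_add]
    exact ⟨b0, hb⟩
  have h1 := (mem_fil hDu).1 (key u (mem_iff_po.2 hu0.le))
  have := po_add (P := P) (mul_ne_zero p0 hDu) b0 (by rw [hb, po_mul P p0 hDu, hz]; omega)
  rw [← e2, hb] at this
  exact this

lemma exists_ord (P : Pt k K) {D : Derivation k K K} {w : K} (hw : D w ≠ 0) :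
    ∃ m, Ord P D m := by
  obtain ⟨π, h0, hπ⟩ := exists_po P (-1)
  exact ⟨_, ord_of h0 hπ (D := D.restrictScalars ℤ) (fun h => hw (der_eq_zero (D.restrictScalars ℤ)
    D.map_algebraMap (trans_of_po (P := P) (by omega)) h w)) fun c => by simp⟩

/-- A derivation that preserves a ring of regular functions with fraction field `K` is regular. -/
lemma der_mem_of_stable {D : Derivation ℤ K K} (hc : ∀ c, ∃ c', D (algebraMap k K c) =
    algebraMap k K c') {S : Set K} (h1 : IntermediateField.adjoin k S = ⊤) (h2 : S ⊆ P.1)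
    (h3 : ∀ s ∈ S, D s ∈ Algebra.adjoin k S) {f : K} (hf : f ∈ P.1) : D f ∈ P.1 := by
  obtain ⟨π, h0, hπ⟩ := exists_po P (-1)
  have hc' : ∀ c, D (algebraMap k K c) ∈ P.1 := fun c => by
    obtain ⟨c', h⟩ := hc c
    exact h ▸ P.1.algebraMap_mem c'
  refine der_mem h0 hπ hc' (by_contra fun hD => ?_) hf
  have D0 : D π ≠ 0 := fun e => hD (e ▸ zero_mem _)
  rw [mem_iff_po, not_le] at hD
  have ho := ord_of h0 hπ D0 fun c => fil_of_mem (hc' c) hD.le
  have hR : Algebra.adjoin k S ≤ P.1 := Algebra.adjoin_le h2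
  have hs : ∀ a ∈ Algebra.adjoin k S, D a ∈ Algebra.adjoin k S := fun a ha => by
    induction ha using Algebra.adjoin_induction with
    | mem x hx => exact h3 x hx
    | algebraMap c =>
      obtain ⟨c', h⟩ := hc c
      exact h ▸ Subalgebra.algebraMap_mem _ c'
    | add x y _ _ hx hy => rw [map_add]; exact add_mem hx hy
    | mul x y h1 h2 hx hy => rw [D.leibniz]; exact add_mem (mul_mem h1 hy) (mul_mem h2 hx)
  have key : ∀ n : ℕ, ∀ a ∈ Algebra.adjoin k S, po P a = -n → po P (D π) + 1 ∣ po P a := by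
    intro n
    induction n using Nat.strong_induction_on with
    | _ n ih =>
    intro a ha hn
    by_cases e : po P a = 0
    · rw [e]; exact dvd_zero _
    have h4 := (ho.po_eq a e).2
    have h5 := mem_iff_po.1 (hR (hs a ha))
    have := ih (-po P (D a)).toNat (by omega) _ (hs a ha) (by omega)
    rw [h4, add_assoc, add_comm 1] at this
    exact (dvd_add_left dvd_rfl).1 this
  have key' : ∀ a ∈ Algebra.adjoin k S, po P (D π) + 1 ∣ po P a := fun a ha =>
    key (-po P a).toNat a ha (by have := mem_iff_po.1 (hR ha); omega)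
  obtain ⟨a, ha, b, hb, e⟩ := IntermediateField.mem_adjoin_iff_div.1
    (h1.ge (IntermediateField.mem_top (x := π)))
  have a0 : a ≠ 0 := fun h => h0 (by simp [e, h])
  have b0 : b ≠ 0 := fun h => h0 (by simp [e, h])
  have h6 := dvd_sub (key' b hb) (key' a ha)
  rw [e, div_eq_mul_inv, po_mul P a0 (inv_ne_zero b0), po_inv] at hπ
  rw [show po P b - po P a = 1 by omega] at h6
  have := Int.le_of_dvd one_pos h6
  omega

lemma po_zpow (P : Pt k K) (x : K) (n : ℤ) : po P (x ^ n) = n * po P x := by
  rw [po, map_zpow₀, WithZero.log_zpow, ← po]; simp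

omit [FF k K] in
lemma exists_extend {R A K : Type*} [CommRing R] [CommRing A] [IsDomain A] [CharZero A] [Field K]
    [Algebra R A] [Algebra A K] [Algebra R K] [IsScalarTower R A K] [FaithfulSMul A K]
    [Algebra.IsAlgebraic A K] (d : Derivation R A K) :
    ∃ D : Derivation R K K, ∀ a, D (algebraMap A K a) = d a := by
  let := FractionRing.liftAlgebra A K
  have := FractionRing.isScalarTower_liftAlgebra A K
  have : Algebra.IsAlgebraic (FractionRing A) K :=
    Algebra.IsAlgebraic.extendScalars (FaithfulSMul.algebraMap_injective A _)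
  have := Algebra.FormallyEtale.of_isSeparable (FractionRing A) K
  have := Algebra.FormallyEtale.comp A (FractionRing A) K
  have h := KaehlerDifferential.isBaseChange_of_formallyEtale R A K
  refine ⟨(h.lift d.liftKaehlerDifferential).compDer (KaehlerDifferential.D R K), fun a => ?_⟩
  have := h.lift_eq d.liftKaehlerDifferential (KaehlerDifferential.D R A a)
  simpa using this

lemma alg_poly {w : K} (hw : Transcendental k w) :
    letI : Algebra k[X] K := (aeval w).toAlgebra
    Algebra.IsAlgebraic k[X] K := by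
  let : Algebra k[X] K := (aeval w).toAlgebra
  refine ⟨fun x => IsAlgebraic.of_ringHom_of_comp_eq
    ((aeval w).codRestrict _ fun _ => aeval_mem_adjoin_singleton k w).toRingHom (RingHom.id K)
    (alg_adjoin hw x) (fun a => ?_) Function.injective_id rfl⟩
  obtain ⟨p, hp⟩ := (Algebra.adjoin_singleton_eq_range_aeval k w).le a.2
  exact ⟨p, Subtype.ext hp⟩

lemma exists_der {w : K} (hw : Transcendental k w) (g : K) :
    ∃ D : Derivation k K K, D w = g := by
  let : Algebra k[X] K := (aeval w).toAlgebra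
  have : IsScalarTower k k[X] K := IsScalarTower.of_algHom _
  have : FaithfulSMul k[X] K :=
    (faithfulSMul_iff_algebraMap_injective _ _).2 (transcendental_iff_injective.1 hw)
  have := alg_poly hw
  obtain ⟨D, hD⟩ := exists_extend (mkDerivation k g)
  exact ⟨D, by simpa [RingHom.algebraMap_toAlgebra] using hD X⟩

lemma exists_der_ext {w : K} (hw : Transcendental k w) (δ : Derivation ℤ k k) :
    ∃ D : Derivation ℤ K K, D w = 0 ∧ ∀ c, D (algebraMap k K c) = algebraMap k K (δ c) := by
  let : Algebra k[X] K := (aeval w).toAlgebra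
  have : FaithfulSMul k[X] K :=
    (faithfulSMul_iff_algebraMap_injective _ _).2 (transcendental_iff_injective.1 hw)
  have := alg_poly hw
  let : Differential k := ⟨δ⟩
  obtain ⟨D, hD⟩ := exists_extend ((Algebra.linearMap k[X] K).compDer Differential.mapCoeffs)
  refine ⟨D, by simpa [RingHom.algebraMap_toAlgebra] using hD X, fun c => ?_⟩
  have h : D (algebraMap k K c) = algebraMap k K (Differential.deriv c) := by
    simpa [RingHom.algebraMap_toAlgebra] using hD (C c)
  exact h

end Pool.Agent.Lib.MP_13404a_ag.UB
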