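import Pool.Agent.Lib.MP_13404a_ag.UB.Cas

/-!
Arithmetic.
-/

open Module Submodule Function Finsupp
open scoped IntermediateField Polynomial

namespace Pool.Agent.Lib.MP_13404a_ag.UB

open Pool.Agent.Lib.MP_15f242_ag

universe u

lemma m_le_num {m r n M : ℕ} (h1 : r = 0 → n = 0) (h2 : m * r ≤ n) (h3 : m ≤ n)
    (h : r = 0 ∨ n < (M + 1) * r) : m ≤ M := by
  rcases h with h | h
  · omega
  · by_contra! h4
    exact absurd ((Nat.mul_le_mul_right r h4).trans h2) h.not_ge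

section

variable {g q δ r n m γ : ℕ} (hq : q ≤ g) (hδ : δ + 2 ≤ g) (ha : q + δ ≤ g + 2 * (r + 1))
  (hr : δ < 12 * (r + 1)) (H : ∀ J : ℕ, J = 0 ∨ 2 * g < J * δ + 2 ∨
    3 * q + (J + 1) * δ ≤ 3 * g + 3 * (J * (r + 1)) ∨ 3 * q + δ ≤ 2 * g + 2 + 3 * (J * (r + 1)) ∨
    2 * q ≤ g + 1 + 2 * (J * (r + 1)))
  (h0 : r ≤ n) (h1 : r = 0 → n = 0) (h2 : m * r ≤ n) (h3 : m ≤ n)
  (h4 : 2 * γ + m * (m + 1) * r ≤ 2 * m * n)
include hq hδ ha hr H h0 h1 h2 h3 h4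

lemma e1_num (he : 1 * (n + 1) ≤ δ)
    (h : γ = g) :
    4 * q ≤ 3 * g + 12 := by
  have hm : m ≤ 22 := m_le_num h1 h2 h3 (by omega)
  interval_cases m
  · omega
  · omega
  · omega
  · omega
  · omega
  · have := H 3; omega
  · have := H 3; omega
  · have := H 3; have := H 4; omega
  · have := H 3; have := H 5; omega
  · have := H 3; have := H 5; omega
  · have := H 4; have := H 6; omega
  · have := H 4; have := H 6; omega
  · have := H 5; have := H 7; omega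
  · have := H 5; have := H 7; omega
  · have := H 6; have := H 8; omega
  · have := H 6; have := H 8; omega
  · have := H 5; have := H 8; omega
  · have := H 4; have := H 8; omega
  · have := H 5; have := H 9; omega
  · have := H 4; have := H 9; omega
  · have := H 4; have := H 9; omega
  · have := H 3; have := H 9; omega
  · have := H 3; have := H 9; omega

lemma e2_num (he : 2 * (n + 1) ≤ δ)
    (h : q ≤ γ + 1 * (r + 1) + 4 ∨ 2 * q ≤ 2 * (γ + 0 * (r + 1) + 1) + g + 1) :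
    4 * q ≤ 3 * g + 12 := by
  have hm : m ≤ 10 := m_le_num h1 h2 h3 (by omega)
  interval_cases m
  · omega
  · omega
  · omega
  · have := H 3; omega
  · have := H 4; omega
  · have := H 5; omega
  · have := H 3; have := H 6; omega
  · have := H 6; omega
  · have := H 6; omega
  · have := H 7; omega
  · have := H 7; omega

lemma e3_num (he : 3 * (n + 1) ≤ δ)
    (h : q ≤ γ + 2 * (r + 1) + 9 ∨ 2 * q ≤ 2 * (γ + 0 * (r + 1) + 1) + g + 1) :
    4 * q ≤ 3 * g + 12 := by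
  have hm : m ≤ 6 := m_le_num h1 h2 h3 (by omega)
  interval_cases m
  · omega
  · omega
  · omega
  · omega
  · omega
  · omega
  · omega

lemma e4_num (he : 4 * (n + 1) ≤ δ)
    (h : q ≤ γ + 3 * (r + 1) + 16 ∨ 2 * q ≤ 2 * (γ + 1 * (r + 1) + 4) + g + 1) :
    4 * q ≤ 3 * g + 12 := by
  have hm : m ≤ 4 := m_le_num h1 h2 h3 (by omega)
  interval_cases m
  · have := H 3; omega
  · omega
  · omega
  · omega
  · omega

lemma e5_num (he : 5 * (n + 1) ≤ δ)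
    (h : q ≤ γ + 4 * (r + 1) + 25 ∨ 2 * q ≤ 2 * (γ + 1 * (r + 1) + 4) + g + 1) :
    4 * q ≤ 3 * g + 12 := by
  have hm : m ≤ 3 := m_le_num h1 h2 h3 (by omega)
  interval_cases m
  · have := H 3; have := H 6; omega
  · have := H 3; omega
  · omega
  · omega

lemma e6_num (he : 6 * (n + 1) ≤ δ)
    (h : q ≤ γ + 5 * (r + 1) + 36 ∨ 2 * q ≤ 2 * (γ + 2 * (r + 1) + 9) + g + 1) :
    4 * q ≤ 3 * g + 12 := by
  have hm : m ≤ 2 := m_le_num h1 h2 h3 (by omega)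
  interval_cases m
  · have := H 4; have := H 7; have := H 8; omega
  · have := H 4; omega
  · omega

lemma e7_num (he : 7 * (n + 1) ≤ δ)
    (h : q ≤ γ + 6 * (r + 1) + 49 ∨ 2 * q ≤ 2 * (γ + 2 * (r + 1) + 9) + g + 1) :
    4 * q ≤ 3 * g + 12 := by
  have hm : m ≤ 2 := m_le_num h1 h2 h3 (by omega)
  interval_cases m
  · have := H 6; have := H 9; have := H 3; have := H 5; omega
  · have := H 3; have := H 5; omega
  · omega

lemma e8_num (he : 8 * (n + 1) ≤ δ)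
    (h : q ≤ γ + 7 * (r + 1) + 64 ∨ 2 * q ≤ 2 * (γ + 3 * (r + 1) + 16) + g + 1) :
    4 * q ≤ 3 * g + 12 := by
  have hm : m ≤ 1 := m_le_num h1 h2 h3 (by omega)
  interval_cases m
  · have := H 6; have := H 10; have := H 3; omega
  · have := H 3; have := H 6; omega

lemma e9_num (he : 9 * (n + 1) ≤ δ)
    (h : q ≤ γ + 8 * (r + 1) + 81 ∨ 2 * q ≤ 2 * (γ + 3 * (r + 1) + 16) + g + 1) :
    4 * q ≤ 3 * g + 12 := by
  have hm : m ≤ 1 := m_le_num h1 h2 h3 (by omega)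
  interval_cases m
  · have := H 8; have := H 12; have := H 3; have := H 6; omega
  · have := H 3; have := H 6; omega

lemma e10_num (he : 10 * (n + 1) ≤ δ)
    (h : q ≤ γ + 9 * (r + 1) + 100 ∨ 2 * q ≤ 2 * (γ + 4 * (r + 1) + 25) + g + 1) :
    4 * q ≤ 3 * g + 12 := by
  have hm : m ≤ 1 := m_le_num h1 h2 h3 (by omega)
  interval_cases m
  · have := H 7; have := H 13; have := H 3; omega
  · have := H 3; have := H 7; omega

lemma e11_num (he : 11 * (n + 1) ≤ δ)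
    (h : q ≤ γ + 10 * (r + 1) + 121 ∨ 2 * q ≤ 2 * (γ + 4 * (r + 1) + 25) + g + 1) :
    4 * q ≤ 3 * g + 12 := by
  have hm : m ≤ 1 := m_le_num h1 h2 h3 (by omega)
  interval_cases m
  · have := H 7; have := H 14; have := H 3; omega
  · have := H 3; have := H 7; omega

end

/-- The case of a small polar divisor. -/
theorem num_two {g q δ r : ℕ} (hq : q ≤ g) (r1 : 1 ≤ r) (hδ : δ + 2 ≤ g)
    (ha : q + δ ≤ g + 2 * r)
    (hb : ∀ j : ℕ, (j + 1) * δ + 2 ≤ 2 * g → ∃ m : ℕ, q ≤ m + (j + 1) * r ∧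
      (3 * m + (j + 2) * δ ≤ 3 * g ∨ 3 * m + δ ≤ 2 * g + 2 ∨ 2 * m ≤ g + 1))
    (hc : (∃ n ≤ δ, Ser n r g) ∨ ∃ e n γ e' : ℕ, 2 ≤ e ∧ e * n ≤ δ ∧ Ser n r γ ∧ 1 ≤ e' ∧
      ((e' = e ∧ q ≤ γ + (e' - 1) * r + e' ^ 2) ∨
        (2 * e' ≤ e ∧ 2 * q ≤ 2 * (γ + (e' - 1) * r + e' ^ 2) + g + 1))) :
    4 * q ≤ 3 * g + 12 := by
  obtain ⟨r, rfl⟩ := Nat.exists_eq_add_of_le' r1
  have H : ∀ J : ℕ, J = 0 ∨ 2 * g < J * δ + 2 ∨
      3 * q + (J + 1) * δ ≤ 3 * g + 3 * (J * (r + 1)) ∨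
      3 * q + δ ≤ 2 * g + 2 + 3 * (J * (r + 1)) ∨ 2 * q ≤ g + 1 + 2 * (J * (r + 1)) := by
    rintro (_ | j)
    · exact Or.inl rfl
    refine Or.inr (or_iff_not_imp_left.2 fun h => ?_)
    obtain ⟨m, h1, h2⟩ := hb j (not_lt.1 h)
    rw [show j + 1 + 1 = j + 2 from rfl]
    omega
  rcases le_or_gt (12 * (r + 1)) δ with hr | hr
  · have h1 := H (g / δ)
    have h2 := Nat.div_mul_le_self g δ
    have h3 : g < (g / δ + 1) * δ := by rw [mul_comm]; exact Nat.lt_mul_div_succ g (by omega)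
    have h4 : g / δ ≠ 0 := (Nat.div_pos (by omega) (by omega)).ne'
    have h5 := Nat.mul_le_mul_left (g / δ) hr
    rw [mul_left_comm] at h5
    omega
  have S : ∀ {n γ}, Ser n (r + 1) γ → ∃ n' m, n = n' + 1 ∧ r ≤ n' ∧ (r = 0 → n' = 0) ∧
      m * r ≤ n' ∧ m ≤ n' ∧ 2 * γ + m * (m + 1) * r ≤ 2 * m * n' := by
    rintro n γ ⟨h0, -, h1, m, h2⟩
    exact ⟨n - 1, m, by omega, by omega, by omega, h2⟩
  obtain ⟨n, he, h⟩ | ⟨e, n, γ, e', e2, he, h, e1, h5⟩ := hc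
  · obtain ⟨n, m, rfl, h0, h1, h2, h3, h4⟩ := S h
    exact e1_num hq hδ ha hr H h0 h1 h2 h3 h4 (by omega) rfl
  · obtain ⟨n, m, rfl, h0, h1, h2, h3, h4⟩ := S h
    have h6 : q ≤ γ + (e - 1) * (r + 1) + e ^ 2 ∨
        2 * q ≤ 2 * (γ + (e / 2 - 1) * (r + 1) + (e / 2) ^ 2) + g + 1 := by
      obtain ⟨rfl, h5⟩ | ⟨h5, h6⟩ := h5
      · exact Or.inl h5
      have : e' ≤ e / 2 := by omega
      exact Or.inr (h6.trans (by gcongr))
    have h7 : e < 12 := by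
      by_contra! h7
      have := Nat.mul_le_mul_right (n + 1) h7
      omega
    clear h5 h
    interval_cases e <;> norm_num only at h6
    · exact e2_num hq hδ ha hr H h0 h1 h2 h3 h4 he (by omega)
    · exact e3_num hq hδ ha hr H h0 h1 h2 h3 h4 he (by omega)
    · exact e4_num hq hδ ha hr H h0 h1 h2 h3 h4 he (by omega)
    · exact e5_num hq hδ ha hr H h0 h1 h2 h3 h4 he (by omega)
    · exact e6_num hq hδ ha hr H h0 h1 h2 h3 h4 he (by omega)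
    · exact e7_num hq hδ ha hr H h0 h1 h2 h3 h4 he (by omega)
    · exact e8_num hq hδ ha hr H h0 h1 h2 h3 h4 he (by omega)
    · exact e9_num hq hδ ha hr H h0 h1 h2 h3 h4 he (by omega)
    · exact e10_num hq hδ ha hr H h0 h1 h2 h3 h4 he (by omega)
    · exact e11_num hq hδ ha hr H h0 h1 h2 h3 h4 he (by omega)

/-- The case of a large polar divisor. -/
theorem num_one {g q N a : ℕ} (hq : q ≤ g) (hN : N + 1 ≤ g)
    (ha : q + N ≤ g + 2 * a) (hz : a + q / 2 ≤ N)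
    (hc : a = 0 ∨ (1 ≤ a ∧ ∃ n ≤ N, Ser n a g) ∨ ∃ e n γ : ℕ, 2 ≤ e ∧ e * n ≤ N ∧ Ser n a γ ∧
      (e = 2 → q ≤ 3 * γ ∨ 2 * q ≤ 2 * γ + g + 1) ∧
      (e = 3 → 3 * q ≤ 3 * γ + 2 * g + 4 ∨ 2 * q ≤ 2 * γ + g + 1 ∨ q ≤ 4 * γ ∨
        3 * q ≤ g + 2 + 12 * γ ∨ 4 * q ≤ 3 * g + 12)) :
    4 * q ≤ 3 * g + 12 := by
  obtain rfl | ⟨h0, n, h1, -, h2, h3, m, h4, h5, h6⟩ | ⟨e, n, γ, h0, h1, ⟨h2, h3, -⟩, h4, h5⟩ := hc
  · omega
  · obtain ⟨a, rfl⟩ := Nat.exists_eq_add_of_le' h0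
    rw [Nat.add_sub_cancel] at h4 h6
    rcases le_or_gt 4 m with h | h
    · have := Nat.mul_le_mul_right a h
      omega
    · interval_cases m <;> omega
  · rcases le_or_gt 4 e with h | h
    · have := Nat.mul_le_mul_right n h
      omega
    · interval_cases e <;> omega

end Pool.Agent.Lib.MP_13404a_ag.UB
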