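import Pool.Agent.Lib.MP_13404a_ag.UB.Rie

/-!
Subfields: points below and above, traces.
-/

open Module Submodule Function Finsupp
open scoped IntermediateField Polynomial

namespace Pool.Agent.Lib.MP_13404a_ag.UB

open Pool.Agent.Lib.MP_15f242_ag

universe u

variable {k K : Type u} [Field k] [CharZero k] [Field K] [Algebra k K] [FF k K]
  {E : Type u} [Field E] [Algebra k E] [Algebra E K] [IsScalarTower k E K] [FF k E]

omit [CharZero k] [FF k K] [FF k E] in
lemma exists_equiv_sub (y : E) : ∃ e : k⟮y⟯ ≃+* k⟮algebraMap E K y⟯,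
    (algebraMap k⟮algebraMap E K y⟯ K).comp e.toRingHom =
      (RingEquiv.refl K).toRingHom.comp (algebraMap k⟮y⟯ K) :=
  ⟨((IntermediateField.equivMap k⟮y⟯ (IsScalarTower.toAlgHom k E K)).trans
    (IntermediateField.equivOfEq (by rw [IntermediateField.adjoin_map]; simp))).toRingEquiv,
    RingHom.ext fun _ => rfl⟩

omit [CharZero k] [FF k K] [FF k E] in
lemma fd_down_sub (y : E) [FiniteDimensional k⟮algebraMap E K y⟯ K] :
    FiniteDimensional k⟮y⟯ K := by
  obtain ⟨e, he⟩ := exists_equiv_sub (k := k) (K := K) y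
  exact Module.Finite.of_equiv_equiv e.symm (RingEquiv.refl K) (RingHom.ext fun a => by
    have := RingHom.congr_fun he (e.symm a)
    simpa using this.symm)

variable (k E K) in
include k in
/-- Explicit arguments in the order `k K E`. -/
lemma fd_tower : FiniteDimensional E K := by
  obtain ⟨y, hy⟩ := FF.ex (k := k) (K := E)
  have := FF.fin (k := k) (algebraMap E K y)
    ((transcendental_algebraMap_iff (algebraMap E K).injective).2 hy)
  have := fd_down_sub (k := k) (K := K) y
  exact Module.Finite.of_restrictScalars_finite k⟮y⟯ E K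

omit [FF k K] [FF k E] in
lemma trans_up {y : E} (hy : Transcendental k y) : Transcendental k (algebraMap E K y) :=
  (transcendental_algebraMap_iff (algebraMap E K).injective).2 hy

/-- A field that is finite over one simple transcendental extension is finite over all
(`FunctionField.finiteDimensional_of_adjoin_transcendental` with `RatFunc.algEquivOfTranscendental`
or a direct argument). -/
lemma ff_of_one {k K : Type u} [Field k] [IsAlgClosed k] [Field K] [Algebra k K] {x : K}
    (hx : Transcendental k x) [FiniteDimensional k⟮x⟯ K] : FF k K := by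
  let e := RatFunc.algEquivOfTranscendental x hx
  let : Algebra (RatFunc k) K := (k⟮x⟯.val.comp e.toAlgHom).toAlgebra
  have : IsScalarTower k (RatFunc k) K := IsScalarTower.of_algHom _
  have : FunctionField k K := Module.Finite.of_equiv_equiv e.symm.toRingEquiv (RingEquiv.refl _)
    (RingHom.ext fun a => congrArg Subtype.val (e.apply_symm_apply a))
  exact ⟨inferInstance, fun _ => FunctionField.finiteDimensional_of_adjoin_transcendental, x, hx⟩

lemma ff_sub (L : IntermediateField k K) {x : K} (hx : x ∈ L) (ht : Transcendental k x) :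
    FF k L := by
  have := FF.closed (k := k) (K := K)
  let y : L := ⟨x, hx⟩
  have : FiniteDimensional k⟮algebraMap L K y⟯ K := FF.fin x ht
  have := fd_down_sub (k := k) (K := K) y
  have : FiniteDimensional k⟮y⟯ L := FiniteDimensional.left k⟮y⟯ L K
  exact ff_of_one (x := y) ((transcendental_algebraMap_iff (algebraMap L K).injective).1 ht)

lemma finrank_adjoin_tower {y : E} (hy : Transcendental k y) :
    finrank k⟮algebraMap E K y⟯ K = finrank E K * finrank k⟮y⟯ E := by
  have _ := hy
  obtain ⟨e, he⟩ := exists_equiv_sub (k := k) (K := K) y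
  rw [← Algebra.finrank_eq_of_equiv_equiv e (RingEquiv.refl K) he, mul_comm,
    Module.finrank_mul_finrank]

omit [FF k K] in
/-- Derivations that agree on the constants and on one nonconstant function are compatible. -/
lemma der_compat {D : Derivation ℤ K K} {D' : Derivation ℤ E E}
    (h0 : ∀ a : k, D (algebraMap k K a) = algebraMap E K (D' (algebraMap k E a))) {x : E}
    (hx : Transcendental k x) (h : D (algebraMap E K x) = algebraMap E K (D' x)) (f : E) :
    D (algebraMap E K f) = algebraMap E K (D' f) :=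
  sub_eq_zero.1 (der_eq_zero (k := k) (D.compAlgebraMap E - (Algebra.linearMap E K).compDer D')
    (fun a => sub_eq_zero.2 ((congrArg D (IsScalarTower.algebraMap_apply k E K a).symm).trans
      (h0 a))) hx (sub_eq_zero.2 h) f)

variable (E) in
/-- As `comap_ne_top` in `../Reg.lean`. -/
lemma comap_ne_top (P : Pt k K) : P.1.comap (IsScalarTower.toAlgHom k E K) ≠ ⊤ := by
  intro h
  let ι := IsScalarTower.toAlgHom k E K
  obtain ⟨w, hw⟩ := FF.ex (k := k) (K := E)
  obtain ⟨π, h0, hπ⟩ := exists_po P (-1)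
  obtain ⟨q, h1, h2⟩ := (alg_adjoin (trans_up (K := K) hw) π).exists_nonzero_coeff_and_aeval_eq_zero
    (mem_nonZeroDivisors_of_ne_zero h0)
  have hR : ∀ a ∈ Algebra.adjoin k {algebraMap E K w}, a ∈ P.1 ∧ a⁻¹ ∈ P.1 := fun a ha => by
    obtain ⟨f, rfl⟩ : a ∈ ι.range := Algebra.adjoin_le (by rintro _ rfl; exact ⟨w, rfl⟩) ha
    exact ⟨h.ge (Algebra.mem_top (x := f)), map_inv₀ ι f ▸ h.ge (Algebra.mem_top (x := f⁻¹))⟩
  have h3 : ∀ p : (Algebra.adjoin k {algebraMap E K w})[X], Polynomial.aeval π p ∈ P.1 :=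
    fun p => by
    rw [Polynomial.aeval_eq_sum_range]
    exact sum_mem fun i _ => mul_mem (hR _ (p.coeff i).2).1 (pow_mem (mem_iff_po.2 (by omega)) i)
  rw [← Polynomial.X_mul_divX_add q] at h2
  simp only [map_add, map_mul, Polynomial.aeval_X, Polynomial.aeval_C] at h2
  have h4 : (q.coeff 0 : K) ∈ fil P (-1) := by
    rw [show (q.coeff 0 : K) = -(π * Polynomial.aeval π q.divX) from
      eq_neg_of_add_eq_zero_right h2]
    exact neg_mem (fil_mul (mem_fil_of hπ.le) (h3 _))
  have h5 := mem_iff_po.1 (hR _ (q.coeff 0).2).2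
  rw [mem_fil (by simpa using h1)] at h4
  rw [po_inv] at h5
  omega

variable (E) in
/-- The point below `P`. -/
noncomputable def res (P : Pt k K) : Pt k E :=
  ⟨P.1.comap (IsScalarTower.toAlgHom k E K), comap_ne_top E P, fun x =>
    (P.2.2 (algebraMap E K x)).imp id fun h => by rwa [← map_inv₀] at h⟩

lemma mem_res {P : Pt k K} {f : E} : f ∈ (res E P).1 ↔ algebraMap E K f ∈ P.1 := Iff.rfl

variable (E) in
/-- As `exists_e` in `../Reg.lean`. -/
lemma exists_e (P : Pt k K) :
    ∃ e : ℤ, 0 < e ∧ ∀ f : E, po P (algebraMap E K f) = e * po (res E P) f := by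
  obtain ⟨π, h0, hπ⟩ := exists_po (res E P) 1
  refine ⟨po P (algebraMap E K π), not_le.1 fun h => ?_, fun f => ?_⟩
  · have := mem_iff_po.1 (mem_res.2 (mem_iff_po.2 h))
    omega
  rcases eq_or_ne f 0 with rfl | hf
  · simp [po]
  have p0 : π ^ po (res E P) f ≠ 0 := zpow_ne_zero _ h0
  have h1 : po (res E P) (f * (π ^ po (res E P) f)⁻¹) = 0 := by
    rw [po_mul _ hf (inv_ne_zero p0), po_inv, po_zpow, hπ]; ring
  have h2 := mem_iff_po.1 (mem_res.1 (mem_iff_po.2 h1.le))
  have h3 := mem_iff_po.1 (mem_res.1 (mem_iff_po.2 (((po_inv _ _).trans (by rw [h1, neg_zero])).le)))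
  rw [map_inv₀, po_inv] at h3
  rw [map_mul, map_inv₀, map_zpow₀, po_mul P (by simpa using hf)
    (inv_ne_zero (zpow_ne_zero _ (by simpa using h0))), po_inv, po_zpow] at h2 h3
  linarith

omit [CharZero k] in
lemma exists_val_sub (Q : Pt k E) (Ω : Type*) [Field Ω] [Algebra E Ω] :
    ∃ B : ValuationSubring Ω, (∀ x ∈ Q.1, algebraMap E Ω x ∈ B) ∧ ∃ x, algebraMap E Ω x ∉ B := by
  obtain ⟨π, h0, hπ⟩ := exists_po Q (-1)
  let A := Q.1.toSubring.map (algebraMap E Ω)
  let y : A := ⟨algebraMap E Ω π, π, mem_iff_po.2 (by omega), rfl⟩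
  have h1 : Ideal.span {y} ≠ ⊤ := fun e => by
    obtain ⟨⟨_, a, ha, rfl⟩, h⟩ := Ideal.mem_span_singleton'.1 ((Ideal.eq_top_iff_one _).1 e)
    have h2 : a * π = 1 := (algebraMap E Ω).injective (by simpa using congrArg Subtype.val h)
    have h3 := mem_iff_po.1 (show a ∈ Q.1 from ha)
    rw [eq_inv_of_mul_eq_one_left h2, po_inv] at h3
    omega
  obtain ⟨B, h2, h3⟩ := Ideal.image_subset_nonunits_valuationSubring _ h1
  refine ⟨B, fun x hx => h2 ⟨x, hx, rfl⟩, π⁻¹, ?_⟩
  have := h3 ⟨y, Ideal.subset_span rfl, rfl⟩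
  rw [← inv_inv (A.subtype y)] at this
  rw [map_inv₀]
  exact (B.inv_mem_nonunits_iff.1 this).resolve_left (by simpa [y] using h0)

lemma exists_pt_sub {Q : Pt k E} {Ω : Type*} [Field Ω] [Algebra E Ω] {B : ValuationSubring Ω}
    (h1 : ∀ x ∈ Q.1, algebraMap E Ω x ∈ B) {w : E} (h2 : algebraMap E Ω w ∉ B)
    (σ : K →ₐ[E] Ω) : ∃ P : Pt k K, res E P = Q ∧ ∀ x, x ∈ P.1 ↔ σ x ∈ B := by
  have h3 : ∀ x ∈ Q.1, σ (algebraMap E K x) ∈ B := fun x hx => σ.commutes x ▸ h1 x hx
  refine ⟨⟨{ B.toSubring.comap σ.toRingHom with algebraMap_mem' := fun c => ?_ },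
    fun e => h2 ?_, fun x => ?_⟩, (Pt.eq_of_le fun x hx => h3 x hx).symm, fun x => Iff.rfl⟩
  · rw [IsScalarTower.algebraMap_apply k E K]
    exact h3 _ (Q.1.algebraMap_mem c)
  · rw [← σ.commutes]
    exact (eq_top_iff.1 e) (Algebra.mem_top (x := algebraMap E K w))
  · exact (B.mem_or_inv_mem (σ x)).imp id fun h => by rwa [← map_inv₀] at h

variable (K) in
/-- As `res_surj` in `../Reg.lean`. -/
lemma res_surj (Q : Pt k E) : ∃ P : Pt k K, res E P = Q := by
  obtain ⟨B, h1, w, h2⟩ := exists_val_sub Q K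
  obtain ⟨P, h, -⟩ := exists_pt_sub h1 h2 (AlgHom.id E K)
  exact ⟨P, h⟩

/-- `trace_eq_sum_embeddings` into `AlgebraicClosure E`: take a valuation subring `V` of it that
dominates `Q` (as in `res_surj`); its preimage under each embedding is a point above `Q`, so all
conjugates of `f` lie in `V.nonunits`. -/
lemma trace_mem_fil {Q : Pt k E} {f : K} (h : ∀ P : Pt k K, res E P = Q → f ∈ fil P (-1)) :
    Algebra.trace E K f ∈ fil Q (-1) := by
  have := fd_tower k K E
  have : CharZero E := charZero_of_injective_algebraMap (algebraMap k E).injective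
  obtain ⟨B, h1, w, h2⟩ := exists_val_sub Q (AlgebraicClosure E)
  have h3 : ∀ σ : K →ₐ[E] AlgebraicClosure E, B.valuation (σ f) < 1 := fun σ => by
    rcases eq_or_ne f 0 with rfl | f0
    · simp
    obtain ⟨P, hP, h4⟩ := exists_pt_sub h1 h2 σ
    have h5 := (mem_fil f0).1 (h P hP)
    have h6 : f⁻¹ ∉ P.1 := by rw [mem_iff_po, po_inv]; omega
    rw [h4, map_inv₀] at h6
    rw [← B.mem_nonunits_iff, ← inv_inv (σ f)]
    exact B.inv_mem_nonunits_iff.2 (Or.inr h6)
  have h4 : B.valuation (algebraMap E _ (Algebra.trace E K f)) < 1 := by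
    rw [trace_eq_sum_embeddings (AlgebraicClosure E)]
    exact B.valuation.map_sum_lt one_ne_zero fun σ _ => h3 σ
  rcases eq_or_ne (Algebra.trace E K f) 0 with e | t0
  · rw [e]; exact zero_mem _
  rw [← B.mem_nonunits_iff, ← inv_inv (algebraMap E _ _), B.inv_mem_nonunits_iff] at h4
  have h5 := h4.resolve_left (by simpa using t0)
  rw [← map_inv₀] at h5
  have h6 := mt (h1 _) h5
  rw [mem_iff_po, po_inv] at h6
  exact mem_fil_of (by omega)

/-- Multiply by a power of a uniformiser at `Q`. -/
lemma trace_mem_fil' {Q : Pt k E} {f : K} {n : ℤ} (h : ∀ (P : Pt k K) (e : ℤ), res E P = Q →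
    0 < e → (∀ g : E, po P (algebraMap E K g) = e * po Q g) → f ∈ fil P (e * n + e - 1)) :
    Algebra.trace E K f ∈ fil Q n := by
  obtain ⟨t, t0, ht⟩ := exists_po Q (-1 - n)
  have h1 := trace_mem_fil (Q := Q) (f := algebraMap E K t * f) fun P hP => by
    obtain ⟨e, he, h2⟩ := exists_e E P
    rw [hP] at h2
    have h3 := mul_mem_fil (mem_fil_of (h2 t).le) (h P e hP he h2)
    rwa [ht, show e * (-1 - n) + (e * n + e - 1) = -1 by ring] at h3
  rw [← Algebra.smul_def, map_smul, smul_eq_mul] at h1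
  rw [← mul_mem_fil_iff t0, ht]
  rwa [show n + (-1 - n) = -1 by ring]

section
variable {E L K : Type u} [Field E] [CharZero E] [Field L] [Field K] [Algebra E K]

/-- A derivation that vanishes on `E` vanishes on an algebraic extension (minimal polynomial). -/
lemma der_eq_zero_of_alg [Algebra.IsAlgebraic E K] {M : Type*} [AddCommGroup M] [Module K M]
    (D : Derivation ℤ K M) (h : ∀ a : E, D (algebraMap E K a) = 0) (f : K) : D f = 0 := by
  have h1 : ∀ Φ : E[X], D (Polynomial.aeval f Φ) =
      Polynomial.aeval f (Polynomial.derivative Φ) • D f := fun Φ => by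
    induction Φ using Polynomial.induction_on' with
    | add p q hp hq => simp only [map_add, hp, hq, add_smul]
    | monomial n a =>
      simp [Polynomial.derivative_monomial, h a, mul_smul, ← Nat.cast_smul_eq_nsmul K]
  obtain ⟨Φ, h2, h3⟩ := Algebra.IsAlgebraic.isAlgebraic (R := E) f
  have : CharZero K := charZero_of_injective_algebraMap (algebraMap E K).injective
  obtain ⟨Ψ, h4, h5⟩ := exists_sep_aux f _ Φ le_rfl h2 h3
  have h6 := h1 Ψ
  rw [h4, map_zero] at h6
  exact (smul_eq_zero.1 h6.symm).resolve_left h5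

lemma der_comp_sub [Algebra E L] [Algebra L K] [IsScalarTower E L K] [Algebra.IsAlgebraic E L]
    {D : Derivation ℤ K K} {D' : Derivation ℤ E E} {D₁ : Derivation ℤ L L}
    (h : ∀ a, D (algebraMap E K a) = algebraMap E K (D' a))
    (h1 : ∀ a, D₁ (algebraMap E L a) = algebraMap E L (D' a)) (f : L) :
    D (algebraMap L K f) = algebraMap L K (D₁ f) :=
  sub_eq_zero.1 (der_eq_zero_of_alg (E := E)
    (D.compAlgebraMap L - (Algebra.linearMap L K).compDer D₁) (fun a => sub_eq_zero.2 (by
      change D (algebraMap L K (algebraMap E L a)) = algebraMap L K (D₁ (algebraMap E L a))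
      rw [h1, ← IsScalarTower.algebraMap_apply, ← IsScalarTower.algebraMap_apply, h])) f)

/-- Extend `D'` to the algebraic closure (`exists_extend`), compare along each embedding
(`der_eq_zero_of_alg`) and use `trace_eq_sum_embeddings`. -/
lemma trace_der [FiniteDimensional E K] (D : Derivation ℤ K K) (D' : Derivation ℤ E E)
    (h : ∀ a, D (algebraMap E K a) = algebraMap E K (D' a)) (f : K) :
    D' (Algebra.trace E K f) = Algebra.trace E K (D f) := by
  obtain ⟨D₂, h2⟩ := exists_extend ((Algebra.linearMap E (AlgebraicClosure E)).compDer D')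
  have h3 : ∀ σ : K →ₐ[E] AlgebraicClosure E, D₂ (σ f) = σ (D f) := fun σ => by
    let := σ.toAlgebra
    have : IsScalarTower E K (AlgebraicClosure E) := IsScalarTower.of_algHom σ
    exact der_comp_sub (D' := D') h2 h f
  refine (algebraMap E (AlgebraicClosure E)).injective ((h2 _).symm.trans ?_)
  rw [trace_eq_sum_embeddings (AlgebraicClosure E), trace_eq_sum_embeddings (AlgebraicClosure E),
    map_sum]
  exact Finset.sum_congr rfl fun σ _ => h3 σ

/-- A derivation that preserves `E` preserves every intermediate field. -/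
lemma exists_mid [Algebra E L] [Algebra L K] [IsScalarTower E L K] [Algebra.IsAlgebraic E K]
    (D : Derivation ℤ K K) (D' : Derivation ℤ E E)
    (h : ∀ a, D (algebraMap E K a) = algebraMap E K (D' a)) :
    ∃ D₁ : Derivation ℤ L L, (∀ a, D (algebraMap L K a) = algebraMap L K (D₁ a)) ∧
      ∀ a, D₁ (algebraMap E L a) = algebraMap E L (D' a) := by
  have : Algebra.IsAlgebraic E L :=
    Algebra.IsAlgebraic.tower_bot_of_injective (algebraMap L K).injective
  obtain ⟨D₁, h1⟩ := exists_extend ((Algebra.linearMap E L).compDer D')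
  exact ⟨D₁, der_comp_sub (D' := D') h h1, h1⟩

end

end Pool.Agent.Lib.MP_13404a_ag.UB
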