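import Pool.Agent.Lib.MP_13404a_ag.UB.Hor
import Pool.Agent.Lib.MP_13404a_ag.UB.Sub

/-!
A system of linear differential equations given by traces.
-/

open Module Submodule Function Finsupp
open scoped IntermediateField Polynomial

namespace Pool.Agent.Lib.MP_13404a_ag.UB

open Pool.Agent.Lib.MP_15f242_ag

universe u

variable {k E L : Type u} [Field k] [CharZero k] [Field E] [Field L] [Algebra k E] [Algebra k L]
  [Algebra E L] [IsScalarTower k E L] [FiniteDimensional E L]

section

variable {L : Type u} [Field L]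

/-- Operators of order below `n`. -/
def ord_ode (d : L → L) (n : ℕ) : Submodule L (L → L) :=
  span L (Set.range fun j : Fin n => d^[j])

lemma gen_ode (d : L → L) {j n : ℕ} (h : j < n) : d^[j] ∈ ord_ode d n :=
  subset_span ⟨⟨j, h⟩, rfl⟩

lemma mono_ode (d : L → L) {m n : ℕ} (h : m ≤ n) : ord_ode d m ≤ ord_ode d n :=
  span_le.2 (by rintro _ ⟨j, rfl⟩; exact gen_ode d (lt_of_lt_of_le j.2 h))

lemma zero_ode (d : L → L) (n : ℕ) {P : L → L} (h : ∀ b, P b = 0) : P ∈ ord_ode d n := by
  rw [show P = 0 from funext h]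
  exact (ord_ode d n).zero_mem

lemma iter_add_ode (d : Derivation ℤ L L) (j : ℕ) (x y : L) :
    (d : L → L)^[j] (x + y) = (d : L → L)^[j] x + (d : L → L)^[j] y := by
  induction j with
  | zero => rfl
  | succ j ih => simp only [iterate_succ_apply', ih, map_add]

lemma add_ode (d : Derivation ℤ L L) {n : ℕ} {P : L → L} (hP : P ∈ ord_ode d n) (x y : L) :
    P (x + y) = P x + P y := by
  induction hP using span_induction with
  | mem _ h => obtain ⟨j, rfl⟩ := h; exact iter_add_ode d j x y
  | zero => simp
  | add P Q _ _ h1 h2 => simp only [Pi.add_apply, h1, h2]; ring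
  | smul c P _ h1 => simp only [Pi.smul_apply, h1, smul_add]

lemma der_ode (d : Derivation ℤ L L) {n : ℕ} {P : L → L} (hP : P ∈ ord_ode d n) :
    (fun b => d (P b)) ∈ ord_ode d (n + 1) := by
  induction hP using span_induction with
  | mem _ h =>
    obtain ⟨j, rfl⟩ := h
    have := gen_ode d (Nat.succ_lt_succ j.2)
    rwa [iterate_succ'] at this
  | zero => exact zero_ode _ _ fun b => by simp
  | add P Q _ _ h1 h2 =>
    have := (ord_ode d (n + 1)).add_mem h1 h2
    convert this using 1
    funext b
    simp
  | smul c P hP h1 =>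
    have := (ord_ode d (n + 1)).add_mem ((ord_ode d (n + 1)).smul_mem c h1)
      ((ord_ode d (n + 1)).smul_mem (d c) (mono_ode d (Nat.le_succ n) hP))
    convert this using 1
    funext b
    simp [mul_comm]

lemma mul_ode (d : Derivation ℤ L L) (β : L) (l : ℕ) :
    (fun b => (d : L → L)^[l] (β * b) - β * (d : L → L)^[l] b) ∈ ord_ode d l := by
  induction l with
  | zero => exact zero_ode _ _ fun b => by simp
  | succ l ih =>
    have := (ord_ode d (l + 1)).add_mem (der_ode d ih)
      ((ord_ode d (l + 1)).smul_mem (d β) (gen_ode d (Nat.lt_succ_self l)))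
    convert this using 1
    funext b
    simp only [iterate_succ_apply', Pi.add_apply, Pi.smul_apply, map_sub, Derivation.leibniz,
      smul_eq_mul]
    ring

lemma comm_ode (d v : Derivation ℤ L L) (comm : ∀ f, d (v f) = v (d f)) {n : ℕ} {P : L → L}
    (hP : P ∈ ord_ode d n) : (fun b => P (v b) - v (P b)) ∈ ord_ode d n := by
  induction hP using span_induction with
  | mem _ h =>
    obtain ⟨j, rfl⟩ := h
    have e : ∀ (j : ℕ) (b : L), (d : L → L)^[j] (v b) = v ((d : L → L)^[j] b) := by
      intro j b
      induction j with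
      | zero => rfl
      | succ j ih => simp only [iterate_succ_apply', ih, comm]
    exact zero_ode _ _ fun b => by simp [e]
  | zero => exact zero_ode _ _ fun b => by simp
  | add P Q _ _ h1 h2 =>
    have := (ord_ode d n).add_mem h1 h2
    convert this using 1
    funext b
    simp only [Pi.add_apply, map_add]
    ring
  | smul c P hP h1 =>
    have := (ord_ode d n).sub_mem ((ord_ode d n).smul_mem c h1) ((ord_ode d n).smul_mem (v c) hP)
    convert this using 1
    funext b
    simp only [Pi.sub_apply, Pi.smul_apply, Derivation.leibniz, smul_eq_mul]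
    ring

lemma shift_ode (d : Derivation ℤ L L) (β : L) {n : ℕ} {P : L → L} (hP : P ∈ ord_ode d n) :
    (fun b => P (d (β * b))) ∈ ord_ode d (n + 1) := by
  induction hP using span_induction with
  | mem _ h =>
    obtain ⟨j, rfl⟩ := h
    have := (ord_ode d (n + 1)).add_mem
      (mono_ode d (Nat.succ_le_succ j.2.le) (mul_ode d β (j + 1)))
      ((ord_ode d (n + 1)).smul_mem β (gen_ode d (Nat.succ_lt_succ j.2)))
    convert this using 1
    funext b
    simp only [Pi.add_apply, Pi.smul_apply, smul_eq_mul, iterate_succ_apply, Nat.succ_eq_add_one]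
    ring
  | zero => exact (ord_ode d (n + 1)).zero_mem
  | add P Q _ _ h1 h2 => exact (ord_ode d (n + 1)).add_mem h1 h2
  | smul c P _ h1 => exact (ord_ode d (n + 1)).smul_mem c h1

/-- The operators under the trace. -/
def op_ode (d v : L → L) (β : L) : ℕ → L → L
  | 0 => fun b => b
  | l + 1 => fun b => op_ode d v β l (v b + d (β * b)) - v (op_ode d v β l b)

lemma lead_ode (d v : Derivation ℤ L L) (comm : ∀ f, d (v f) = v (d f)) (β : L) (l : ℕ) :
    (fun b => op_ode d v β l b - β ^ l * (d : L → L)^[l] b) ∈ ord_ode d l := by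
  induction l with
  | zero => exact zero_ode _ _ fun b => by simp [op_ode]
  | succ l ih =>
    have hP : op_ode d v β l ∈ ord_ode d (l + 1) := by
      have := (ord_ode d (l + 1)).add_mem (mono_ode d (Nat.le_succ l) ih)
        ((ord_ode d (l + 1)).smul_mem (β ^ l) (gen_ode d (Nat.lt_succ_self l)))
      convert this using 1
      funext b
      simp
    have := (ord_ode d (l + 1)).add_mem ((ord_ode d (l + 1)).add_mem (comm_ode d v comm hP)
      (shift_ode d β ih)) ((ord_ode d (l + 1)).smul_mem (β ^ l) (mul_ode d β (l + 1)))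
    convert this using 1
    funext b
    simp only [op_ode, add_ode d hP, Pi.add_apply, Pi.smul_apply, smul_eq_mul,
      iterate_succ_apply]
    ring

lemma lead'_ode (d v : Derivation ℤ L L) (comm : ∀ f, d (v f) = v (d f)) (β : L) (l m : ℕ) :
    (fun b => (d : L → L)^[m] (op_ode d v β l b) - β ^ l * (d : L → L)^[l + m] b) ∈
      ord_ode d (l + m) := by
  induction m with
  | zero => exact lead_ode d v comm β l
  | succ m ih =>
    have := (ord_ode d (l + m + 1)).add_mem (der_ode d ih)
      ((ord_ode d (l + m + 1)).smul_mem (d (β ^ l)) (gen_ode d (Nat.lt_succ_self (l + m))))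
    rw [← add_assoc]
    convert this using 1
    funext b
    simp only [iterate_succ_apply', Pi.add_apply, Pi.smul_apply, map_sub,
      Derivation.leibniz, smul_eq_mul]
    ring

end

lemma inj_ode {E L : Type u} [Field E] [CharZero E] [Field L] [Algebra E L]
    [FiniteDimensional E L] (β : L) (hβ : E⟮β⟯ = ⊤) (x : L)
    (h : ∀ l < finrank E L, Algebra.trace E L (β ^ l * x) = 0) : x = 0 := by
  have hi : IsIntegral E β := IsIntegral.of_finite E β
  have ht : Algebra.adjoin E {β} = ⊤ := by
    rw [← IntermediateField.adjoin_simple_toSubalgebra_of_isAlgebraic hi.isAlgebraic, hβ]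
    rfl
  let pb := PowerBasis.ofAdjoinEqTop hi ht
  refine (traceForm_nondegenerate E L).2 x fun y => ?_
  have : (Algebra.traceForm E L).flip x = 0 := by
    refine pb.basis.ext fun i => ?_
    rw [pb.basis_eq_pow]
    exact h i (by rw [pb.finrank]; exact i.2)
  exact LinearMap.congr_fun this y

lemma vanish_ode {E L : Type u} [Field E] [CharZero E] [Field L] [Algebra E L]
    [FiniteDimensional E L] (d v : Derivation ℤ L L) (v' : Derivation ℤ E E)
    (cv : ∀ f, v (algebraMap E L f) = algebraMap E L (v' f)) (β b : L) (e : ℕ)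
    (h : ∀ l < e, Algebra.trace E L ((fun b => v b + d (β * b))^[l] b) = 0) (i : ℕ) :
    ∀ s, i + s < e →
      Algebra.trace E L (op_ode d v β i ((fun b => v b + d (β * b))^[s] b)) = 0 := by
  induction i with
  | zero => exact fun s hs => h s (by omega)
  | succ i ih =>
    intro s hs
    have h1 := ih (s + 1) (by omega)
    have h2 := ih s (by omega)
    rw [iterate_succ_apply'] at h1
    simp only [op_ode]
    rw [map_sub, h1, ← trace_der v v' cv, h2, map_zero, sub_zero]

lemma theta_ode {E L : Type u} [Field E] [CharZero E] [Field L] [Algebra E L]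
    [FiniteDimensional E L] (d v : Derivation ℤ L L) (d' v' : Derivation ℤ E E)
    (cd : ∀ f, d (algebraMap E L f) = algebraMap E L (d' f))
    (cv : ∀ f, v (algebraMap E L f) = algebraMap E L (v' f)) (comm : ∀ f, d (v f) = v (d f))
    (β : L) (hβ : E⟮β⟯ = ⊤) : ∃ Θ : (Fin (finrank E L) → L) →ₗ[E] L, ∀ b : L,
      (∀ l < finrank E L, Algebra.trace E L ((fun b => v b + d (β * b))^[l] b) = 0) →
      (d : L → L)^[finrank E L] b = Θ fun i => (d : L → L)^[i] b := by
  have hc : ∀ l : Fin (finrank E L), ∃ c : Fin (finrank E L) → L, ∀ b,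
      ∑ j, c j * (d : L → L)^[j] b = (d : L → L)^[finrank E L - l] (op_ode d v β l b) -
        β ^ (l : ℕ) * (d : L → L)^[finrank E L] b := by
    intro l
    have := lead'_ode d v comm β l (finrank E L - l)
    rw [Nat.add_sub_cancel' l.2.le] at this
    obtain ⟨c, hc⟩ := (mem_span_range_iff_exists_fun L).1 this
    refine ⟨c, fun b => ?_⟩
    simpa using congrFun hc b
  choose c hc using hc
  let T : L →ₗ[E] (Fin (finrank E L) → E) :=
    LinearMap.pi fun l => Algebra.trace E L ∘ₗ LinearMap.mulLeft E (β ^ (l : ℕ))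
  have hT : LinearMap.ker T = ⊥ := by
    rw [LinearMap.ker_eq_bot']
    intro x hx
    exact inj_ode β hβ x fun l hl => congrFun hx ⟨l, hl⟩
  obtain ⟨G, hG⟩ := T.exists_leftInverse_of_injective hT
  let θ : (Fin (finrank E L) → L) →ₗ[E] (Fin (finrank E L) → E) :=
    LinearMap.pi fun l => -(Algebra.trace E L ∘ₗ
      ∑ j, LinearMap.mulLeft E (c l j) ∘ₗ LinearMap.proj j)
  refine ⟨G ∘ₗ θ, fun b hb => ?_⟩
  have h1 : T ((d : L → L)^[finrank E L] b) = θ fun i => (d : L → L)^[i] b := by
    funext l
    have h2 : ∀ m : ℕ, Algebra.trace E L ((d : L → L)^[m] (op_ode d v β l b)) = 0 := by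
      intro m
      induction m with
      | zero => exact vanish_ode d v v' cv β b _ hb l 0 l.2
      | succ m ih => rw [iterate_succ_apply', ← trace_der d d' cd, ih, map_zero]
    have h3 := congrArg (Algebra.trace E L) (hc l b)
    rw [map_sub, h2, zero_sub] at h3
    simp only [T, θ, LinearMap.pi_apply, LinearMap.comp_apply, LinearMap.mulLeft_apply,
      LinearMap.neg_apply, LinearMap.sum_apply, LinearMap.proj_apply]
    rw [h3, neg_neg]
  rw [LinearMap.comp_apply, ← h1]
  exact (LinearMap.congr_fun hG _).symm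

/-- Let `𝓛 b = v b + d (β b)`, `e = finrank E L`. Define `Q 0 = trace`,
`Q (l + 1) b = Q l (𝓛 b) - v' (Q l b)`. By induction `Q l b = trace (β ^ l * d^[l] b + ∑ j < l,
c j * d^[j] b)` with coefficients independent of `b` (`trace_der`, Leibniz), and
`Q i (𝓛^[s] b) = 0` for `i + s < e`, `b ∈ U`. Applying `d'^[e - l]` and the dual basis of the powers
of `β` (`traceForm_nondegenerate`) gives `d^[e] b = Θ (b, d b, …, d^[e - 1] b)` with `Θ` linear over
`E`. So the vectors `(d^[i] b)_{i < e}` are horizontal in `Fin e → L`, and `hor_indep` applies. -/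
theorem ode_bound (d : Derivation k L L) (d' : Derivation k E E) (v : Derivation ℤ L L)
    (v' : Derivation ℤ E E) (cd : ∀ f, d (algebraMap E L f) = algebraMap E L (d' f))
    (cv : ∀ f, v (algebraMap E L f) = algebraMap E L (v' f))
    (hc : ∀ f, d' f = 0 → ∃ a : k, f = algebraMap k E a) (comm : ∀ f, d (v f) = v (d f))
    (β : L) (hβ : E⟮β⟯ = ⊤) (U : Submodule k L) [FiniteDimensional k U]
    (h : ∀ b ∈ U, ∀ l < finrank E L,
      Algebra.trace E L ((fun b => v b + d (β * b))^[l] b) = 0) :
    finrank k U ≤ finrank E L ^ 2 := by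
  have : CharZero E := charZero_of_injective_algebraMap (algebraMap k E).injective
  obtain ⟨Θ, hΘ⟩ := theta_ode (d.restrictScalars ℤ) v (d'.restrictScalars ℤ) v' cd cv comm β hβ
  simp only [Derivation.coe_restrictScalars] at hΘ
  have he : 0 < finrank E L := finrank_pos
  let S : (Fin (finrank E L) → L) →ₗ[E] (Fin (finrank E L) → L) := LinearMap.pi fun i =>
    if hi : (i : ℕ) + 1 < finrank E L then LinearMap.proj (⟨i + 1, hi⟩ : Fin (finrank E L)) else Θ
  let N : (Fin (finrank E L) → L) →+ (Fin (finrank E L) → L) :=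
    { toFun := fun y => (fun i => d (y i)) - S y
      map_zero' := by funext i; simp
      map_add' := fun x y => by
        funext i
        simp only [Pi.add_apply, Pi.sub_apply, map_add]
        ring }
  have hN : ∀ (a : E) (y : Fin (finrank E L) → L), N (a • y) = d' a • y + a • N y := by
    intro a y
    funext i
    change d (a • y i) - S (a • y) i = d' a • y i + a • (d (y i) - S y i)
    rw [S.map_smul, Pi.smul_apply]
    simp only [Algebra.smul_def (R := E), Derivation.leibniz, cd, smul_eq_mul]
    ring
  let Y : U →ₗ[k] (Fin (finrank E L) → L) :=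
    LinearMap.pi fun i => ((d : L →ₗ[k] L) ^ (i : ℕ)) ∘ₗ U.subtype
  have hY : ∀ (b : U) (i : Fin (finrank E L)), Y b i = (d : L → L)^[i] b := by
    intro b i
    change ((d : L →ₗ[k] L) ^ (i : ℕ)) (b : L) = _
    rw [Module.End.pow_apply]
    rfl
  have hYk : LinearMap.ker Y = ⊥ := by
    rw [LinearMap.ker_eq_bot']
    intro b hb
    have := hY b ⟨0, he⟩
    rw [hb] at this
    exact Subtype.ext this.symm
  have h0 : ∀ b : U, N (Y b) = 0 := by
    intro b
    funext i
    change d (Y b i) - S (Y b) i = 0
    rw [sub_eq_zero, hY, ← iterate_succ_apply' d]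
    simp only [S, LinearMap.pi_apply]
    split_ifs with hi
    · rw [LinearMap.proj_apply, hY]
    · have e1 : (i : ℕ).succ = finrank E L := by have := i.2; omega
      rw [e1, hΘ b (h b b.2)]
      exact congrArg Θ (funext fun j => (hY b j).symm)
  have h1 := hor_indep d' hc N hN (y := Y ∘ Module.finBasis k U) (fun i => h0 _)
    ((Module.finBasis k U).linearIndependent.map' Y hYk)
  have h2 := h1.fintype_card_le_finrank
  rw [Fintype.card_fin, Module.finrank_pi_fintype] at h2
  simpa [sq] using h2

end Pool.Agent.Lib.MP_13404a_ag.UB
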