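import Pool.Agent.Lib.MP_13404a_ag.UB.Sys

/-!
Orders of vanishing of quadratic differentials along the filtration.
-/

open Module Submodule Function Finsupp
open scoped IntermediateField Polynomial

namespace Pool.Agent.Lib.MP_13404a_ag.UB

open Pool.Agent.Lib.MP_15f242_ag

universe u

variable {k K : Type u} [Field k] [CharZero k] [Field K] [Algebra k K] [FF k K]
  {ι : Type} [Fintype ι] {δ : Derivation ℤ k k} {d : Derivation k K K} {v : Derivation ℤ K K}
  {c : K} {A F : (ι → k) →ₗ[k] K} {κ D : Div k K}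

/-- A derivation that is regular at `P` and kills a uniformiser has regular logarithmic values. -/
lemma log_mem_ordl {P : Pt k K} {π : K} (h0 : π ≠ 0) (hπ : po P π = -1) {E : Derivation ℤ K K}
    (hc : ∀ a, E (algebraMap k K a) ∈ P.1) (hE : E π = 0) {w : K} (w0 : w ≠ 0) :
    E w / w ∈ P.1 := by
  have p0 : π ^ po P w ≠ 0 := zpow_ne_zero _ h0
  have u0 : w * π ^ po P w ≠ 0 := mul_ne_zero w0 p0
  have hu : po P (w * π ^ po P w) = 0 := by
    rw [po_mul P w0 p0, po_zpow, hπ]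
    ring
  have h1 := der_mem h0 hπ hc (hE ▸ zero_mem _) (mem_iff_po.2 hu.le)
  have h2 : (w * π ^ po P w)⁻¹ ∈ P.1 := mem_iff_po.2 (by rw [po_inv, hu]; simp)
  convert mul_mem h1 h2 using 1
  rw [E.leibniz, E.leibniz_zpow, hE]
  simp only [smul_eq_mul, smul_zero, mul_zero, zero_add]
  field_simp

/-- With `s = d π` and `a = Q / s ^ 2` one has
`(v Q + 2 c Q) / s ^ 2 = v a + 2 (d (v π) / s) a`. Write `a = π ^ σ a₀`, `v π = π ^ (-n) u` with
units `a₀, u`: the right side is `(σ - 2 n) π ^ (σ - n - 1) u a₀` plus terms of higher order. -/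
lemma Sys.po_lie (S : Sys δ d v c A F) (hκ : IsK d κ) (hD : IsD v D) {P : Pt k K}
    (hP : 0 < D P) {Q : K} (hQ : Q ≠ 0) (h : po P Q ≠ 2 * κ P - 2 * D P) :
    v Q + 2 * c * Q ≠ 0 ∧ po P (v Q + 2 * c * Q) = po P Q + D P + 1 := by
  obtain ⟨π, h0, hπ⟩ := exists_po P (-1)
  have hn : D P = po P (v π) := by have := hD P π hπ; omega
  have hpos : 0 < po P (v π) := hn ▸ hP
  have ho := S.ord hπ hpos
  obtain ⟨s0, hs⟩ := hκ.unif hπ
  have w0 : v π ≠ 0 := fun e => by simp [e, po] at hpos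
  have hcomm := S.comm π
  have hE := log_mem_ordl h0 hπ (E := sh v (-(v π / d π)) d) (fun a => by
    rw [sh_apply, S.ext, d.map_algebraMap, mul_zero, add_zero]
    exact P.1.algebraMap_mem _) (by rw [sh_apply]; field_simp; ring) w0
  rw [sh_apply] at hE
  generalize v π = w at *
  generalize d π = s at *
  have t0 : w / s ≠ 0 := div_ne_zero w0 s0
  have ht : po P (w / s) = D P - κ P := by
    rw [div_eq_mul_inv, po_mul P w0 (inv_ne_zero s0), po_inv]
    omega
  obtain ⟨b, hb⟩ : ∃ b, b = Q * (w / s) ^ 2 := ⟨_, rfl⟩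
  have b0 : b ≠ 0 := hb ▸ mul_ne_zero hQ (pow_ne_zero 2 t0)
  have hpb : po P b = po P Q + 2 * (D P - κ P) := by
    rw [hb, po_mul P hQ (pow_ne_zero 2 t0), po_pow, ht]
    norm_num
  obtain ⟨vb0, hvb⟩ := ho.po_eq b (by omega)
  have e1 : b * s ^ 2 = Q * w ^ 2 := by rw [hb]; field_simp
  have e2 := congrArg v e1
  simp only [v.leibniz, v.leibniz_pow, smul_eq_mul, nsmul_eq_mul, Nat.cast_ofNat,
    Nat.add_one_sub_one, pow_one] at e2
  obtain ⟨e, he⟩ : ∃ e, e = -2 * ((v w + -(w / s) * d w) / w) := ⟨_, rfl⟩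
  have hem : e ∈ P.1 := he ▸ mul_mem (by simp) hE
  have e3 : (v Q + 2 * c * Q) * (w / s) ^ 2 = b * e + v b := by
    rw [he, hcomm]
    field_simp
    linear_combination (-w) * e2 + (2 * v w - 2 * c * w) * e1
  have h4 : b * e + v b ≠ 0 ∧ po P (b * e + v b) = po P (v b) := by
    rcases eq_or_ne e 0 with rfl | e0
    · simpa using vb0
    refine po_add (mul_ne_zero b0 e0) vb0 ?_
    have := mem_iff_po.1 hem
    rw [po_mul P b0 e0]
    omega
  rw [← e3] at h4
  have L0 : v Q + 2 * c * Q ≠ 0 := left_ne_zero_of_mul h4.1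
  refine ⟨L0, ?_⟩
  have h5 := h4.2
  rw [po_mul P L0 (pow_ne_zero 2 t0), po_pow, ht] at h5
  push_cast at h5
  omega

omit [CharZero k] [Fintype ι] in
lemma Sys.lie_mem_ordl (S : Sys δ d v c A F) {U V : Submodule k (ι → k)}
    (h : ∀ a ∈ V, a ∈ U ∧ d (F a) = 0 ∧ nab δ a ∈ U) {Q : K}
    (hQ : Q ∈ (V.map A * V.map A : Submodule k K)) :
    v Q + 2 * c * Q ∈ (U.map A * U.map A : Submodule k K) := by
  refine Submodule.mul_induction_on hQ ?_ fun x y hx hy => ?_
  · rintro _ ⟨a, ha, rfl⟩ _ ⟨b, hb, rfl⟩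
    have h1 := S.lie a
    have h2 := S.lie b
    rw [(h a ha).2.1, add_zero] at h1
    rw [(h b hb).2.1, add_zero] at h2
    have e : v (A a * A b) + 2 * c * (A a * A b) = A (nab δ a) * A b + A a * A (nab δ b) := by
      rw [v.leibniz, ← h1, ← h2, smul_eq_mul, smul_eq_mul]
      ring
    rw [e]
    exact add_mem (mul_mem_mul ⟨_, (h a ha).2.2, rfl⟩ ⟨_, (h b hb).1, rfl⟩)
      (mul_mem_mul ⟨_, (h a ha).1, rfl⟩ ⟨_, (h b hb).2.2, rfl⟩)
  · convert add_mem hx hy using 1
    rw [map_add]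
    ring

lemma Sys.sq_le_ordl (S : Sys δ d v c A F) (hκ : IsK d κ) (hD : IsD v D)
    {V : Submodule k (ι → k)} (h : ∀ a ∈ V, d (F a) = 0) :
    (V.map A * V.map A : Submodule k K) ≤ H0 (OD (κ - D + (κ - D))) := by
  refine Submodule.mul_le.2 ?_
  rintro _ ⟨a, ha, rfl⟩ _ ⟨b, hb, rfl⟩
  exact mem_L.2 fun P => mul_mem_fil (mem_L.1 (S.mem_M hκ hD (h a ha)) P)
    (mem_L.1 (S.mem_M hκ hD (h b hb)) P)

lemma Sys.orders_ordl (S : Sys δ d v c A F) (hκ : IsK d κ) (hD : IsD v D)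
    {U : ℕ → Submodule k (ι → k)}
    (hU : ∀ i, ∀ a ∈ U (i + 1), a ∈ U i ∧ d (F a) = 0 ∧ nab δ a ∈ U i) {P : Pt k K}
    (hP : 0 < D P) (j : ℕ) : ∀ Q ∈ ((U (j + 1)).map A * (U (j + 1)).map A : Submodule k K),
      Q ≠ 0 → po P Q ≤ 2 * κ P - 2 * D P - j * (D P + 1) ∨
        ∃ i < j, 2 * κ P - 2 * D P - i * (D P + 1) = po P Q := by
  induction j with
  | zero =>
    intro Q hQ Q0
    have := (mem_fil Q0).1 (mem_L.1 (S.sq_le_ordl hκ hD (fun a ha => (hU 0 a ha).2.1) hQ) P)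
    simp only [Finsupp.add_apply, Finsupp.sub_apply] at this
    left
    push_cast
    omega
  | succ j ih =>
    intro Q hQ Q0
    by_cases h : po P Q = 2 * κ P - 2 * D P
    · exact .inr ⟨0, j.succ_pos, by simp [h]⟩
    obtain ⟨h1, h2⟩ := S.po_lie hκ hD hP Q0 h
    rcases ih _ (S.lie_mem_ordl (hU (j + 1)) hQ) h1 with h3 | ⟨i, h3, h4⟩
    · left
      push_cast
      linarith
    · refine .inr ⟨i + 1, by omega, ?_⟩
      push_cast
      linarith

/-- For `T i = (U i).map A * (U i).map A` the operator `Q ↦ v Q + 2 c Q` maps `T (i + 1)` to `T i`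
and `T (i + 1) ≤ H0 (OD (2 • (κ - D)))`. By induction on `j`, at a point with `n = D P > 0` the pole
order of a nonzero `Q ∈ T (j + 1)` is `2 κ P - 2 n - i (n + 1)` with `i < j`, or at most
`2 κ P - 2 n - j (n + 1)`. Then `finrank_le_orders` with `Z = D.support` and `ll_bound`. -/
theorem Sys.quad_bound (S : Sys δ d v c A F) (hD : IsD v D) {U : ℕ → Submodule k (ι → k)}
    (hU : ∀ i, ∀ a ∈ U (i + 1), a ∈ U i ∧ d (F a) = 0 ∧ nab δ a ∈ U i) (j : ℕ)
    (hj : (j + 1 : ℤ) * degree D ≤ 2 * gn k K - 2) :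
    (finrank k ((U (j + 1)).map A * (U (j + 1)).map A : Submodule k K) : ℤ) +
        (j + 2) * degree D + 3 ≤ 3 * gn k K ∨
      (finrank k ((U (j + 1)).map A * (U (j + 1)).map A : Submodule k K) : ℤ) +
        degree D + 1 ≤ 2 * gn k K := by
  classical
  obtain ⟨κ, hκ⟩ := exists_isK S.d0
  have hle := S.sq_le_ordl hκ hD fun a ha => (hU j a ha).2.1
  have := Submodule.finiteDimensional_of_le hle
  have hD0 := hD.nonneg
  obtain ⟨Z, hZ⟩ : ∃ Z : Div k K, Z = ∑ P ∈ D.support, single P 1 := ⟨_, rfl⟩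
  have hZ1 : ∀ P, Z P = if P ∈ D.support then 1 else 0 := fun P => by
    simp only [hZ, Finsupp.finsetSum_apply, single_apply, Finset.sum_ite_eq']
  have hZ2 : degree Z = D.support.card := by simp [hZ, map_sum]
  have hZ3 : degree Z ≤ degree D := MP_15f242_ag.degree_mono fun P => by
    have h1 : 0 ≤ D P := hD0 P
    rw [hZ1]
    split_ifs with h
    · have := mem_support_iff.1 h
      omega
    · exact h1
  obtain ⟨B, hB⟩ : ∃ B : Div k K, B = (2 : ℤ) • κ - (j + 2 : ℤ) • D - (j : ℤ) • Z := ⟨_, rfl⟩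
  have hB1 : degree B = 2 * (2 * gn k K - 2) - (j + 2) * degree D - j * degree Z := by
    simp only [hB, map_sub, map_zsmul, smul_eq_mul, hκ.degree_eq]
  have h1 := finrank_le_orders _ B D.support
    (fun P => (Finset.range j).image fun i : ℕ => 2 * κ P - 2 * D P - i * (D P + 1))
    fun Q hQ Q0 P => by
      have h2 : 0 ≤ D P := hD0 P
      have h3 : B P = 2 * κ P - (j + 2) * D P - j * Z P := by simp [hB]
      by_cases h : P ∈ D.support
      · have h4 := mem_support_iff.1 h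
        rw [hZ1, if_pos h] at h3
        refine (S.orders_ordl hκ hD hU (by omega) j Q hQ Q0).imp (fun h5 => by linarith)
          fun ⟨i, h5, h6⟩ => ⟨h, Finset.mem_image.2 ⟨i, Finset.mem_range.2 h5, h6⟩⟩
      · have h4 := notMem_support_iff.1 h
        have h5 := (mem_fil Q0).1 (mem_L.1 (hle hQ) P)
        simp only [Finsupp.add_apply, Finsupp.sub_apply] at h5
        rw [hZ1, if_neg h, h4] at h3
        left
        linarith
  have h2 : ∑ P ∈ D.support, ((Finset.range j).image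
      fun i : ℕ => 2 * κ P - 2 * D P - i * (D P + 1)).card ≤ D.support.card * j :=
    (Finset.sum_le_card_nsmul _ _ j fun P _ => Finset.card_image_le.trans
      (Finset.card_range j).le).trans (smul_eq_mul _ _).le
  have h3 : (finrank k ((U (j + 1)).map A * (U (j + 1)).map A : Submodule k K) : ℤ) ≤
      ll B + j * degree Z := by
    rw [hZ2, mul_comm (j : ℤ)]
    exact_mod_cast h1.trans (Nat.add_le_add_left h2 _)
  have h4 : (j : ℤ) * degree Z ≤ j * degree D := mul_le_mul_of_nonneg_left hZ3 (by positivity)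
  rcases ll_bound (D := B) (by linarith) with h5 | h5
  · left
    linarith
  · right
    linarith

end Pool.Agent.Lib.MP_13404a_ag.UB
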