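import Pool.Agent.Lib.MP_13404a_ag.UB.Gen

/-!
The image of the Petri map for a divisor through independent points.
-/

open Module Submodule Function Finsupp
open scoped IntermediateField Polynomial

namespace Pool.Agent.Lib.MP_13404a_ag.UB

open Pool.Agent.Lib.MP_15f242_ag

universe u

variable {k K : Type u} [Field k] [CharZero k] [Field K] [Algebra k K] [FF k K]
  {d : Derivation k K K} {κ : Div k K}

/-- `ii κ = 1` and `ii 0 = gn k K` by `rr_formula`; `finrank_Om`, `sm_mem`, `sm_inj`. -/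
lemma IsK.exists_weil (hκ : IsK d κ) : ∃ ω : Dual k (AA k K), ω ∈ Om κ ∧
    ∀ η ∈ Om (0 : Div k K), ∃ y ∈ H0 (OD κ), η = sm ω y := by
  have h1 := rr_formula κ
  have h2 := rr_formula (0 : Div k K)
  have h0 := hκ.ll_eq
  rw [h0, hκ.degree_eq, gen_eq, ← (finrank_Om κ).2] at h1
  rw [ll_zero, map_zero, gen_eq, ← (finrank_Om _).2] at h2
  have := (finrank_Om κ).1
  have := (finrank_Om (0 : Div k K)).1
  obtain ⟨⟨ω, hω⟩, h3⟩ := (finrank_pos_iff_exists_ne_zero (R := k) (M := Om κ)).1 (by omega)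
  have h4 : ω ≠ 0 := by simpa using h3
  have h5 : (H0 (OD κ)).map (sm ω) = Om (0 : Div k K) := eq_of_le_of_finrank_eq
    (map_le_iff_le_comap.2 fun _ hx => by simpa using sm_mem hω hx) (by
      rw [← (equivMapOfInjective _ (sm_inj h4) _).finrank_eq, ← ll]; omega)
  refine ⟨ω, hω, fun η hη => ?_⟩
  obtain ⟨y, hy, e⟩ := mem_map.1 (h5.ge hη)
  exact ⟨y, hy, e.symm⟩

lemma key_pet {Q : Pt k K} {w : Derivation ℤ K K} (hw : ∀ f ∈ Q.1, w f ∈ Q.1) {t f : K}
    (ht : po Q t = -1) {n : ℤ} (hf : f ∈ fil Q n) : n * w t / t * f + w f ∈ fil Q n := by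
  have t0 : t ≠ 0 := fun e => by simp [e, po] at ht
  have h1 : po Q (t ^ n) = -n := by rw [po_zpow, ht]; ring
  have h2 : t ^ n * f ∈ fil Q 0 := by
    have := (mul_mem_fil_iff (P := Q) (n := n) (y := f) (zpow_ne_zero n t0)).2 hf
    rwa [h1, add_neg_cancel] at this
  have h3 := mem_fil_zero.2 (hw _ (mem_fil_zero.1 h2))
  rw [← mul_mem_fil_iff (zpow_ne_zero n t0), h1, add_neg_cancel]
  convert h3 using 1
  rw [Derivation.leibniz, Derivation.leibniz_zpow, zpow_sub₀ t0]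
  simp only [smul_eq_mul, zsmul_eq_mul, zpow_one]
  field_simp
  ring

/-- Choose uniformisers `ϖ Q` with `ϖ (P j) = π j` (`Function.extend`). For `a : Fin z → k` let
`W a = ∑ a i • w i` and let `Θ a` be the adele `Q ↦ Δ Q * W a (ϖ Q) / ϖ Q`; `Θ` is linear. For
`f ∈ L Δ` apply `W a` to `f * ϖ Q ^ Δ Q ∈ Q.1`: `Θ a Q * f + W a f ∈ fil Q (Δ Q)`. -/
lemma Gp.exists_theta {z : ℕ} {P : Fin z → Pt k K} {w : Fin z → Derivation ℤ K K} {π : Fin z → K}
    (G : Gp P w π) {Δ : Div k K} (h0 : 0 ≤ Δ) (h1 : ∀ j, 0 < Δ (P j)) :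
    ∃ Θ : (Fin z → k) →ₗ[k] AA k K, (∀ a, (Θ a).1 ∈ hat (OD (0 : Div k K)) → a = 0) ∧
      (∀ a, (Θ a).1 ∈ hat (OD Δ)) ∧ ∀ a, ∀ f ∈ H0 (OD Δ),
        (mu (isBundle_OD 0) f (Θ a)).1 ∈ TT (OD Δ) := by
  choose t t0 ht using fun Q : Pt k K => exists_po Q (-1)
  have h2 : ∀ Q, po Q (extend P π t Q) = -1 := fun Q => by
    by_cases h : ∃ j, P j = Q
    · obtain ⟨j, rfl⟩ := h
      rw [G.inj.extend_apply, G.unif]
    · rw [extend_apply' _ _ _ h, ht]
  have h3 : ∀ j, extend P π t (P j) = π j := fun j => G.inj.extend_apply _ _ j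
  generalize extend P π t = ϖ at h2 h3
  let θ : Fin z → AA k K := fun i => ⟨fun Q => Δ Q * w i (ϖ Q) / ϖ Q,
    mem_Ad.2 (Δ.support.eventually_cofinite_notMem.mono fun Q h => by
      simp [notMem_support_iff.1 h])⟩
  have h4 : ∀ i Q, (θ i).1 Q = Δ Q * w i (ϖ Q) / ϖ Q := fun _ _ => rfl
  refine ⟨Fintype.linearCombination k θ, fun a ha => funext fun j => ?_, fun a => ?_,
    fun a f hf => ?_⟩
  · have π0 : π j ≠ 0 := fun e => by simpa [e, po] using G.unif j
    have h5 : (Fintype.linearCombination k θ a).1 (P j) * π j =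
        algebraMap k K (a j * Δ (P j)) := by
      simp [Fintype.linearCombination_apply, h4, h3, G.dual, Algebra.smul_def, π0, mul_assoc,
        ite_div]
    have h6 := mul_fil (mem_fil_zero.1 (mem_hat.1 ha (P j))) (mem_fil_of (G.unif j).le)
    rw [h5] at h6
    exact (mul_eq_zero.1 (const_eq_zero h6)).resolve_right (Int.cast_ne_zero.2 (h1 j).ne')
  · rw [Fintype.linearCombination_apply, Submodule.coe_sum]
    refine sum_mem fun i _ => smul_mem _ (a i) (mem_hat.2 fun Q => ?_)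
    rw [h4]
    rcases (show (0 : ℤ) ≤ Δ Q from h0 Q).eq_or_lt with e | e
    · simp [← e]
    · rw [div_eq_mul_inv]
      exact mul_fil (mul_mem (intCast_mem _ _) (G.reg i Q _ (mem_iff_po.2 (by rw [h2]; omega))))
        (mem_fil_of (by rw [po_inv, h2]; omega))
  · rw [Fintype.linearCombination_apply, map_sum, Submodule.coe_sum]
    refine sum_mem fun i _ => ?_
    rw [map_smul]
    refine smul_mem _ (a i) (mem_sup.2 ⟨fun Q => Δ Q * w i (ϖ Q) / ϖ Q * f + w i f,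
      mem_hat.2 fun Q => key_pet (G.reg i Q) (h2 Q) (mem_L.1 hf Q), _, ⟨-w i f, rfl⟩,
      funext fun Q => ?_⟩)
    exact add_neg_cancel_right _ _

/-- `Ξ a = (y ↦ sm ω y (Θ a))` is a linear map to the dual of `L κ`. Its range annihilates the
product (`sm_mul`, `sm_mem`), so its rank is at most `g` minus the dimension of the product. If
`Ξ a = 0` then `Θ a ∈ TT (OD 0)` (`Subspace.dualAnnihilator_dualCoannihilator_eq`). The space of
pairs `(a, φ)` with `Θ a - dg φ ∈ hat (OD 0)` injects into `L Δ` and maps onto `ker Ξ` with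
`(0, 1)` in the kernel. -/
theorem Gp.petri {z : ℕ} {P : Fin z → Pt k K} {w : Fin z → Derivation ℤ K K} {π : Fin z → K}
    (G : Gp P w π) (hκ : IsK d κ) {Δ : Div k K} (h0 : 0 ≤ Δ) (h1 : ∀ j, 0 < Δ (P j)) :
    z + finrank k (H0 (OD Δ) * H0 (OD (κ - Δ)) : Submodule k K) + 1 ≤ ll Δ + gn k K := by
  obtain ⟨ω, w1, w2⟩ := hκ.exists_weil
  obtain ⟨Θ, t1, t2, t3⟩ := G.exists_theta h0 h1
  let Ξ : (Fin z → k) →ₗ[k] Dual k (H0 (OD κ)) := (sm ω ∘ₗ (H0 (OD κ)).subtype).flip ∘ₗ Θ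
  have hΞ : ∀ a y, Ξ a y = sm ω y.1 (Θ a) := fun _ _ => rfl
  have hM : (H0 (OD Δ) * H0 (OD (κ - Δ)) : Submodule k K) ≤ H0 (OD κ) :=
    Submodule.mul_le.2 fun x hx y hy => mem_L.2 fun Q => by
      simpa using mul_mem_fil (mem_L.1 hx Q) (mem_L.1 hy Q)
  have h2 : LinearMap.range Ξ ≤ ((H0 (OD Δ) * H0 (OD (κ - Δ)) : Submodule k K).comap
      (H0 (OD κ)).subtype).dualAnnihilator := by
    rintro _ ⟨a, rfl⟩
    refine (mem_dualAnnihilator _).2 fun y hy => ?_
    rw [hΞ]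
    refine Submodule.mul_induction_on (C := fun y => sm ω y (Θ a) = 0) hy (fun f hf g hg => ?_)
      fun x y hx hy => by rw [map_add, LinearMap.add_apply, hx, hy, add_zero]
    rw [sm_mul, sm_apply]
    exact mem_Om.1 (by simpa using sm_mem w1 hg) _ (t3 a f hf)
  have h3 := finrank_mono h2
  have h4 := Subspace.finrank_add_finrank_dualAnnihilator_eq
    ((H0 (OD Δ) * H0 (OD (κ - Δ)) : Submodule k K).comap (H0 (OD κ)).subtype)
  rw [(comapSubtypeEquivOfLe hM).finrank_eq, ← ll, hκ.ll_eq] at h4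
  have h5 := Ξ.finrank_range_add_finrank_ker
  rw [finrank_fin_fun] at h5
  let S : Submodule k ((Fin z → k) × K) := (hat (OD (0 : Div k K))).comap
    (LinearMap.coprod ((AA k K).subtype ∘ₗ Θ) (-dg k K K))
  have hS : ∀ x : (Fin z → k) × K, x ∈ S ↔ (Θ x.1).1 + -dg k K K x.2 ∈ hat (OD (0 : Div k K)) :=
    fun _ => Iff.rfl
  let q : S →ₗ[k] H0 (OD Δ) := (LinearMap.snd k _ _).restrict fun x hx => mem_L.2 fun Q => by
    have := sub_mem (mem_hat.1 (t2 x.1) Q) (fil_mono Q (h0 Q) (mem_hat.1 ((hS x).1 hx) Q))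
    simpa [dg, OD] using this
  have h6 : Injective q := (injective_iff_map_eq_zero _).2 fun x hx => by
    have e : x.1.2 = 0 := congrArg Subtype.val hx
    have := (hS _).1 x.2
    rw [e, map_zero, neg_zero, add_zero] at this
    exact Subtype.ext (Prod.ext (t1 _ this) e)
  have := Module.Finite.of_injective q h6
  have h7 := q.finrank_le_finrank_of_injective h6
  let p : S →ₗ[k] (Fin z → k) := LinearMap.fst k _ _ ∘ₗ S.subtype
  have h8 : LinearMap.ker Ξ ≤ LinearMap.range p := fun a ha => by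
    have h9 := (Subspace.forall_mem_dualAnnihilator_apply_eq_zero_iff
      ((TT (OD (0 : Div k K))).comap (AA k K).subtype) (Θ a)).1 fun η hη => by
        obtain ⟨y, hy, rfl⟩ := w2 η hη
        exact LinearMap.congr_fun (LinearMap.mem_ker.1 ha) ⟨y, hy⟩
    obtain ⟨b, hb, _, ⟨φ, rfl⟩, e⟩ := mem_sup.1 (mem_comap.1 h9)
    refine ⟨⟨(a, φ), (hS _).2 ?_⟩, rfl⟩
    rwa [show (Θ a).1 = b + dg k K K φ from e.symm, add_neg_cancel_right]
  have h9 : 0 < finrank k (LinearMap.ker p) :=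
    (finrank_pos_iff_exists_ne_zero (R := k) (M := LinearMap.ker p)).2
      ⟨⟨⟨(0, 1), (hS _).2 (mem_hat.2 fun Q => mem_fil_zero.2 (by simp [dg]))⟩, rfl⟩,
        fun e => one_ne_zero (congrArg (fun x : LinearMap.ker p => x.1.1.2) e)⟩
  have h10 := finrank_mono h8
  have h11 := p.finrank_range_add_finrank_ker
  rw [← ll] at h7
  omega

end Pool.Agent.Lib.MP_13404a_ag.UB
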