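import Pool.Agent.Lib.MP_13404a_ag.UB.CaC

/-!
All the points of the generic hyperplane section.
-/

open Module Submodule Function Finsupp
open scoped IntermediateField Polynomial

namespace Pool.Agent.Lib.MP_13404a_ag.UB

open Pool.Agent.Lib.MP_15f242_ag

universe u

variable {k E K : Type u} [Field k] [CharZero k] [Field E] [Algebra k E] [FF k E] [Field K]
  [Algebra k K] [Algebra E K] [IsScalarTower k E K]

/-- Coordinates in a basis `γ` of `L / F`, `linearIndependent_algebraMap_comp_iff`; the square matrix
`τ (γ j)` is invertible (`linearIndependent_toLinearMap`, `AlgHom.card`). -/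
lemma indep_emb {F L Ω : Type u} [Field F] [CharZero F] [Field L] [Algebra F L]
    [FiniteDimensional F L] [Field Ω] [Algebra F Ω] [IsAlgClosed Ω] {I J : Type} [Fintype I]
    [Fintype J] {x : J → I → L} (hx : LinearIndependent F x) :
    LinearIndependent Ω fun (s : J) (p : (L →ₐ[F] Ω) × I) => p.1 (x s p.2) := by
  classical
  let γ := finBasis F L
  let ε : Fin (finrank F L) ≃ (L →ₐ[F] Ω) :=
    Fintype.equivOfCardEq (by rw [AlgHom.card, Fintype.card_fin])
  have hdet : (Algebra.embeddingsMatrixReindex F Ω γ ε).det ≠ 0 := fun h => by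
    have h1 := Algebra.discr_eq_det_embeddingsMatrixReindex_pow_two F Ω γ ε
    rw [h, zero_pow two_ne_zero, map_eq_zero] at h1
    exact Algebra.discr_not_zero_of_basis F γ h1
  have ha : LinearIndependent F fun (s : J) (p : I × Fin (finrank F L)) =>
      γ.repr (x s p.1) p.2 := by
    rw [Fintype.linearIndependent_iff] at hx ⊢
    intro g hg
    refine hx g (funext fun i => γ.repr.injective (Finsupp.ext fun j => ?_))
    have := congrFun hg (i, j)
    rw [Finset.sum_apply] at this
    rw [Finset.sum_apply, map_sum, Finsupp.finsetSum_apply]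
    simpa using this
  have hb := (linearIndependent_algebraMap_comp_iff (S := Ω)).2 ha
  rw [Fintype.linearIndependent_iff] at hb ⊢
  intro g hg
  refine hb g (funext fun p => ?_)
  have h2 : Matrix.vecMul (fun j => ∑ s, g s * algebraMap F Ω (γ.repr (x s p.1) j))
      (Algebra.embeddingsMatrixReindex F Ω γ ε) = 0 := by
    funext l
    have := congrFun hg (ε l, p.1)
    rw [Finset.sum_apply] at this
    refine Eq.trans ?_ this
    simp only [Matrix.vecMul, dotProduct, Finset.sum_mul]
    rw [Finset.sum_comm]
    refine Finset.sum_congr rfl fun s _ => ?_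
    change _ = g s * ε l (x s p.1)
    conv_rhs => rw [← γ.sum_repr (x s p.1), map_sum, Finset.mul_sum]
    refine Finset.sum_congr rfl fun j _ => ?_
    rw [map_smul, Algebra.smul_def, mul_assoc]
    rfl
  have h3 := congrFun (Matrix.eq_zero_of_vecMul_eq_zero hdet h2) p.2
  rw [Finset.sum_apply]
  exact h3

omit [FF k E] in
/-- A relation on the coordinates gives a relation over `K`. -/
lemma lift_rel_ptb {r : ℕ} (φ : Fin r → E) (c : Fin r → k) {I : Type} [Fintype I]
    (e : Basis I E K) {β : ℕ} (b : Fin β → K)
    (hb : ∀ q : Fin β → k[X], ∑ s, Polynomial.aeval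
      (algebraMap E K (∑ i, c i • φ i)) (q s) * b s = 0 → q = 0)
    (q : Fin β → MvPolynomial (Option (Fin r)) k)
    (hq : ∀ j, ∑ s, MvPolynomial.aeval (fun o : Option (Fin r) => o.elim
      (∑ i, MvPolynomial.X i * MvPolynomial.C (φ i)) MvPolynomial.X) (q s) *
        MvPolynomial.C (e.repr (b s) j) = (0 : MvPolynomial (Fin r) E)) : q = 0 := by
  classical
  let μ : MvPolynomial (Fin r) E →ₐ[k] MvPolynomial (Fin r) K :=
    MvPolynomial.mapAlgHom (IsScalarTower.toAlgHom k E K)
  have hμ : ∀ a : E, μ (MvPolynomial.C a) = MvPolynomial.C (algebraMap E K a) := fun a => by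
    simp [μ]
  have hX : ∀ i, μ (MvPolynomial.X i) = MvPolynomial.X i := fun i => by simp [μ]
  have hy : algebraMap E K (∑ i, c i • φ i) = ∑ i, c i • algebraMap E K (φ i) := by
    rw [map_sum]
    exact Finset.sum_congr rfl fun i _ => by
      rw [Algebra.smul_def, Algebra.smul_def, map_mul, ← IsScalarTower.algebraMap_apply]
  have hev : ∀ p : MvPolynomial (Option (Fin r)) k,
      μ (MvPolynomial.aeval (fun o : Option (Fin r) => o.elim
        (∑ i, MvPolynomial.X i * MvPolynomial.C (φ i)) MvPolynomial.X) p) =
      MvPolynomial.aeval (fun o : Option (Fin r) => o.elim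
        (∑ i, MvPolynomial.X i * MvPolynomial.C (algebraMap E K (φ i))) MvPolynomial.X) p :=
    fun p => by
      rw [← AlgHom.comp_apply, MvPolynomial.comp_aeval]
      congr 2
      funext o
      cases o with
      | none =>
        simp only [Option.elim, map_sum, map_mul, hμ, hX]
      | some i => exact hX i
  refine indep_generic (fun i => algebraMap E K (φ i)) c (b := b) (fun p hp => hb p ?_) q ?_
  · rw [hy]; exact hp
  · have h1 : ∑ j, μ (∑ s, MvPolynomial.aeval (fun o : Option (Fin r) => o.elim
        (∑ i, MvPolynomial.X i * MvPolynomial.C (φ i)) MvPolynomial.X) (q s) *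
          MvPolynomial.C (e.repr (b s) j)) * MvPolynomial.C (e j) = 0 :=
      Finset.sum_eq_zero fun j _ => by rw [hq j, map_zero, zero_mul]
    rw [← h1]
    simp only [map_sum μ, Finset.sum_mul]
    rw [Finset.sum_comm]
    refine Finset.sum_congr rfl fun s _ => ?_
    conv_lhs => rw [← e.sum_repr (b s), map_sum MvPolynomial.C, Finset.mul_sum]
    refine Finset.sum_congr rfl fun j _ => ?_
    rw [map_mul μ, hev, hμ, Algebra.smul_def, map_mul, mul_assoc]

/-- As `exists_points` for the field `E`, with all the embeddings of `L` over `F`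
(`Fintype.equivFin`). For the last part: by `indep_emb` it is enough that the vectors
`i ↦ algebraMap E L (e.repr (b s) i)` are independent over `F`. Clear denominators as in `hli`, map
the relations in `MvPolynomial (Fin r) E` to `MvPolynomial (Fin r) K`, multiply by `C (e i)`, sum and
apply `indep_generic` in `K` to `algebraMap E K ∘ φ`. -/
theorem exists_points' {r : ℕ} (φ : Fin r → E)
    (hg : IntermediateField.adjoin k (Set.range φ) = ⊤) (c : Fin r → k)
    (hy : Transcendental k (∑ i, c i • φ i)) {I : Type} [Fintype I] (e : Basis I E K) :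
    ∃ (Ω : Type u) (_ : Field Ω) (_ : Algebra k Ω) (t : Option (Fin r) → Ω) (N : ℕ)
      (σ : Fin N → E →ₐ[k] Ω), IsTranscendenceBasis k t ∧ Injective σ ∧
      (∀ l, ∑ i, t (some i) * σ l (φ i) = t none) ∧ finrank k⟮∑ i, c i • φ i⟯ E ≤ N ∧
      ∀ (β : ℕ) (b : Fin β → K), (∀ q : Fin β → k[X], ∑ s, Polynomial.aeval
        (algebraMap E K (∑ i, c i • φ i)) (q s) * b s = 0 → q = 0) →
        LinearIndependent Ω fun (s : Fin β) (p : Fin N × I) => σ p.1 (e.repr (b s) p.2) := by
  classical
  set y := ∑ i, c i • φ i with hy0
  let A := MvPolynomial (Fin r) E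
  let L := FractionRing A
  let Ω := AlgebraicClosure L
  let t₁ : Option (Fin r) → A := fun o => o.elim
    (∑ i, MvPolynomial.X i * MvPolynomial.C (φ i)) MvPolynomial.X
  let t₀ : Option (Fin r) → L := fun o => algebraMap A L (t₁ o)
  have hev : ∀ q : MvPolynomial (Option (Fin r)) k,
      MvPolynomial.aeval t₀ q = algebraMap A L (MvPolynomial.aeval t₁ q) := fun q =>
    MvPolynomial.aeval_algebraMap_apply L t₁ q
  have hinj := IsFractionRing.injective A L
  have hind : AlgebraicIndependent k t₀ := algebraicIndependent_iff.2 fun q hq =>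
    congrFun (indep_generic φ c (J := Unit) (b := fun _ => 1)
      (fun q h => funext fun s => transcendental_iff.1 hy _ (by simpa using h)) (fun _ => q)
      (by simpa using hinj ((hev q).symm.trans (hq.trans (map_zero _).symm)))) ()
  have hK : IsTranscendenceBasis k fun _ : Unit => y :=
    (algebraicIndependent_unique_type_iff.2 hy).isTranscendenceBasis_iff_isAlgebraic.2
      (by rw [Set.range_const]; exact ⟨alg_adjoin hy⟩)
  have : Algebra.IsAlgebraic A L := IsLocalization.isAlgebraic L (nonZeroDivisors A)
  have hL := hK.sumElim_comp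
    ((IsTranscendenceBasis.mvPolynomial (Fin r) E).algebraMap_comp (A := L))
  have hB : IsTranscendenceBasis k t₀ := hind.isTranscendenceBasis_of_lift_trdeg_le_of_finite (by
    rw [← hL.lift_cardinalMk_eq_trdeg]
    simp)
  let F := IntermediateField.adjoin k (Set.range t₀)
  have hF : ∀ o, t₀ o ∈ F := fun o => IntermediateField.subset_adjoin _ _ ⟨o, rfl⟩
  have halg : Algebra.IsAlgebraic F L := hB.isAlgebraic_field
  have hC : ∀ a : E, algebraMap A L (MvPolynomial.C a) = algebraMap E L a := fun a =>
    (IsScalarTower.algebraMap_apply E A L a).symm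
  have htop : IntermediateField.adjoin F (Set.range fun i => algebraMap E L (φ i)) = ⊤ := by
    set M := IntermediateField.adjoin F (Set.range fun i => algebraMap E L (φ i))
    have e1 : ∀ a : E, algebraMap E L a ∈ M := fun a => by
      have : IntermediateField.adjoin k (Set.range φ) ≤
          (M.restrictScalars k).comap (IsScalarTower.toAlgHom k E L) := by
        rw [IntermediateField.adjoin_le_iff]
        rintro _ ⟨i, rfl⟩
        exact IntermediateField.subset_adjoin F (Set.range fun i => algebraMap E L (φ i)) ⟨i, rfl⟩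
      exact this (hg.ge IntermediateField.mem_top)
    have e2 : ∀ q : A, algebraMap A L q ∈ M := fun q => by
      induction q using MvPolynomial.induction_on with
      | C a => rw [hC]; exact e1 a
      | add p q hp hq => rw [map_add]; exact add_mem hp hq
      | mul_X p i hp =>
        rw [map_mul]
        exact mul_mem hp (M.algebraMap_mem ⟨_, hF (some i)⟩)
    refine eq_top_iff.2 fun z _ => ?_
    obtain ⟨a, b, -, rfl⟩ := IsFractionRing.div_surjective A z
    exact div_mem (e2 a) (e2 b)
  have hfd : FiniteDimensional F L := by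
    have := IntermediateField.finiteDimensional_adjoin (K := F)
      (S := Set.range fun i => algebraMap E L (φ i)) fun x _ => (halg.1 x).isIntegral
    rw [htop] at this
    exact IntermediateField.topEquiv.toLinearEquiv.finiteDimensional
  have := FF.fin y hy
  let b := finBasis k⟮y⟯ E
  have hli : LinearIndependent F fun s => algebraMap E L (b s) := by
    open scoped IntermediateField.algebraAdjoinAdjoin in
    rw [← LinearIndependent.iff_fractionRing (Algebra.adjoin k (Set.range t₀)),
      Fintype.linearIndependent_iff]
    intro g hg' s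
    have h5 : ∀ s, ∃ q : MvPolynomial (Option (Fin r)) k, MvPolynomial.aeval t₀ q = g s :=
      fun s => (Algebra.adjoin_range_eq_range_aeval k t₀).le (g s).2
    choose q hq using h5
    have h6 : q = 0 := indep_generic φ c (b := b) (fun q h => funext fun s =>
      transcendental_iff.1 hy _ (congrArg Subtype.val (Fintype.linearIndependent_iff.1
        b.linearIndependent (fun s => ⟨Polynomial.aeval y (q s),
          IntermediateField.algebra_adjoin_le_adjoin k _ (Polynomial.aeval_mem_adjoin_singleton k y)⟩) h s))) q (hinj (by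
      rw [map_sum, map_zero, ← hg']
      exact Finset.sum_congr rfl fun s _ => by rw [map_mul, ← hev, hq, hC]; rfl))
    exact Subtype.ext (by rw [← hq, h6]; exact map_zero _)
  let τ : Fin (Fintype.card (L →ₐ[F] Ω)) ≃ (L →ₐ[F] Ω) := (Fintype.equivFin _).symm
  have hτ : ∀ l o, τ l (t₀ o) = algebraMap L Ω (t₀ o) := fun l o => (τ l).commutes ⟨_, hF o⟩
  refine ⟨Ω, inferInstance, inferInstance, algebraMap L Ω ∘ t₀, Fintype.card (L →ₐ[F] Ω),
    fun l => ((τ l).restrictScalars k).comp (IsScalarTower.toAlgHom k E L), hB.algebraMap_comp,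
    fun l l' h => τ.injective ?_, fun l => ?_, ?_, fun β b' hb' => ?_⟩
  · refine AlgHom.coe_ringHom_injective (IsFractionRing.ringHom_ext (A := A) fun q => ?_)
    refine RingHom.congr_fun (f := (τ l : L →+* Ω).comp (algebraMap A L))
      (g := (τ l' : L →+* Ω).comp (algebraMap A L))
      (MvPolynomial.ringHom_ext (fun a => ?_) fun i => ?_) q
    · change τ l (algebraMap A L _) = τ l' (algebraMap A L _)
      rw [hC]
      exact AlgHom.congr_fun h a
    · exact (hτ l (some i)).trans (hτ l' (some i)).symm
  · simp only [comp_apply, ← hτ l]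
    change _ = τ l (algebraMap A L (∑ i, MvPolynomial.X i * MvPolynomial.C (φ i)))
    rw [map_sum, map_sum]
    exact Finset.sum_congr rfl fun i _ => by rw [map_mul, map_mul, hC]; rfl
  · have := hli.fintype_card_le_finrank
    rw [Fintype.card_fin] at this
    rw [AlgHom.card]
    exact this
  · have hx : LinearIndependent F fun (s : Fin β) (i : I) =>
        algebraMap E L (e.repr (b' s) i) := by
      open scoped IntermediateField.algebraAdjoinAdjoin in
      rw [← LinearIndependent.iff_fractionRing (Algebra.adjoin k (Set.range t₀)),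
        Fintype.linearIndependent_iff]
      intro g hg' s
      have h5 : ∀ s, ∃ q : MvPolynomial (Option (Fin r)) k, MvPolynomial.aeval t₀ q = g s :=
        fun s => (Algebra.adjoin_range_eq_range_aeval k t₀).le (g s).2
      choose q hq using h5
      have h7 : ∀ i, ∑ s, MvPolynomial.aeval t₁ (q s) * MvPolynomial.C (e.repr (b' s) i) = 0 :=
        fun i => hinj (by
          have := congrFun hg' i
          rw [Finset.sum_apply, Pi.zero_apply] at this
          rw [map_sum, map_zero, ← this]
          exact Finset.sum_congr rfl fun s _ => by rw [map_mul, ← hev, hq, hC]; rfl)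
      have h6 : q = 0 := lift_rel_ptb φ c e b' hb' q h7
      exact Subtype.ext (by rw [← hq, h6]; exact map_zero _)
    have h8 := indep_emb (Ω := Ω) hx
    rw [Fintype.linearIndependent_iff] at h8 ⊢
    intro g hg'
    refine h8 g (funext fun p => ?_)
    have := congrFun hg' (τ.symm p.1, p.2)
    rw [Finset.sum_apply] at this ⊢
    refine Eq.trans (Finset.sum_congr rfl fun s _ => ?_) this
    change g s * p.1 _ = g s * τ (τ.symm p.1) _
    rw [Equiv.apply_symm_apply]
    rfl

end Pool.Agent.Lib.MP_13404a_ag.UB
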