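import Pool.Agent.Lib.MP_13404a_ag.UB.Loc

/-!
Weak approximation, the degree of the divisor of poles, the inequality of Riemann.
-/

open Module Submodule Function Finsupp
open scoped IntermediateField Polynomial

namespace Pool.Agent.Lib.MP_13404a_ag.UB

open Pool.Agent.Lib.MP_15f242_ag

universe u

set_option linter.unusedSectionVars false

variable {k K : Type u} [Field k] [CharZero k] [Field K] [Algebra k K] [FF k K]

lemma exists_idem_rie {P : Pt k K} (S : Finset (Pt k K)) (h : P ∉ S) (N : ℕ) :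
    ∃ e : K, e - 1 ∈ fil P (-N) ∧ ∀ Q ∈ S, e ∈ fil Q (-N) := by
  obtain ⟨u, u0, u1, u2⟩ := exists_sep_finset S h
  have w0 : u ^ (N + 1) ≠ 0 := pow_ne_zero _ u0
  have w1 : po P (u ^ (N + 1)) ≤ -N - 1 := by
    rw [po_pow]
    push_cast
    nlinarith
  obtain ⟨h4, h5⟩ := po_add (P := P) w0 one_ne_zero (by rw [po_one]; omega)
  refine ⟨(u ^ (N + 1) + 1)⁻¹, ?_, fun Q hQ => ?_⟩
  · have e : (u ^ (N + 1) + 1)⁻¹ - 1 = -(u ^ (N + 1) * (u ^ (N + 1) + 1)⁻¹) := by
      field_simp
      ring
    rw [e, neg_mem_iff]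
    refine mem_fil_of ?_
    rw [po_mul P w0 (inv_ne_zero h4), po_inv, h5, po_one]
    omega
  · have h6 := u2 Q hQ
    have w2 : (N : ℤ) + 1 ≤ po Q (u ^ (N + 1)) := by
      rw [po_pow]
      push_cast
      nlinarith
    refine mem_fil_of ?_
    rw [po_inv, add_comm, (po_add one_ne_zero w0 (by rw [po_one]; omega)).2]
    omega

/-- Weak approximation. With `u` from `exists_sep_finset`, `(1 + u ^ m)⁻¹` is close to `1` at `P`
and close to `0` at the other points. -/
lemma weak_approx (T : Finset (Pt k K)) (a : Pt k K → K) (n : Pt k K → ℤ) :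
    ∃ f : K, ∀ P ∈ T, f - a P ∈ fil P (n P) := by
  classical
  obtain ⟨N, hN⟩ := ((T ×ˢ T).image fun p => (po p.1 (a p.2) - n p.1).toNat).exists_le
  have hN' : ∀ P ∈ T, ∀ Q ∈ T, po P (a Q) + -(N : ℤ) ≤ n P := fun P hP Q hQ => by
    have := hN _ (Finset.mem_image_of_mem _ (Finset.mk_mem_product hP hQ))
    simp only at this
    omega
  choose e e1 e2 using fun P : Pt k K =>
    exists_idem_rie (T.erase P) (Finset.notMem_erase P T) N
  refine ⟨∑ Q ∈ T, a Q * e Q, fun P hP => ?_⟩
  have h : ∑ Q ∈ T, a Q * e Q - a P = a P * (e P - 1) + ∑ Q ∈ T.erase P, a Q * e Q := by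
    rw [← Finset.add_sum_erase _ _ hP]
    ring
  rw [h]
  refine add_mem (fil_mono P (hN' P hP P hP) (mul_mem_fil (mem_fil_of le_rfl) (e1 P)))
    (sum_mem fun Q hQ => ?_)
  have hQ' := Finset.mem_erase.1 hQ
  exact fil_mono P (hN' P hP Q hQ'.2) (mul_mem_fil (mem_fil_of le_rfl)
    (e2 Q P (Finset.mem_erase.2 ⟨hQ'.1.symm, hP⟩)))

variable (k) in
/-- The divisor of poles. -/
noncomputable def pol (y : K) : Div k K := pdiv k y ⊔ 0

lemma pol_apply (y : K) (P : Pt k K) : pol k y P = max (po P y) 0 := rfl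

lemma pol_nonneg (y : K) : 0 ≤ pol k y := le_sup_right

lemma coeff_zero_rie {P : Pt k K} {π : K} (h0 : π ≠ 0) (hπ : po P π = -1) (e : ℕ) :
    ∀ c : Fin e → k, ∑ i, c i • π ^ (i : ℕ) ∈ fil P (-e) → ∀ i, c i = 0 := by
  induction e with
  | zero => exact fun c _ i => i.elim0
  | succ e ih =>
    intro c hc
    rw [Fin.sum_univ_castSucc] at hc
    have h1 : po P (π ^ e) = -e := by rw [po_pow, hπ]; ring
    have h2 : c (Fin.last e) • π ^ ((Fin.last e : Fin (e + 1)) : ℕ) ∈ fil P (-e) :=
      smul_of_tower_mem _ _ (mem_fil_of (by rw [Fin.val_last, h1]))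
    have h3 := ih (fun i => c i.castSucc) (by
      have := sub_mem (fil_mono P (show -((e + 1 : ℕ) : ℤ) ≤ -e by push_cast; omega) hc) h2
      simpa using this)
    have h4 : c (Fin.last e) = 0 := by
      by_contra h
      simp only [h3, zero_smul, Finset.sum_const_zero, zero_add, Fin.val_last] at hc
      rw [mem_fil (smul_ne_zero h (pow_ne_zero _ h0)), po_smul _ h (pow_ne_zero _ h0), h1] at hc
      push_cast at hc
      omega
    exact Fin.lastCases h4 h3

omit [CharZero k] [FF k K] in
lemma adjoin_inv_rie (y : K) : k⟮y⁻¹⟯ = k⟮y⟯ := by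
  refine le_antisymm ?_ ?_
  · rw [IntermediateField.adjoin_simple_le_iff]
    exact inv_mem (IntermediateField.mem_adjoin_simple_self k y)
  · rw [IntermediateField.adjoin_simple_le_iff]
    simpa using inv_mem (IntermediateField.mem_adjoin_simple_self k y⁻¹)

omit [CharZero k] [FF k K] in
lemma trans_inv_rie {y : K} (hy : Transcendental k y) : Transcendental k y⁻¹ :=
  fun h => hy (IsAlgebraic.inv_iff.1 h)

lemma degree_pol_le_rie {y : K} (hy : Transcendental k y) :
    degree (pol k y) ≤ finrank k⟮y⟯ K := by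
  classical
  set T := (pol k y).support with hT
  have hpos : ∀ Q ∈ T, 0 < po Q y ∧ pol k y Q = po Q y := fun Q hQ => by
    have := mem_support_iff.1 hQ
    rw [pol_apply] at this ⊢
    omega
  choose π π0 π1 using fun P : Pt k K => exists_po P (-1)
  choose z hz using fun p : (Σ P : T, Fin (po P.1 y).toNat) =>
    weak_approx T (fun Q => if Q = p.1.1 then π Q ^ (p.2 : ℕ) else 0) fun Q => -po Q y
  have h4 : ∀ Q : Pt k K, y⁻¹ ∈ fil Q (-po Q y) := fun Q => mem_fil_of (po_inv Q y).le
  have hπ : ∀ (Q : Pt k K) (i : ℕ), π Q ^ i ∈ Q.1 := fun Q i =>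
    pow_mem (mem_iff_po.2 (by rw [π1]; omega)) i
  have := card_le (trans_inv_rie hy) (⨅ Q ∈ T, Subalgebra.toSubmodule Q.1) ?_ z ?_ ?_
  · rw [adjoin_inv_rie, Fintype.card_sigma] at this
    simp only [Fintype.card_fin] at this
    have h : degree (pol k y) = ((∑ P : T, (po P.1 y).toNat : ℕ) : ℤ) := by
      rw [Finsupp.degree_apply, ← hT, ← Finset.sum_coe_sort, Nat.cast_sum]
      refine Finset.sum_congr rfl fun P _ => ?_
      have := hpos P.1 P.2
      omega
    rw [h]
    exact_mod_cast this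
  · simp only [Submodule.mem_iInf, Subalgebra.mem_toSubmodule]
    exact fun w hw Q hQ => mul_mem (mem_of_fil (h4 Q) (by have := hpos Q hQ; omega)) (hw Q hQ)
  · simp only [Submodule.mem_iInf, Subalgebra.mem_toSubmodule]
    intro p Q hQ
    have h5 := mem_of_fil (hz p Q hQ) (by have := hpos Q hQ; omega)
    have h6 : (if Q = p.1.1 then π Q ^ (p.2 : ℕ) else 0) ∈ Q.1 := by
      split_ifs
      · exact hπ Q _
      · exact zero_mem _
    simpa using add_mem h5 h6
  · simp only [Submodule.mem_iInf, Subalgebra.mem_toSubmodule]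
    rintro c s hs e3 ⟨Q, i⟩
    have hQ := hpos Q.1 Q.2
    refine coeff_zero_rie (π0 Q.1) (π1 Q.1) _ (fun i => c ⟨Q, i⟩) ?_ i
    rw [Int.toNat_of_nonneg hQ.1.le]
    have h5 : ∑ p, c p • z p ∈ fil Q.1 (-po Q.1 y) := e3 ▸ fil_mul (h4 Q.1) (hs Q.1 Q.2)
    have h6 : ∑ p : (Σ P : T, Fin (po P.1 y).toNat),
        c p • (z p - if Q.1 = p.1.1 then π Q.1 ^ (p.2 : ℕ) else 0) ∈ fil Q.1 (-po Q.1 y) :=
      sum_mem fun p _ => smul_of_tower_mem _ _ (hz p Q.1 Q.2)
    have h7 := sub_mem h5 h6
    rw [← Finset.sum_sub_distrib] at h7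
    simp only [smul_sub, sub_sub_cancel] at h7
    rw [Fintype.sum_sigma, Finset.sum_eq_single Q] at h7
    · simpa using h7
    · intro R _ hR
      have : Q.1 ≠ R.1 := fun e => hR (Subtype.ext e.symm)
      simp [this]
    · simp

lemma exists_ll_rie {y : K} (hy : Transcendental k y) : ∃ C : Div k K, 0 ≤ C ∧
    ∀ m : ℕ, (m + 1) * finrank k⟮y⟯ K ≤ ll (m • pol k y + C) := by
  classical
  have := FF.fin y hy
  have y0 : y ≠ 0 := fun e => hy (e ▸ isAlgebraic_zero)
  let b := finBasis k⟮y⟯ K
  have h1 : LinearIndependent k fun i : ℕ => y ^ i := by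
    have := (Polynomial.basisMonomials k).linearIndependent.map'
      (Polynomial.aeval y).toLinearMap
      (LinearMap.ker_eq_bot.2 (transcendental_iff_injective.1 hy))
    have e : (⇑(Polynomial.aeval y).toLinearMap ∘ ⇑(Polynomial.basisMonomials k)) =
        fun i : ℕ => y ^ i := by
      funext i
      simp
    rwa [e] at this
  have h2 : LinearIndependent k fun i : ℕ => IntermediateField.AdjoinSimple.gen k y ^ i := by
    refine LinearIndependent.of_comp (IntermediateField.val k⟮y⟯).toLinearMap ?_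
    have e : (⇑(IntermediateField.val k⟮y⟯).toLinearMap ∘
        fun i : ℕ => IntermediateField.AdjoinSimple.gen k y ^ i) = fun i : ℕ => y ^ i := by
      funext i
      simp
    rwa [e]
  refine ⟨∑ j, pol k (b j), Finset.sum_nonneg fun j _ => pol_nonneg _, fun m => ?_⟩
  have h3 := linearIndependent_smul (h2.comp (fun i : Fin (m + 1) => (i : ℕ)) Fin.val_injective)
    b.linearIndependent
  have h4 : ∀ p : Fin (m + 1) × Fin (finrank k⟮y⟯ K),
      y ^ (p.1 : ℕ) * b p.2 ∈ H0 (OD (m • pol k y + ∑ j, pol k (b j))) := fun p => by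
    refine mem_L.2 fun P => mem_fil_of ?_
    rw [po_mul P (pow_ne_zero _ y0) (b.ne_zero _), po_pow, Finsupp.add_apply, Finsupp.smul_apply,
      Finsupp.finsetSum_apply, pol_apply, nsmul_eq_mul]
    have h5 : pol k (b p.2) P ≤ ∑ j, pol k (b j) P :=
      Finset.single_le_sum (f := fun j => pol k (b j) P) (fun j _ => pol_nonneg _ P)
        (Finset.mem_univ _)
    rw [pol_apply] at h5
    have h6 : ((p.1 : ℕ) : ℤ) ≤ m := by exact_mod_cast Nat.lt_succ_iff.1 p.1.2
    have h7 := le_max_left (po P y) 0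
    have h8 := le_max_right (po P y) 0
    have h9 := le_max_left (po P (b p.2)) 0
    nlinarith [Int.natCast_nonneg (p.1 : ℕ)]
  have h5 : LinearIndependent k fun p : Fin (m + 1) × Fin (finrank k⟮y⟯ K) =>
      (⟨_, h4 p⟩ : H0 (OD (m • pol k y + ∑ j, pol k (b j)))) := by
    refine LinearIndependent.of_comp (Submodule.subtype _) ?_
    have e : (fun p : Fin (m + 1) × Fin (finrank k⟮y⟯ K) =>
        ((fun i : ℕ => IntermediateField.AdjoinSimple.gen k y ^ i) ∘
          fun i : Fin (m + 1) => (i : ℕ)) p.1 • b p.2) = fun p => y ^ (p.1 : ℕ) * b p.2 := by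
      funext p
      simp [IntermediateField.smul_def]
    rw [e] at h3
    exact h3
  simpa [ll] using h5.fintype_card_le_finrank

/-- `≤`: `card_le` for `y⁻¹`, the intersection of the rings at the poles, and elements (from
`weak_approx`) of order `i < pol y P` at `P` vanishing to high order at the other poles.
`≥`: for a basis `b` of `K` over `k⟮y⟯` the elements `y ^ i * b j`, `i ≤ m`, are independent over
`k` and lie in the space of `m • pol y + C`; `ll_le` with `0` bounds its dimension. -/
lemma degree_pol {y : K} (hy : Transcendental k y) : degree (pol k y) = finrank k⟮y⟯ K := by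
  refine le_antisymm (degree_pol_le_rie hy) (not_lt.1 fun h => ?_)
  obtain ⟨C, hC, h1⟩ := exists_ll_rie hy
  have h2 := h1 (degree C + 1).toNat
  have h3 := ll_le (add_nonneg (nsmul_nonneg (pol_nonneg (k := k) y) (degree C + 1).toNat) hC)
  rw [ll_zero, map_zero, map_add, map_nsmul, nsmul_eq_mul] at h3
  have h4 := Int.self_le_toNat (degree C + 1)
  have h5 : 0 < finrank k⟮y⟯ K := by
    have := FF.fin y hy
    exact finrank_pos
  zify at h2 h5
  have h6 := mul_le_mul_of_nonneg_left (Int.add_one_le_of_lt h)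
    (Int.natCast_nonneg (degree C + 1).toNat)
  push_cast at h3
  linarith

lemma degree_pdiv_rie {z : K} : degree (pdiv k z) = 0 := by
  by_cases hz : IsAlgebraic k z
  · obtain ⟨c, rfl⟩ := mem_range_of_alg hz
    rw [show pdiv k (algebraMap k K c) = 0 from Finsupp.ext fun P => po_const P c, map_zero]
  · have h : pdiv k z = pol k z - pol k z⁻¹ := Finsupp.ext fun P => by
      rw [Finsupp.sub_apply, pol_apply, pol_apply, pdiv_apply, po_inv]
      omega
    rw [h, map_sub, degree_pol hz, degree_pol (trans_inv_rie hz), adjoin_inv_rie, sub_self]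

lemma exists_move_rie {y : K} (hy : Transcendental k y) (D : Div k K) :
    ∃ z : K, z ≠ 0 ∧ ∃ m : ℕ, D + pdiv k z ≤ m • pol k y := by
  classical
  induction D using Finsupp.induction_linear with
  | zero => exact ⟨1, one_ne_zero, 0, fun P => by simp [pdiv_apply, po_one]⟩
  | add D E hD hE =>
    obtain ⟨z, z0, m, h1⟩ := hD
    obtain ⟨w, w0, n, h2⟩ := hE
    refine ⟨z * w, mul_ne_zero z0 w0, m + n, fun P => ?_⟩
    have h3 := h1 P
    have h4 := h2 P
    simp only [Finsupp.add_apply, Finsupp.smul_apply, pdiv_apply, nsmul_eq_mul] at h3 h4 ⊢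
    rw [po_mul P z0 w0]
    push_cast
    linarith
  | single P a =>
    have ha := Int.self_le_toNat a
    have ha' := Int.natCast_nonneg a.toNat
    by_cases hP : y ∈ P.1
    · obtain ⟨c, hc⟩ := exists_res one_ne_zero (po_one P) (mem_fil_zero.2 hP)
      rw [← Algebra.algebraMap_eq_smul_one] at hc
      have w0 : y - algebraMap k K c ≠ 0 := fun e =>
        hy (sub_eq_zero.1 e ▸ isAlgebraic_algebraMap c)
      refine ⟨(y - algebraMap k K c) ^ a.toNat, pow_ne_zero _ w0, a.toNat, fun Q => ?_⟩
      simp only [Finsupp.add_apply, Finsupp.smul_apply, pdiv_apply, nsmul_eq_mul, po_pow,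
        pol_apply]
      have h7 := le_max_right (po Q y) 0
      by_cases hQ : P = Q
      · subst hQ
        have := (mem_fil w0).1 hc
        rw [Finsupp.single_eq_same]
        nlinarith
      · have : po Q (y - algebraMap k K c) ≤ max (po Q y) 0 := (mem_fil w0).1
          (sub_mem (mem_fil_of (le_max_left _ _)) (fil_of_mem (Q.1.algebraMap_mem c) h7))
        rw [Finsupp.single_eq_of_ne' hQ]
        nlinarith
    · refine ⟨1, one_ne_zero, a.toNat, fun Q => ?_⟩
      simp only [Finsupp.add_apply, Finsupp.smul_apply, pdiv_apply, nsmul_eq_mul, po_one,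
        pol_apply]
      have h7 := le_max_right (po Q y) 0
      by_cases hQ : P = Q
      · subst hQ
        rw [mem_iff_po, not_le] at hP
        have h8 := le_max_left (po P y) 0
        rw [Finsupp.single_eq_same]
        nlinarith
      · rw [Finsupp.single_eq_of_ne' hQ]
        nlinarith

/-- `degree D - ll D` is bounded on the divisors `m • pol y + C` (see `degree_pol`), monotone
(`ll_le`) and invariant under principal divisors (`pdiv z = pol z - pol z⁻¹` has degree zero by
`degree_pol`, `ll_add_pdiv`); a product `z` of powers of `y - y(P)` gives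
`D + pdiv z ≤ m • pol y + C`. -/
instance riem : Riem k K := by
  obtain ⟨y, hy⟩ := FF.ex (k := k) (K := K)
  obtain ⟨C, hC, h1⟩ := exists_ll_rie hy
  refine ⟨⟨degree C, ?_⟩⟩
  rintro _ ⟨D, rfl⟩
  obtain ⟨z, z0, m, h2⟩ := exists_move_rie hy D
  have h3 := ll_le (h2.trans (le_add_of_nonneg_right hC))
  have h4 := h1 m
  rw [ll_add_pdiv D z0, map_add, map_add, degree_pdiv_rie, map_nsmul, nsmul_eq_mul,
    degree_pol hy] at h3
  zify at h4
  nlinarith [Int.natCast_nonneg (finrank k⟮y⟯ K)]

variable (k K) in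
/-- The genus as a natural number. -/
noncomputable def gn : ℕ := (gen k K).toNat

lemma gen_eq : gen k K = gn k K := by
  have h := riemann (0 : Div k K)
  rw [ll_zero, map_zero] at h
  unfold gn
  omega

end Pool.Agent.Lib.MP_13404a_ag.UB
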