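import Pool.Agent.Lib.MP_13404a_ag.UB.St1
import Pool.Agent.Lib.MP_13404a_ag.UB.Pet

/-!
A form vanishing at many independent points.
-/

open Module Submodule Function Finsupp
open scoped IntermediateField Polynomial

namespace Pool.Agent.Lib.MP_13404a_ag.UB

open Pool.Agent.Lib.MP_15f242_ag

variable {k K : Type} [Field k] [CharZero k] [Field K] [Algebra k K] [FF k K]
  {ι : Type} [Fintype ι] {δ : Derivation ℤ k k} {d : Derivation k K K} {v : Derivation ℤ K K}
  {c : K} {A F : (ι → k) →ₗ[k] K} {κ D : Div k K}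

/-- As `step1`, for any set of `q / 2` points. -/
theorem Sys.step1_at (S : Sys δ d v c A F) (hκ : IsK d κ) (hq : 2 ≤ Fintype.card ι)
    {T : Finset (Pt k K)} (hT : T.card = Fintype.card ι / 2) :
    ∃ (β s : K) (D : Div k K), s ≠ 0 ∧ IsD (sh v β d) D ∧
      (∑ P ∈ T, single P 1 : Div k K) + pdiv k s ≤ κ - D := by
  classical
  choose π h0 hπ using fun P : Pt k K => exists_po P (-1)
  obtain ⟨U₁, -, h2, h3⟩ := drop_st1 (V := (ι → k) × k)
    (fun P => LinearMap.mulRight k (d (π P))⁻¹ ∘ₗ A ∘ₗ LinearMap.fst k _ _)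
    (fun P x => by simpa [div_eq_mul_inv] using (S.reg P _ (hπ P) x.1).1) ⊤ T
  obtain ⟨U, h4, h5, h6⟩ := drop_st1 (V := (ι → k) × k)
    (fun P => (F - LinearMap.mulRight k (v (π P) / d (π P)) ∘ₗ A) ∘ₗ LinearMap.fst k _ _ -
      Algebra.linearMap k K ∘ₗ LinearMap.snd k _ _)
    (fun P x => sub_mem (S.reg P _ (hπ P) x.1).2 (P.1.algebraMap_mem _)) U₁ T
  rw [finrank_top, finrank_prod, finrank_fintype_fun_eq_card, finrank_self] at h2
  obtain ⟨⟨a, e⟩, hx, x0⟩ := U.exists_mem_ne_zero_of_ne_bot fun e => by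
    rw [e, finrank_bot] at h5
    omega
  have h7 : ∀ P ∈ T, A a * (d (π P))⁻¹ ∈ fil P (-1) := h3 _ (h4 hx)
  have h8 : ∀ P ∈ T, F a - A a * (v (π P) / d (π P)) - algebraMap k K e ∈ fil P (-1) := h6 _ hx
  have a0 : A a ≠ 0 := fun h => by
    obtain rfl : a = 0 := S.inj (h.trans (map_zero A).symm)
    obtain ⟨P, hP⟩ := Finset.card_pos.1 (show 0 < T.card by omega)
    exact x0 (by rw [const_eq_zero (c := e) (by simpa using h8 P hP)]; rfl)
  have : Nonempty ι := Fintype.card_pos_iff.1 (by omega)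
  set β := -(F a - algebraMap k K e) / A a with hβ
  have S' := S.shift β
  obtain ⟨D, hD⟩ := S'.exists_D
  have h9 := S'.mem_M hκ hD (a := a) (by
    rw [LinearMap.add_apply, LinearMap.smul_apply, smul_eq_mul, hβ, div_mul_cancel₀ _ a0]
    simp)
  have h10 : (∑ P ∈ T, single P 1 : Div k K) + pdiv k (A a) ≤ κ - D := fun P => by
    have h10 := (mem_L' a0).1 h9 P
    rw [Finsupp.add_apply, sum_apply_st1]
    split_ifs with hP
    swap
    · rwa [zero_add]
    obtain ⟨h11, h12⟩ := hκ.unif (hπ P)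
    have h13 := hD P _ (hπ P)
    rw [Finsupp.sub_apply, pdiv_apply]
    rcases lt_or_ge 0 (po P (sh v β d (π P))) with h14 | h14
    · have v0 := ne_zero_sys h14.ne'
      have h15 : A a * (sh v β d (π P) * (d (π P))⁻¹) ∈ fil P (-1) := by
        convert neg_mem (h8 P hP) using 1
        rw [sh_apply, hβ]
        field_simp
        ring
      rw [mem_fil (mul_ne_zero a0 (mul_ne_zero v0 (inv_ne_zero h11))),
        po_mul P a0 (mul_ne_zero v0 (inv_ne_zero h11)), po_mul P v0 (inv_ne_zero h11),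
        po_inv] at h15
      omega
    · have h15 := h7 P hP
      rw [mem_fil (mul_ne_zero a0 (inv_ne_zero h11)), po_mul P a0 (inv_ne_zero h11),
        po_inv] at h15
      omega
  exact ⟨β, A a, D, a0, hD, h10⟩

theorem Sys.step1b [Uncountable k] (S : Sys δ d v c A F) (hκ : IsK d κ)
    (hq : 2 ≤ Fintype.card ι) : ∃ (β : K) (D Δ : Div k K), IsD (sh v β d) D ∧ 0 ≤ Δ ∧
      ll Δ = ll (κ - D) ∧ ll (κ - Δ) = ll D ∧ degree Δ = degree (κ - D) ∧
      Fintype.card ι / 2 + finrank k (H0 (OD Δ) * H0 (OD (κ - Δ)) : Submodule k K) + 1 ≤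
        ll Δ + gn k K := by
  classical
  obtain ⟨P, w, π, G⟩ := exists_gp (k := k) (K := K) (Fintype.card ι / 2)
  obtain ⟨β, s, D, s0, hD, h⟩ := S.step1_at hκ hq (T := Finset.univ.image P)
    (by rw [Finset.card_image_of_injective _ G.inj, Finset.card_univ, Fintype.card_fin])
  replace h := le_sub_iff_add_le.2 h
  have h0 : 0 ≤ κ - D - pdiv k s :=
    (Finset.sum_nonneg fun _ _ => single_nonneg.2 zero_le_one).trans h
  refine ⟨β, D, κ - D - pdiv k s, hD, h0, ?_, ?_, ?_, G.petri hκ h0 fun j => ?_⟩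
  · rw [← ll_add_pdiv _ s0, sub_add_cancel]
  · rw [← ll_add_pdiv D s0]
    congr 1
    abel
  · rw [map_sub _ _ (pdiv k s), degree_pdiv s0, sub_zero]
  · have := h (P j)
    rw [sum_apply_st1, if_pos (Finset.mem_image_of_mem _ (Finset.mem_univ j))] at this
    omega

end Pool.Agent.Lib.MP_13404a_ag.UB
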