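import Pool.Agent.Lib.MP_13404a_ag.UB.Core
import Pool.Agent.Lib.MP_13404a_ag.UB.CaC
import Pool.Agent.Lib.MP_13404a_ag.UB.Defs

/-!
From differentials to coordinates.
-/

open Module Submodule Function Finsupp
open scoped IntermediateField Polynomial

namespace Pool.Agent.Lib.MP_13404a_ag.UB

open Pool.Agent.Lib.MP_15f242_ag

universe u

section
variable {R k K : Type} [Field R] [Field k] [CharZero k] [Field K] [Algebra k K] [FF k K]
  [Algebra R k] [Algebra R K] [IsScalarTower R k K]

lemma lift_mem_stm {ω : Ω[K⁄R]} (h : ω ∈ regAlong R k K) (w : Derivation R K K) {P : Pt k K}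
    {m : ℤ} (hw : ∀ f ∈ P.1, w f ∈ fil P m) : w.liftKaehlerDifferential ω ∈ fil P m := by
  simp only [regAlong, Submodule.mem_iInf] at h
  have h1 := h P.1 P.2.2
  clear h
  induction h1 using Submodule.span_induction with
  | mem x hx =>
    obtain ⟨a, ha, b, hb, rfl⟩ := hx
    simpa using mul_fil ha (hw b hb)
  | zero => simp
  | add x y _ _ hx hy => rw [map_add]; exact add_mem hx hy
  | smul c x _ hx =>
    rw [LinearMap.map_smul_of_tower, Algebra.smul_def, IsScalarTower.algebraMap_apply R k K]
    exact mul_fil (P.1.algebraMap_mem _) hx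

lemma eq_smul_stm {x : K} (hx : Transcendental k x) {d : Derivation k K K} (hd : d x = 1)
    (ω : Ω[K⁄k]) : ω = d.liftKaehlerDifferential ω • KaehlerDifferential.D k K x := by
  refine LinearMap.congr_fun (Derivation.liftKaehlerDifferential_unique LinearMap.id
    (LinearMap.toSpanSingleton K _ (KaehlerDifferential.D k K x) ∘ₗ d.liftKaehlerDifferential)
    (Derivation.ext fun f => ?_)) ω
  simpa using sub_eq_zero.1 (der_eq_zero ((KaehlerDifferential.D k K - (LinearMap.toSpanSingleton
    K _ (KaehlerDifferential.D k K x)).compDer d).restrictScalars ℤ)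
    (fun c => Derivation.map_algebraMap _ c) hx (by simp [hd]) f)

omit [CharZero k] [FF k K] in
lemma lift_map_stm (d : Derivation k K K) (ω : Ω[K⁄R]) :
    d.liftKaehlerDifferential (KaehlerDifferential.map R k K K ω) =
      (d.restrictScalars R).liftKaehlerDifferential ω :=
  LinearMap.congr_fun (Derivation.liftKaehlerDifferential_unique
    (d.liftKaehlerDifferential ∘ₗ KaehlerDifferential.map R k K K) _
    (Derivation.ext fun f => by simp)) ω

lemma lift_comb_stm (u w : Derivation R K K) (s : K) (ω : Ω[K⁄R]) :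
    (u + s • w).liftKaehlerDifferential ω =
      u.liftKaehlerDifferential ω + s * w.liftKaehlerDifferential ω :=
  LinearMap.congr_fun (Derivation.liftKaehlerDifferential_unique _
    (u.liftKaehlerDifferential + s • w.liftKaehlerDifferential) (Derivation.ext fun f => by simp)) ω

lemma lift_zero_stm (ω : Ω[K⁄R]) : (0 : Derivation R K K).liftKaehlerDifferential ω = 0 :=
  LinearMap.congr_fun (Derivation.liftKaehlerDifferential_unique _ 0
    (Derivation.ext fun f => by simp)) ω

lemma exists_lin_stm (w : Derivation ℤ K K) (h : ∀ c, w (algebraMap R K c) = 0) :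
    ∃ w' : Derivation R K K, ∀ f, w' f = w f :=
  ⟨Derivation.mk' ⟨⟨w, map_add w⟩, fun c f => by simp [Algebra.smul_def, h]⟩ w.leibniz,
    fun _ => rfl⟩

lemma der_adjoin_stm (w : Derivation R K K) {S : Set K} (h : ∀ y ∈ S, w y = 0) {a : K}
    (ha : a ∈ IntermediateField.adjoin R S) : w a = 0 := by
  induction ha using IntermediateField.adjoin_induction with
  | mem a ha => exact h a ha
  | algebraMap c => exact w.map_algebraMap c
  | add a b _ _ ha hb => rw [map_add, ha, hb, add_zero]
  | inv a _ ha => rw [w.leibniz_inv, ha, smul_zero]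
  | mul a b _ _ ha hb => rw [w.leibniz, ha, hb, smul_zero, smul_zero, add_zero]

lemma indep_iff_stm {J : Type} {x : J → K} : AlgebraicIndependent R x ↔
    LinearIndependent R fun m : J →₀ ℕ => m.prod fun j e => x j ^ e := by
  have e : Finsupp.linearCombination R (fun m : J →₀ ℕ => m.prod fun j e => x j ^ e) =
      (MvPolynomial.aeval x).toLinearMap ∘ₗ (MvPolynomial.basisMonomials J R).repr.symm :=
    Finsupp.lhom_ext fun m c => by simp [MvPolynomial.aeval_monomial]
  rw [LinearIndependent, e, LinearMap.coe_comp]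
  exact (Injective.of_comp_iff' _ (MvPolynomial.basisMonomials J R).repr.symm.bijective).symm

lemma der_prod_stm (w : Derivation R K K) {J : Type} {x : J → K} {c : J → R}
    (h : ∀ j, w (x j) = c j • x j) (m : J →₀ ℕ) : w (m.prod fun j e => x j ^ e) =
      (m.sum fun j e => e • c j) • m.prod fun j e => x j ^ e := by
  induction m using Finsupp.induction_linear with
  | zero => simp
  | add a b ha hb =>
    rw [prod_add_index' (by simp) (by simp [pow_add]), sum_add_index' (by simp) (by simp [add_mul]),
      w.leibniz, ha, hb]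
    simp only [Algebra.smul_def, map_add, Algebra.algebraMap_self_apply]
    ring
  | single j e =>
    rw [prod_single_index (by simp), sum_single_index (by simp), w.leibniz_pow, h]
    rcases e with _ | e
    · simp
    · simp only [Algebra.smul_def, map_mul, Algebra.algebraMap_self_apply, eq_natCast, map_natCast,
        Nat.add_sub_cancel, Nat.cast_id]
      ring

end

/-- A derivation whose only constants are the complex numbers. -/
lemma exists_der_stm {k : Type} [Field k] [Algebra ℂ k] (hk : Algebra.trdeg ℂ k < Cardinal.aleph0) :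
    ∃ δ : Derivation ℂ k k, ∀ y, δ y = 0 → ∃ c : ℂ, y = algebraMap ℂ k c := by
  classical
  obtain ⟨s, hs⟩ := exists_isTranscendenceBasis ℂ k
  have := (Cardinal.lt_aleph0_iff_fintype.1 (hs.cardinalMk_eq_trdeg.trans_lt hk)).some
  obtain ⟨Dd, hD⟩ := exists_dual hs
  obtain ⟨c, hc⟩ : ∃ c : s → ℂ, LinearIndependent ℚ c := by
    obtain ⟨c, hc⟩ := exists_linearIndependent_of_le_rank (R := ℚ) (M := ℂ) (n := Fintype.card s)
      (Cardinal.natCast_lt_aleph0.le.trans (not_lt.1 fun h => by
        have := Module.rank_lt_aleph0_iff.1 h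
        exact not_countable_complex (Set.countable_univ_iff.2
          (Countable.of_moduleFinite (R := ℚ) (M := ℂ)))))
    exact ⟨_, hc.comp _ (Fintype.equivFin s).injective⟩
  refine ⟨∑ i, (c i • i.1) • Dd i, fun y hy => by_contra fun h => ?_⟩
  have ht : Transcendental ℂ y := fun ha => h (by
    obtain ⟨e, he⟩ := minpoly.mem_range_of_degree_eq_one ℂ y
      (IsAlgClosed.degree_eq_one_of_irreducible ℂ (minpoly.irreducible ha.isIntegral))
    exact ⟨e, he.symm⟩)
  obtain ⟨w, hw⟩ := exists_lin_stm (R := ℂ⟮y⟯) ((∑ i, (c i • i.1) • Dd i).restrictScalars ℤ)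
    fun a => der_adjoin_stm _ (by simpa using hy) a.2
  have h1 : ∀ j : s, w j = algebraMap ℂ ℂ⟮y⟯ (c j) • j.1 := fun j => by
    have := map_sum (Derivation.coeFnAddMonoidHom (R := ℂ) (A := k) (M := k))
      (fun i => (c i • i.1) • Dd i) Finset.univ
    rw [hw, Derivation.restrictScalars_apply, ← Derivation.coeFnAddMonoidHom_apply, this]
    simp [hD]
  have h2 : AlgebraicIndependent ℂ⟮y⟯ (Subtype.val : s → k) := by
    refine indep_iff_stm.2 (Module.End.eigenvectors_linearIndependent' w.toLinearMap _ ?_ _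
      fun m => ⟨Module.End.mem_eigenspace_iff.2 (der_prod_stm w h1 m),
        (indep_iff_stm.1 hs.1).ne_zero m⟩)
    intro m n e
    have e1 : ∑ j, (m j : ℚ) • c j = ∑ j, (n j : ℚ) • c j := (algebraMap ℂ ℂ⟮y⟯).injective (by
      simpa [sum_fintype, map_sum, Nat.cast_smul_eq_nsmul] using e)
    ext j
    exact_mod_cast Fintype.linearIndependent_iffₛ.1 hc _ _ e1 j
  have h3 := (algebraicIndependent_unique_type_iff (x := fun _ : Unit =>
    IntermediateField.AdjoinSimple.gen ℂ y)).2
    ((transcendental_algebraMap_iff (algebraMap ℂ⟮y⟯ k).injective).1 ht)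
  have h4 := add_le_add h3.cardinalMk_le_trdeg h2.cardinalMk_le_trdeg
  rw [trdeg_add_eq, ← hs.cardinalMk_eq_trdeg, Cardinal.mk_fintype, Cardinal.mk_fintype] at h4
  norm_cast at h4
  simp at h4

variable {k K : Type} [Field k] [IsAlgClosed k] [Algebra ℂ k] [Field K] [Algebra k K] [Algebra ℂ K]
  [IsScalarTower ℂ k K]

omit [IsAlgClosed k] [Algebra ℂ K] [IsScalarTower ℂ k K] in
/-- As `finrank_regular` in `../Reg.lean`: for `IsK d κ` the regular differentials are the
`f • η`, `f ∈ H0 (OD κ)`, where `D f = d f • η`; `IsK.ll_eq`. -/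
lemma finrank_regAlong [FF k K] : finrank k (regAlong k k K) = gn k K := by
  have : CharZero k := charZero_of_injective_algebraMap (algebraMap ℂ k).injective
  obtain ⟨x, hx⟩ := FF.ex (k := k) (K := K)
  obtain ⟨d, hd⟩ := exists_der hx 1
  obtain ⟨κ, hκ⟩ := exists_isK (d := d) fun e => by simp [e] at hd
  have h1 : Injective (d.liftKaehlerDifferential.restrictScalars k) := fun a b h => by
    rw [eq_smul_stm hx hd a, eq_smul_stm hx hd b]
    exact congrArg (· • _) h
  rw [(Submodule.equivMapOfInjective _ h1 _).finrank_eq, ← hκ.ll_eq, ll]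
  suffices h : (regAlong k k K).map (d.liftKaehlerDifferential.restrictScalars k) = H0 (OD κ) by
    rw [h]
  refine le_antisymm (map_le_iff_le_comap.2 fun ω hω => mem_L.2 fun P =>
    lift_mem_stm hω d (hκ P).mem) fun f hf => ⟨f • KaehlerDifferential.D k K x, ?_, by simp [hd]⟩
  simp only [regAlong, SetLike.mem_coe, Submodule.mem_iInf]
  intro O hO
  by_cases e : O = ⊤
  · exact Submodule.subset_span ⟨f, e ▸ trivial, x, e ▸ trivial, rfl⟩
  let P : Pt k K := ⟨O, e, hO⟩
  obtain ⟨π, -, hπ⟩ := exists_po P (-1)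
  obtain ⟨h2, h3⟩ := hκ.unif hπ
  refine Submodule.subset_span ⟨f * (d π)⁻¹, ?_, π, (mem_iff_po (P := P)).2 (by omega), ?_⟩
  · refine (mem_fil_zero (P := P)).1 ?_
    convert mul_mem_fil (mem_L.1 hf P) (mem_fil_of (le_refl (po P (d π)⁻¹))) using 2
    rw [po_inv]
    omega
  · rw [eq_smul_stm hx hd (KaehlerDifferential.D k K π), smul_smul,
      Derivation.liftKaehlerDifferential_comp_D, inv_mul_cancel_right₀ h2]

omit [IsAlgClosed k] in
/-- A finite set `S` of constants of `w` generates `K` over `k`. Constants that are algebraically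
independent over `ℂ` stay so over `k`, so `adjoin ℂ S` is the function field of a curve. -/
lemma isotrivial_of [FF k K] {δ : Derivation ℂ k k}
    (hδ : ∀ y, δ y = 0 → ∃ c : ℂ, y = algebraMap ℂ k c) (w : Derivation ℂ K K)
    (hw : ∀ c, w (algebraMap k K c) = algebraMap k K (δ c))
    (h : IntermediateField.adjoin k {f | w f = 0} = ⊤) : Isotrivial k K := by
  classical
  obtain ⟨x, hx⟩ := FF.ex (k := k) (K := K)
  have := FF.fin x hx
  let b := finBasis k⟮x⟯ K
  choose T hT hT' using fun z : K => IntermediateField.exists_finset_of_mem_adjoin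
    (h.ge (IntermediateField.mem_top (x := z)))
  let S : Finset K := T x ∪ Finset.univ.biUnion fun i => T (b i)
  have h1 : IntermediateField.adjoin k (S : Set K) = ⊤ := eq_top_iff.2 fun z _ => by
    rw [← b.sum_repr z]
    refine sum_mem fun i _ => mul_mem (IntermediateField.adjoin_simple_le_iff.2
      (IntermediateField.adjoin.mono k _ _ (by simp [S]) (hT' x)) (b.repr z i).2)
      (IntermediateField.adjoin.mono k _ _ (fun y hy => ?_) (hT' (b i)))
    simp only [S, Finset.coe_union, Finset.coe_biUnion, Set.mem_union, Set.mem_iUnion]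
    exact Or.inr ⟨i, by simp, hy⟩
  have h2 : ∀ y ∈ S, w y = 0 := fun y hy => by
    simp only [S, Finset.mem_union, Finset.mem_biUnion] at hy
    obtain hy | ⟨i, -, hy⟩ := hy <;> exact hT _ hy
  obtain ⟨y, hy, hy'⟩ : ∃ y ∈ S, Transcendental k y := by
    by_contra! h3
    have := IntermediateField.isAlgebraic_adjoin (K := k) (S := (S : Set K))
      fun y hy => (not_not.1 (h3 y hy)).isIntegral
    exact hx ((IntermediateField.isAlgebraic_iff).1 (this.isAlgebraic ⟨x, h1.ge trivial⟩))
  let L := IntermediateField.adjoin ℂ (S : Set K)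
  have h5 : Algebra.trdeg k K ≤ 1 := by
    have : CharZero k := charZero_of_injective_algebraMap (algebraMap ℂ k).injective
    have : Algebra.IsAlgebraic (Algebra.adjoin k {x}) K := ⟨alg_adjoin hx⟩
    simpa using Algebra.IsAlgebraic.trdeg_le_cardinalMk k ({x} : Set K)
  have h6 : Algebra.trdeg ℂ L ≤ 1 := by
    obtain ⟨s, hs⟩ := exists_isTranscendenceBasis ℂ L
    refine hs.cardinalMk_eq_trdeg.ge.trans ((AlgebraicIndependent.cardinalMk_le_trdeg
      (x := fun i : s => (i.1 : K)) (indep_iff_stm.2 ?_)).trans h5)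
    refine hor_indep δ hδ w.toLinearMap.toAddMonoidHom (fun a z => ?_) (fun m => ?_)
      (indep_iff_stm.1 (hs.1.map' (f := L.val) L.val.injective))
    · simp [Algebra.smul_def, hw]
      ring
    · simpa using der_prod_stm w (c := 0) (fun j : s => by simpa using der_adjoin_stm w h2 j.1.2) m
  let y' : L := ⟨y, IntermediateField.subset_adjoin _ _ hy⟩
  have h7 : Transcendental ℂ y' :=
    (transcendental_algebraMap_iff (algebraMap L K).injective).1 (hy'.of_tower_top ℂ)
  have h8 := (AlgebraicIndependent.isTranscendenceBasis_of_trdeg_le_of_finite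
    (x := fun _ : Unit => y') (algebraicIndependent_unique_type_iff.2 h7)
    (by simpa using h6)).isAlgebraic_field
  rw [Set.range_const] at h8
  have : Algebra.EssFiniteType ℂ L :=
    IntermediateField.essFiniteType_iff.2 (IntermediateField.fg_adjoin_finset S)
  have := Algebra.EssFiniteType.of_comp ℂ ℂ⟮y'⟯ L
  refine ⟨⟨L, y', h7, Algebra.finite_of_essFiniteType_of_isAlgebraic⟩, L.val,
    eq_top_iff.2 (h1.ge.trans (IntermediateField.adjoin.mono k _ _ fun z hz => ?_))⟩
  exact ⟨⟨z, IntermediateField.subset_adjoin _ _ hz⟩, rfl⟩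

omit [IsAlgClosed k] in
/-- Take `δ` from `exists_der_stm`, `x ∈ K` transcendental over `k`,
`d x = 1`, `v x = 0` with `v` extending `δ` (`exists_der`, `exists_der_ext`; `v` kills `ℂ`), and
`A a = ∑ a i • ω i (d)`, `F a = ∑ a i • ω i (v)`. For `reg` use the vector fields `(d π)⁻¹ • d` and
`v - (v π / d π) • d`, which preserve the ring at `P` (`der_mem`). -/
lemma exists_sys [FF k K] (hk : Algebra.trdeg ℂ k < Cardinal.aleph0) (hn : ¬ Isotrivial k K) {q : ℕ}
    (ω : Fin q → Ω[K⁄ℂ]) (hc : ∀ i, Closed (ω i)) (hr : ∀ i, ω i ∈ regAlong ℂ k K)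
    (hi : LinearIndependent k fun i => KaehlerDifferential.map ℂ k K K (ω i)) :
    haveI : CharZero k := charZero_of_injective_algebraMap (algebraMap ℂ k).injective
    ∃ (δ : Derivation ℤ k k) (d : Derivation k K K) (v : Derivation ℤ K K)
      (A F : (Fin q → k) →ₗ[k] K), Sys δ d v 0 A F := by
  classical
  have : CharZero k := charZero_of_injective_algebraMap (algebraMap ℂ k).injective
  obtain ⟨δ, hδ⟩ := exists_der_stm hk
  obtain ⟨x, hx⟩ := FF.ex (k := k) (K := K)
  obtain ⟨d, hd⟩ := exists_der hx 1
  obtain ⟨v₀, hv, he⟩ := exists_der_ext hx (δ.restrictScalars ℤ)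
  obtain ⟨v, hv'⟩ := exists_lin_stm (R := ℂ) v₀ fun c => by
    rw [IsScalarTower.algebraMap_apply ℂ k K, he]
    simp
  have he' : ∀ c, v (algebraMap k K c) = algebraMap k K (δ c) := fun c => (hv' _).trans (he c)
  have d0 : d ≠ 0 := fun e => by simp [e] at hd
  have cm : ⁅v, d.restrictScalars ℂ⁆ = 0 := Derivation.ext (der_eq_zero
    (⁅v, d.restrictScalars ℂ⁆.restrictScalars ℤ) (fun c => by simp [Derivation.commutator_apply, he'])
    hx (by simp [Derivation.commutator_apply, hv', hv, hd]))
  refine ⟨δ.restrictScalars ℤ, d, v.restrictScalars ℤ, Fintype.linearCombination k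
    fun i => (d.restrictScalars ℂ).liftKaehlerDifferential (ω i), Fintype.linearCombination k
    fun i => v.liftKaehlerDifferential (ω i), d0, he', fun f => ?_, ?_, fun a => ?_,
    fun P π hπ a => ?_, fun β h => ?_⟩
  · have := Derivation.congr_fun cm f
    rw [Derivation.commutator_apply] at this
    simpa using (sub_eq_zero.1 this).symm
  · rw [← linearIndependent_iff_injective_fintypeLinearCombination]
    simp only [← lift_map_stm]
    refine hi.map' (d.liftKaehlerDifferential.restrictScalars k) (LinearMap.ker_eq_bot'.2 ?_)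
    intro η h
    rw [eq_smul_stm hx hd η, show d.liftKaehlerDifferential η = 0 from h, zero_smul]
  · simp only [Fintype.linearCombination_apply, map_sum, zero_mul, add_zero,
      ← Finset.sum_add_distrib]
    refine Finset.sum_congr rfl fun i _ => ?_
    have := hc i v (d.restrictScalars ℂ)
    rw [cm, lift_zero_stm, sub_eq_zero] at this
    simp [Algebra.smul_def, he', nab, this]
    ring
  · have p0 : π ≠ 0 := ne_zero_sys (P := P) (by omega)
    have h1 : d π ≠ 0 := fun h => d0 (Derivation.ext
      (der_eq_zero (d.restrictScalars ℤ) d.map_algebraMap (trans_of_po (P := P) (by omega)) h))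
    have key : ∀ (u : Derivation ℂ K K), (∀ c, u (algebraMap k K c) ∈ P.1) → u π ∈ P.1 → ∀ i,
        u.liftKaehlerDifferential (ω i) ∈ P.1 := fun u h2 h3 i =>
      mem_fil_zero.1 (lift_mem_stm (hr i) u fun f hf =>
        mem_fil_zero.2 (der_mem p0 hπ (D := u.restrictScalars ℤ) h2 h3 hf))
    have h2 := key (0 + (d π)⁻¹ • d.restrictScalars ℂ) (by simp) (by simp [h1])
    have h3 := key (v + -(v π / d π) • d.restrictScalars ℂ) (by simp [he']) (by simp [h1])
    simp only [lift_comb_stm] at h2 h3
    simp only [lift_zero_stm, zero_add] at h2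
    simp only [Fintype.linearCombination_apply, Finset.sum_div, Finset.sum_mul,
      ← Finset.sum_sub_distrib]
    refine ⟨sum_mem fun i _ => ?_, sum_mem fun i _ => ?_⟩
    · convert P.1.smul_mem (h2 i) (a i) using 1
      simp only [Algebra.smul_def]
      ring
    · convert P.1.smul_mem (h3 i) (a i) using 1
      simp only [Algebra.smul_def, Derivation.restrictScalars_apply]
      ring
  · exact hn (isotrivial_of hδ (v + β • d.restrictScalars ℂ) (by simp [he']) h)

theorem main (hk : Algebra.trdeg ℂ k < Cardinal.aleph0)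
    (hK : ∃ x : K, Transcendental k x ∧ FiniteDimensional k⟮x⟯ K) (hn : ¬ Isotrivial k K) {q : ℕ}
    (ω : Fin q → Ω[K⁄ℂ]) (hc : ∀ i, Closed (ω i)) (hr : ∀ i, ω i ∈ regAlong ℂ k K)
    (hi : LinearIndependent k fun i => KaehlerDifferential.map ℂ k K K (ω i)) :
    4 * q ≤ 3 * finrank k (regAlong k k K) + 12 := by
  obtain ⟨x, hx, hf⟩ := hK
  have : FF k K := ff_of_one hx
  have : CharZero k := charZero_of_injective_algebraMap (algebraMap ℂ k).injective
  obtain ⟨δ, d, v, A, F, S⟩ := exists_sys hk hn ω hc hr hi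
  have h := S.bound
  rwa [Fintype.card_fin, ← finrank_regAlong] at h

end Pool.Agent.Lib.MP_13404a_ag.UB
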